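import Mathlib

/-!
# Semidefinite forms and commuting positive operators

Elementary spectral inequalities for a pair of commuting operators `P, Q` with
`0 <= P <= 1`, `0 <= Q <= 1` on a real vector space with a semidefinite form.
-/

set_option autoImplicit false

namespace Pool.Agent.IRS

/-- A symmetric positive semidefinite form. -/
structure PSForm (V : Type*) [AddCommGroup V] [Module ℝ V] where
  B : V →ₗ[ℝ] V →ₗ[ℝ] ℝ
  symm : ∀ x y, B x y = B y x
  nonneg : ∀ x, 0 ≤ B x x

namespace PSForm

variable {V : Type*} [AddCommGroup V] [Module ℝ V] (F : PSForm V)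

/-- The seminorm of the form. -/
noncomputable def nrm (x : V) : ℝ := Real.sqrt (F.B x x)

lemma nrm_nonneg (x : V) : 0 ≤ F.nrm x := Real.sqrt_nonneg _

lemma nrm_sq (x : V) : F.nrm x ^ 2 = F.B x x := Real.sq_sqrt (F.nonneg x)

lemma cs (x y : V) : (F.B x y) ^ 2 ≤ F.B x x * F.B y y := by
  have h : ∀ t : ℝ, 0 ≤ F.B y y * (t * t) + (2 * F.B x y) * t + F.B x x := by
    intro t
    have := F.nonneg (x + t • y)
    simp only [map_add, LinearMap.add_apply, map_smul, LinearMap.smul_apply, smul_eq_mul,
      F.symm y x] at this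
    nlinarith [this]
  have h2 := discrim_le_zero h
  unfold discrim at h2
  nlinarith

lemma abs_le (x y : V) : |F.B x y| ≤ F.nrm x * F.nrm y := by
  rw [nrm, nrm, ← Real.sqrt_mul (F.nonneg x)]
  exact Real.abs_le_sqrt (F.cs x y)

lemma le_nrm_mul (x y : V) : F.B x y ≤ F.nrm x * F.nrm y := (le_abs_self _).trans (F.abs_le x y)

lemma nrm_add_le (x y : V) : F.nrm (x + y) ≤ F.nrm x + F.nrm y := by
  refine abs_le_of_sq_le_sq' ?_ (add_nonneg (F.nrm_nonneg x) (F.nrm_nonneg y)) |>.2
  rw [F.nrm_sq]
  have h := F.le_nrm_mul x y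
  have h1 := F.nrm_sq x
  have h2 := F.nrm_sq y
  simp only [map_add, LinearMap.add_apply, F.symm y x]
  nlinarith

lemma nrm_neg (x : V) : F.nrm (-x) = F.nrm x := by simp [nrm]

lemma nrm_sub_comm (x y : V) : F.nrm (x - y) = F.nrm (y - x) := by
  rw [← neg_sub, F.nrm_neg]

lemma nrm_sub_le (x y z : V) : F.nrm (x - z) ≤ F.nrm (x - y) + F.nrm (y - z) := by
  have := F.nrm_add_le (x - y) (y - z)
  simpa using this

lemma nrm_smul (c : ℝ) (x : V) : F.nrm (c • x) = |c| * F.nrm x := by
  unfold nrm
  rw [← Real.sqrt_sq_eq_abs, ← Real.sqrt_mul (sq_nonneg c)]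
  congr 1
  simp only [map_smul, LinearMap.smul_apply, smul_eq_mul]
  ring

/-- Symmetric and positive operators for the form. -/
structure Pos (T : V →ₗ[ℝ] V) : Prop where
  symm : ∀ x y, F.B (T x) y = F.B x (T y)
  nonneg : ∀ x, 0 ≤ F.B (T x) x

variable {F}

lemma Pos.one : F.Pos (1 : Module.End ℝ V) := ⟨fun _ _ => rfl, fun x => F.nonneg x⟩

lemma Pos.add {S T : Module.End ℝ V} (hS : F.Pos S) (hT : F.Pos T) : F.Pos (S + T) := by
  refine ⟨fun x y => ?_, fun x => ?_⟩
  · simp [hS.symm x y, hT.symm x y]
  · simpa using add_nonneg (hS.nonneg x) (hT.nonneg x)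

/-- The sequence `S, S - S^2, ...`. -/
noncomputable def rn (S : Module.End ℝ V) : ℕ → Module.End ℝ V
  | 0 => S
  | n + 1 => rn S n - rn S n * rn S n

lemma Pos.sub_sq {S : Module.End ℝ V} (hS : F.Pos S) (hS' : F.Pos (1 - S)) :
    F.Pos (S - S * S) ∧ F.Pos (1 - (S - S * S)) := by
  have s1 : ∀ x y, F.B ((S - S * S) x) y = F.B x ((S - S * S) y) := by
    intro x y
    simp only [LinearMap.sub_apply, map_sub, Module.End.mul_apply]
    rw [hS.symm x y, hS.symm (S x) y, hS.symm x (S y)]
  refine ⟨⟨s1, fun x => ?_⟩, ⟨fun x y => ?_, fun x => ?_⟩⟩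
  · have h1 := hS.nonneg (x - S x)
    have h2 := hS'.nonneg (S x)
    simp only [map_sub, LinearMap.sub_apply, Module.End.one_apply, Module.End.mul_apply] at h1 h2 ⊢
    have h3 := hS.symm (S x) (S x)
    have h4 := hS.symm (S x) x
    have h5 := hS.symm x (S x)
    have h6 := F.symm (S x) (S (S x))
    have h7 := F.symm x (S (S x))
    linarith
  · simp only [LinearMap.sub_apply, map_sub, Module.End.one_apply, Module.End.mul_apply]
    rw [hS.symm x y, hS.symm (S x) y, hS.symm x (S y)]
  · have h1 := hS'.nonneg x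
    have h2 := F.nonneg (S x)
    have h3 := hS.symm (S x) x
    simp only [map_sub, LinearMap.sub_apply, Module.End.one_apply, Module.End.mul_apply] at h1 ⊢
    linarith

lemma rn_pos {S : Module.End ℝ V} (hS : F.Pos S) (hS' : F.Pos (1 - S)) (n : ℕ) :
    F.Pos (rn S n) ∧ F.Pos (1 - rn S n) := by
  induction n with
  | zero => exact ⟨hS, hS'⟩
  | succ n ih => exact Pos.sub_sq ih.1 ih.2

lemma rn_commute {S T : Module.End ℝ V} (h : Commute S T) (n : ℕ) : Commute (rn S n) T := by
  induction n with
  | zero => exact h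
  | succ n ih => exact ih.sub_left (ih.mul_left ih)

lemma rn_sum (S : Module.End ℝ V) (n : ℕ) :
    ∑ k ∈ Finset.range n, rn S k * rn S k = S - rn S n := by
  induction n with
  | zero => simp [rn]
  | succ n ih => rw [Finset.sum_range_succ, ih, rn]; abel

/-- The product of two commuting positive operators, one of them at most `1`, is positive. -/
lemma Pos.mul {S T : Module.End ℝ V} (hS : F.Pos S) (hS' : F.Pos (1 - S)) (hT : F.Pos T)
    (h : Commute S T) : F.Pos (S * T) := by
  have hcomm : ∀ z, S (T z) = T (S z) := fun z => by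
    have := congrArg (fun A : Module.End ℝ V => A z) h.eq
    simpa using this
  refine ⟨fun x y => ?_, fun x => ?_⟩
  · simp only [Module.End.mul_apply]
    rw [hS.symm (T x) y, hT.symm x (S y), hcomm y]
  · -- small terms of the sequence
    have key : ∀ n : ℕ, 0 < n → ∃ k < n, F.B (rn S k x) (rn S k x) ≤ F.B (S x) x / n := by
      intro n hn
      by_contra hcon
      push Not at hcon
      have h1 : ∑ k ∈ Finset.range n, F.B (rn S k x) (rn S k x) = F.B (S x) x - F.B (rn S n x) x := by
        have h2 := congrArg (fun A : Module.End ℝ V => F.B (A x) x) (rn_sum S n)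
        simp only [LinearMap.sub_apply, map_sub] at h2
        rw [← h2]
        simp only [LinearMap.sum_apply, map_sum]
        rw [Finset.sum_congr rfl]
        intro k _
        exact ((rn_pos hS hS' k).1.symm (rn S k x) x).symm
      have h3 : (n : ℝ) * (F.B (S x) x / n) < ∑ k ∈ Finset.range n, F.B (rn S k x) (rn S k x) := by
        have : ∑ k ∈ Finset.range n, (F.B (S x) x / n)
            < ∑ k ∈ Finset.range n, F.B (rn S k x) (rn S k x) := by
          apply Finset.sum_lt_sum_of_nonempty
          · simpa using hn.ne'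
          · intro k hk
            exact hcon k (Finset.mem_range.1 hk)
        simpa using this
      have h4 := (rn_pos hS hS' n).1.nonneg x
      have h5 : (n : ℝ) * (F.B (S x) x / n) = F.B (S x) x := by
        have : (n : ℝ) ≠ 0 := by positivity
        field_simp
      rw [h5, h1] at h3
      linarith
    have lower : ∀ k : ℕ, - (F.nrm (T x) * F.nrm (rn S k x)) ≤ F.B ((S * T) x) x := by
      intro k
      have h2 := congrArg (fun A : Module.End ℝ V => F.B (A (T x)) x) (rn_sum S k)
      simp only [LinearMap.sub_apply, map_sub] at h2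
      have h3 : F.B ((S * T) x) x
          = ∑ j ∈ Finset.range k, F.B (T (rn S j x)) (rn S j x) + F.B (T x) (rn S k x) := by
        rw [Module.End.mul_apply]
        have h4 : F.B (rn S k (T x)) x = F.B (T x) (rn S k x) := (rn_pos hS hS' k).1.symm _ _
        rw [← h4]
        have h5 : F.B (S (T x)) x = F.B ((∑ j ∈ Finset.range k, rn S j * rn S j) (T x)) x
            + F.B (rn S k (T x)) x := by linarith
        rw [h5]
        congr 1
        simp only [LinearMap.sum_apply, map_sum]
        refine Finset.sum_congr rfl fun j _ => ?_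
        have hc : rn S j (T x) = T (rn S j x) := by
          have := congrArg (fun A : Module.End ℝ V => A x) (rn_commute h j).eq
          simpa using this
        rw [Module.End.mul_apply, (rn_pos hS hS' j).1.symm, hc]
      have h6 : 0 ≤ ∑ j ∈ Finset.range k, F.B (T (rn S j x)) (rn S j x) :=
        Finset.sum_nonneg fun j _ => hT.nonneg _
      have h7 := (_root_.abs_le.1 (F.abs_le (T x) (rn S k x))).1
      linarith
    -- conclude
    by_contra hneg
    push Not at hneg
    set δ := - F.B ((S * T) x) x with hδ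
    have hδ0 : 0 < δ := by linarith
    set M := F.nrm (T x) with hM
    have hM0 : 0 ≤ M := F.nrm_nonneg _
    obtain ⟨n, hn⟩ := exists_nat_gt ((F.B (S x) x + 1) * (M + 1) ^ 2 / δ ^ 2 + 1)
    have hSx : 0 ≤ F.B (S x) x := hS.nonneg x
    have hn0 : 0 < n := by
      have : (0 : ℝ) < n := lt_of_le_of_lt (by positivity) hn
      exact_mod_cast this
    obtain ⟨k, -, hk⟩ := key n hn0
    have hl := lower k
    have hnR : (0 : ℝ) < n := by exact_mod_cast hn0
    have h8 : F.nrm (rn S k x) ^ 2 ≤ F.B (S x) x / n := by rw [F.nrm_sq]; exact hk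
    have h9 : F.B (S x) x / n < δ ^ 2 / (M + 1) ^ 2 := by
      rw [div_lt_div_iff₀ hnR (by positivity)]
      have h10 : (F.B (S x) x + 1) * (M + 1) ^ 2 / δ ^ 2 < n := by linarith
      rw [div_lt_iff₀ (by positivity)] at h10
      nlinarith [sq_nonneg (M + 1)]
    have h11 : F.nrm (rn S k x) < δ / (M + 1) := by
      refine lt_of_pow_lt_pow_left₀ 2 (by positivity) ?_
      rw [div_pow]
      linarith
    have h12 : M * F.nrm (rn S k x) ≤ M * (δ / (M + 1)) := by
      gcongr
    have h13 : M * (δ / (M + 1)) < δ := by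
      rw [mul_div_assoc', div_lt_iff₀ (by positivity)]
      nlinarith
    linarith

end PSForm

end Pool.Agent.IRS
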