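import Mathlib
import Pool.Agent.IRS.Form

/-!
# Spectral inequalities for two commuting positive contractions
-/

set_option autoImplicit false

namespace Pool.Agent.IRS

open Finset

variable {V : Type*} [AddCommGroup V] [Module ℝ V]

/-- Two commuting operators between `0` and `1`. -/
structure CPair (F : PSForm V) (P Q : Module.End ℝ V) : Prop where
  hP : F.Pos P
  hP' : F.Pos (1 - P)
  hQ : F.Pos Q
  hQ' : F.Pos (1 - Q)
  comm : Commute P Q

namespace CPair

variable {F : PSForm V} {P Q : Module.End ℝ V}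

lemma swap (h : CPair F P Q) : CPair F Q P := ⟨h.hQ, h.hQ', h.hP, h.hP', h.comm.symm⟩

/-- Positive operators commuting with the pair. -/
def Good (F : PSForm V) (P Q W : Module.End ℝ V) : Prop :=
  F.Pos W ∧ Commute P W ∧ Commute Q W

lemma good_one : Good F P Q 1 := ⟨PSForm.Pos.one, Commute.one_right _, Commute.one_right _⟩

lemma good_P (h : CPair F P Q) {W : Module.End ℝ V} (hW : Good F P Q W) : Good F P Q (P * W) :=
  ⟨PSForm.Pos.mul h.hP h.hP' hW.1 hW.2.1, (Commute.refl P).mul_right hW.2.1,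
    h.comm.symm.mul_right hW.2.2⟩

lemma good_Q (h : CPair F P Q) {W : Module.End ℝ V} (hW : Good F P Q W) : Good F P Q (Q * W) :=
  ⟨PSForm.Pos.mul h.hQ h.hQ' hW.1 hW.2.2, h.comm.mul_right hW.2.1,
    (Commute.refl Q).mul_right hW.2.2⟩

lemma good_P' (h : CPair F P Q) {W : Module.End ℝ V} (hW : Good F P Q W) :
    Good F P Q ((1 - P) * W) := by
  refine ⟨PSForm.Pos.mul h.hP' (by simpa using h.hP) hW.1 ?_, ?_, ?_⟩
  · exact (Commute.one_left W).sub_left hW.2.1
  · exact ((Commute.one_right P).sub_right (Commute.refl P)).mul_right hW.2.1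
  · exact ((Commute.one_right Q).sub_right h.comm.symm).mul_right hW.2.2

lemma good_Q' (h : CPair F P Q) {W : Module.End ℝ V} (hW : Good F P Q W) :
    Good F P Q ((1 - Q) * W) := by
  refine ⟨PSForm.Pos.mul h.hQ' (by simpa using h.hQ) hW.1 ?_, ?_, ?_⟩
  · exact (Commute.one_left W).sub_left hW.2.2
  · exact ((Commute.one_right P).sub_right h.comm).mul_right hW.2.1
  · exact ((Commute.one_right Q).sub_right (Commute.refl Q)).mul_right hW.2.2

lemma good_Ppow (h : CPair F P Q) {W : Module.End ℝ V} (hW : Good F P Q W) (n : ℕ) :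
    Good F P Q (P ^ n * W) := by
  induction n with
  | zero => simpa using hW
  | succ n ih => rw [pow_succ', mul_assoc]; exact h.good_P ih

lemma good_Qpow (h : CPair F P Q) {W : Module.End ℝ V} (hW : Good F P Q W) (n : ℕ) :
    Good F P Q (Q ^ n * W) := by
  induction n with
  | zero => simpa using hW
  | succ n ih => rw [pow_succ', mul_assoc]; exact h.good_Q ih

/-- First energy. -/
noncomputable def ea (F : PSForm V) (P : Module.End ℝ V) (y : V) : ℝ := F.B y y - F.B (P y) y

lemma ea_nonneg (h : CPair F P Q) (y : V) : 0 ≤ ea F P y := by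
  have := h.hP'.nonneg y
  simpa [ea] using this

/-- Mixed energy. -/
noncomputable def em (F : PSForm V) (P Q : Module.End ℝ V) (y : V) : ℝ :=
  F.B ((1 - P) ((1 - Q) y)) y

section
variable (h : CPair F P Q)
include h

lemma rP (u v : V) : F.B u (P v) = F.B (P u) v := (h.hP.symm u v).symm
lemma rQ (u v : V) : F.B u (Q v) = F.B (Q u) v := (h.hQ.symm u v).symm
lemma cPQ (v : V) : P (Q v) = Q (P v) := by
  have := congrArg (fun A : Module.End ℝ V => A v) h.comm.eq
  simpa using this

lemma em_nonneg (y : V) : 0 ≤ em F P Q y :=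
  by simpa [em, Module.End.mul_apply] using (h.good_P' (h.good_Q' good_one)).1.nonneg y

lemma em_comm (y : V) : em F P Q y = em F Q P y := by
  simp only [em, map_sub, LinearMap.sub_apply, Module.End.one_apply, h.cPQ]
  ring

lemma drop_le (y : V) :
    F.B y y - F.B (P (Q y)) (P (Q y)) ≤ 2 * (ea F P y + ea F Q y) := by
  have h1 := (h.good_P' (h.good_P' good_one)).1.nonneg y
  have h2 := (h.good_Q' (h.good_P' good_one)).1.nonneg y
  have h3 := (h.good_Q' (h.good_P' (h.good_P good_one))).1.nonneg y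
  have h5 := (h.good_Q' (h.good_P (h.good_P' good_one))).1.nonneg y
  have h6 := (h.good_Q' (h.good_P (h.good_P (h.good_Q' good_one)))).1.nonneg y
  simp only [ea, map_sub, map_add, LinearMap.sub_apply, Module.End.one_apply,
    Module.End.mul_apply, h.rP, h.rQ, h.cPQ] at h1 h2 h3 h5 h6 ⊢
  linarith

lemma ea_le_drop (y : V) : ea F P y ≤ F.B y y - F.B (P (Q y)) (P (Q y)) := by
  have h1 := (h.good_P (h.good_P' good_one)).1.nonneg y
  have h2 := (h.good_P (h.good_P (h.good_Q' good_one))).1.nonneg y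
  have h3 := (h.good_P (h.good_P (h.good_Q (h.good_Q' good_one)))).1.nonneg y
  simp only [ea, map_sub, map_add, LinearMap.sub_apply, Module.End.one_apply,
    Module.End.mul_apply, h.rP, h.rQ, h.cPQ] at h1 h2 h3 ⊢
  linarith

lemma ea_step (y : V) : ea F P (P (Q y)) ≤ ea F P y := by
  have h1 := (h.good_P' (h.good_P' good_one)).1.nonneg y
  have h2 := (h.good_P' (h.good_P (h.good_P' good_one))).1.nonneg y
  have h3 := (h.good_P' (h.good_P (h.good_P (h.good_Q' good_one)))).1.nonneg y
  have h4 := (h.good_P' (h.good_P (h.good_P (h.good_Q (h.good_Q' good_one))))).1.nonneg y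
  simp only [ea, map_sub, map_add, LinearMap.sub_apply, Module.End.one_apply,
    Module.End.mul_apply, h.rP, h.rQ, h.cPQ] at h1 h2 h3 h4 ⊢
  linarith

lemma ea_Q_le (y : V) : F.B (Q y) y - F.B (P (Q y)) y ≤ ea F P y := by
  have h1 := (h.good_P' (h.good_Q' good_one)).1.nonneg y
  simp only [ea, map_sub, map_add, LinearMap.sub_apply, Module.End.one_apply,
    Module.End.mul_apply, h.rP, h.rQ, h.cPQ] at h1 ⊢
  linarith

lemma em_P_le (y : V) : em F P Q (P y) ≤ em F P Q y := by
  have h1 := (h.good_P' (h.good_Q' (h.good_P' good_one))).1.nonneg y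
  have h2 := (h.good_P' (h.good_Q' (h.good_P (h.good_P' good_one)))).1.nonneg y
  simp only [em, map_sub, map_add, LinearMap.sub_apply, Module.End.one_apply,
    Module.End.mul_apply, h.rP, h.rQ, h.cPQ] at h1 h2 ⊢
  linarith

lemma em_Q_le (y : V) : em F P Q (Q y) ≤ em F P Q y := by
  rw [h.em_comm, h.em_comm]
  exact h.swap.em_P_le y

end

section
variable (h : CPair F P Q)
include h

lemma pow_symm_P (n : ℕ) (u v : V) : F.B ((P ^ n) u) v = F.B u ((P ^ n) v) := by
  have := (h.good_Ppow good_one n).1.symm u v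
  simpa using this

lemma pow_symm_Q (n : ℕ) (u v : V) : F.B ((Q ^ n) u) v = F.B u ((Q ^ n) v) :=
  h.swap.pow_symm_P n u v

/-- The key decay estimate of the mixed energy. -/
lemma em_decay (r : ℕ) (y : V) :
    (2 * r + 1 : ℕ) * em F P Q (((P * Q) ^ r) y) ≤ ea F P y := by
  set K : Module.End ℝ V := P ^ (2 * r) * ((1 - P) * 1) with hK
  have gK : Good F P Q K := h.good_Ppow (h.good_P' good_one) _
  set φ : ℕ → ℝ := fun n => F.B ((Q ^ n * ((1 - Q) * K)) y) y with hφ
  have hstep : ∀ n, φ (n + 1) ≤ φ n := by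
    intro n
    have h1 := (h.good_Qpow (h.good_Q' (h.good_Q' gK)) n).1.nonneg y
    have h2 : (Q ^ n * ((1 - Q) * ((1 - Q) * K))) y
        = (Q ^ n * ((1 - Q) * K)) y - (Q ^ (n + 1) * ((1 - Q) * K)) y := by
      rw [pow_succ]
      simp only [Module.End.mul_apply, LinearMap.sub_apply, Module.End.one_apply, map_sub]
    rw [h2] at h1
    simp only [map_sub, LinearMap.sub_apply] at h1
    simp only [hφ]
    linarith
  have hanti : Antitone φ := antitone_nat_of_succ_le hstep
  have hsum : ∀ N : ℕ, ∑ j ∈ range N, φ j = F.B (K y) y - F.B ((Q ^ N * K) y) y := by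
    intro N
    induction N with
    | zero => simp
    | succ N ih =>
      rw [sum_range_succ, ih]
      have h2 : (Q ^ N * ((1 - Q) * K)) y = (Q ^ N * K) y - (Q ^ (N + 1) * K) y := by
        rw [pow_succ]
        simp only [Module.End.mul_apply, LinearMap.sub_apply, Module.End.one_apply, map_sub]
      simp only [hφ]
      rw [h2]
      simp only [map_sub, LinearMap.sub_apply]
      ring
  have h1 : ((2 * r + 1 : ℕ) : ℝ) * φ (2 * r) ≤ ∑ j ∈ range (2 * r + 1), φ j := by
    have : ∑ j ∈ range (2 * r + 1), φ (2 * r) ≤ ∑ j ∈ range (2 * r + 1), φ j := by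
      refine sum_le_sum fun j hj => hanti ?_
      have := mem_range.1 hj
      omega
    simpa using this
  have h2 : ∑ j ∈ range (2 * r + 1), φ j ≤ F.B (K y) y := by
    rw [hsum]
    have := (h.good_Qpow gK (2 * r + 1)).1.nonneg y
    linarith
  have h3 : ∀ n : ℕ, F.B ((P ^ n * ((1 - P) * 1)) y) y ≤ ea F P y := by
    intro n
    induction n with
    | zero => simp [ea]
    | succ n ih =>
      have h4 := (h.good_Ppow (h.good_P' (h.good_P' good_one)) n).1.nonneg y
      have h5 : (P ^ n * ((1 - P) * ((1 - P) * 1))) y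
          = (P ^ n * ((1 - P) * 1)) y - (P ^ (n + 1) * ((1 - P) * 1)) y := by
        rw [pow_succ]
        simp only [Module.End.mul_apply, LinearMap.sub_apply, Module.End.one_apply, map_sub]
      rw [h5] at h4
      simp only [map_sub, LinearMap.sub_apply] at h4
      linarith
  have h6 : φ (2 * r) = em F P Q (((P * Q) ^ r) y) := by
    simp only [hφ, em]
    have e1 : (P * Q) ^ r = P ^ r * Q ^ r := h.comm.mul_pow r
    have e2 : Q ^ (2 * r) * ((1 - Q) * K)
        = (P ^ r * Q ^ r) * ((1 - P) * ((1 - Q) * (P ^ r * Q ^ r))) := by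
      have c1 : Commute P Q := h.comm
      have cPP : Commute P (1 - P) := (Commute.one_right P).sub_right (Commute.refl P)
      have cQQ : Commute Q (1 - Q) := (Commute.one_right Q).sub_right (Commute.refl Q)
      have cPQ' : Commute P (1 - Q) := (Commute.one_right P).sub_right c1
      have cQP' : Commute Q (1 - P) := (Commute.one_right Q).sub_right c1.symm
      have cc : Commute (1 - P) (1 - Q) :=
        ((Commute.one_left (1 - Q)).sub_left cPQ')
      have k1 : Commute (P ^ r * Q ^ r) (1 - P) :=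
        Commute.mul_left (cPP.pow_left r) (cQP'.pow_left r)
      have k2 : Commute (P ^ r * Q ^ r) (1 - Q) :=
        Commute.mul_left (cPQ'.pow_left r) (cQQ.pow_left r)
      have e3 : (P ^ r * Q ^ r) * (P ^ r * Q ^ r) = P ^ (2 * r) * Q ^ (2 * r) := by
        have : P ^ r * Q ^ r * (P ^ r * Q ^ r) = P ^ r * (Q ^ r * P ^ r) * Q ^ r := by
          noncomm_ring
        rw [this, ← (c1.pow_pow r r).eq]
        rw [two_mul, pow_add, pow_add]
        noncomm_ring
      have c2 : Commute (Q ^ (2 * r)) (P ^ (2 * r)) := c1.symm.pow_pow _ _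
      calc Q ^ (2 * r) * ((1 - Q) * K)
          = Q ^ (2 * r) * ((1 - Q) * (P ^ (2 * r) * (1 - P))) := by rw [hK, mul_one]
        _ = Q ^ (2 * r) * (P ^ (2 * r) * (1 - Q) * (1 - P)) := by
            rw [← mul_assoc (1 - Q), ← (cPQ'.pow_left (2 * r)).eq]
        _ = (Q ^ (2 * r) * P ^ (2 * r)) * ((1 - Q) * (1 - P)) := by noncomm_ring
        _ = (P ^ (2 * r) * Q ^ (2 * r)) * ((1 - P) * (1 - Q)) := by rw [c2.eq, cc.eq]
        _ = ((P ^ r * Q ^ r) * (P ^ r * Q ^ r)) * ((1 - P) * (1 - Q)) := by rw [e3]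
        _ = (P ^ r * Q ^ r) * ((P ^ r * Q ^ r) * ((1 - P) * (1 - Q))) := by rw [mul_assoc]
        _ = (P ^ r * Q ^ r) * (((1 - P) * (1 - Q)) * (P ^ r * Q ^ r)) := by
            rw [(k1.mul_right k2).eq]
        _ = _ := by rw [mul_assoc (1 - P)]
    rw [e2, e1]
    simp only [Module.End.mul_apply]
    rw [h.pow_symm_P, h.pow_symm_Q, ← Module.End.mul_apply (Q ^ r) (P ^ r) y,
      ← (h.comm.pow_pow r r).eq, Module.End.mul_apply]
  calc ((2 * r + 1 : ℕ) : ℝ) * em F P Q (((P * Q) ^ r) y)
      = ((2 * r + 1 : ℕ) : ℝ) * φ (2 * r) := by rw [h6]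
    _ ≤ _ := h1
    _ ≤ _ := h2
    _ ≤ _ := h3 _

end

end CPair

end Pool.Agent.IRS
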