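import Mathlib
import Pool.Agent.IRS.Spec

/-!
# Averages over a measure preserving action on bounded square integrable functions
-/

set_option autoImplicit false

namespace Pool.Agent.IRS

open MeasureTheory

/-- Square of the mean is at most the mean of the square. -/
lemma sq_integral_le {Γ : Type*} [MeasurableSpace Γ] (ν : Measure Γ) [IsProbabilityMeasure ν]
    {f : Γ → ℝ} (hf : Integrable f ν) (hf2 : Integrable (fun g => f g ^ 2) ν) :
    (∫ g, f g ∂ν) ^ 2 ≤ ∫ g, f g ^ 2 ∂ν := by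
  have h := (even_two.convexOn_pow (𝕜 := ℝ)).map_integral_le (μ := ν) (f := f)
    (continuous_pow 2).continuousOn isClosed_univ (by simp) hf hf2
  simpa using h

/-- A bounded measurable function is integrable for a probability measure. -/
lemma integrable_of_bdd {Γ : Type*} [MeasurableSpace Γ] (ν : Measure Γ) [IsFiniteMeasure ν]
    {f : Γ → ℝ} (hf : Measurable f) {M : ℝ} (hM : ∀ g, |f g| ≤ M) : Integrable f ν :=
  Integrable.of_bound hf.aestronglyMeasurable M (by filter_upwards with g; simpa using hM g)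

section BL2

variable {Z : Type*} [MeasurableSpace Z]

/-- Bounded measurable square integrable functions. -/
def BL2 (ζ : Measure Z) : Submodule ℝ (Z → ℝ) where
  carrier := {f | Measurable f ∧ (∃ M, ∀ z, |f z| ≤ M) ∧ Integrable (fun z => f z ^ 2) ζ}
  add_mem' := by
    rintro f g ⟨hf, ⟨M, hM⟩, hf2⟩ ⟨hg, ⟨M', hM'⟩, hg2⟩
    refine ⟨hf.add hg, ⟨M + M', fun z => ?_⟩, ?_⟩
    · exact (abs_add_le _ _).trans (add_le_add (hM z) (hM' z))
    · refine ((hf2.const_mul 2).add (hg2.const_mul 2)).mono' ?_ ?_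
      · exact ((hf.add hg).pow_const 2).aestronglyMeasurable
      · filter_upwards with z
        simp only [Pi.add_apply, Real.norm_eq_abs, abs_pow, sq_abs]
        nlinarith [sq_nonneg (f z - g z)]
  zero_mem' := ⟨measurable_zero, ⟨0, fun z => by simp⟩, by simp⟩
  smul_mem' := by
    rintro c f ⟨hf, ⟨M, hM⟩, hf2⟩
    refine ⟨hf.const_smul c, ⟨|c| * M, fun z => ?_⟩, ?_⟩
    · simp only [Pi.smul_apply, smul_eq_mul, abs_mul]
      exact mul_le_mul_of_nonneg_left (hM z) (abs_nonneg c)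
    · have : (fun z => (c • f) z ^ 2) = fun z => c ^ 2 * f z ^ 2 := by
        ext z; simp only [Pi.smul_apply, smul_eq_mul]; ring
      rw [this]
      exact hf2.const_mul _

variable {ζ : Measure Z}

lemma bmeas (f : BL2 ζ) : Measurable (f : Z → ℝ) := f.2.1
lemma bbdd (f : BL2 ζ) : ∃ M, ∀ z, |(f : Z → ℝ) z| ≤ M := f.2.2.1
lemma bsq (f : BL2 ζ) : Integrable (fun z => (f : Z → ℝ) z ^ 2) ζ := f.2.2.2

lemma bmul (f g : BL2 ζ) : Integrable (fun z => (f : Z → ℝ) z * (g : Z → ℝ) z) ζ := by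
  refine ((bsq f).add (bsq g)).mono' ((bmeas f).mul (bmeas g)).aestronglyMeasurable ?_
  filter_upwards with z
  simp only [Real.norm_eq_abs, abs_mul, Pi.add_apply]
  nlinarith [sq_nonneg (|(f : Z → ℝ) z| - |(g : Z → ℝ) z|), sq_abs ((f : Z → ℝ) z),
    sq_abs ((g : Z → ℝ) z)]

/-- The inner product form. -/
noncomputable def frm (ζ : Measure Z) : PSForm (BL2 ζ) where
  B := LinearMap.mk₂ ℝ (fun f g => ∫ z, (f : Z → ℝ) z * (g : Z → ℝ) z ∂ζ)
    (fun f f' g => by
      rw [← integral_add (bmul f g) (bmul f' g)]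
      congr 1; ext z; simp [add_mul])
    (fun c f g => by
      rw [smul_eq_mul, ← integral_const_mul]
      congr 1; ext z; simp [mul_assoc])
    (fun f g g' => by
      rw [← integral_add (bmul f g) (bmul f g')]
      congr 1; ext z; simp [mul_add])
    (fun c f g => by
      rw [smul_eq_mul, ← integral_const_mul]
      congr 1; ext z; simp; ring)
  symm := fun f g => by simp [mul_comm]
  nonneg := fun f => by
    simp only [LinearMap.mk₂_apply]
    exact integral_nonneg fun z => mul_self_nonneg _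

lemma frm_apply (f g : BL2 ζ) : (frm ζ).B f g = ∫ z, (f : Z → ℝ) z * (g : Z → ℝ) z ∂ζ := rfl

lemma frm_self (f : BL2 ζ) : (frm ζ).B f f = ∫ z, (f : Z → ℝ) z ^ 2 ∂ζ := by
  rw [frm_apply]; congr 1; ext z; ring

lemma nrm_sq_eq (f : BL2 ζ) : (frm ζ).nrm f ^ 2 = ∫ z, (f : Z → ℝ) z ^ 2 ∂ζ := by
  rw [(frm ζ).nrm_sq, frm_self]

end BL2

/-- A measurable measure preserving action. -/
structure PAct (Γ : Type*) [Group Γ] [MeasurableSpace Γ] {Z : Type*} [MeasurableSpace Z]
    (ζ : Measure Z) where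
  τ : Γ → Z → Z
  one : ∀ z, τ 1 z = z
  mul : ∀ g h z, τ (g * h) z = τ g (τ h z)
  meas : Measurable (fun p : Γ × Z => τ p.1 p.2)
  mp : ∀ g, MeasurePreserving (τ g) ζ ζ

namespace PAct

variable {Γ : Type*} [Group Γ] [MeasurableSpace Γ] {Z : Type*} [MeasurableSpace Z]
  {ζ : Measure Z} (a : PAct Γ ζ)

lemma inv_apply (g : Γ) (z : Z) : a.τ g⁻¹ (a.τ g z) = z := by
  rw [← a.mul, inv_mul_cancel, a.one]

lemma apply_inv (g : Γ) (z : Z) : a.τ g (a.τ g⁻¹ z) = z := by
  rw [← a.mul, mul_inv_cancel, a.one]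

lemma meas_g (g : Γ) : Measurable (a.τ g) := (a.mp g).measurable

lemma integral_comp (g : Γ) {F : Z → ℝ} (hF : Measurable F) :
    ∫ z, F (a.τ g z) ∂ζ = ∫ z, F z ∂ζ := by
  conv_rhs => rw [← (a.mp g).map_eq]
  rw [integral_map (a.meas_g g).aemeasurable hF.aestronglyMeasurable]

/-- Translation operator. -/
noncomputable def T (g : Γ) : BL2 ζ →ₗ[ℝ] BL2 ζ where
  toFun f := ⟨fun z => (f : Z → ℝ) (a.τ g z), (bmeas f).comp (a.meas_g g),
    (bbdd f).imp fun _ hM _ => hM _, (a.mp g).integrable_comp_of_integrable (bsq f)⟩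
  map_add' _ _ := rfl
  map_smul' _ _ := rfl

@[simp] lemma T_apply (g : Γ) (f : BL2 ζ) (z : Z) :
    ((a.T g f : BL2 ζ) : Z → ℝ) z = (f : Z → ℝ) (a.τ g z) := rfl

lemma T_T (g h : Γ) (f : BL2 ζ) : a.T g (a.T h f) = a.T (h * g) f := by
  apply Subtype.ext; funext z; simp [a.mul]

lemma T_one (f : BL2 ζ) : a.T 1 f = f := by
  apply Subtype.ext; funext z; simp [a.one]

lemma T_isom (g : Γ) (f h : BL2 ζ) : (frm ζ).B (a.T g f) (a.T g h) = (frm ζ).B f h := by
  rw [frm_apply, frm_apply]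
  exact a.integral_comp g (F := fun z => (f : Z → ℝ) z * (h : Z → ℝ) z)
    ((bmeas f).mul (bmeas h))

lemma nrm_T (g : Γ) (f : BL2 ζ) : (frm ζ).nrm (a.T g f) = (frm ζ).nrm f := by
  unfold PSForm.nrm; rw [a.T_isom]

/-- The displacement function. -/
noncomputable def ψ (f : BL2 ζ) (g : Γ) : ℝ := (frm ζ).nrm (a.T g f - f)

lemma ψ_nonneg (f : BL2 ζ) (g : Γ) : 0 ≤ a.ψ f g := (frm ζ).nrm_nonneg _

lemma ψ_one (f : BL2 ζ) : a.ψ f 1 = 0 := by simp [ψ, T_one, PSForm.nrm]

lemma ψ_mul_le (f : BL2 ζ) (g h : Γ) : a.ψ f (g * h) ≤ a.ψ f g + a.ψ f h := by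
  have h1 : a.T (g * h) f - f = a.T h (a.T g f - f) + (a.T h f - f) := by
    rw [map_sub, a.T_T]; abel
  unfold ψ
  rw [h1]
  refine ((frm ζ).nrm_add_le _ _).trans ?_
  rw [a.nrm_T]

lemma ψ_inv (f : BL2 ζ) (g : Γ) : a.ψ f g⁻¹ = a.ψ f g := by
  unfold ψ
  rw [← a.nrm_T g (a.T g⁻¹ f - f), map_sub, a.T_T, inv_mul_cancel, a.T_one,
    (frm ζ).nrm_sub_comm]

lemma ψ_sub_le (f : BL2 ζ) (g h : Γ) :
    (frm ζ).nrm (a.T g f - a.T h f) ≤ a.ψ f g + a.ψ f h := by
  refine ((frm ζ).nrm_sub_le _ f _).trans ?_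
  rw [(frm ζ).nrm_sub_comm f]
  exact le_rfl

section avg

variable (ν : Measure Γ) [IsProbabilityMeasure ν] [SigmaFinite ζ]

lemma meas_comp {F : Z → ℝ} (hF : Measurable F) : Measurable (fun p : Γ × Z => F (a.τ p.1 p.2)) :=
  hF.comp a.meas

lemma meas_sec {F : Z → ℝ} (hF : Measurable F) (z : Z) : Measurable (fun g : Γ => F (a.τ g z)) :=
  (a.meas_comp hF).comp (measurable_id.prodMk measurable_const)

omit [IsProbabilityMeasure ν] in
lemma sq_prod_int [IsFiniteMeasure ν] (f : BL2 ζ) :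
    Integrable (fun p : Γ × Z => (f : Z → ℝ) (a.τ p.1 p.2) ^ 2) (ν.prod ζ) := by
  rw [integrable_prod_iff ((a.meas_comp (bmeas f)).pow_const 2).aestronglyMeasurable]
  refine ⟨?_, ?_⟩
  · filter_upwards with g
    exact (a.mp g).integrable_comp_of_integrable (bsq f)
  · have : (fun g : Γ => ∫ z, ‖(f : Z → ℝ) (a.τ g z) ^ 2‖ ∂ζ)
        = fun _ => ∫ z, (f : Z → ℝ) z ^ 2 ∂ζ := by
      ext g
      simp only [norm_pow, Real.norm_eq_abs, sq_abs]
      exact a.integral_comp g (F := fun z => (f : Z → ℝ) z ^ 2) ((bmeas f).pow_const 2)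
    rw [this]
    exact integrable_const _

/-- The averaging operator. -/
noncomputable def A : BL2 ζ →ₗ[ℝ] BL2 ζ where
  toFun f := ⟨fun z => ∫ g, (f : Z → ℝ) (a.τ g z) ∂ν, by
      exact (a.meas_comp (bmeas f)).stronglyMeasurable.integral_prod_left'.measurable, by
      obtain ⟨M, hM⟩ := bbdd f
      refine ⟨M, fun z => ?_⟩
      calc |∫ g, (f : Z → ℝ) (a.τ g z) ∂ν| ≤ ∫ g, |(f : Z → ℝ) (a.τ g z)| ∂ν :=
            abs_integral_le_integral_abs
        _ ≤ ∫ _, M ∂ν := by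
            refine integral_mono_of_nonneg (by filter_upwards with g; positivity)
              (integrable_const _) (by filter_upwards with g; exact hM _)
        _ = M := by simp, by
      obtain ⟨M, hM⟩ := bbdd f
      have h1 := (a.sq_prod_int ν f).integral_prod_right
      refine h1.mono' ?_ ?_
      · exact ((a.meas_comp (bmeas f)).stronglyMeasurable.integral_prod_left'.measurable.pow_const
          2).aestronglyMeasurable
      · filter_upwards with z
        simp only [norm_pow, Real.norm_eq_abs, sq_abs]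
        refine sq_integral_le ν (integrable_of_bdd ν (a.meas_sec (bmeas f) z) fun g => hM _) ?_
        refine integrable_of_bdd ν ((a.meas_sec (bmeas f) z).pow_const 2) (M := M ^ 2) fun g => ?_
        rw [abs_pow]
        exact pow_le_pow_left₀ (abs_nonneg _) (hM _) 2⟩
  map_add' f f' := by
    apply Subtype.ext; funext z
    obtain ⟨M, hM⟩ := bbdd f
    obtain ⟨M', hM'⟩ := bbdd f'
    exact integral_add (integrable_of_bdd ν (a.meas_sec (bmeas f) z) fun g => hM _)
      (integrable_of_bdd ν (a.meas_sec (bmeas f') z) fun g => hM' _)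
  map_smul' c f := by
    apply Subtype.ext; funext z
    exact integral_const_mul c _

lemma A_apply (f : BL2 ζ) (z : Z) :
    ((a.A ν f : BL2 ζ) : Z → ℝ) z = ∫ g, (f : Z → ℝ) (a.τ g z) ∂ν := rfl

end avg

end PAct

end Pool.Agent.IRS
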