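import Mathlib
import Pool.Agent.IRS.Avg

/-!
# Adjoint and energy of the averaging operators
-/

set_option autoImplicit false

namespace Pool.Agent.IRS

open MeasureTheory

namespace PAct

variable {Γ : Type*} [Group Γ] [MeasurableSpace Γ] {Z : Type*} [MeasurableSpace Z]
  {ζ : Measure Z} [SigmaFinite ζ] (a : PAct Γ ζ)
  (ν : Measure Γ) [IsProbabilityMeasure ν]

omit [IsProbabilityMeasure ν] in
lemma mul_prod_int [IsFiniteMeasure ν] (f h : BL2 ζ) :
    Integrable (fun p : Γ × Z => (f : Z → ℝ) (a.τ p.1 p.2) * (h : Z → ℝ) p.2) (ν.prod ζ) := by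
  have h1 := a.sq_prod_int ν f
  have h2 : Integrable (fun p : Γ × Z => (h : Z → ℝ) p.2 ^ 2) (ν.prod ζ) := (bsq h).comp_snd ν
  refine (h1.add h2).mono' ?_ ?_
  · exact ((a.meas_comp (bmeas f)).mul ((bmeas h).comp measurable_snd)).aestronglyMeasurable
  · filter_upwards with p
    simp only [Real.norm_eq_abs, abs_mul, Pi.add_apply]
    nlinarith [sq_nonneg (|(f : Z → ℝ) (a.τ p.1 p.2)| - |(h : Z → ℝ) p.2|),
      sq_abs ((f : Z → ℝ) (a.τ p.1 p.2)), sq_abs ((h : Z → ℝ) p.2)]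

omit [IsProbabilityMeasure ν] in
lemma B_T_integrable [IsFiniteMeasure ν] (f h : BL2 ζ) :
    Integrable (fun g : Γ => (frm ζ).B (a.T g f) h) ν := by
  have := (a.mul_prod_int ν f h).integral_prod_left
  exact this

lemma B_T_measurable (f h : BL2 ζ) : Measurable (fun g : Γ => (frm ζ).B (a.T g f) h) := by
  have : Measurable (fun p : Γ × Z => (f : Z → ℝ) (a.τ p.1 p.2) * (h : Z → ℝ) p.2) :=
    (a.meas_comp (bmeas f)).mul ((bmeas h).comp measurable_snd)
  exact this.stronglyMeasurable.integral_prod_right'.measurable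

/-- Pairing with an average. -/
lemma B_A (f h : BL2 ζ) : (frm ζ).B (a.A ν f) h = ∫ g, (frm ζ).B (a.T g f) h ∂ν := by
  have h1 : ∀ g : Γ, (frm ζ).B (a.T g f) h = ∫ z, (f : Z → ℝ) (a.τ g z) * (h : Z → ℝ) z ∂ζ :=
    fun g => rfl
  simp_rw [h1]
  rw [integral_integral_swap (a.mul_prod_int ν f h), frm_apply]
  congr 1
  ext z
  rw [A_apply, integral_mul_const]

lemma B_A_right (f h : BL2 ζ) : (frm ζ).B h (a.A ν f) = ∫ g, (frm ζ).B h (a.T g f) ∂ν := by
  rw [(frm ζ).symm, a.B_A ν]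
  congr 1; ext g; rw [(frm ζ).symm]

/-- The inverted measure. -/
noncomputable def _root_.Pool.Agent.IRS.nui (ν : Measure Γ) : Measure Γ := ν.map (fun g => g⁻¹)

instance [MeasurableInv Γ] : IsProbabilityMeasure (nui ν) :=
  Measure.isProbabilityMeasure_map measurable_inv.aemeasurable

/-- The adjoint formula. -/
lemma adj [MeasurableInv Γ] (f h : BL2 ζ) :
    (frm ζ).B (a.A ν f) h = (frm ζ).B f (a.A (nui ν) h) := by
  rw [a.B_A ν, a.B_A_right (nui ν), nui]
  have hm : Measurable (fun g : Γ => (frm ζ).B f (a.T g h)) := by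
    have h0 : (fun g : Γ => (frm ζ).B f (a.T g h)) = fun g => (frm ζ).B (a.T g h) f := by
      ext g; rw [(frm ζ).symm]
    rw [h0]
    exact a.B_T_measurable h f
  rw [integral_map measurable_inv.aemeasurable hm.aestronglyMeasurable]
  congr 1; ext g
  rw [← a.T_isom g⁻¹ (a.T g f) h, a.T_T, mul_inv_cancel, a.T_one]

/-- The energy. -/
noncomputable def E (f : BL2 ζ) : ℝ := (frm ζ).B f f - (frm ζ).B (a.A ν f) (a.A ν f)

/-- The double difference form for an operator commuting with the action. -/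
lemma dq_eq (L : BL2 ζ →ₗ[ℝ] BL2 ζ) (hL : ∀ x y, (frm ζ).B (L x) y = (frm ζ).B x (L y))
    (hT : ∀ g x, L (a.T g x) = a.T g (L x)) (f : BL2 ζ) (g g' : Γ) :
    (frm ζ).B (L (a.T g f - a.T g' f)) (a.T g f - a.T g' f)
      = 2 * (frm ζ).B (L f) f - 2 * (frm ζ).B (L (a.T g f)) (a.T g' f) := by
  have h1 : (frm ζ).B (L (a.T g f)) (a.T g f) = (frm ζ).B (L f) f := by rw [hT, a.T_isom]
  have h2 : (frm ζ).B (L (a.T g' f)) (a.T g' f) = (frm ζ).B (L f) f := by rw [hT, a.T_isom]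
  have h3 : (frm ζ).B (L (a.T g' f)) (a.T g f) = (frm ζ).B (L (a.T g f)) (a.T g' f) := by
    rw [hL, (frm ζ).symm]
  simp only [map_sub, LinearMap.sub_apply]
  rw [h1, h2, h3]; ring

lemma dq_int (L : BL2 ζ →ₗ[ℝ] BL2 ζ) (hL : ∀ x y, (frm ζ).B (L x) y = (frm ζ).B x (L y))
    (hT : ∀ g x, L (a.T g x) = a.T g (L x)) (f : BL2 ζ) (g : Γ) :
    ∫ g', (frm ζ).B (L (a.T g f - a.T g' f)) (a.T g f - a.T g' f) ∂ν
      = 2 * (frm ζ).B (L f) f - 2 * (frm ζ).B (L (a.T g f)) (a.A ν f) := by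
  simp_rw [a.dq_eq L hL hT]
  have hi : Integrable (fun g' => (frm ζ).B (L (a.T g f)) (a.T g' f)) ν := by
    have := a.B_T_integrable ν f (L (a.T g f))
    refine this.congr ?_
    filter_upwards with g'
    rw [(frm ζ).symm]
  rw [integral_sub (integrable_const _) (hi.const_mul 2), integral_const, integral_const_mul,
    a.B_A_right]
  simp

lemma dq_int_int (L : BL2 ζ →ₗ[ℝ] BL2 ζ) (hL : ∀ x y, (frm ζ).B (L x) y = (frm ζ).B x (L y))
    (hT : ∀ g x, L (a.T g x) = a.T g (L x)) (f : BL2 ζ) :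
    ∫ g, ∫ g', (frm ζ).B (L (a.T g f - a.T g' f)) (a.T g f - a.T g' f) ∂ν ∂ν
      = 2 * ((frm ζ).B (L f) f - (frm ζ).B (L (a.A ν f)) (a.A ν f)) := by
  simp_rw [a.dq_int ν L hL hT]
  have hi : Integrable (fun g => (frm ζ).B (L (a.T g f)) (a.A ν f)) ν := by
    refine (a.B_T_integrable ν f (L (a.A ν f))).congr ?_
    filter_upwards with g
    rw [hL]
  rw [integral_sub (integrable_const _) (hi.const_mul 2), integral_const, integral_const_mul]
  have h1 : ∫ g, (frm ζ).B (L (a.T g f)) (a.A ν f) ∂ν = (frm ζ).B (L (a.A ν f)) (a.A ν f) := by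
    simp_rw [hL]
    rw [← a.B_A ν]
  rw [h1]
  simp; ring

lemma dq_int_integrable (L : BL2 ζ →ₗ[ℝ] BL2 ζ)
    (hL : ∀ x y, (frm ζ).B (L x) y = (frm ζ).B x (L y))
    (hT : ∀ g x, L (a.T g x) = a.T g (L x)) (f : BL2 ζ) :
    Integrable (fun g => ∫ g', (frm ζ).B (L (a.T g f - a.T g' f)) (a.T g f - a.T g' f) ∂ν) ν := by
  simp_rw [a.dq_int ν L hL hT]
  have hi : Integrable (fun g => (frm ζ).B (L (a.T g f)) (a.A ν f)) ν := by
    refine (a.B_T_integrable ν f (L (a.A ν f))).congr ?_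
    filter_upwards with g
    rw [hL]
  exact (integrable_const _).sub (hi.const_mul 2)

lemma dq_integrable (L : BL2 ζ →ₗ[ℝ] BL2 ζ)
    (hL : ∀ x y, (frm ζ).B (L x) y = (frm ζ).B x (L y))
    (hT : ∀ g x, L (a.T g x) = a.T g (L x)) (f : BL2 ζ) (g : Γ) :
    Integrable (fun g' => (frm ζ).B (L (a.T g f - a.T g' f)) (a.T g f - a.T g' f)) ν := by
  simp_rw [a.dq_eq L hL hT]
  have hi : Integrable (fun g' => (frm ζ).B (L (a.T g f)) (a.T g' f)) ν := by
    refine (a.B_T_integrable ν f (L (a.T g f))).congr ?_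
    filter_upwards with g'
    rw [(frm ζ).symm]
  exact (integrable_const _).sub (hi.const_mul 2)

/-- The double integral formula for the energy. -/
lemma E_eq (f : BL2 ζ) :
    ∫ g, ∫ g', (frm ζ).nrm (a.T g f - a.T g' f) ^ 2 ∂ν ∂ν = 2 * a.E ν f := by
  have := a.dq_int_int ν LinearMap.id (fun _ _ => rfl) (fun _ _ => rfl) f
  simpa [(frm ζ).nrm_sq, E] using this

lemma E_nonneg (f : BL2 ζ) : 0 ≤ a.E ν f := by
  have h1 := a.E_eq ν f
  have h2 : 0 ≤ ∫ g, ∫ g', (frm ζ).nrm (a.T g f - a.T g' f) ^ 2 ∂ν ∂ν :=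
    integral_nonneg fun g => integral_nonneg fun g' => sq_nonneg _
  linarith

lemma ψ_sq (f : BL2 ζ) (g : Γ) :
    a.ψ f g ^ 2 = 2 * (frm ζ).B f f - 2 * (frm ζ).B (a.T g f) f := by
  unfold ψ
  rw [(frm ζ).nrm_sq]
  simp only [map_sub, LinearMap.sub_apply]
  rw [a.T_isom, (frm ζ).symm f (a.T g f)]; ring

lemma ψ_measurable (f : BL2 ζ) : Measurable (a.ψ f) := by
  have h : a.ψ f = fun g => Real.sqrt (2 * (frm ζ).B f f - 2 * (frm ζ).B (a.T g f) f) := by
    ext g
    rw [← a.ψ_sq, Real.sqrt_sq (a.ψ_nonneg f g)]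
  rw [h]
  exact (measurable_const.sub ((a.B_T_measurable f f).const_mul 2)).sqrt

/-- Upper bound of the energy by the displacement. -/
lemma E_le (f : BL2 ζ) {S : ℝ} (hS : ∀ᵐ g ∂ν, a.ψ f g ≤ S) : a.E ν f ≤ 2 * S ^ 2 := by
  have h1 := a.E_eq ν f
  have h2 : ∫ g, ∫ g', (frm ζ).nrm (a.T g f - a.T g' f) ^ 2 ∂ν ∂ν ≤ ∫ _ : Γ, 4 * S ^ 2 ∂ν := by
    have hI := a.dq_int_integrable ν LinearMap.id (fun _ _ => rfl) (fun _ _ => rfl) f
    refine integral_mono_ae ?_ (integrable_const _) ?_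
    · refine hI.congr ?_
      filter_upwards with g
      simp [(frm ζ).nrm_sq]
    · filter_upwards [hS] with g hg
      have hJ := a.dq_integrable ν LinearMap.id (fun _ _ => rfl) (fun _ _ => rfl) f g
      calc ∫ g', (frm ζ).nrm (a.T g f - a.T g' f) ^ 2 ∂ν ≤ ∫ _ : Γ, 4 * S ^ 2 ∂ν := by
            refine integral_mono_ae ?_ (integrable_const _) ?_
            · refine hJ.congr ?_
              filter_upwards with g'
              simp [(frm ζ).nrm_sq]
            · filter_upwards [hS] with g' hg'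
              have h3 := a.ψ_sub_le f g g'
              have h4 := (frm ζ).nrm_nonneg (a.T g f - a.T g' f)
              have h5 := a.ψ_nonneg f g
              have h6 := a.ψ_nonneg f g'
              have h7 : (frm ζ).nrm (a.T g f - a.T g' f) ≤ 2 * S := by linarith
              calc (frm ζ).nrm (a.T g f - a.T g' f) ^ 2 ≤ (2 * S) ^ 2 :=
                    pow_le_pow_left₀ h4 h7 2
                _ = 4 * S ^ 2 := by ring
        _ = 4 * S ^ 2 := by simp
  rw [h1] at h2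
  simp at h2
  linarith

/-- Upper bound of the displacement by the energy. -/
lemma ψ_le_E (f : BL2 ζ) (c : Γ) (σ : Measure Γ) [IsProbabilityMeasure σ] {C : NNReal}
    [MeasurableMul Γ] (h1 : σ ≤ C • ν) (h2 : σ.map (c * ·) ≤ C • ν) :
    a.ψ f c ^ 2 ≤ 8 * C * a.E ν f := by
  set G : Γ → ℝ := fun x => 2 * (frm ζ).B f f - 2 * (frm ζ).B (a.T x f) (a.A ν f) with hG
  have hGm : Measurable G :=
    measurable_const.sub ((a.B_T_measurable f (a.A ν f)).const_mul 2)
  have hGeq : ∀ x, ∫ g', (frm ζ).nrm (a.T x f - a.T g' f) ^ 2 ∂ν = G x := by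
    intro x
    have := a.dq_int ν LinearMap.id (fun _ _ => rfl) (fun _ _ => rfl) f x
    simpa [(frm ζ).nrm_sq, hG] using this
  have hG0 : ∀ x, 0 ≤ G x := fun x => by
    rw [← hGeq]; exact integral_nonneg fun _ => sq_nonneg _
  have hGi : Integrable G ν :=
    (integrable_const _).sub ((a.B_T_integrable ν f (a.A ν f)).const_mul 2)
  have hGiC : Integrable G (C • ν) := hGi.smul_measure_nnreal
  have hGν : ∫ x, G x ∂ν = 2 * a.E ν f := by
    rw [← a.E_eq ν f]; simp_rw [hGeq]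
  have hpt : ∀ g, a.ψ f c ^ 2 ≤ 2 * G (c * g) + 2 * G g := by
    intro g
    rw [← hGeq, ← hGeq]
    have hJ := fun x => a.dq_integrable ν LinearMap.id (fun _ _ => rfl) (fun _ _ => rfl) f x
    have hJ' : ∀ x, Integrable (fun g' => (frm ζ).nrm (a.T x f - a.T g' f) ^ 2) ν := by
      intro x
      refine (hJ x).congr ?_
      filter_upwards with g'
      simp [(frm ζ).nrm_sq]
    rw [← integral_const_mul, ← integral_const_mul, ← integral_add ((hJ' _).const_mul 2)
      ((hJ' _).const_mul 2)]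
    have h3 : a.ψ f c ^ 2 = ∫ _ : Γ, a.ψ f c ^ 2 ∂ν := by simp
    rw [h3]
    refine integral_mono_ae (integrable_const _) (((hJ' _).const_mul 2).add ((hJ' _).const_mul 2)) ?_
    filter_upwards with g'
    have h4 : a.ψ f c ≤ (frm ζ).nrm (a.T (c * g) f - a.T g' f) + (frm ζ).nrm (a.T g f - a.T g' f) := by
      have h5 : a.ψ f c = (frm ζ).nrm (a.T (c * g) f - a.T g f) := by
        unfold ψ
        rw [← a.nrm_T g (a.T c f - f), map_sub, a.T_T]
      rw [h5]
      refine ((frm ζ).nrm_sub_le _ (a.T g' f) _).trans ?_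
      rw [(frm ζ).nrm_sub_comm (a.T g' f) (a.T g f)]
    have h6 := a.ψ_nonneg f c
    have h7 := (frm ζ).nrm_nonneg (a.T (c * g) f - a.T g' f)
    have h8 := (frm ζ).nrm_nonneg (a.T g f - a.T g' f)
    calc a.ψ f c ^ 2 ≤ ((frm ζ).nrm (a.T (c * g) f - a.T g' f)
          + (frm ζ).nrm (a.T g f - a.T g' f)) ^ 2 := pow_le_pow_left₀ h6 h4 2
      _ ≤ _ := by
        nlinarith [sq_nonneg ((frm ζ).nrm (a.T (c * g) f - a.T g' f)
          - (frm ζ).nrm (a.T g f - a.T g' f))]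
  have hmc : Measurable (fun g : Γ => c * g) := measurable_const_mul c
  have hi1 : Integrable G σ := hGiC.mono_measure h1
  have hi2 : Integrable G (σ.map (c * ·)) := hGiC.mono_measure h2
  have hi3 : Integrable (fun g => G (c * g)) σ := by
    have := (integrable_map_measure hGm.aestronglyMeasurable hmc.aemeasurable).1 hi2
    exact this
  have b1 : ∫ g, G g ∂σ ≤ C * (2 * a.E ν f) := by
    calc ∫ g, G g ∂σ ≤ ∫ g, G g ∂(C • ν) :=
          integral_mono_measure h1 (by filter_upwards with x; exact hG0 x) hGiC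
      _ = C * (2 * a.E ν f) := by
          rw [← hGν]
          have := integral_smul_nnreal_measure (μ := ν) G C
          rw [this]; rfl
  have b2 : ∫ g, G (c * g) ∂σ ≤ C * (2 * a.E ν f) := by
    have h9 : ∫ g, G (c * g) ∂σ = ∫ g, G g ∂(σ.map (c * ·)) :=
      (integral_map hmc.aemeasurable hGm.aestronglyMeasurable).symm
    rw [h9]
    calc ∫ g, G g ∂(σ.map (c * ·)) ≤ ∫ g, G g ∂(C • ν) :=
          integral_mono_measure h2 (by filter_upwards with x; exact hG0 x) hGiC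
      _ = C * (2 * a.E ν f) := by
          rw [← hGν]
          have := integral_smul_nnreal_measure (μ := ν) G C
          rw [this]; rfl
  have h10 : a.ψ f c ^ 2 ≤ ∫ g, (2 * G (c * g) + 2 * G g) ∂σ := by
    have h3 : a.ψ f c ^ 2 = ∫ _ : Γ, a.ψ f c ^ 2 ∂σ := by simp
    rw [h3]
    exact integral_mono (integrable_const _) ((hi3.const_mul 2).add (hi1.const_mul 2)) hpt
  rw [integral_add (hi3.const_mul 2) (hi1.const_mul 2), integral_const_mul,
    integral_const_mul] at h10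
  nlinarith

end PAct

end Pool.Agent.IRS
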