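import Mathlib
import Pool.Agent.IRS.Avg2

/-!
# Two commuting actions
-/

set_option autoImplicit false
set_option linter.unusedSectionVars false

namespace Pool.Agent.IRS

open MeasureTheory

namespace PAct

variable {Γ : Type*} [Group Γ] [MeasurableSpace Γ] [MeasurableInv Γ] {Z : Type*}
  [MeasurableSpace Z] {ζ : Measure Z} [SigmaFinite ζ] (a b : PAct Γ ζ)
  (ν : Measure Γ) [IsProbabilityMeasure ν]

lemma nui_nui : nui (nui ν) = ν := by
  unfold nui
  rw [Measure.map_map measurable_inv measurable_inv]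
  have : ((fun g : Γ => g⁻¹) ∘ fun g => g⁻¹) = id := by ext g; simp
  rw [this, Measure.map_id]

/-- The positive operator `A* A`. -/
noncomputable def P : Module.End ℝ (BL2 ζ) := (a.A (nui ν)) ∘ₗ (a.A ν)

lemma P_apply (f : BL2 ζ) : a.P ν f = a.A (nui ν) (a.A ν f) := rfl

lemma B_P (f h : BL2 ζ) : (frm ζ).B (a.P ν f) h = (frm ζ).B (a.A ν f) (a.A ν h) := by
  rw [P_apply, a.adj (nui ν)]
  simp only [nui_nui]

lemma P_pos : (frm ζ).Pos (a.P ν) := by
  refine ⟨fun f h => ?_, fun f => ?_⟩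
  · rw [B_P, (frm ζ).symm f, B_P, (frm ζ).symm]
  · rw [B_P]; exact (frm ζ).nonneg _

lemma ea_eq (f : BL2 ζ) : CPair.ea (frm ζ) (a.P ν) f = a.E ν f := by
  rw [CPair.ea, B_P, E]

lemma P_pos' : (frm ζ).Pos (1 - a.P ν) := by
  refine ⟨fun f h => ?_, fun f => ?_⟩
  · simp only [LinearMap.sub_apply, Module.End.one_apply, map_sub, (a.P_pos ν).symm f h]
  · have := a.E_nonneg ν f
    rw [← a.ea_eq] at this
    simpa [CPair.ea] using this

/-- The mean of the translates is close to the function. -/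
lemma nrm_A_sub_le (f : BL2 ζ) {S : ℝ} (hS0 : 0 ≤ S) (hS : ∀ᵐ g ∂ν, a.ψ f g ≤ S) :
    (frm ζ).nrm (a.A ν f - f) ≤ S := by
  set x := a.A ν f - f with hx
  have h1 : (frm ζ).nrm x ^ 2 ≤ S * (frm ζ).nrm x := by
    have h2 : (frm ζ).B x x = ∫ g, (frm ζ).B (a.T g f - f) x ∂ν := by
      have h3 : (frm ζ).B x x = (frm ζ).B (a.A ν f) x - (frm ζ).B f x := by
        conv_lhs => rw [hx]
        simp only [map_sub, LinearMap.sub_apply]
        rw [hx]
        simp only [map_sub]
        ring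
      rw [h3, a.B_A ν]
      simp only [map_sub, LinearMap.sub_apply]
      rw [integral_sub (a.B_T_integrable ν f x) (integrable_const _)]
      simp
    rw [(frm ζ).nrm_sq, h2]
    calc ∫ g, (frm ζ).B (a.T g f - f) x ∂ν ≤ ∫ _ : Γ, S * (frm ζ).nrm x ∂ν := by
          refine integral_mono_ae ?_ (integrable_const _) ?_
          · simp only [map_sub, LinearMap.sub_apply]
            exact (a.B_T_integrable ν f x).sub (integrable_const _)
          · filter_upwards [hS] with g hg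
            refine ((frm ζ).le_nrm_mul _ _).trans ?_
            exact mul_le_mul_of_nonneg_right hg ((frm ζ).nrm_nonneg x)
      _ = S * (frm ζ).nrm x := by simp
  by_contra hcon
  push Not at hcon
  have h4 : 0 < (frm ζ).nrm x := lt_of_le_of_lt hS0 hcon
  nlinarith

/-- Displacement of an average. -/
lemma ψ_A_le (f : BL2 ζ) (u : Γ) {S : ℝ} (hS0 : 0 ≤ S)
    (hS : ∀ᵐ g ∂ν, a.ψ f (g * u) + a.ψ f g ≤ S) : a.ψ (a.A ν f) u ≤ S := by
  set x := a.T u (a.A ν f) - a.A ν f with hx
  have hψ : a.ψ (a.A ν f) u = (frm ζ).nrm x := rfl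
  rw [hψ]
  have h1 : (frm ζ).nrm x ^ 2 ≤ S * (frm ζ).nrm x := by
    have h5 : ∀ w : BL2 ζ, (frm ζ).B (a.T u (a.A ν f)) w = ∫ g, (frm ζ).B (a.T (g * u) f) w ∂ν := by
      intro w
      have h6 : (frm ζ).B (a.T u (a.A ν f)) w = (frm ζ).B (a.A ν f) (a.T u⁻¹ w) := by
        rw [← a.T_isom u⁻¹ (a.T u (a.A ν f)) w, a.T_T, mul_inv_cancel, a.T_one]
      rw [h6, a.B_A ν]
      congr 1; ext g
      rw [← a.T_isom u (a.T g f) (a.T u⁻¹ w), a.T_T, a.T_T, inv_mul_cancel, a.T_one]
    have hint : ∀ w : BL2 ζ, Integrable (fun g => (frm ζ).B (a.T (g * u) f) w) ν := by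
      intro w
      refine (a.B_T_integrable ν f (a.T u⁻¹ w)).congr ?_
      filter_upwards with g
      rw [← a.T_isom u (a.T g f) (a.T u⁻¹ w), a.T_T, a.T_T, inv_mul_cancel, a.T_one]
    have h2 : (frm ζ).B x x = ∫ g, (frm ζ).B (a.T (g * u) f - a.T g f) x ∂ν := by
      have h3 : (frm ζ).B x x = (frm ζ).B (a.T u (a.A ν f)) x - (frm ζ).B (a.A ν f) x := by
        conv_lhs => rw [hx]
        simp only [map_sub, LinearMap.sub_apply]
        rw [hx]
        simp only [map_sub]
        ring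
      rw [h3, h5, a.B_A ν]
      simp only [map_sub, LinearMap.sub_apply]
      rw [integral_sub (hint x) (a.B_T_integrable ν f x)]
    rw [(frm ζ).nrm_sq, h2]
    calc ∫ g, (frm ζ).B (a.T (g * u) f - a.T g f) x ∂ν ≤ ∫ _ : Γ, S * (frm ζ).nrm x ∂ν := by
          refine integral_mono_ae ?_ (integrable_const _) ?_
          · simp only [map_sub, LinearMap.sub_apply]
            exact (hint x).sub (a.B_T_integrable ν f x)
          · filter_upwards [hS] with g hg
            refine ((frm ζ).le_nrm_mul _ _).trans ?_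
            exact mul_le_mul_of_nonneg_right ((a.ψ_sub_le f _ _).trans hg) ((frm ζ).nrm_nonneg x)
      _ = S * (frm ζ).nrm x := by simp
  by_contra hcon
  push Not at hcon
  have h4 : 0 < (frm ζ).nrm x := lt_of_le_of_lt hS0 hcon
  nlinarith

section comm

variable {a b} (hab : ∀ g h z, a.τ g (b.τ h z) = b.τ h (a.τ g z))
include hab

lemma T_comm (g h : Γ) (f : BL2 ζ) : a.T g (b.T h f) = b.T h (a.T g f) := by
  apply Subtype.ext; funext z
  simp [hab]

lemma A_T_comm (g : Γ) (f : BL2 ζ) : a.A ν (b.T g f) = b.T g (a.A ν f) := by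
  apply Subtype.ext; funext z
  simp only [A_apply, T_apply, hab]

lemma A_comm (ν' : Measure Γ) [IsProbabilityMeasure ν'] (f : BL2 ζ) :
    a.A ν (b.A ν' f) = b.A ν' (a.A ν f) := by
  apply Subtype.ext; funext z
  simp only [A_apply]
  obtain ⟨M, hM⟩ := bbdd f
  have h1 : Measurable (fun p : Γ × Γ => (f : Z → ℝ) (b.τ p.2 (a.τ p.1 z))) := by
    refine (bmeas f).comp (b.meas.comp (measurable_snd.prodMk ?_))
    exact a.meas.comp (measurable_fst.prodMk measurable_const)
  have h2 := integral_integral_swap (μ := ν) (ν := ν')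
    (f := fun g g' => (f : Z → ℝ) (b.τ g' (a.τ g z)))
    (integrable_of_bdd (ν.prod ν') (f := fun p => (f : Z → ℝ) (b.τ p.2 (a.τ p.1 z))) h1
      fun p => hM _)
  rw [h2]
  simp only [hab]

lemma P_comm : Commute (a.P ν) (b.P ν) := by
  have hba : ∀ g h z, b.τ g (a.τ h z) = a.τ h (b.τ g z) := fun g h z => (hab h g z).symm
  refine LinearMap.ext fun f => ?_
  simp only [Module.End.mul_apply, P_apply]
  rw [A_comm ν hab (nui ν), A_comm (nui ν) hab (nui ν), A_comm ν hab ν, A_comm (nui ν) hab ν]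

lemma cpair : CPair (frm ζ) (a.P ν) (b.P ν) :=
  ⟨a.P_pos ν, a.P_pos' ν, b.P_pos ν, b.P_pos' ν, P_comm ν hab⟩

lemma P_T_comm (g : Γ) (f : BL2 ζ) : a.P ν (b.T g f) = b.T g (a.P ν f) := by
  rw [P_apply, P_apply, A_T_comm ν hab, A_T_comm (nui ν) hab]

/-- Mixed energy bound. -/
lemma E_diff_le (k : Γ) {K : ℝ} (hK : ∀ x : BL2 ζ, a.ψ x k ^ 2 ≤ K * a.E ν x) (h : BL2 ζ) :
    b.E ν (a.T k h - h) ≤ K * CPair.em (frm ζ) (a.P ν) (b.P ν) h := by
  have hba : ∀ g h z, b.τ g (a.τ h z) = a.τ h (b.τ g z) := fun g h z => (hab h g z).symm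
  set L : BL2 ζ →ₗ[ℝ] BL2 ζ := 1 - a.P ν with hL
  have hLs : ∀ x y, (frm ζ).B (L x) y = (frm ζ).B x (L y) := (a.P_pos' ν).symm
  have hLT : ∀ g x, L (b.T g x) = b.T g (L x) := by
    intro g x
    simp only [hL, LinearMap.sub_apply, Module.End.one_apply, map_sub, P_T_comm ν hab]
  have hLE : ∀ x : BL2 ζ, a.E ν x = (frm ζ).B (L x) x := by
    intro x
    rw [← a.ea_eq, CPair.ea]
    simp [hL]
  have e1 := b.E_eq ν (a.T k h - h)
  have e2 := b.dq_int_int ν L hLs hLT h
  have e3 : ∀ g g', (frm ζ).nrm (b.T g (a.T k h - h) - b.T g' (a.T k h - h)) ^ 2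
      ≤ K * (frm ζ).B (L (b.T g h - b.T g' h)) (b.T g h - b.T g' h) := by
    intro g g'
    rw [← hLE]
    have : b.T g (a.T k h - h) - b.T g' (a.T k h - h)
        = a.T k (b.T g h - b.T g' h) - (b.T g h - b.T g' h) := by
      simp only [map_sub, T_comm hab]
      abel
    rw [this]
    exact hK _
  have hI1 := fun g => b.dq_integrable ν LinearMap.id (fun _ _ => rfl) (fun _ _ => rfl)
    (a.T k h - h) g
  have hI1' : ∀ g, Integrable (fun g' =>
      (frm ζ).nrm (b.T g (a.T k h - h) - b.T g' (a.T k h - h)) ^ 2) ν := by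
    intro g
    refine (hI1 g).congr ?_
    filter_upwards with g'
    simp only [LinearMap.id_coe, id_eq, (frm ζ).nrm_sq]
  have hI2 := b.dq_int_integrable ν LinearMap.id (fun _ _ => rfl) (fun _ _ => rfl) (a.T k h - h)
  have hI2' : Integrable (fun g => ∫ g',
      (frm ζ).nrm (b.T g (a.T k h - h) - b.T g' (a.T k h - h)) ^ 2 ∂ν) ν := by
    refine hI2.congr ?_
    filter_upwards with g
    congr 1; ext g'
    simp only [LinearMap.id_coe, id_eq, (frm ζ).nrm_sq]
  have hJ1 := fun g => b.dq_integrable ν L hLs hLT h g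
  have hJ2 := b.dq_int_integrable ν L hLs hLT h
  have e4 : ∫ g, ∫ g', (frm ζ).nrm (b.T g (a.T k h - h) - b.T g' (a.T k h - h)) ^ 2 ∂ν ∂ν
      ≤ K * ∫ g, ∫ g', (frm ζ).B (L (b.T g h - b.T g' h)) (b.T g h - b.T g' h) ∂ν ∂ν := by
    rw [← integral_const_mul]
    refine integral_mono hI2' (hJ2.const_mul K) fun g => ?_
    simp only
    rw [← integral_const_mul]
    exact integral_mono (hI1' g) ((hJ1 g).const_mul K) fun g' => e3 g g'
  rw [e1, e2] at e4
  have e5 : (frm ζ).B (L h) h - (frm ζ).B (L (b.A ν h)) (b.A ν h)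
      = CPair.em (frm ζ) (a.P ν) (b.P ν) h := by
    have e6 : L (b.A ν h) = b.A ν (L h) := by
      simp only [hL, LinearMap.sub_apply, Module.End.one_apply, map_sub, P_apply]
      rw [A_comm ν hab ν, A_comm (nui ν) hab ν]
    rw [e6, ← b.B_P]
    have e7 : (frm ζ).B (b.P ν (L h)) h = (frm ζ).B (L (b.P ν h)) h := by
      have : b.P ν (L h) = L (b.P ν h) := by
        have hc := (P_comm ν hab)
        have h8 := congrArg (fun A : Module.End ℝ (BL2 ζ) => A h) hc.eq
        simp only [Module.End.mul_apply] at h8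
        simp only [hL, LinearMap.sub_apply, Module.End.one_apply, map_sub, h8]
      rw [this]
    rw [e7, CPair.em]
    simp only [hL, LinearMap.sub_apply, Module.End.one_apply, map_sub]
  rw [e5] at e4
  linarith

end comm

end PAct

end Pool.Agent.IRS
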