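import Mathlib

/-!
# The Chabauty space of closed subgroups and the space of closed sets

The Borel sets of the Chabauty topology are generated by the sets `{H | H meets U}`, `U` open.
-/

set_option autoImplicit false

namespace Pool.Agent.IRS

open MeasureTheory Set TopologicalSpace

/-- Closed subsets, with the sigma algebra generated by the sets of closed sets hitting a
given open set. -/
def CL (G : Type*) [TopologicalSpace G] : Type _ := {C : Set G // IsClosed C}

section eff

variable {G : Type*} [TopologicalSpace G]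

/-- Closed sets meeting `U`. -/
def hitC (U : Set G) : Set (CL G) := {C | (C.1 ∩ U).Nonempty}

instance : MeasurableSpace (CL G) := MeasurableSpace.generateFrom {S | ∃ U : Set G, IsOpen U ∧ S = hitC U}

lemma hitC_meas {U : Set G} (hU : IsOpen U) : MeasurableSet (hitC U) :=
  MeasurableSpace.measurableSet_generateFrom ⟨U, hU, rfl⟩

/-- Measurability into the space of closed sets. -/
lemma measurable_to_CL {α : Type*} [MeasurableSpace α] {f : α → CL G}
    (h : ∀ U : Set G, IsOpen U → MeasurableSet {x | ((f x).1 ∩ U).Nonempty}) : Measurable f := by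
  refine measurable_generateFrom ?_
  rintro _ ⟨U, hU, rfl⟩
  exact h U hU

/-- The key measurability statement. -/
lemma hit_prod_meas {M G' : Type*} [TopologicalSpace M] [MeasurableSpace M] [OpensMeasurableSpace M]
    [TopologicalSpace G'] [SecondCountableTopology G] {Φ : M × G → G'} (hΦ : Continuous Φ)
    {U : Set G'} (hU : IsOpen U) :
    MeasurableSet {p : M × CL G | ∃ c ∈ p.2.1, Φ (p.1, c) ∈ U} := by
  have h1 : {p : M × CL G | ∃ c ∈ p.2.1, Φ (p.1, c) ∈ U}
      = ⋃ B ∈ countableBasis G,
        (interior {m : M | ∀ c ∈ B, Φ (m, c) ∈ U}) ×ˢ (hitC B) := by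
    ext ⟨m, C⟩
    simp only [mem_ofPred_eq, mem_iUnion, mem_prod]
    constructor
    · rintro ⟨c, hc, hcU⟩
      have h2 : Φ ⁻¹' U ∈ nhds (m, c) := (hU.preimage hΦ).mem_nhds hcU
      rw [mem_nhds_prod_iff'] at h2
      obtain ⟨O, V, hO, hmO, hV, hcV, hOV⟩ := h2
      obtain ⟨B, hB, hcB, hBV⟩ := (isBasis_countableBasis G).exists_subset_of_mem_open hcV hV
      refine ⟨B, hB, ?_, ⟨c, hc, hcB⟩⟩
      rw [mem_interior]
      exact ⟨O, fun m' hm' c' hc' => hOV ⟨hm', hBV hc'⟩, hO, hmO⟩
    · rintro ⟨B, hB, hm, ⟨c, hc, hcB⟩⟩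
      exact ⟨c, hc, interior_subset hm c hcB⟩
  rw [h1]
  refine MeasurableSet.biUnion (countable_countableBasis G) fun B hB => ?_
  exact isOpen_interior.measurableSet.prod (hitC_meas (isOpen_of_mem_countableBasis hB))

end eff

section chab

variable (G : Type*) [Group G] [TopologicalSpace G]

/-- The sets of closed subgroups meeting `U`. -/
def hitS {G : Type*} [Group G] [TopologicalSpace G] (U : Set G) : Set (ClosedSubgroup G) :=
  {H | ((H : Set G) ∩ U).Nonempty}

/-- The sets of closed subgroups disjoint from `K`. -/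
def missS {G : Type*} [Group G] [TopologicalSpace G] (K : Set G) : Set (ClosedSubgroup G) :=
  {H | Disjoint (H : Set G) K}

/-- The Chabauty topology: a subbasis is given by the sets of closed subgroups meeting a given
open set and the sets of closed subgroups disjoint from a given compact set. -/
@[reducible] def chabauty : TopologicalSpace (ClosedSubgroup G) :=
  TopologicalSpace.generateFrom
    ({S | ∃ U : Set G, IsOpen U ∧ S = hitS U} ∪ {S | ∃ K : Set G, IsCompact K ∧ S = missS K})

/-- Closed subgroups carry the Borel sigma algebra of the Chabauty topology. -/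
instance csMS : MeasurableSpace (ClosedSubgroup G) := @borel _ (chabauty G)

variable {G}

lemma hitS_meas {U : Set G} (hU : IsOpen U) : MeasurableSet (hitS U) := by
  apply MeasurableSpace.measurableSet_generateFrom
  exact TopologicalSpace.isOpen_generateFrom_of_mem (Or.inl ⟨U, hU, rfl⟩)

/-- The Borel sets of the Chabauty topology are generated by the hitting sets. -/
theorem chab_eq [SecondCountableTopology G] [LocallyCompactSpace G] [T2Space G] :
    csMS G = MeasurableSpace.generateFrom {S | ∃ U : Set G, IsOpen U ∧ S = hitS U} := by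
  set 𝓔 := MeasurableSpace.generateFrom {S | ∃ U : Set G, IsOpen U ∧ S = hitS U} with h𝓔
  -- finite unions of basis elements
  set 𝓕 : Set (Set G) := {V | ∃ F : Set (Set G), F ⊆ countableBasis G ∧ F.Finite ∧ V = ⋃₀ F} with h𝓕
  have h𝓕c : 𝓕.Countable := by
    have h1 : {F : Set (Set G) | F.Finite ∧ F ⊆ countableBasis G}.Countable :=
      Set.countable_ofPred_finite_subset (countable_countableBasis G)
    refine (h1.image (fun F => ⋃₀ F)).mono ?_
    rintro V ⟨F, hF1, hF2, rfl⟩
    exact ⟨F, ⟨hF2, hF1⟩, rfl⟩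
  have h𝓕o : ∀ V ∈ 𝓕, IsOpen V := by
    rintro V ⟨F, hF1, _, rfl⟩
    exact isOpen_sUnion fun s hs => isOpen_of_mem_countableBasis (hF1 hs)
  -- compact sets inside open sets
  have hcov : ∀ K O : Set G, IsCompact K → IsOpen O → K ⊆ O →
      ∃ V ∈ 𝓕, K ⊆ V ∧ closure V ⊆ O ∧ IsCompact (closure V) := by
    intro K O hK hO hKO
    obtain ⟨L, hL, hKL, hLO⟩ := exists_compact_between hK hO hKO
    have h1 : ∀ x ∈ K, ∃ B ∈ countableBasis G, x ∈ B ∧ B ⊆ interior L := fun x hx =>
      (isBasis_countableBasis G).exists_subset_of_mem_open (hKL hx) isOpen_interior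
    choose! B hB hxB hBL using h1
    obtain ⟨t, hKt⟩ := hK.elim_nhds_subcover' (fun x hx => B x)
      (fun x hx => (isOpen_of_mem_countableBasis (hB x hx)).mem_nhds (hxB x hx))
    refine ⟨⋃₀ ((fun x : K => B x) '' t), ⟨_, ?_, (t.finite_toSet.image _), rfl⟩, ?_, ?_, ?_⟩
    · rintro _ ⟨x, _, rfl⟩
      exact hB x.1 x.2
    · refine hKt.trans ?_
      intro y hy
      simp only [mem_iUnion] at hy
      obtain ⟨x, hx, hy⟩ := hy
      exact ⟨_, ⟨x, hx, rfl⟩, hy⟩
    · have : ⋃₀ ((fun x : K => B x) '' t) ⊆ L := by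
        rintro y ⟨_, ⟨x, _, rfl⟩, hy⟩
        exact interior_subset (hBL x.1 x.2 hy)
      exact (closure_minimal this hL.isClosed).trans hLO
    · have : ⋃₀ ((fun x : K => B x) '' t) ⊆ L := by
        rintro y ⟨_, ⟨x, _, rfl⟩, hy⟩
        exact interior_subset (hBL x.1 x.2 hy)
      exact hL.of_isClosed_subset isClosed_closure (closure_minimal this hL.isClosed)
  -- the countable subbasis
  set 𝓢 : Set (Set (ClosedSubgroup G)) :=
    (hitS '' countableBasis G) ∪ ((fun V => missS (closure V)) '' {V ∈ 𝓕 | IsCompact (closure V)})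
    with h𝓢
  have h𝓢c : 𝓢.Countable := ((countable_countableBasis G).image _).union
    ((h𝓕c.mono (sep_subset _ _)).image _)
  have htop : chabauty G = TopologicalSpace.generateFrom 𝓢 := by
    apply le_antisymm
    · apply le_generateFrom
      rintro S (⟨B, hB, rfl⟩ | ⟨V, ⟨hV, hVc⟩, rfl⟩)
      · exact TopologicalSpace.isOpen_generateFrom_of_mem
          (Or.inl ⟨B, isOpen_of_mem_countableBasis hB, rfl⟩)
      · exact TopologicalSpace.isOpen_generateFrom_of_mem (Or.inr ⟨closure V, hVc, rfl⟩)
    · apply le_generateFrom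
      rintro S (⟨U, hU, rfl⟩ | ⟨K, hK, rfl⟩)
      · have : hitS U = ⋃₀ {S | ∃ B ∈ countableBasis G, B ⊆ U ∧ S = hitS B} := by
          ext H
          constructor
          · rintro ⟨x, hx, hxU⟩
            obtain ⟨B, hB, hxB, hBU⟩ := (isBasis_countableBasis G).exists_subset_of_mem_open hxU hU
            exact ⟨_, ⟨B, hB, hBU, rfl⟩, ⟨x, hx, hxB⟩⟩
          · rintro ⟨_, ⟨B, hB, hBU, rfl⟩, ⟨x, hx, hxB⟩⟩
            exact ⟨x, hx, hBU hxB⟩
        rw [this]
        refine @isOpen_sUnion _ (TopologicalSpace.generateFrom 𝓢) _ ?_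
        rintro _ ⟨B, hB, _, rfl⟩
        exact TopologicalSpace.isOpen_generateFrom_of_mem (Or.inl ⟨B, hB, rfl⟩)
      · have : missS K = ⋃₀ {S | ∃ V ∈ 𝓕, IsCompact (closure V) ∧ K ⊆ V ∧ S = missS (closure V)} := by
          ext H
          constructor
          · intro hH
            have hH' : Disjoint (H : Set G) K := hH
            have h2 : K ⊆ (H : Set G)ᶜ := fun x hx hxH => Set.disjoint_left.1 hH' hxH hx
            obtain ⟨V, hV, hKV, hVH, hVc⟩ := hcov K _ hK (H.isClosed'.isOpen_compl) h2
            refine ⟨_, ⟨V, hV, hVc, hKV, rfl⟩, ?_⟩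
            change Disjoint (H : Set G) (closure V)
            exact Set.disjoint_left.2 fun x hx hxV => hVH hxV hx
          · rintro ⟨_, ⟨V, hV, hVc, hKV, rfl⟩, hH⟩
            have hH' : Disjoint (H : Set G) (closure V) := hH
            exact hH'.mono_right (hKV.trans subset_closure)
        rw [this]
        refine @isOpen_sUnion _ (TopologicalSpace.generateFrom 𝓢) _ ?_
        rintro _ ⟨V, hV, hVc, _, rfl⟩
        exact TopologicalSpace.isOpen_generateFrom_of_mem (Or.inr ⟨V, ⟨hV, hVc⟩, rfl⟩)
  have hsc : @SecondCountableTopology _ (chabauty G) :=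
    @SecondCountableTopology.mk _ (chabauty G) ⟨𝓢, h𝓢c, htop⟩
  have hb : csMS G = MeasurableSpace.generateFrom 𝓢 :=
    @borel_eq_generateFrom_of_subbasis _ 𝓢 (chabauty G) hsc htop
  apply le_antisymm
  · rw [hb]
    apply MeasurableSpace.generateFrom_le
    rintro S (⟨B, hB, rfl⟩ | ⟨V, ⟨hV, hVc⟩, rfl⟩)
    · exact MeasurableSpace.measurableSet_generateFrom ⟨B, isOpen_of_mem_countableBasis hB, rfl⟩
    · have : missS (closure V) = ⋃₀ {S | ∃ W ∈ 𝓕, closure V ⊆ W ∧ S = (hitS W)ᶜ} := by
        ext H
        constructor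
        · intro hH
          have hH' : Disjoint (H : Set G) (closure V) := hH
          have h2 : closure V ⊆ (H : Set G)ᶜ := fun x hx hxH => Set.disjoint_left.1 hH' hxH hx
          obtain ⟨W, hW, hKW, hWH, _⟩ := hcov _ _ hVc (H.isClosed'.isOpen_compl) h2
          refine ⟨_, ⟨W, hW, hKW, rfl⟩, ?_⟩
          rintro ⟨x, hx, hxW⟩
          exact hWH (subset_closure hxW) hx
        · rintro ⟨_, ⟨W, hW, hVW, rfl⟩, hH⟩
          change Disjoint (H : Set G) (closure V)
          exact Set.disjoint_left.2 fun x hx hxV => hH ⟨x, hx, hVW hxV⟩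
      simp only
      rw [this]
      refine @MeasurableSet.sUnion _ 𝓔 _ ?_ ?_
      · refine (h𝓕c.image (fun W => (hitS W : Set (ClosedSubgroup G))ᶜ)).mono ?_
        rintro _ ⟨W, hW, _, rfl⟩
        exact ⟨W, hW, rfl⟩
      · rintro _ ⟨W, hW, _, rfl⟩
        have h5 : MeasurableSet[𝓔] (hitS W) :=
          MeasurableSpace.measurableSet_generateFrom ⟨W, h𝓕o W hW, rfl⟩
        exact h5.compl
  · apply MeasurableSpace.generateFrom_le
    rintro S ⟨U, hU, rfl⟩
    exact hitS_meas hU

/-- Measurability into the space of closed subgroups. -/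
lemma measurable_to_CS [SecondCountableTopology G] [LocallyCompactSpace G] [T2Space G]
    {α : Type*} [MeasurableSpace α] {f : α → ClosedSubgroup G}
    (h : ∀ U : Set G, IsOpen U → MeasurableSet {x | ((f x : Set G) ∩ U).Nonempty}) :
    Measurable f := by
  have h1 : Measurable[_, MeasurableSpace.generateFrom {S | ∃ U : Set G, IsOpen U ∧ S = hitS U}] f := by
    refine measurable_generateFrom ?_
    rintro _ ⟨U, hU, rfl⟩
    exact h U hU
  rw [← chab_eq] at h1
  exact h1

/-- A closed subgroup as a closed set. -/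
def toCL (H : ClosedSubgroup G) : CL G := ⟨(H : Set G), H.isClosed'⟩

lemma measurable_toCL : Measurable (toCL : ClosedSubgroup G → CL G) :=
  measurable_to_CL fun _ hU => hitS_meas hU

end chab

end Pool.Agent.IRS
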