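import Mathlib

/-!
# The group SL(2,R): norm, unipotents, generation with logarithmic length
-/

set_option autoImplicit false

namespace Pool.Agent.IRS

open Matrix

/-- The group SL(2,R). -/
abbrev SL2R := Matrix.SpecialLinearGroup (Fin 2) ℝ

/-- Sum of the absolute values of the entries. -/
def nM (X : Matrix (Fin 2) (Fin 2) ℝ) : ℝ := |X 0 0| + |X 0 1| + |X 1 0| + |X 1 1|

/-- The norm on SL(2,R). -/
def nS (g : SL2R) : ℝ := nM (g : Matrix (Fin 2) (Fin 2) ℝ)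

lemma nM_nonneg (X : Matrix (Fin 2) (Fin 2) ℝ) : 0 ≤ nM X := by unfold nM; positivity

lemma nM_mul_le (X Y : Matrix (Fin 2) (Fin 2) ℝ) : nM (X * Y) ≤ nM X * nM Y := by
  unfold nM
  simp only [Matrix.mul_apply, Fin.sum_univ_two]
  have h1 := abs_add_le (X 0 0 * Y 0 0) (X 0 1 * Y 1 0)
  have h2 := abs_add_le (X 0 0 * Y 0 1) (X 0 1 * Y 1 1)
  have h3 := abs_add_le (X 1 0 * Y 0 0) (X 1 1 * Y 1 0)
  have h4 := abs_add_le (X 1 0 * Y 0 1) (X 1 1 * Y 1 1)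
  simp only [abs_mul] at h1 h2 h3 h4
  have p1 : 0 ≤ |X 0 0| := abs_nonneg _
  have p2 : 0 ≤ |X 0 1| := abs_nonneg _
  have p3 : 0 ≤ |X 1 0| := abs_nonneg _
  have p4 : 0 ≤ |X 1 1| := abs_nonneg _
  have q1 : 0 ≤ |Y 0 0| := abs_nonneg _
  have q2 : 0 ≤ |Y 0 1| := abs_nonneg _
  have q3 : 0 ≤ |Y 1 0| := abs_nonneg _
  have q4 : 0 ≤ |Y 1 1| := abs_nonneg _
  have r1 := mul_nonneg p1 q3
  have r2 := mul_nonneg p1 q4
  have r3 := mul_nonneg p2 q1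
  have r4 := mul_nonneg p2 q2
  have r5 := mul_nonneg p3 q3
  have r6 := mul_nonneg p3 q4
  have r7 := mul_nonneg p4 q1
  have r8 := mul_nonneg p4 q2
  nlinarith

lemma nM_sub_le (X Y : Matrix (Fin 2) (Fin 2) ℝ) : nM X ≤ nM Y + nM (X - Y) := by
  unfold nM
  simp only [Matrix.sub_apply]
  have h1 := abs_add_le (Y 0 0) (X 0 0 - Y 0 0)
  have h2 := abs_add_le (Y 0 1) (X 0 1 - Y 0 1)
  have h3 := abs_add_le (Y 1 0) (X 1 0 - Y 1 0)
  have h4 := abs_add_le (Y 1 1) (X 1 1 - Y 1 1)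
  simp only [add_sub_cancel] at h1 h2 h3 h4
  linarith

lemma nM_sub_comm (X Y : Matrix (Fin 2) (Fin 2) ℝ) : nM (X - Y) = nM (Y - X) := by
  unfold nM
  simp only [Matrix.sub_apply]
  rw [abs_sub_comm (X 0 0), abs_sub_comm (X 0 1), abs_sub_comm (X 1 0), abs_sub_comm (X 1 1)]

lemma abs_nM_sub (X Y : Matrix (Fin 2) (Fin 2) ℝ) : |nM X - nM Y| ≤ nM (X - Y) := by
  rw [abs_le]
  have h1 := nM_sub_le X Y
  have h2 := nM_sub_le Y X
  rw [nM_sub_comm Y X] at h2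
  constructor <;> linarith

lemma nS_mul_le (g h : SL2R) : nS (g * h) ≤ nS g * nS h := by
  unfold nS
  rw [Matrix.SpecialLinearGroup.coe_mul]
  exact nM_mul_le _ _

lemma nS_inv (g : SL2R) : nS g⁻¹ = nS g := by
  unfold nS nM
  rw [Matrix.SpecialLinearGroup.coe_inv, Matrix.adjugate_fin_two]
  simp
  ring

lemma det_eq (g : SL2R) : g 0 0 * g 1 1 - g 0 1 * g 1 0 = 1 := by
  have := g.2
  rw [Matrix.det_fin_two] at this
  exact this

lemma two_le_nS (g : SL2R) : 2 ≤ nS g := by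
  have h := det_eq g
  have h1 : 1 ≤ |g 0 0| * |g 1 1| + |g 0 1| * |g 1 0| := by
    calc (1 : ℝ) = |g 0 0 * g 1 1 - g 0 1 * g 1 0| := by rw [h]; simp
      _ ≤ |g 0 0 * g 1 1| + |g 0 1 * g 1 0| := abs_sub _ _
      _ = _ := by rw [abs_mul, abs_mul]
  have p1 : 0 ≤ |g 0 0| := abs_nonneg _
  have p2 : 0 ≤ |g 0 1| := abs_nonneg _
  have p3 : 0 ≤ |g 1 0| := abs_nonneg _
  have p4 : 0 ≤ |g 1 1| := abs_nonneg _
  have h2 : (2 : ℝ) ^ 2 ≤ (nS g) ^ 2 := by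
    change (2 : ℝ) ^ 2 ≤ (|g 0 0| + |g 0 1| + |g 1 0| + |g 1 1|) ^ 2
    nlinarith [sq_nonneg (|g 0 0| - |g 1 1|), sq_nonneg (|g 0 1| - |g 1 0|), mul_nonneg p1 p2,
      mul_nonneg p1 p3, mul_nonneg p4 p2, mul_nonneg p4 p3]
  exact le_of_sq_le_sq h2 (nM_nonneg _)

lemma nS_pos (g : SL2R) : 0 < nS g := by linarith [two_le_nS g]

/-- Upper unipotent. -/
def uu (x : ℝ) : SL2R := ⟨!![1, x; 0, 1], by simp [Matrix.det_fin_two]⟩
/-- Lower unipotent. -/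
def vv (x : ℝ) : SL2R := ⟨!![1, 0; x, 1], by simp [Matrix.det_fin_two]⟩
/-- The diagonal element diag(2, 1/2). -/
noncomputable def aa : SL2R := ⟨!![2, 0; 0, 1/2], by simp [Matrix.det_fin_two]⟩

lemma SL_ext {g h : SL2R} (h00 : g 0 0 = h 0 0) (h01 : g 0 1 = h 0 1) (h10 : g 1 0 = h 1 0)
    (h11 : g 1 1 = h 1 1) : g = h := by
  apply Matrix.SpecialLinearGroup.ext
  intro i j
  fin_cases i <;> fin_cases j <;> assumption

lemma SL_mul_apply (g h : SL2R) (i j : Fin 2) :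
    (g * h) i j = g i 0 * h 0 j + g i 1 * h 1 j := by
  change (((g * h : SL2R) : Matrix (Fin 2) (Fin 2) ℝ)) i j = _
  rw [Matrix.SpecialLinearGroup.coe_mul, Matrix.mul_apply, Fin.sum_univ_two]

@[simp] lemma uu00 (x : ℝ) : uu x 0 0 = 1 := rfl
@[simp] lemma uu01 (x : ℝ) : uu x 0 1 = x := rfl
@[simp] lemma uu10 (x : ℝ) : uu x 1 0 = 0 := rfl
@[simp] lemma uu11 (x : ℝ) : uu x 1 1 = 1 := rfl
@[simp] lemma vv00 (x : ℝ) : vv x 0 0 = 1 := rfl
@[simp] lemma vv01 (x : ℝ) : vv x 0 1 = 0 := rfl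
@[simp] lemma vv10 (x : ℝ) : vv x 1 0 = x := rfl
@[simp] lemma vv11 (x : ℝ) : vv x 1 1 = 1 := rfl
@[simp] lemma aa00 : aa 0 0 = 2 := rfl
@[simp] lemma aa01 : aa 0 1 = 0 := rfl
@[simp] lemma aa10 : aa 1 0 = 0 := rfl
@[simp] lemma aa11 : aa 1 1 = 1 / 2 := rfl

lemma uu_add (x y : ℝ) : uu (x + y) = uu x * uu y := by
  apply SL_ext <;> simp [SL_mul_apply, add_comm]

lemma vv_add (x y : ℝ) : vv (x + y) = vv x * vv y := by
  apply SL_ext <;> simp [SL_mul_apply]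

lemma uu_zero : uu 0 = 1 := by apply SL_ext <;> simp
lemma vv_zero : vv 0 = 1 := by apply SL_ext <;> simp

lemma uu_neg (x : ℝ) : uu (-x) = (uu x)⁻¹ := by
  rw [eq_inv_iff_mul_eq_one, ← uu_add]; simp [uu_zero]

lemma vv_neg (x : ℝ) : vv (-x) = (vv x)⁻¹ := by
  rw [eq_inv_iff_mul_eq_one, ← vv_add]; simp [vv_zero]

lemma aa_uu (x : ℝ) : aa * uu x = uu (4 * x) * aa := by
  apply SL_ext <;> simp [SL_mul_apply]
  ring

lemma aa_vv (x : ℝ) : vv (4 * x) * aa⁻¹ = aa⁻¹ * vv x := by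
  rw [← mul_right_inj aa, ← mul_assoc, mul_inv_cancel_left, ← mul_left_inj aa]
  rw [inv_mul_cancel_right]
  apply SL_ext <;> simp [SL_mul_apply]
  ring

lemma aa_eq : aa = uu 2 * vv (-1/2) * uu 2 * (uu (-1) * vv 1 * uu (-1)) := by
  apply SL_ext <;> simp [SL_mul_apply] <;> norm_num

lemma nS_uu (x : ℝ) : nS (uu x) = 2 + |x| := by
  simp only [nS, nM]
  change |(1 : ℝ)| + |x| + |(0 : ℝ)| + |(1 : ℝ)| = _
  norm_num; ring

lemma nS_vv (x : ℝ) : nS (vv x) = 2 + |x| := by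
  simp only [nS, nM]
  change |(1 : ℝ)| + |(0 : ℝ)| + |x| + |(1 : ℝ)| = _
  norm_num; ring

lemma nS_aa : nS aa = 5 / 2 := by
  simp only [nS, nM]
  change |(2 : ℝ)| + |(0 : ℝ)| + |(0 : ℝ)| + |(1 / 2 : ℝ)| = _
  norm_num

/-- The commutator identity for the upper unipotents: `u(x) = [a, u(x/3)]`. -/
lemma uu_comm (x : ℝ) : uu x * (uu (x / 3) * aa) = aa * uu (x / 3) := by
  rw [← mul_assoc, ← uu_add, aa_uu]
  congr 2; ring

/-- The commutator identity for the lower unipotents. -/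
lemma vv_comm (x : ℝ) : vv x * (vv (x / 3) * aa⁻¹) = aa⁻¹ * vv (x / 3) := by
  rw [← mul_assoc, ← vv_add, ← aa_vv]
  congr 2; ring

section gen

variable {ψ : SL2R → ℝ} {M : ℝ}

/-- A subadditive symmetric function bounded on small unipotents. -/
structure SubLen (ψ : SL2R → ℝ) (M : ℝ) : Prop where
  nonneg : ∀ g, 0 ≤ ψ g
  mul : ∀ g h, ψ (g * h) ≤ ψ g + ψ h
  inv : ∀ g, ψ g⁻¹ = ψ g
  uu : ∀ x : ℝ, |x| ≤ 1 → ψ (uu x) ≤ M
  vv : ∀ x : ℝ, |x| ≤ 1 → ψ (vv x) ≤ M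

variable (h : SubLen ψ M)
include h

lemma SubLen.M_nonneg : 0 ≤ M := (h.nonneg _).trans (h.uu 0 (by simp))

lemma SubLen.aa_le : ψ aa ≤ 8 * M := by
  have e1 : ψ (Pool.Agent.IRS.uu 2) ≤ 2 * M := by
    have : Pool.Agent.IRS.uu 2 = Pool.Agent.IRS.uu 1 * Pool.Agent.IRS.uu 1 := by
      rw [← uu_add]; norm_num
    rw [this]
    have := h.mul (Pool.Agent.IRS.uu 1) (Pool.Agent.IRS.uu 1)
    have := h.uu 1 (by simp)
    linarith
  have e2 := h.vv (-1/2) (by norm_num [abs_of_neg])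
  have e3 := h.uu (-1) (by simp)
  have e4 := h.vv 1 (by simp)
  rw [aa_eq]
  have f1 := h.mul (Pool.Agent.IRS.uu 2 * Pool.Agent.IRS.vv (-1/2) * Pool.Agent.IRS.uu 2)
    (Pool.Agent.IRS.uu (-1) * Pool.Agent.IRS.vv 1 * Pool.Agent.IRS.uu (-1))
  have f2 := h.mul (Pool.Agent.IRS.uu 2 * Pool.Agent.IRS.vv (-1/2)) (Pool.Agent.IRS.uu 2)
  have f3 := h.mul (Pool.Agent.IRS.uu 2) (Pool.Agent.IRS.vv (-1/2))
  have f4 := h.mul (Pool.Agent.IRS.uu (-1) * Pool.Agent.IRS.vv 1) (Pool.Agent.IRS.uu (-1))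
  have f5 := h.mul (Pool.Agent.IRS.uu (-1)) (Pool.Agent.IRS.vv 1)
  linarith

lemma SubLen.aa_pow_le (n : ℕ) : ψ (aa ^ n) ≤ (8 * n + 1) * M := by
  have hM := h.M_nonneg
  induction n with
  | zero =>
    have := h.uu 0 (by simp)
    rw [uu_zero] at this
    simpa using this
  | succ n ih =>
    rw [pow_succ]
    have h1 := h.mul (aa ^ n) aa
    have h2 := h.aa_le
    push_cast
    nlinarith

omit h in
lemma aa_pow_uu (n : ℕ) (x : ℝ) :
    Pool.Agent.IRS.uu x = aa ^ n * Pool.Agent.IRS.uu (x / 4 ^ n) * (aa ^ n)⁻¹ := by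
  induction n generalizing x with
  | zero => simp
  | succ n ih =>
    have h1 : Pool.Agent.IRS.uu x = aa * Pool.Agent.IRS.uu (x / 4) * aa⁻¹ := by
      rw [aa_uu, mul_inv_cancel_right]; congr 1; ring
    rw [h1, ih (x / 4), pow_succ', _root_.mul_inv_rev]
    have : x / 4 / 4 ^ n = x / 4 ^ (n + 1) := by rw [pow_succ]; field_simp
    rw [this]
    group

omit h in
lemma aa_pow_vv (n : ℕ) (x : ℝ) :
    Pool.Agent.IRS.vv x = (aa ^ n)⁻¹ * Pool.Agent.IRS.vv (x / 4 ^ n) * aa ^ n := by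
  induction n generalizing x with
  | zero => simp
  | succ n ih =>
    have h1 : Pool.Agent.IRS.vv x = aa⁻¹ * Pool.Agent.IRS.vv (x / 4) * aa := by
      rw [← aa_vv, inv_mul_cancel_right]; congr 1; ring
    rw [h1, ih (x / 4), pow_succ, _root_.mul_inv_rev]
    have : x / 4 / 4 ^ n = x / 4 ^ (n + 1) := by rw [pow_succ]; field_simp
    rw [this]
    group

lemma SubLen.uu_le (n : ℕ) (x : ℝ) (hx : |x| ≤ 4 ^ n) :
    ψ (Pool.Agent.IRS.uu x) ≤ (16 * n + 3) * M := by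
  rw [aa_pow_uu n x]
  have h0 : |x / 4 ^ n| ≤ 1 := by
    rw [abs_div, abs_of_pos (by positivity : (0 : ℝ) < 4 ^ n), div_le_one (by positivity)]
    exact hx
  have h1 := h.uu _ h0
  have h2 := h.aa_pow_le n
  have h3 := h.inv (aa ^ n)
  have h4 := h.mul (aa ^ n * Pool.Agent.IRS.uu (x / 4 ^ n)) (aa ^ n)⁻¹
  have h5 := h.mul (aa ^ n) (Pool.Agent.IRS.uu (x / 4 ^ n))
  linarith

lemma SubLen.vv_le (n : ℕ) (x : ℝ) (hx : |x| ≤ 4 ^ n) :
    ψ (Pool.Agent.IRS.vv x) ≤ (16 * n + 3) * M := by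
  rw [aa_pow_vv n x]
  have h0 : |x / 4 ^ n| ≤ 1 := by
    rw [abs_div, abs_of_pos (by positivity : (0 : ℝ) < 4 ^ n), div_le_one (by positivity)]
    exact hx
  have h1 := h.vv _ h0
  have h2 := h.aa_pow_le n
  have h3 := h.inv (aa ^ n)
  have h4 := h.mul ((aa ^ n)⁻¹ * Pool.Agent.IRS.vv (x / 4 ^ n)) (aa ^ n)
  have h5 := h.mul (aa ^ n)⁻¹ (Pool.Agent.IRS.vv (x / 4 ^ n))
  linarith

omit h in
/-- Factorisation into three unipotents. -/
lemma fact3 (g : SL2R) (hc : g 1 0 ≠ 0) :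
    g = Pool.Agent.IRS.uu ((g 0 0 - 1) / g 1 0) * Pool.Agent.IRS.vv (g 1 0)
      * Pool.Agent.IRS.uu ((g 1 1 - 1) / g 1 0) := by
  have hd := det_eq g
  apply SL_ext
  · simp [SL_mul_apply]; field_simp; ring
  · simp [SL_mul_apply]; field_simp; linarith
  · simp [SL_mul_apply]
  · simp [SL_mul_apply]; field_simp; ring

omit h in
/-- The exponent. -/
lemma exponent (N : ℝ) (hN2 : 2 ≤ N) :
    ∃ n : ℕ, 16 * N ^ 2 ≤ 4 ^ n ∧ (n : ℝ) ≤ 3 + 1.5 * Real.log N := by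
  have hNpos : 0 < N := by linarith
  have hL0 : 0 ≤ Real.log N := Real.log_nonneg (by linarith)
  have hlog4 : Real.log 4 = 2 * Real.log 2 := by
    rw [show (4 : ℝ) = 2 ^ 2 by norm_num, Real.log_pow]; norm_num
  have hlog2 : 0.69 < Real.log 2 := by
    have := Real.log_two_gt_d9; linarith
  have hlog16 : Real.log 16 = 4 * Real.log 2 := by
    rw [show (16 : ℝ) = 2 ^ 4 by norm_num, Real.log_pow]; norm_num
  have h1 : Real.log (16 * N ^ 2) = 4 * Real.log 2 + 2 * Real.log N := by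
    rw [Real.log_mul (by norm_num) (by positivity), Real.log_pow, hlog16]
    norm_num
  have hpos4 : 0 < Real.log 4 := by rw [hlog4]; linarith
  refine ⟨⌈Real.log (16 * N ^ 2) / Real.log 4⌉₊, ?_, ?_⟩
  · have hn1 : Real.log (16 * N ^ 2) / Real.log 4 ≤ (⌈Real.log (16 * N ^ 2) / Real.log 4⌉₊ : ℝ) :=
      Nat.le_ceil _
    rw [div_le_iff₀ hpos4] at hn1
    have h2 : Real.log (16 * N ^ 2) ≤ Real.log (4 ^ ⌈Real.log (16 * N ^ 2) / Real.log 4⌉₊) := by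
      rw [Real.log_pow]; exact hn1
    exact (Real.log_le_log_iff (by positivity) (by positivity)).1 h2
  · have h2 : (⌈Real.log (16 * N ^ 2) / Real.log 4⌉₊ : ℝ) < Real.log (16 * N ^ 2) / Real.log 4 + 1 :=
      Nat.ceil_lt_add_one (div_nonneg (by rw [h1]; linarith) hpos4.le)
    have h3 : Real.log (16 * N ^ 2) / Real.log 4 ≤ 2 + 1.5 * Real.log N := by
      rw [div_le_iff₀ hpos4, h1, hlog4]
      nlinarith
    linarith

omit h in
/-- The choice of the shear. -/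
lemma shear (g : SL2R) : ∃ t : ℝ, |t| ≤ 1 ∧ 1 / (4 * nS g) ≤ |g 1 0 + g 1 1 * t| := by
  set N := nS g with hN
  have hN2 : 2 ≤ N := two_le_nS g
  have hNe : N = |g 0 0| + |g 0 1| + |g 1 0| + |g 1 1| := rfl
  have hd := det_eq g
  have p1 : 0 ≤ |g 0 0| := abs_nonneg _
  have p2 : 0 ≤ |g 0 1| := abs_nonneg _
  have p3 : 0 ≤ |g 1 0| := abs_nonneg _
  have p4 : 0 ≤ |g 1 1| := abs_nonneg _
  have hrow : 1 ≤ N * (|g 1 0| + |g 1 1|) := by
    have h1 : (1 : ℝ) ≤ |g 0 0| * |g 1 1| + |g 0 1| * |g 1 0| := by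
      calc (1 : ℝ) = |g 0 0 * g 1 1 - g 0 1 * g 1 0| := by rw [hd]; simp
        _ ≤ |g 0 0 * g 1 1| + |g 0 1 * g 1 0| := abs_sub _ _
        _ = _ := by rw [abs_mul, abs_mul]
    rw [hNe]
    nlinarith [mul_nonneg p1 p3, mul_nonneg p2 p4, mul_nonneg p3 p3, mul_nonneg p3 p4,
      mul_nonneg p4 p4]
  by_cases hc : (|g 1 0| + |g 1 1|) / 4 ≤ |g 1 0|
  · refine ⟨0, by simp, ?_⟩
    rw [mul_zero, add_zero]
    refine le_trans ?_ hc
    rw [div_le_div_iff₀ (by positivity) (by norm_num)]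
    linarith
  · refine ⟨1, by simp, ?_⟩
    push Not at hc
    have h1 : |g 1 1| - |g 1 0| ≤ |g 1 0 + g 1 1 * 1| := by
      have := abs_sub_abs_le_abs_sub (g 1 1) (-(g 1 0))
      rw [abs_neg] at this
      rw [mul_one]
      calc |g 1 1| - |g 1 0| ≤ |g 1 1 - -(g 1 0)| := this
        _ = |g 1 0 + g 1 1| := by congr 1; ring
    refine le_trans ?_ h1
    have h2 : (|g 1 0| + |g 1 1|) / 2 ≤ |g 1 1| - |g 1 0| := by linarith
    refine le_trans ?_ h2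
    rw [div_le_div_iff₀ (by positivity) (by norm_num)]
    linarith

omit h in
/-- The size of the parameters. -/
lemma param (g : SL2R) (t : ℝ) (ht1 : |t| ≤ 1) (hct : 1 / (4 * nS g) ≤ |g 1 0 + g 1 1 * t|)
    (g' : SL2R) (hg' : g' = g * Pool.Agent.IRS.vv t) :
    g' 1 0 ≠ 0 ∧ |(g' 0 0 - 1) / g' 1 0| ≤ 16 * (nS g) ^ 2 ∧
      |(g' 1 1 - 1) / g' 1 0| ≤ 16 * (nS g) ^ 2 ∧ |g' 1 0| ≤ 16 * (nS g) ^ 2 := by
  set N := nS g with hN
  have hN2 : 2 ≤ N := two_le_nS g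
  have hNe : N = |g 0 0| + |g 0 1| + |g 1 0| + |g 1 1| := rfl
  have p1 : 0 ≤ |g 0 0| := abs_nonneg _
  have p2 : 0 ≤ |g 0 1| := abs_nonneg _
  have p3 : 0 ≤ |g 1 0| := abs_nonneg _
  have p4 : 0 ≤ |g 1 1| := abs_nonneg _
  have e00 : g' 0 0 = g 0 0 + g 0 1 * t := by simp [hg', SL_mul_apply]
  have e10 : g' 1 0 = g 1 0 + g 1 1 * t := by simp [hg', SL_mul_apply]
  have e11 : g' 1 1 = g 1 1 := by simp [hg', SL_mul_apply]
  have hcpos : 0 < |g' 1 0| := by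
    rw [e10]; exact lt_of_lt_of_le (by positivity) hct
  have hc0 : g' 1 0 ≠ 0 := abs_pos.1 hcpos
  have hcinv : 1 / |g' 1 0| ≤ 4 * N := by
    rw [div_le_iff₀ hcpos, e10]
    rw [div_le_iff₀ (by positivity)] at hct
    linarith
  have b00 : |g' 0 0| ≤ N := by
    rw [e00]
    calc |g 0 0 + g 0 1 * t| ≤ |g 0 0| + |g 0 1 * t| := abs_add_le _ _
      _ ≤ |g 0 0| + |g 0 1| := by
          rw [abs_mul]; nlinarith
      _ ≤ N := by rw [hNe]; linarith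
  have b10 : |g' 1 0| ≤ N := by
    rw [e10]
    calc |g 1 0 + g 1 1 * t| ≤ |g 1 0| + |g 1 1 * t| := abs_add_le _ _
      _ ≤ |g 1 0| + |g 1 1| := by
          rw [abs_mul]; nlinarith
      _ ≤ N := by rw [hNe]; linarith
  have b11 : |g' 1 1| ≤ N := by rw [e11, hNe]; linarith
  refine ⟨hc0, ?_, ?_, b10.trans (by nlinarith)⟩
  · rw [abs_div, div_eq_mul_one_div]
    have : |g' 0 0 - 1| ≤ N + 1 := (abs_sub _ _).trans (by simpa using b00)
    calc |g' 0 0 - 1| * (1 / |g' 1 0|) ≤ (N + 1) * (4 * N) :=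
          mul_le_mul this hcinv (by positivity) (by positivity)
      _ ≤ 16 * N ^ 2 := by nlinarith
  · rw [abs_div, div_eq_mul_one_div]
    have : |g' 1 1 - 1| ≤ N + 1 := (abs_sub _ _).trans (by simpa using b11)
    calc |g' 1 1 - 1| * (1 / |g' 1 0|) ≤ (N + 1) * (4 * N) :=
          mul_le_mul this hcinv (by positivity) (by positivity)
      _ ≤ 16 * N ^ 2 := by nlinarith

/-- Every element has logarithmic length. -/
lemma SubLen.le_log (g : SL2R) : ψ g ≤ 210 * (1 + Real.log (nS g)) * M := by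
  have hM := h.M_nonneg
  have hN2 : 2 ≤ nS g := two_le_nS g
  have hL0 : 0 ≤ Real.log (nS g) := Real.log_nonneg (by linarith)
  obtain ⟨t, ht1, hct⟩ := shear g
  obtain ⟨n, hn2, hn3⟩ := exponent (nS g) hN2
  obtain ⟨hc0, P1, P2, P3⟩ := param g t ht1 hct _ rfl
  have P4 : |(-t)| ≤ 16 * (nS g) ^ 2 := by rw [abs_neg]; nlinarith
  set g' : SL2R := g * Pool.Agent.IRS.vv t with hg'
  have k1 := h.uu_le n _ (P1.trans hn2)
  have k2 := h.uu_le n _ (P2.trans hn2)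
  have k3 := h.vv_le n _ (P3.trans hn2)
  have k4 := h.vv_le n _ (P4.trans hn2)
  have hg : g = g' * Pool.Agent.IRS.vv (-t) := by
    rw [vv_neg, hg', mul_inv_cancel_right]
  have hg2 : ψ g ≤ ψ g' + ψ (Pool.Agent.IRS.vv (-t)) := by
    conv_lhs => rw [hg]
    exact h.mul _ _
  have hg3 := fact3 g' hc0
  have hg4 : ψ g' ≤ ψ (Pool.Agent.IRS.uu ((g' 0 0 - 1) / g' 1 0)) + ψ (Pool.Agent.IRS.vv (g' 1 0))
      + ψ (Pool.Agent.IRS.uu ((g' 1 1 - 1) / g' 1 0)) := by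
    conv_lhs => rw [hg3]
    refine (h.mul _ _).trans ?_
    have := h.mul (Pool.Agent.IRS.uu ((g' 0 0 - 1) / g' 1 0)) (Pool.Agent.IRS.vv (g' 1 0))
    linarith
  have hfin : ψ g ≤ 4 * ((16 * n + 3) * M) := by linarith
  refine hfin.trans ?_
  have : 4 * (16 * (n : ℝ) + 3) ≤ 210 * (1 + Real.log (nS g)) := by linarith
  calc 4 * ((16 * (n : ℝ) + 3) * M) = (4 * (16 * (n : ℝ) + 3)) * M := by ring
    _ ≤ 210 * (1 + Real.log (nS g)) * M := mul_le_mul_of_nonneg_right this hM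

end gen

end Pool.Agent.IRS
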