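import Mathlib
import Pool.Agent.IRS.SL2
import Pool.Agent.IRS.Avg3

/-!
# A left invariant measure on SL(2,R) with polynomial volume growth, and a compactly supported
probability measure
-/

set_option autoImplicit false

namespace Pool.Agent.IRS

open MeasureTheory Matrix

instance : MeasurableSpace SL2R := borel SL2R
instance : BorelSpace SL2R := ⟨rfl⟩

instance : SecondCountableTopology (Matrix (Fin 2) (Fin 2) ℝ) :=
  inferInstanceAs (SecondCountableTopology (Fin 2 → Fin 2 → ℝ))

instance : SecondCountableTopology SL2R :=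
  @TopologicalSpace.Subtype.secondCountableTopology (Matrix (Fin 2) (Fin 2) ℝ) _
    {A : Matrix (Fin 2) (Fin 2) ℝ | A.det = 1} _

lemma measurable_entry (i j : Fin 2) : Measurable (fun g : SL2R => g i j) := by
  apply Continuous.measurable
  have : Continuous (fun g : SL2R => (g : Matrix (Fin 2) (Fin 2) ℝ)) := continuous_subtype_val
  exact this.matrix_elem i j

/-- A map into SL(2,R) is measurable when the entries are. -/
lemma measurable_to_SL {α : Type*} [MeasurableSpace α] {f : α → SL2R}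
    (h : ∀ i j, Measurable (fun x => f x i j)) : Measurable f := by
  have h1 : (borel SL2R) = MeasurableSpace.comap (fun g : SL2R => fun i j => g i j)
      (inferInstance : MeasurableSpace (Fin 2 → Fin 2 → ℝ)) := by
    have h2 : (inferInstance : TopologicalSpace SL2R)
        = TopologicalSpace.induced (fun g : SL2R => fun i j => g i j)
          (inferInstance : TopologicalSpace (Fin 2 → Fin 2 → ℝ)) := rfl
    rw [BorelSpace.measurable_eq (α := Fin 2 → Fin 2 → ℝ), ← borel_comap]
    rfl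
  change @Measurable _ _ _ (borel SL2R) f
  rw [h1, measurable_comap_iff]
  exact measurable_pi_iff.2 fun i => measurable_pi_iff.2 fun j => h i j

lemma measurable_nS : Measurable nS := by
  unfold nS nM
  exact (((measurable_entry 0 0).abs.add (measurable_entry 0 1).abs).add
    (measurable_entry 1 0).abs).add (measurable_entry 1 1).abs

/-- Pairs of columns. -/
abbrev V4 := (Fin 2 → ℝ) × (Fin 2 → ℝ)

/-- The determinant of two columns. -/
def dt (c : V4) : ℝ := c.1 0 * c.2 1 - c.2 0 * c.1 1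

lemma measurable_dt : Measurable dt := by
  unfold dt
  fun_prop

/-- The action on columns. -/
def Lg (g : SL2R) (c : V4) : V4 :=
  (fun i => g i 0 * c.1 0 + g i 1 * c.1 1, fun i => g i 0 * c.2 0 + g i 1 * c.2 1)

lemma dt_Lg (g : SL2R) (c : V4) : dt (Lg g c) = dt c := by
  have := det_eq g
  unfold dt Lg
  simp only
  calc (g 0 0 * c.1 0 + g 0 1 * c.1 1) * (g 1 0 * c.2 0 + g 1 1 * c.2 1)
      - (g 0 0 * c.2 0 + g 0 1 * c.2 1) * (g 1 0 * c.1 0 + g 1 1 * c.1 1)
      = (g 0 0 * g 1 1 - g 0 1 * g 1 0) * (c.1 0 * c.2 1 - c.2 0 * c.1 1) := by ring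
    _ = _ := by rw [this, one_mul]

lemma measurePreserving_Lg (g : SL2R) :
    MeasurePreserving (Lg g) (volume : Measure V4) volume := by
  have h1 : MeasurePreserving (toLin' (g : Matrix (Fin 2) (Fin 2) ℝ))
      (volume : Measure (Fin 2 → ℝ)) volume := by
    refine ⟨?_, ?_⟩
    · exact (LinearMap.continuous_of_finiteDimensional _).measurable
    · have hd : (g : Matrix (Fin 2) (Fin 2) ℝ).det = 1 := g.2
      rw [Real.map_matrix_volume_pi_eq_smul_volume_pi (by rw [hd]; norm_num), hd]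
      simp
  have h2 := h1.prod h1
  have h3 : Lg g = Prod.map (toLin' (g : Matrix (Fin 2) (Fin 2) ℝ))
      (toLin' (g : Matrix (Fin 2) (Fin 2) ℝ)) := by
    ext c i
    · simp [Lg, Matrix.mulVec, dotProduct, Fin.sum_univ_two]
    · simp [Lg, Matrix.mulVec, dotProduct, Fin.sum_univ_two]
  rw [h3]
  exact h2

/-- The cone. -/
def cone : Set V4 := {c | 0 < dt c ∧ dt c ≤ 1}

lemma measurableSet_cone : MeasurableSet cone :=
  (measurableSet_lt measurable_const measurable_dt).inter
    (measurableSet_le measurable_dt measurable_const)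

/-- The normalised matrix. -/
noncomputable def rnm (c : V4) (h : 0 < dt c) : SL2R :=
  ⟨!![c.1 0 / √(dt c), c.2 0 / √(dt c); c.1 1 / √(dt c), c.2 1 / √(dt c)], by
      rw [Matrix.det_fin_two]
      simp only [Matrix.of_apply, Matrix.cons_val', Matrix.cons_val_zero, Matrix.cons_val_one,
        Matrix.cons_val_fin_one]
      have h1 : √(dt c) ^ 2 = dt c := Real.sq_sqrt h.le
      have h2 : √(dt c) ≠ 0 := (Real.sqrt_pos.2 h).ne'
      have h3 : c.1 0 / √(dt c) * (c.2 1 / √(dt c)) - c.2 0 / √(dt c) * (c.1 1 / √(dt c))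
          = (c.1 0 * c.2 1 - c.2 0 * c.1 1) / √(dt c) ^ 2 := by
        field_simp
      rw [h3, h1]
      exact div_self h.ne'⟩

open Classical in
/-- The normalisation. -/
noncomputable def rn (c : V4) : SL2R := if h : 0 < dt c then rnm c h else 1

lemma rn_pos {c : V4} (h : 0 < dt c) : rn c = rnm c h := dif_pos h

lemma rn00 {c : V4} (h : 0 < dt c) : rn c 0 0 = c.1 0 / √(dt c) := by
  rw [rn_pos h]; rfl
lemma rn01 {c : V4} (h : 0 < dt c) : rn c 0 1 = c.2 0 / √(dt c) := by
  rw [rn_pos h]; rfl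
lemma rn10 {c : V4} (h : 0 < dt c) : rn c 1 0 = c.1 1 / √(dt c) := by
  rw [rn_pos h]; rfl
lemma rn11 {c : V4} (h : 0 < dt c) : rn c 1 1 = c.2 1 / √(dt c) := by
  rw [rn_pos h]; rfl

lemma rn_else {c : V4} (h : ¬ 0 < dt c) : rn c = 1 := dif_neg h

lemma measurable_rn : Measurable rn := by
  have hs : MeasurableSet {c : V4 | 0 < dt c} := measurableSet_lt measurable_const measurable_dt
  have hq : Measurable (fun c : V4 => √(dt c)) := measurable_dt.sqrt
  apply measurable_to_SL
  intro i j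
  have key : ∀ (f : V4 → ℝ) (e : ℝ), Measurable f → (∀ c, 0 < dt c → rn c i j = f c) →
      (∀ c, ¬ 0 < dt c → rn c i j = e) → Measurable (fun c => rn c i j) := by
    intro f e hf h1 h2
    classical
    have : (fun c => rn c i j) = fun c => if 0 < dt c then f c else e := by
      ext c
      by_cases hc : 0 < dt c
      · rw [if_pos hc, h1 c hc]
      · rw [if_neg hc, h2 c hc]
    rw [this]
    exact Measurable.ite hs hf measurable_const
  have he : ∀ c, ¬ 0 < dt c → rn c i j = (1 : SL2R) i j := fun c hc => by rw [rn_else hc]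
  fin_cases i <;> fin_cases j
  · exact key (fun c => c.1 0 / √(dt c)) _ (Measurable.div (by fun_prop) hq)
      (fun c hc => rn00 hc) he
  · exact key (fun c => c.2 0 / √(dt c)) _ (Measurable.div (by fun_prop) hq)
      (fun c hc => rn01 hc) he
  · exact key (fun c => c.1 1 / √(dt c)) _ (Measurable.div (by fun_prop) hq)
      (fun c hc => rn10 hc) he
  · exact key (fun c => c.2 1 / √(dt c)) _ (Measurable.div (by fun_prop) hq)
      (fun c hc => rn11 hc) he

lemma rn_Lg (g : SL2R) {c : V4} (h : 0 < dt c) : rn (Lg g c) = g * rn c := by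
  have h' : 0 < dt (Lg g c) := by rw [dt_Lg]; exact h
  apply SL_ext
  · rw [rn00 h', SL_mul_apply, rn00 h, rn10 h, dt_Lg]; simp only [Lg]; ring
  · rw [rn01 h', SL_mul_apply, rn01 h, rn11 h, dt_Lg]; simp only [Lg]; ring
  · rw [rn10 h', SL_mul_apply, rn00 h, rn10 h, dt_Lg]; simp only [Lg]; ring
  · rw [rn11 h', SL_mul_apply, rn01 h, rn11 h, dt_Lg]; simp only [Lg]; ring

/-- The left invariant measure. -/
noncomputable def mH : Measure SL2R := ((volume : Measure V4).restrict cone).map rn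

lemma mH_left (g : SL2R) : mH.map (g * ·) = mH := by
  have hg : Measurable (fun x : SL2R => g * x) := by
    apply measurable_to_SL
    intro i j
    simp_rw [SL_mul_apply]
    exact ((measurable_entry 0 j).const_mul _).add ((measurable_entry 1 j).const_mul _)
  unfold mH
  rw [Measure.map_map hg measurable_rn]
  have h1 : ((fun x : SL2R => g * x) ∘ rn) =ᵐ[(volume : Measure V4).restrict cone] (rn ∘ Lg g) := by
    filter_upwards [ae_restrict_mem measurableSet_cone] with c hc
    simp only [Function.comp]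
    rw [rn_Lg g hc.1]
  rw [Measure.map_congr h1, ← Measure.map_map measurable_rn (measurePreserving_Lg g).measurable]
  have h2 := (measurePreserving_Lg g).restrict_preimage measurableSet_cone
  have h3 : Lg g ⁻¹' cone = cone := by
    ext c; simp only [Set.mem_preimage, cone, Set.mem_ofPred_eq, dt_Lg]
  rw [h3] at h2
  rw [h2.map_eq]

lemma sqrt_rn_bound {c : V4} (h : c ∈ cone) (T : ℝ) (hT : nS (rn c) ≤ T) :
    |c.1 0| ≤ T ∧ |c.1 1| ≤ T ∧ |c.2 0| ≤ T ∧ |c.2 1| ≤ T := by
  have h0 := h.1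
  have hs : 0 < √(dt c) := Real.sqrt_pos.2 h0
  have hs1 : √(dt c) ≤ 1 := Real.sqrt_le_one.2 h.2
  have hN : nS (rn c) = |c.1 0 / √(dt c)| + |c.2 0 / √(dt c)| + |c.1 1 / √(dt c)|
      + |c.2 1 / √(dt c)| := by
    unfold nS nM
    change |rn c 0 0| + |rn c 0 1| + |rn c 1 0| + |rn c 1 1| = _
    rw [rn00 h0, rn01 h0, rn10 h0, rn11 h0]
  have key : ∀ x : ℝ, |x| ≤ |x / √(dt c)| := by
    intro x
    rw [abs_div, abs_of_pos hs, le_div_iff₀ hs]
    nlinarith [abs_nonneg x]
  have p1 := abs_nonneg (c.1 0 / √(dt c))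
  have p2 := abs_nonneg (c.2 0 / √(dt c))
  have p3 := abs_nonneg (c.1 1 / √(dt c))
  have p4 := abs_nonneg (c.2 1 / √(dt c))
  have q1 := key (c.1 0)
  have q2 := key (c.1 1)
  have q3 := key (c.2 0)
  have q4 := key (c.2 1)
  refine ⟨?_, ?_, ?_, ?_⟩ <;> linarith

lemma mH_ball (T : ℝ) : mH {g | nS g ≤ T} ≤ ENNReal.ofReal (2 * T) ^ 4 := by
  have hm : MeasurableSet {g : SL2R | nS g ≤ T} := measurableSet_le measurable_nS measurable_const
  unfold mH
  rw [Measure.map_apply measurable_rn hm, Measure.restrict_apply (measurable_rn hm)]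
  have hsub : rn ⁻¹' {g | nS g ≤ T} ∩ cone
      ⊆ (Set.Icc (fun _ => -T) (fun _ => T) : Set (Fin 2 → ℝ)) ×ˢ
        (Set.Icc (fun _ => -T) (fun _ => T) : Set (Fin 2 → ℝ)) := by
    rintro c ⟨h1, h2⟩
    obtain ⟨q1, q2, q3, q4⟩ := sqrt_rn_bound h2 T h1
    rw [abs_le] at q1 q2 q3 q4
    refine ⟨⟨fun i => ?_, fun i => ?_⟩, ⟨fun i => ?_, fun i => ?_⟩⟩ <;> fin_cases i
    · exact q1.1
    · exact q2.1
    · exact q1.2
    · exact q2.2
    · exact q3.1
    · exact q4.1
    · exact q3.2
    · exact q4.2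
  refine (measure_mono hsub).trans ?_
  rw [Measure.volume_eq_prod, Measure.prod_prod, Real.volume_Icc_pi]
  simp only [sub_neg_eq_add, Finset.prod_const, Finset.card_univ, Fintype.card_fin, ← two_mul]
  rw [← pow_add]

lemma mH_ball_lt (T : ℝ) : mH {g | nS g ≤ T} < ⊤ :=
  (mH_ball T).trans_lt (ENNReal.pow_lt_top ENNReal.ofReal_lt_top)

lemma mH_ball_real {T : ℝ} (hT : 0 ≤ T) : mH.real {g | nS g ≤ T} ≤ 16 * T ^ 4 := by
  unfold Measure.real
  refine (ENNReal.toReal_mono (ENNReal.pow_lt_top ENNReal.ofReal_lt_top).ne (mH_ball T)).trans ?_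
  rw [ENNReal.toReal_pow, ENNReal.toReal_ofReal (by positivity)]
  apply le_of_eq; ring

instance : SigmaFinite mH := by
  refine ⟨⟨⟨fun n => {g | nS g ≤ n}, fun _ => trivial, fun n => mH_ball_lt n, ?_⟩⟩⟩
  rw [Set.eq_univ_iff_forall]
  intro g
  obtain ⟨n, hn⟩ := exists_nat_ge (nS g)
  exact Set.mem_iUnion.2 ⟨n, hn⟩

lemma mH_pos : 0 < mH {g | nS g ≤ 3} := by
  have hm : MeasurableSet {g : SL2R | nS g ≤ 3} := measurableSet_le measurable_nS measurable_const
  unfold mH
  rw [Measure.map_apply measurable_rn hm, Measure.restrict_apply (measurable_rn hm)]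
  have hsub : (Set.Icc (![1/2, 0]) (![11/20, 1/100]) : Set (Fin 2 → ℝ)) ×ˢ
        (Set.Icc (![0, 1/2]) (![1/100, 11/20]) : Set (Fin 2 → ℝ))
      ⊆ rn ⁻¹' {g | nS g ≤ 3} ∩ cone := by
    rintro c ⟨⟨h1, h2⟩, ⟨h3, h4⟩⟩
    have a1 := h1 0
    have a2 := h1 1
    have a3 := h2 0
    have a4 := h2 1
    have b1 := h3 0
    have b2 := h3 1
    have b3 := h4 0
    have b4 := h4 1
    simp at a1 a2 a3 a4 b1 b2 b3 b4
    have hlow : 0.24 ≤ dt c := by unfold dt; nlinarith
    have hup : dt c ≤ 1 := by unfold dt; nlinarith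
    have hpos : 0 < dt c := by linarith
    refine ⟨?_, hpos, hup⟩
    have hs : 0 < √(dt c) := Real.sqrt_pos.2 hpos
    have hs2 : 0.48 ≤ √(dt c) := by
      apply Real.le_sqrt_of_sq_le; norm_num; linarith
    change nS (rn c) ≤ 3
    have hN : nS (rn c) = |c.1 0 / √(dt c)| + |c.2 0 / √(dt c)| + |c.1 1 / √(dt c)|
        + |c.2 1 / √(dt c)| := by
      unfold nS nM
      change |rn c 0 0| + |rn c 0 1| + |rn c 1 0| + |rn c 1 1| = _
      rw [rn00 hpos, rn01 hpos, rn10 hpos, rn11 hpos]
    rw [hN]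
    rw [abs_div, abs_div, abs_div, abs_div, abs_of_pos hs, ← add_div, ← add_div, ← add_div,
      div_le_iff₀ hs, abs_of_nonneg (by linarith), abs_of_nonneg (by linarith),
      abs_of_nonneg (by linarith), abs_of_nonneg (by linarith)]
    nlinarith
  refine lt_of_lt_of_le ?_ (measure_mono hsub)
  rw [Measure.volume_eq_prod, Measure.prod_prod, Real.volume_Icc_pi, Real.volume_Icc_pi]
  simp only [Fin.prod_univ_two]
  norm_num

end Pool.Agent.IRS
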