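import Mathlib
import Pool.Agent.IRS.Haar

/-!
# A finite measure equivalent to the Haar measure
-/

set_option autoImplicit false

namespace Pool.Agent.IRS

open MeasureTheory Matrix Set

/-- The weight. -/
noncomputable def qs (g : SL2R) : ℝ := (nS g ^ 6)⁻¹

lemma qs_pos (g : SL2R) : 0 < qs g := by
  have := nS_pos g
  unfold qs; positivity

lemma continuous_nS : Continuous nS := by
  unfold nS nM
  have h : Continuous (fun g : SL2R => (g : Matrix (Fin 2) (Fin 2) ℝ)) := continuous_subtype_val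
  exact (((h.matrix_elem 0 0).abs.add (h.matrix_elem 0 1).abs).add
    (h.matrix_elem 1 0).abs).add (h.matrix_elem 1 1).abs

lemma continuous_qs : Continuous qs := by
  unfold qs
  exact (continuous_nS.pow 6).inv₀ fun g => (pow_pos (nS_pos g) 6).ne'

lemma measurable_qs : Measurable qs := continuous_qs.measurable

lemma qs_mul_le (h g : SL2R) : qs (h * g) ≤ nS h ^ 6 * qs g := by
  have h1 := nS_pos h
  have h2 := nS_pos g
  have h3 := nS_pos (h * g)
  unfold qs
  rw [← div_eq_mul_inv, le_div_iff₀ (by positivity), inv_mul_le_iff₀ (by positivity), ← mul_pow]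
  refine pow_le_pow_left₀ h2.le ?_ 6
  have h4 : g = h⁻¹ * (h * g) := by rw [inv_mul_cancel_left]
  calc nS g = nS (h⁻¹ * (h * g)) := by rw [← h4]
    _ ≤ nS h⁻¹ * nS (h * g) := nS_mul_le _ _
    _ = nS (h * g) * nS h := by rw [nS_inv, mul_comm]

lemma qs_mul_le' (g h : SL2R) : qs (g * h) ≤ nS h ^ 6 * qs g := by
  have h1 := nS_pos h
  have h2 := nS_pos g
  have h3 := nS_pos (g * h)
  unfold qs
  rw [← div_eq_mul_inv, le_div_iff₀ (by positivity), inv_mul_le_iff₀ (by positivity), ← mul_pow]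
  refine pow_le_pow_left₀ h2.le ?_ 6
  have h4 : g = (g * h) * h⁻¹ := by rw [mul_inv_cancel_right]
  calc nS g = nS ((g * h) * h⁻¹) := by rw [← h4]
    _ ≤ nS (g * h) * nS h⁻¹ := nS_mul_le _ _
    _ = nS (g * h) * nS h := by rw [nS_inv]

lemma qs_inv (g : SL2R) : qs g⁻¹ = qs g := by unfold qs; rw [nS_inv]

lemma qs_le_one (g : SL2R) : qs g ≤ 1 := by
  unfold qs
  have h := two_le_nS g
  apply inv_le_one_of_one_le₀
  exact one_le_pow₀ (by linarith)

/-- The total mass is finite. -/
lemma lintegral_qs_lt : ∫⁻ g, ENNReal.ofReal (qs g) ∂mH < ⊤ := by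
  have h1 : ∀ g : SL2R, ENNReal.ofReal (qs g) ≤ ∑' k : ℕ,
      ({g : SL2R | nS g ≤ 2 ^ (k + 1)}.indicator (fun _ => ENNReal.ofReal (((2 : ℝ) ^ (6 * k))⁻¹))) g := by
    intro g
    obtain ⟨k, hk1, hk2⟩ := exists_nat_pow_near (show (1 : ℝ) ≤ nS g by linarith [two_le_nS g])
      (by norm_num : (1 : ℝ) < 2)
    refine le_trans ?_ (ENNReal.le_tsum k)
    rw [indicator_of_mem (by exact hk2.le)]
    apply ENNReal.ofReal_le_ofReal
    unfold qs
    apply inv_anti₀ (by positivity)
    rw [mul_comm, pow_mul]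
    exact pow_le_pow_left₀ (by positivity) hk1 6
  have hm : ∀ k : ℕ, MeasurableSet {g : SL2R | nS g ≤ 2 ^ (k + 1)} := fun k =>
    measurableSet_le measurable_nS measurable_const
  refine (lintegral_mono h1).trans_lt ?_
  rw [lintegral_tsum fun k => (measurable_const.indicator (hm k)).aemeasurable]
  have h2 : ∀ k : ℕ, ∫⁻ g, ({g : SL2R | nS g ≤ 2 ^ (k + 1)}.indicator
      (fun _ => ENNReal.ofReal (((2 : ℝ) ^ (6 * k))⁻¹))) g ∂mH
      ≤ ENNReal.ofReal (256 * (1 / 4) ^ k) := by
    intro k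
    rw [lintegral_indicator (hm k), setLIntegral_const]
    refine (mul_le_mul_right (mH_ball (2 ^ (k + 1))) _).trans ?_
    rw [← ENNReal.ofReal_pow (by positivity), ← ENNReal.ofReal_mul (by positivity)]
    apply ENNReal.ofReal_le_ofReal
    apply le_of_eq
    have e1 : (2 : ℝ) ^ (6 * k) = (2 ^ k) ^ 6 := by rw [mul_comm, pow_mul]
    have e2 : ((1 : ℝ) / 4) ^ k = ((2 ^ k) ^ 2)⁻¹ := by
      rw [← pow_mul, mul_comm, pow_mul, ← inv_pow]; norm_num
    rw [e1, e2, pow_succ]
    have : (2 : ℝ) ^ k ≠ 0 := by positivity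
    field_simp
    ring
  refine (ENNReal.tsum_le_tsum h2).trans_lt ?_
  have h3 : Summable (fun k : ℕ => (256 : ℝ) * (1 / 4) ^ k) :=
    (summable_geometric_of_lt_one (by norm_num) (by norm_num)).mul_left 256
  rw [← ENNReal.ofReal_tsum_of_nonneg (fun k => by positivity) h3]
  exact ENNReal.ofReal_lt_top

/-- The finite measure. -/
noncomputable def kq : Measure SL2R := mH.withDensity (fun g => ENNReal.ofReal (qs g))

instance : IsFiniteMeasure kq := by
  refine ⟨?_⟩
  unfold kq
  rw [withDensity_apply _ MeasurableSet.univ, Measure.restrict_univ]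
  exact lintegral_qs_lt

lemma kq_ac : kq ≪ mH := withDensity_absolutelyContinuous _ _

lemma mH_ac_kq : mH ≪ kq := by
  unfold kq
  refine withDensity_absolutelyContinuous' measurable_qs.ennreal_ofReal.aemeasurable ?_
  filter_upwards with g
  exact (ENNReal.ofReal_pos.2 (qs_pos g)).ne'

lemma mH_ne_zero : mH ≠ 0 := by
  intro h
  have := mH_pos
  rw [h] at this
  simp at this

lemma kq_ne_zero : kq ≠ 0 := by
  intro h
  have h1 : mH ≪ (0 : Measure SL2R) := h ▸ mH_ac_kq
  exact mH_ne_zero (Measure.absolutelyContinuous_zero_iff.1 h1)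

lemma measurable_lmul (h : SL2R) : Measurable (fun g : SL2R => h * g) := measurable_const_mul h

lemma kq_left (h : SL2R) : kq.map (h * ·) ≪ kq :=
  ((kq_ac.map (measurable_lmul h)).trans (by rw [mH_left])).trans mH_ac_kq

/-- The product measure. -/
noncomputable def kq2 : Measure (SL2R × SL2R) := kq.prod kq

instance : IsFiniteMeasure kq2 := by unfold kq2; infer_instance

lemma kq2_ne_zero : kq2 ≠ 0 := by
  intro h
  have h1 : kq2 univ = 0 := by rw [h]; simp
  unfold kq2 at h1
  rw [← univ_prod_univ, Measure.prod_prod, mul_eq_zero, or_self, Measure.measure_univ_eq_zero] at h1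
  exact kq_ne_zero h1

lemma kq2_left (h : SL2R × SL2R) : kq2.map (h * ·) ≪ kq2 := by
  have h1 : (fun g : SL2R × SL2R => h * g) = Prod.map (fun g => h.1 * g) (fun g => h.2 * g) := rfl
  rw [h1]
  unfold kq2
  rw [← Measure.map_prod_map _ _ (measurable_lmul h.1) (measurable_lmul h.2)]
  exact (kq_left h.1).prod (kq_left h.2)

end Pool.Agent.IRS
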