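import Mathlib
import Pool.Agent.IRS.Qs

/-!
# The measure is invariant under inversion and right translations
-/

set_option autoImplicit false

namespace Pool.Agent.IRS

open MeasureTheory Matrix Set

/-- The adjugate on pairs of columns. -/
def Jl : V4 →ₗ[ℝ] V4 where
  toFun c := (![c.2 1, -c.1 1], ![-c.2 0, c.1 0])
  map_add' c d := by
    ext i
    · fin_cases i
      · simp
      · simp; ring
    · fin_cases i
      · simp; ring
      · simp
  map_smul' r c := by
    ext i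
    · fin_cases i <;> simp
    · fin_cases i <;> simp

lemma Jl_Jl : Jl ∘ₗ Jl = LinearMap.id := by
  ext i j
  · fin_cases i <;> fin_cases j <;> simp [Jl]
  · fin_cases i <;> fin_cases j <;> simp [Jl]
  · fin_cases i <;> fin_cases j <;> simp [Jl]
  · fin_cases i <;> fin_cases j <;> simp [Jl]

lemma Jl_det : |LinearMap.det Jl| = 1 := by
  have h1 : LinearMap.det (Jl ∘ₗ Jl) = 1 := by rw [Jl_Jl, LinearMap.det_id]
  rw [LinearMap.det_comp] at h1
  have h2 : |LinearMap.det Jl| * |LinearMap.det Jl| = 1 := by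
    rw [← abs_mul, h1, abs_one]
  nlinarith [abs_nonneg (LinearMap.det Jl)]

lemma Jl_mp : MeasurePreserving (Jl : V4 → V4) (volume : Measure V4) volume := by
  refine ⟨(LinearMap.continuous_of_finiteDimensional Jl).measurable, ?_⟩
  have hd : LinearMap.det Jl ≠ 0 := by
    intro h
    have := Jl_det
    rw [h] at this
    simp at this
  have : (volume : Measure V4).IsAddHaarMeasure :=
    Measure.prod.instIsAddHaarMeasure (volume : Measure (Fin 2 → ℝ))
      (volume : Measure (Fin 2 → ℝ))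
  rw [Measure.map_linearMap_addHaar_eq_smul_addHaar _ hd, abs_inv, Jl_det]
  simp

lemma dt_Jl (c : V4) : dt (Jl c) = dt c := by
  unfold dt Jl
  simp
  ring

lemma rn_Jl {c : V4} (h : 0 < dt c) : rn (Jl c) = (rn c)⁻¹ := by
  have h' : 0 < dt (Jl c) := by rw [dt_Jl]; exact h
  have e : ∀ g : SL2R, g⁻¹ 0 0 = g 1 1 ∧ g⁻¹ 0 1 = - g 0 1 ∧ g⁻¹ 1 0 = - g 1 0 ∧ g⁻¹ 1 1 = g 0 0 := by
    intro g
    refine ⟨?_, ?_, ?_, ?_⟩ <;>
      simp [Matrix.SpecialLinearGroup.coe_inv, Matrix.adjugate_fin_two]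
  obtain ⟨e1, e2, e3, e4⟩ := e (rn c)
  apply SL_ext
  · rw [rn00 h', e1, rn11 h, dt_Jl]; simp [Jl]
  · rw [rn01 h', e2, rn01 h, dt_Jl]; simp [Jl]; ring
  · rw [rn10 h', e3, rn10 h, dt_Jl]; simp [Jl]; ring
  · rw [rn11 h', e4, rn00 h, dt_Jl]; simp [Jl]

lemma mH_inv : mH.map (fun g => g⁻¹) = mH := by
  have hi : Measurable (fun g : SL2R => g⁻¹) := measurable_inv
  unfold mH
  rw [Measure.map_map hi measurable_rn]
  have h1 : ((fun x : SL2R => x⁻¹) ∘ rn) =ᵐ[(volume : Measure V4).restrict cone] (rn ∘ Jl) := by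
    filter_upwards [ae_restrict_mem measurableSet_cone] with c hc
    simp only [Function.comp]
    rw [rn_Jl hc.1]
  rw [Measure.map_congr h1, ← Measure.map_map measurable_rn Jl_mp.measurable]
  have h2 := Jl_mp.restrict_preimage measurableSet_cone
  have h3 : (Jl : V4 → V4) ⁻¹' cone = cone := by
    ext c; simp only [Set.mem_preimage, cone, Set.mem_ofPred_eq, dt_Jl]
  rw [h3] at h2
  rw [h2.map_eq]

lemma mH_right (g : SL2R) : mH.map (· * g) = mH := by
  have hi : Measurable (fun g : SL2R => g⁻¹) := measurable_inv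
  have hl : Measurable (fun x : SL2R => g⁻¹ * x) := measurable_const_mul _
  have h1 : (fun x : SL2R => x * g) = (fun x => x⁻¹) ∘ (fun x => g⁻¹ * x) ∘ (fun x => x⁻¹) := by
    funext x; simp
  rw [h1, ← Measure.map_map hi (hl.comp hi), ← Measure.map_map hl hi, mH_inv, mH_left, mH_inv]

lemma mp_left (g : SL2R) : MeasurePreserving (fun x : SL2R => g * x) mH mH :=
  ⟨measurable_const_mul _, mH_left g⟩
lemma mp_right (g : SL2R) : MeasurePreserving (fun x : SL2R => x * g) mH mH :=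
  ⟨measurable_mul_const _, mH_right g⟩
lemma mp_inv : MeasurePreserving (fun x : SL2R => x⁻¹) mH mH := ⟨measurable_inv, mH_inv⟩

/-- The group SL(2,R) x SL(2,R). -/
abbrev G2 := SL2R × SL2R

/-- Its invariant measure. -/
noncomputable def m2 : Measure G2 := mH.prod mH

instance : SigmaFinite m2 := by unfold m2; infer_instance

lemma m2_left (g : G2) : MeasurePreserving (fun x : G2 => g * x) m2 m2 := by
  have := (mp_left g.1).prod (mp_left g.2)
  exact this
lemma m2_right (g : G2) : MeasurePreserving (fun x : G2 => x * g) m2 m2 := by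
  have := (mp_right g.1).prod (mp_right g.2)
  exact this
lemma m2_inv : MeasurePreserving (fun x : G2 => x⁻¹) m2 m2 := by
  have := mp_inv.prod mp_inv
  exact this

/-- The weight on the product. -/
noncomputable def q2 (g : G2) : ℝ := qs g.1 * qs g.2

/-- The size of an element. -/
noncomputable def N2 (g : G2) : ℝ := nS g.1 ^ 6 * nS g.2 ^ 6

lemma N2_pos (g : G2) : 0 < N2 g := by
  unfold N2
  have := nS_pos g.1
  have := nS_pos g.2
  positivity

lemma N2_inv (g : G2) : N2 g⁻¹ = N2 g := by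
  unfold N2; rw [Prod.fst_inv, Prod.snd_inv, nS_inv, nS_inv]

lemma q2_pos (g : G2) : 0 < q2 g := mul_pos (qs_pos _) (qs_pos _)

lemma continuous_q2 : Continuous q2 := by
  unfold q2
  exact (continuous_qs.comp continuous_fst).mul (continuous_qs.comp continuous_snd)

lemma continuous_N2 : Continuous N2 := by
  unfold N2
  exact ((continuous_nS.comp continuous_fst).pow 6).mul ((continuous_nS.comp continuous_snd).pow 6)

lemma q2_mul_le (h g : G2) : q2 (h * g) ≤ N2 h * q2 g := by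
  unfold q2 N2
  have h1 := qs_mul_le h.1 g.1
  have h2 := qs_mul_le h.2 g.2
  have p1 := qs_pos (h.1 * g.1)
  have p2 := qs_pos (h.2 * g.2)
  have p3 := nS_pos h.1
  have p4 := qs_pos g.1
  calc qs (h * g).1 * qs (h * g).2 ≤ (nS h.1 ^ 6 * qs g.1) * (nS h.2 ^ 6 * qs g.2) :=
        mul_le_mul h1 h2 p2.le (by positivity)
    _ = _ := by ring

lemma q2_mul_le' (g h : G2) : q2 (g * h) ≤ N2 h * q2 g := by
  unfold q2 N2
  have h1 := qs_mul_le' g.1 h.1
  have h2 := qs_mul_le' g.2 h.2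
  have p2 := qs_pos (g.2 * h.2)
  have p3 := nS_pos h.1
  have p4 := qs_pos g.1
  calc qs (g * h).1 * qs (g * h).2 ≤ (nS h.1 ^ 6 * qs g.1) * (nS h.2 ^ 6 * qs g.2) :=
        mul_le_mul h1 h2 p2.le (by positivity)
    _ = _ := by ring

lemma q2_inv (g : G2) : q2 g⁻¹ = q2 g := by
  unfold q2; rw [Prod.fst_inv, Prod.snd_inv, qs_inv, qs_inv]

lemma measurable_q2 : Measurable q2 := continuous_q2.measurable

lemma kq2_eq : kq2 = m2.withDensity (fun g => ENNReal.ofReal (q2 g)) := by
  unfold kq2 kq m2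
  have : SFinite (mH.withDensity fun g => ENNReal.ofReal (qs g)) := inferInstance
  rw [prod_withDensity measurable_qs.ennreal_ofReal measurable_qs.ennreal_ofReal]
  congr 1
  funext g
  unfold q2
  rw [ENNReal.ofReal_mul (qs_pos _).le]

lemma lintegral_kq2 {φ : G2 → ENNReal} (hφ : Measurable φ) :
    ∫⁻ g, φ g ∂kq2 = ∫⁻ g, ENNReal.ofReal (q2 g) * φ g ∂m2 := by
  rw [kq2_eq, lintegral_withDensity_eq_lintegral_mul _ measurable_q2.ennreal_ofReal hφ]
  rfl

lemma lintegral_q2_lt : ∫⁻ g, ENNReal.ofReal (q2 g) ∂m2 < ⊤ := by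
  have h1 := lintegral_kq2 (φ := fun _ => 1) measurable_const
  simp only [mul_one, lintegral_const, one_mul] at h1
  rw [← h1]
  exact measure_lt_top _ _

lemma kq2_ac : kq2 ≪ m2 := by rw [kq2_eq]; exact withDensity_absolutelyContinuous _ _

lemma m2_ac_kq2 : m2 ≪ kq2 := by
  rw [kq2_eq]
  refine withDensity_absolutelyContinuous' measurable_q2.ennreal_ofReal.aemeasurable ?_
  filter_upwards with g
  exact (ENNReal.ofReal_pos.2 (q2_pos g)).ne'

/-- Quasi invariance with a bound. -/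
lemma lintegral_kq2_left (h : G2) {φ : G2 → ENNReal} (hφ : Measurable φ) :
    ∫⁻ g, φ (h * g) ∂kq2 ≤ ENNReal.ofReal (N2 h) * ∫⁻ g, φ g ∂kq2 := by
  rw [lintegral_kq2 (φ := fun g => φ (h * g)) (hφ.comp (measurable_const_mul h)), lintegral_kq2 hφ,
    ← lintegral_const_mul (ENNReal.ofReal (N2 h)) (f := fun g => ENNReal.ofReal (q2 g) * φ g)
      (measurable_q2.ennreal_ofReal.mul hφ)]
  have h1 : ∫⁻ g, ENNReal.ofReal (q2 g) * φ (h * g) ∂m2
      = ∫⁻ g, ENNReal.ofReal (q2 (h⁻¹ * g)) * φ g ∂m2 := by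
    have hm : Measurable (fun g => ENNReal.ofReal (q2 (h⁻¹ * g)) * φ g) :=
      ((measurable_q2.comp (measurable_const_mul _)).ennreal_ofReal).mul hφ
    rw [← (m2_left h).lintegral_comp hm]
    simp only [inv_mul_cancel_left]
  rw [h1]
  refine lintegral_mono fun g => ?_
  rw [← mul_assoc, ← ENNReal.ofReal_mul (N2_pos h).le]
  gcongr
  have := q2_mul_le h⁻¹ g
  rwa [N2_inv] at this

lemma lintegral_kq2_right (h : G2) {φ : G2 → ENNReal} (hφ : Measurable φ) :
    ∫⁻ g, φ (g * h) ∂kq2 ≤ ENNReal.ofReal (N2 h) * ∫⁻ g, φ g ∂kq2 := by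
  rw [lintegral_kq2 (φ := fun g => φ (g * h)) (hφ.comp (measurable_mul_const h)), lintegral_kq2 hφ,
    ← lintegral_const_mul (ENNReal.ofReal (N2 h)) (f := fun g => ENNReal.ofReal (q2 g) * φ g)
      (measurable_q2.ennreal_ofReal.mul hφ)]
  have h1 : ∫⁻ g, ENNReal.ofReal (q2 g) * φ (g * h) ∂m2
      = ∫⁻ g, ENNReal.ofReal (q2 (g * h⁻¹)) * φ g ∂m2 := by
    have hm : Measurable (fun g => ENNReal.ofReal (q2 (g * h⁻¹)) * φ g) :=
      ((measurable_q2.comp (measurable_mul_const _)).ennreal_ofReal).mul hφ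
    rw [← (m2_right h).lintegral_comp hm]
    simp only [mul_inv_cancel_right]
  rw [h1]
  refine lintegral_mono fun g => ?_
  rw [← mul_assoc, ← ENNReal.ofReal_mul (N2_pos h).le]
  gcongr
  have := q2_mul_le' g h⁻¹
  rwa [N2_inv] at this

end Pool.Agent.IRS
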