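import Mathlib

/-!
# Continuity of translations, in an abstract form
-/

set_option autoImplicit false

namespace Pool.Agent.IRS

open MeasureTheory Set Filter Topology ENNReal

section gen

variable {Y : Type*} [mY : MeasurableSpace Y] (P : Measure Y) [IsFiniteMeasure P] (S : ℕ → Y → Y)
  (hS : ∀ n, Measurable (S n)) (C : ENNReal) (hC : C ≠ ⊤)
  (hSC : ∀ n, ∀ E : Set Y, MeasurableSet E → P (S n ⁻¹' E) ≤ C * P E)
include hS hC hSC

/-- From a generating class to all measurable sets. -/
lemma symm_gen (𝒢 : Set (Set Y)) (hgen : mY = MeasurableSpace.generateFrom 𝒢) (hpi : IsPiSystem 𝒢)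
    (h𝒢 : ∀ E ∈ 𝒢, Tendsto (fun n => P (symmDiff (S n ⁻¹' E) E)) atTop (𝓝 0)) :
    ∀ E, MeasurableSet E → Tendsto (fun n => P (symmDiff (S n ⁻¹' E) E)) atTop (𝓝 0) := by
  intro E hE
  induction E, hE using MeasurableSpace.induction_on_inter hgen hpi with
  | empty => simp
  | basic E hE => exact h𝒢 E hE
  | compl E hE ih =>
    have : ∀ n, symmDiff (S n ⁻¹' Eᶜ) Eᶜ = symmDiff (S n ⁻¹' E) E := by
      intro n
      rw [preimage_compl]
      ext x
      simp only [mem_symmDiff, mem_compl_iff]
      tauto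
    simp_rw [this]
    exact ih
  | iUnion f hd hf ih =>
    -- tails
    set R : ℕ → Set Y := fun k => ⋃ i ∈ {i | k ≤ i}, f i with hR
    have hRm : ∀ k, MeasurableSet (R k) := fun k =>
      MeasurableSet.biUnion (to_countable _) fun i _ => hf i
    have hRt : Tendsto (fun k => P (R k)) atTop (𝓝 0) := by
      have h1 : ∀ k, P (R k) = ∑' i, P (f (i + k)) := by
        intro k
        have : R k = ⋃ i, f (i + k) := by
          ext x
          simp only [hR, mem_iUnion, mem_ofPred_eq, exists_prop]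
          constructor
          · rintro ⟨i, hi, hx⟩
            exact ⟨i - k, by rw [Nat.sub_add_cancel hi]; exact hx⟩
          · rintro ⟨i, hx⟩
            exact ⟨i + k, by omega, hx⟩
        rw [this, measure_iUnion _ fun i => hf _]
        intro i j hij
        exact hd (by simpa using hij)
      simp_rw [h1]
      refine ENNReal.tendsto_sum_nat_add (fun i => P (f i)) ?_
      rw [← measure_iUnion hd hf]
      exact measure_ne_top _ _
    have hsub : ∀ n k, symmDiff (S n ⁻¹' ⋃ i, f i) (⋃ i, f i)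
        ⊆ (⋃ i ∈ Finset.range k, symmDiff (S n ⁻¹' f i) (f i)) ∪ (S n ⁻¹' R k ∪ R k) := by
      intro n k x hx
      simp only [mem_symmDiff, mem_preimage, mem_iUnion, not_exists] at hx
      rcases hx with ⟨⟨i, hi⟩, hn⟩ | ⟨⟨i, hi⟩, hn⟩
      · by_cases hik : i < k
        · left
          simp only [mem_iUnion, Finset.mem_range]
          exact ⟨i, hik, Or.inl ⟨hi, hn i⟩⟩
        · right; left
          simp only [hR, mem_preimage, mem_iUnion, mem_ofPred_eq]
          exact ⟨i, not_lt.1 hik, hi⟩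
      · by_cases hik : i < k
        · left
          simp only [mem_iUnion, Finset.mem_range]
          exact ⟨i, hik, Or.inr ⟨hi, hn i⟩⟩
        · right; right
          simp only [hR, mem_iUnion, mem_ofPred_eq]
          exact ⟨i, not_lt.1 hik, hi⟩
    have hbd : ∀ n k, P (symmDiff (S n ⁻¹' ⋃ i, f i) (⋃ i, f i))
        ≤ (∑ i ∈ Finset.range k, P (symmDiff (S n ⁻¹' f i) (f i))) + (C + 1) * P (R k) := by
      intro n k
      refine (measure_mono (hsub n k)).trans ?_
      refine (measure_union_le _ _).trans ?_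
      refine add_le_add (measure_biUnion_finset_le _ _) ?_
      refine (measure_union_le _ _).trans ?_
      rw [add_mul, one_mul]
      gcongr
      exact hSC n _ (hRm k)
    rw [ENNReal.tendsto_atTop_zero]
    intro δ hδ
    have h2 : Tendsto (fun k => (C + 1) * P (R k)) atTop (𝓝 0) := by
      have := ENNReal.Tendsto.const_mul (a := C + 1) hRt (Or.inr (by simp [hC]))
      rwa [mul_zero] at this
    have hδ2 : 0 < δ / 2 := ENNReal.half_pos hδ.ne'
    obtain ⟨k, hk⟩ := (h2.eventually (gt_mem_nhds hδ2)).exists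
    have h3 : Tendsto (fun n => ∑ i ∈ Finset.range k, P (symmDiff (S n ⁻¹' f i) (f i))) atTop (𝓝 0) := by
      have := tendsto_finsetSum (Finset.range k) fun i _ => ih i
      simpa using this
    obtain ⟨N, hN⟩ := eventually_atTop.1 (h3.eventually (gt_mem_nhds hδ2))
    refine ⟨N, fun n hn => ?_⟩
    calc P (symmDiff (S n ⁻¹' ⋃ i, f i) (⋃ i, f i)) ≤ _ := hbd n k
      _ ≤ δ / 2 + δ / 2 := add_le_add (hN n hn).le hk.le
      _ = δ := ENNReal.add_halves δ

/-- Continuity for integrable functions. -/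
theorem L1_gen
    (hall : ∀ E, MeasurableSet E → Tendsto (fun n => P (symmDiff (S n ⁻¹' E) E)) atTop (𝓝 0))
    {F : Y → ℝ} (hFm : Measurable F) (hF : Integrable F P) :
    Tendsto (fun n => ∫⁻ y, ‖F (S n y) - F y‖ₑ ∂P) atTop (𝓝 0) := by
  -- bound for compositions
  have hcomp : ∀ n, ∀ {φ : Y → ENNReal}, Measurable φ → ∫⁻ y, φ (S n y) ∂P ≤ C * ∫⁻ y, φ y ∂P := by
    intro n φ hφ
    have h1 : P.map (S n) ≤ C • P := by
      rw [Measure.le_iff]
      intro E hE
      rw [Measure.map_apply (hS n) hE]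
      exact hSC n E hE
    calc ∫⁻ y, φ (S n y) ∂P = ∫⁻ y, φ y ∂(P.map (S n)) := (lintegral_map hφ (hS n)).symm
      _ ≤ ∫⁻ y, φ y ∂(C • P) := lintegral_mono' h1 le_rfl
      _ = C * ∫⁻ y, φ y ∂P := lintegral_smul_measure _ _
  set Q : (Y → ℝ) → Prop := fun F => ∀ F' : Y → ℝ, Measurable F' → F' =ᵐ[P] F →
    Tendsto (fun n => ∫⁻ y, ‖F' (S n y) - F' y‖ₑ ∂P) atTop (𝓝 0) with hQ
  -- approximation principle
  have happ : ∀ F : Y → ℝ, Measurable F → (∀ δ : ENNReal, 0 < δ → ∃ G : Y → ℝ, Measurable G ∧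
      ∫⁻ y, ‖F y - G y‖ₑ ∂P ≤ δ ∧
      Tendsto (fun n => ∫⁻ y, ‖G (S n y) - G y‖ₑ ∂P) atTop (𝓝 0)) →
      Tendsto (fun n => ∫⁻ y, ‖F (S n y) - F y‖ₑ ∂P) atTop (𝓝 0) := by
    intro F hF h
    rw [ENNReal.tendsto_atTop_zero]
    intro δ hδ
    have hC1 : C + 1 ≠ ⊤ := by simp [hC]
    have hC0 : C + 1 ≠ 0 := by simp
    set δ' : ENNReal := δ / 2 / (C + 1) with hδ'
    have hδ2 : 0 < δ / 2 := ENNReal.half_pos hδ.ne'
    have hδ'0 : 0 < δ' := ENNReal.div_pos hδ2.ne' hC1
    obtain ⟨G, hG, hFG, hGt⟩ := h δ' hδ'0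
    obtain ⟨N, hN⟩ := eventually_atTop.1 (hGt.eventually (gt_mem_nhds hδ2))
    refine ⟨N, fun n hn => ?_⟩
    have hm : Measurable (fun y => ‖F y - G y‖ₑ) := (hF.sub hG).enorm
    have hm2 : Measurable (fun y => ‖G (S n y) - G y‖ₑ) := ((hG.comp (hS n)).sub hG).enorm
    calc ∫⁻ y, ‖F (S n y) - F y‖ₑ ∂P
        ≤ ∫⁻ y, (‖F (S n y) - G (S n y)‖ₑ + ‖F y - G y‖ₑ + ‖G (S n y) - G y‖ₑ) ∂P := by
          refine lintegral_mono fun y => ?_
          have e : F (S n y) - F y = (F (S n y) - G (S n y)) - (F y - G y) + (G (S n y) - G y) := by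
            ring
          rw [e]
          refine (enorm_add_le _ _).trans ?_
          gcongr
          exact enorm_sub_le
      _ = (∫⁻ y, ‖F (S n y) - G (S n y)‖ₑ ∂P) + (∫⁻ y, ‖F y - G y‖ₑ ∂P)
          + ∫⁻ y, ‖G (S n y) - G y‖ₑ ∂P := by
          rw [lintegral_add_right _ hm2, lintegral_add_right _ hm]
      _ ≤ C * δ' + δ' + δ / 2 := by
          gcongr
          · exact (hcomp n hm).trans (by gcongr)
          · exact (hN n hn).le
      _ = δ / 2 + δ / 2 := by
          congr 1
          rw [hδ']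
          have : C * (δ / 2 / (C + 1)) + δ / 2 / (C + 1) = (C + 1) * (δ / 2 / (C + 1)) := by
            rw [add_mul, one_mul]
          rw [this]
          exact ENNReal.mul_div_cancel hC0 hC1
      _ = δ := ENNReal.add_halves δ
  suffices h : Q F by exact h F hFm (by rfl)
  refine Integrable.induction Q ?_ ?_ ?_ ?_ hF
  · intro c s hs _ F' hF' hae
    refine happ F' hF' fun δ hδ => ⟨s.indicator fun _ => c, measurable_const.indicator hs, ?_, ?_⟩
    · have : ∫⁻ y, ‖F' y - s.indicator (fun _ => c) y‖ₑ ∂P = 0 := by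
        have hm : Measurable (fun y => F' y - s.indicator (fun _ => c) y) :=
          hF'.sub (measurable_const.indicator hs)
        rw [lintegral_eq_zero_iff hm.enorm]
        filter_upwards [hae] with y hy
        simp [hy]
      rw [this]; exact zero_le
    · have h1 : ∀ n y, ‖s.indicator (fun _ => c) (S n y) - s.indicator (fun _ => c) y‖ₑ
          = (symmDiff (S n ⁻¹' s) s).indicator (fun _ => ‖c‖ₑ) y := by
        intro n y
        by_cases h5 : S n y ∈ s
        · by_cases h6 : y ∈ s
          · rw [indicator_of_mem h5, indicator_of_mem h6, indicator_of_notMem]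
            · simp
            · rintro (⟨_, h7⟩ | ⟨_, h7⟩)
              · exact h7 h6
              · exact h7 h5
          · rw [indicator_of_mem h5, indicator_of_notMem h6, indicator_of_mem]
            · simp
            · exact Or.inl ⟨h5, h6⟩
        · by_cases h6 : y ∈ s
          · rw [indicator_of_notMem h5, indicator_of_mem h6, indicator_of_mem]
            · simp
            · exact Or.inr ⟨h6, h5⟩
          · rw [indicator_of_notMem h5, indicator_of_notMem h6, indicator_of_notMem]
            · simp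
            · rintro (⟨h7, _⟩ | ⟨h7, _⟩)
              · exact h5 h7
              · exact h6 h7
      have h2 : ∀ n, ∫⁻ y, ‖s.indicator (fun _ => c) (S n y) - s.indicator (fun _ => c) y‖ₑ ∂P
          = ‖c‖ₑ * P (symmDiff (S n ⁻¹' s) s) := by
        intro n
        simp_rw [h1]
        rw [lintegral_indicator (((hS n) hs).symmDiff hs), setLIntegral_const]
      simp_rw [h2]
      have := ENNReal.Tendsto.const_mul (a := ‖c‖ₑ) (hall s hs) (Or.inr enorm_ne_top)
      rwa [mul_zero] at this
  · intro f g _ hf hg hQf hQg F' hF' hae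
    set f' := hf.1.mk f with hf'
    have hf'm : Measurable f' := hf.1.stronglyMeasurable_mk.measurable
    have hf'e : f =ᵐ[P] f' := hf.1.ae_eq_mk
    have h1 := hQf f' hf'm hf'e.symm
    have h2 := hQg (fun y => F' y - f' y) (hF'.sub hf'm) (by
      filter_upwards [hae, hf'e] with y h3 h4
      simp only [Pi.add_apply] at h3
      rw [h3, ← h4]; ring)
    have h3 := h1.add h2
    rw [add_zero] at h3
    refine tendsto_of_tendsto_of_tendsto_of_le_of_le tendsto_const_nhds h3 (fun n => zero_le)
      fun n => ?_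
    simp only
    rw [← lintegral_add_right]
    · refine lintegral_mono fun y => ?_
      have e : F' (S n y) - F' y = (f' (S n y) - f' y)
          + ((F' (S n y) - f' (S n y)) - (F' y - f' y)) := by ring
      rw [e]
      exact enorm_add_le _ _
    · exact (((hF'.comp (hS n)).sub (hf'm.comp (hS n))).sub (hF'.sub hf'm)).enorm
  · rw [← isSeqClosed_iff_isClosed]
    intro u f hu huf F' hF' hae
    refine happ F' hF' fun δ hδ => ?_
    have h1 : Tendsto (fun k => edist (u k) f) atTop (𝓝 0) := tendsto_iff_edist_tendsto_0.1 huf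
    obtain ⟨k, hk⟩ := (h1.eventually (gt_mem_nhds hδ)).exists
    have hum : Measurable (u k : Y → ℝ) := (Lp.stronglyMeasurable (u k)).measurable
    refine ⟨u k, hum, ?_, hu k (u k) hum (by rfl)⟩
    have h2 : ∫⁻ y, ‖F' y - u k y‖ₑ ∂P = edist (u k) f := by
      rw [edist_comm, L1.edist_def]
      refine lintegral_congr_ae ?_
      filter_upwards [hae] with y hy
      rw [hy, edist_eq_enorm_sub]
    rw [h2]; exact hk.le
  · intro f g hfg hf hQf F' hF' hae
    exact hQf F' hF' (hae.trans hfg.symm)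

end gen

end Pool.Agent.IRS
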