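import Mathlib
import Pool.Agent.IRS.TC
import Pool.Agent.IRS.Inv

/-!
# Continuity of translations on products with SL(2,R) x SL(2,R)
-/

set_option autoImplicit false

namespace Pool.Agent.IRS

open MeasureTheory Set Filter Topology ENNReal

lemma kq2_pre_left (h : G2) {E : Set G2} (hE : MeasurableSet E) :
    kq2 ((fun g => h * g) ⁻¹' E) ≤ ENNReal.ofReal (N2 h) * kq2 E := by
  have h1 := lintegral_kq2_left h (φ := E.indicator 1) (measurable_one.indicator hE)
  have h2 : ∀ g, E.indicator (1 : G2 → ENNReal) (h * g)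
      = ((fun g => h * g) ⁻¹' E).indicator 1 g := fun g => rfl
  simp_rw [h2] at h1
  rwa [lintegral_indicator_one ((measurable_const_mul h) hE), lintegral_indicator_one hE] at h1

lemma kq2_pre_right (h : G2) {E : Set G2} (hE : MeasurableSet E) :
    kq2 ((fun g => g * h) ⁻¹' E) ≤ ENNReal.ofReal (N2 h) * kq2 E := by
  have h1 := lintegral_kq2_right h (φ := E.indicator 1) (measurable_one.indicator hE)
  have h2 : ∀ g, E.indicator (1 : G2 → ENNReal) (g * h)
      = ((fun g => g * h) ⁻¹' E).indicator 1 g := fun g => rfl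
  simp_rw [h2] at h1
  rwa [lintegral_indicator_one ((measurable_mul_const h) hE), lintegral_indicator_one hE] at h1

/-- The base case for open sets. -/
lemma open_symm (s : ℕ → G2 → G2) (hs : ∀ n, Measurable (s n))
    (hlim : ∀ g, Tendsto (fun n => s n g) atTop (𝓝 g))
    {O : Set G2} (hO : IsOpen O)
    (hmass : Tendsto (fun n => kq2 (s n ⁻¹' O)) atTop (𝓝 (kq2 O))) :
    Tendsto (fun n => kq2 (symmDiff (s n ⁻¹' O) O)) atTop (𝓝 0) := by
  have hOm := hO.measurableSet
  have h1 : Tendsto (fun n => kq2 (O \ s n ⁻¹' O)) atTop (𝓝 0) := by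
    have e : ∀ n, kq2 (O \ s n ⁻¹' O)
        = ∫⁻ g, (O \ s n ⁻¹' O).indicator (1 : G2 → ENNReal) g ∂kq2 := fun n => by
      rw [lintegral_indicator_one (hOm.diff ((hs n) hOm))]
    simp_rw [e]
    have e0 : (0 : ENNReal) = ∫⁻ _ : G2, 0 ∂kq2 := by simp
    rw [e0]
    refine tendsto_lintegral_of_dominated_convergence (fun _ => 1)
      (fun n => measurable_one.indicator (hOm.diff ((hs n) hOm))) (fun n => ?_) ?_ ?_
    · filter_upwards with g
      exact indicator_le_self' (fun _ _ => zero_le) g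
    · simp [measure_ne_top]
    · filter_upwards with g
      by_cases hg : g ∈ O
      · have h2 : ∀ᶠ n in atTop, s n g ∈ O := (hlim g).eventually (hO.mem_nhds hg)
        refine tendsto_const_nhds.congr' ?_
        filter_upwards [h2] with n hn
        rw [indicator_of_notMem]
        intro h3
        exact h3.2 hn
      · refine tendsto_const_nhds.congr fun n => ?_
        rw [indicator_of_notMem]
        intro h3
        exact hg h3.1
  have h2 : ∀ n, kq2 (s n ⁻¹' O \ O) = kq2 (s n ⁻¹' O) + kq2 (O \ s n ⁻¹' O) - kq2 O := by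
    intro n
    have a1 := measure_inter_add_sdiff (μ := kq2) (s n ⁻¹' O) hOm
    have a2 := measure_inter_add_sdiff (μ := kq2) O ((hs n) hOm)
    rw [inter_comm] at a2
    have f1 : kq2 (s n ⁻¹' O ∩ O) ≠ ⊤ := measure_ne_top _ _
    have f2 : kq2 (O \ s n ⁻¹' O) ≠ ⊤ := measure_ne_top _ _
    rw [← a1, ← a2]
    rw [add_right_comm, ENNReal.add_sub_cancel_left]
    exact ENNReal.add_ne_top.2 ⟨f1, f2⟩
  have h3 : Tendsto (fun n => kq2 (s n ⁻¹' O \ O)) atTop (𝓝 0) := by
    simp_rw [h2]
    have h4 := ENNReal.Tendsto.sub (hmass.add h1) (tendsto_const_nhds (x := kq2 O))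
      (Or.inr (measure_ne_top kq2 O))
    simpa using h4
  have h4 := h3.add h1
  rw [add_zero] at h4
  refine tendsto_of_tendsto_of_tendsto_of_le_of_le tendsto_const_nhds h4 (fun n => zero_le)
    fun n => ?_
  exact measure_union_le _ _

/-- Product version. -/
theorem TCprod {X : Type*} [MeasurableSpace X] (μ : Measure X) [IsFiniteMeasure μ]
    (s : ℕ → G2 → G2) (hs : ∀ n, Measurable (s n))
    (hlim : ∀ g, Tendsto (fun n => s n g) atTop (𝓝 g)) {C : ENNReal} (hC : C ≠ ⊤)
    (hsC : ∀ n, ∀ E, MeasurableSet E → kq2 (s n ⁻¹' E) ≤ C * kq2 E)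
    (hmass : ∀ O, IsOpen O → Tendsto (fun n => kq2 (s n ⁻¹' O)) atTop (𝓝 (kq2 O)))
    {F : X × G2 → ℝ} (hFm : Measurable F) (hF : Integrable F (μ.prod kq2)) :
    Tendsto (fun n => ∫⁻ p, ‖F (p.1, s n p.2) - F p‖ₑ ∂(μ.prod kq2)) atTop (𝓝 0) := by
  set S : ℕ → X × G2 → X × G2 := fun n p => (p.1, s n p.2) with hS
  have hSm : ∀ n, Measurable (S n) := fun n => measurable_fst.prodMk ((hs n).comp measurable_snd)
  have hSC : ∀ n, ∀ E : Set (X × G2), MeasurableSet E →
      (μ.prod kq2) (S n ⁻¹' E) ≤ C * (μ.prod kq2) E := by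
    intro n E hE
    rw [Measure.prod_apply ((hSm n) hE), Measure.prod_apply hE,
      ← lintegral_const_mul _ (measurable_measure_prodMk_left hE)]
    refine lintegral_mono fun x => ?_
    exact hsC n _ (measurable_prodMk_left hE)
  have hall := symm_gen (μ.prod kq2) S hSm C hC hSC
    (image2 (· ×ˢ ·) {E : Set X | MeasurableSet E} {O : Set G2 | IsOpen O}) ?_ ?_ ?_
  · exact L1_gen (μ.prod kq2) S hSm C hC hSC hall hFm hF
  · refine (generateFrom_eq_prod ?_ ?_ ?_ ?_).symm
    · exact MeasurableSpace.generateFrom_measurableSet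
    · exact (BorelSpace.measurable_eq (α := G2)).symm
    · exact ⟨fun _ => univ, fun _ => MeasurableSet.univ, iUnion_const _⟩
    · exact ⟨fun _ => univ, fun _ => (isOpen_univ : IsOpen (univ : Set G2)), iUnion_const _⟩
  · exact MeasurableSpace.isPiSystem_measurableSet.prod isPiSystem_isOpen
  · rintro _ ⟨E, hE, O, hO, rfl⟩
    have h1 := open_symm s hs hlim hO (hmass O hO)
    have h2 := ENNReal.Tendsto.const_mul (a := μ E) h1 (Or.inr (measure_ne_top _ _))
    rw [mul_zero] at h2
    refine tendsto_of_tendsto_of_tendsto_of_le_of_le tendsto_const_nhds h2 (fun n => zero_le)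
      fun n => ?_
    have hsub : symmDiff (S n ⁻¹' (E ×ˢ O)) (E ×ˢ O) ⊆ E ×ˢ (symmDiff (s n ⁻¹' O) O) := by
      rintro ⟨x, g⟩ (⟨⟨hx, hg⟩, h3⟩ | ⟨⟨hx, hg⟩, h3⟩)
      · exact ⟨hx, Or.inl ⟨hg, fun h4 => h3 ⟨hx, h4⟩⟩⟩
      · exact ⟨hx, Or.inr ⟨hg, fun h4 => h3 ⟨hx, h4⟩⟩⟩
    refine (measure_mono hsub).trans ?_
    rw [Measure.prod_prod]

lemma bdd_N2 {h : ℕ → G2} (hh : Tendsto h atTop (𝓝 1)) : ∃ C : ℝ, 0 ≤ C ∧ ∀ n, N2 (h n) ≤ C := by
  have h1 : Tendsto (fun n => N2 (h n)) atTop (𝓝 (N2 1)) := (continuous_N2.tendsto 1).comp hh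
  obtain ⟨C, hC⟩ := h1.bddAbove_range
  exact ⟨C, (N2_pos (h 0)).le.trans (hC ⟨0, rfl⟩), fun n => hC ⟨n, rfl⟩⟩

lemma mass_conv (w : ℕ → G2 → G2)
    (hw : ∀ n, Measurable (w n)) (hwlim : ∀ g, Tendsto (fun n => w n g) atTop (𝓝 g))
    {C : ℝ} (hC : 0 ≤ C) (hwC : ∀ n g, q2 (w n g) ≤ C * q2 g) {O : Set G2} :
    Tendsto (fun n => ∫⁻ g in O, ENNReal.ofReal (q2 (w n g)) ∂m2) atTop
      (𝓝 (∫⁻ g in O, ENNReal.ofReal (q2 g) ∂m2)) := by
  refine tendsto_lintegral_of_dominated_convergence (fun g => ENNReal.ofReal (C * q2 g))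
    (fun n => (measurable_q2.comp (hw n)).ennreal_ofReal) (fun n => ?_) ?_ ?_
  · filter_upwards with g
    exact ENNReal.ofReal_le_ofReal (hwC n g)
  · have : ∫⁻ g in O, ENNReal.ofReal (C * q2 g) ∂m2 ≤ ENNReal.ofReal C * ∫⁻ g, ENNReal.ofReal (q2 g) ∂m2 := by
      rw [← lintegral_const_mul _ measurable_q2.ennreal_ofReal]
      refine (setLIntegral_le_lintegral _ _).trans (lintegral_mono fun g => ?_)
      rw [ENNReal.ofReal_mul hC]
    exact (this.trans_lt (ENNReal.mul_lt_top ENNReal.ofReal_lt_top lintegral_q2_lt)).ne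
  · filter_upwards with g
    exact (ENNReal.continuous_ofReal.tendsto _).comp ((continuous_q2.tendsto g).comp (hwlim g))

/-- Right translations. -/
theorem TCR {X : Type*} [MeasurableSpace X] (μ : Measure X) [IsFiniteMeasure μ] {h : ℕ → G2}
    (hh : Tendsto h atTop (𝓝 1)) {F : X × G2 → ℝ} (hFm : Measurable F)
    (hF : Integrable F (μ.prod kq2)) :
    Tendsto (fun n => ∫⁻ p, ‖F (p.1, p.2 * h n) - F p‖ₑ ∂(μ.prod kq2)) atTop (𝓝 0) := by
  obtain ⟨C, hC0, hC⟩ := bdd_N2 hh
  have hinv : Tendsto (fun n => (h n)⁻¹) atTop (𝓝 1) := by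
    have := hh.inv
    rwa [inv_one] at this
  refine TCprod μ (fun n g => g * h n) (fun n => measurable_mul_const _) (fun g => ?_)
    (C := ENNReal.ofReal C) ENNReal.ofReal_ne_top (fun n E hE => ?_) (fun O hO => ?_) hFm hF
  · have := hh.const_mul g
    rwa [mul_one] at this
  · refine (kq2_pre_right (h n) hE).trans ?_
    gcongr
    exact hC n
  · have e : ∀ n, kq2 ((fun g => g * h n) ⁻¹' O)
        = ∫⁻ g in O, ENNReal.ofReal (q2 (g * (h n)⁻¹)) ∂m2 := by
      intro n
      have hOm := hO.measurableSet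
      rw [← lintegral_indicator_one ((measurable_mul_const (h n)) hOm),
        lintegral_kq2 (measurable_one.indicator ((measurable_mul_const (h n)) hOm)),
        ← lintegral_indicator hOm]
      have hm : Measurable (fun g => O.indicator
          (fun g => ENNReal.ofReal (q2 (g * (h n)⁻¹))) g) :=
        ((measurable_q2.comp (measurable_mul_const _)).ennreal_ofReal).indicator hOm
      rw [← (m2_right (h n)).lintegral_comp hm]
      refine lintegral_congr fun g => ?_
      by_cases hg : g * h n ∈ O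
      · rw [indicator_of_mem (by exact hg), indicator_of_mem hg]; simp
      · rw [indicator_of_notMem (by exact hg), indicator_of_notMem hg]; simp
    have e0 : kq2 O = ∫⁻ g in O, ENNReal.ofReal (q2 g) ∂m2 := by
      rw [kq2_eq, withDensity_apply _ hO.measurableSet]
    simp_rw [e]
    rw [e0]
    refine mass_conv (fun n g => g * (h n)⁻¹) (fun n => measurable_mul_const _) (fun g => ?_)
      hC0 (fun n g => ?_)
    · have := hinv.const_mul g
      rwa [mul_one] at this
    · refine (q2_mul_le' _ _).trans ?_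
      rw [N2_inv]
      exact mul_le_mul_of_nonneg_right (hC n) (q2_pos g).le

/-- Left translations. -/
theorem TCL {X : Type*} [MeasurableSpace X] (μ : Measure X) [IsFiniteMeasure μ] {h : ℕ → G2}
    (hh : Tendsto h atTop (𝓝 1)) {F : X × G2 → ℝ} (hFm : Measurable F)
    (hF : Integrable F (μ.prod kq2)) :
    Tendsto (fun n => ∫⁻ p, ‖F (p.1, h n * p.2) - F p‖ₑ ∂(μ.prod kq2)) atTop (𝓝 0) := by
  obtain ⟨C, hC0, hC⟩ := bdd_N2 hh
  have hinv : Tendsto (fun n => (h n)⁻¹) atTop (𝓝 1) := by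
    have := hh.inv
    rwa [inv_one] at this
  refine TCprod μ (fun n g => h n * g) (fun n => measurable_const_mul _) (fun g => ?_)
    (C := ENNReal.ofReal C) ENNReal.ofReal_ne_top (fun n E hE => ?_) (fun O hO => ?_) hFm hF
  · have := hh.mul_const g
    rwa [one_mul] at this
  · refine (kq2_pre_left (h n) hE).trans ?_
    gcongr
    exact hC n
  · have e : ∀ n, kq2 ((fun g => h n * g) ⁻¹' O)
        = ∫⁻ g in O, ENNReal.ofReal (q2 ((h n)⁻¹ * g)) ∂m2 := by
      intro n
      have hOm := hO.measurableSet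
      rw [← lintegral_indicator_one ((measurable_const_mul (h n)) hOm),
        lintegral_kq2 (measurable_one.indicator ((measurable_const_mul (h n)) hOm)),
        ← lintegral_indicator hOm]
      have hm : Measurable (fun g => O.indicator
          (fun g => ENNReal.ofReal (q2 ((h n)⁻¹ * g))) g) :=
        ((measurable_q2.comp (measurable_const_mul _)).ennreal_ofReal).indicator hOm
      rw [← (m2_left (h n)).lintegral_comp hm]
      refine lintegral_congr fun g => ?_
      by_cases hg : h n * g ∈ O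
      · rw [indicator_of_mem (by exact hg), indicator_of_mem hg]; simp
      · rw [indicator_of_notMem (by exact hg), indicator_of_notMem hg]; simp
    have e0 : kq2 O = ∫⁻ g in O, ENNReal.ofReal (q2 g) ∂m2 := by
      rw [kq2_eq, withDensity_apply _ hO.measurableSet]
    simp_rw [e]
    rw [e0]
    refine mass_conv (fun n g => (h n)⁻¹ * g) (fun n => measurable_const_mul _) (fun g => ?_)
      hC0 (fun n g => ?_)
    · have := hinv.mul_const g
      rwa [one_mul] at this
    · refine (q2_mul_le _ _).trans ?_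
      rw [N2_inv]
      exact mul_le_mul_of_nonneg_right (hC n) (q2_pos g).le

end Pool.Agent.IRS
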