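import Mathlib
import Pool.Agent.IRS.TC2
import Pool.Agent.IRS.Avg

/-!
# Functions invariant under a dense set of translations are constant
-/

set_option autoImplicit false

namespace Pool.Agent.IRS

open MeasureTheory Set Filter Topology ENNReal

lemma kq_right (h : SL2R) : kq.map (· * h) ≪ kq :=
  ((kq_ac.map (measurable_mul_const h)).trans (by rw [mH_right])).trans mH_ac_kq

lemma kq_inv : kq.map (fun g => g⁻¹) ≪ kq :=
  ((kq_ac.map measurable_inv).trans (by rw [mH_inv])).trans mH_ac_kq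

lemma kq_ae_left (h : SL2R) {P : SL2R → Prop} (hP : ∀ᵐ g ∂kq, P g) : ∀ᵐ g ∂kq, P (h * g) :=
  ae_of_ae_map (measurable_const_mul h).aemeasurable ((kq_left h).ae_le hP)

lemma kq_ae_right (h : SL2R) {P : SL2R → Prop} (hP : ∀ᵐ g ∂kq, P g) : ∀ᵐ g ∂kq, P (g * h) :=
  ae_of_ae_map (measurable_mul_const h).aemeasurable ((kq_right h).ae_le hP)

lemma kq_ae_inv {P : SL2R → Prop} (hP : ∀ᵐ g ∂kq, P g) : ∀ᵐ g ∂kq, P g⁻¹ :=
  ae_of_ae_map measurable_inv.aemeasurable (kq_inv.ae_le hP)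

/-- Continuity of left translations on one factor. -/
lemma TCL_one {f : SL2R → ℝ} (hf : Measurable f) (hb : ∃ M, ∀ g, |f g| ≤ M) {h : ℕ → SL2R}
    (hh : Tendsto h atTop (𝓝 1)) :
    Tendsto (fun n => ∫⁻ g, ‖f (h n * g) - f g‖ₑ ∂kq) atTop (𝓝 0) := by
  obtain ⟨M, hM⟩ := hb
  have hh2 : Tendsto (fun n => ((h n, 1) : G2)) atTop (𝓝 1) := hh.prodMk_nhds tendsto_const_nhds
  set F : Unit × G2 → ℝ := fun p => f p.2.1 with hF
  have hFm : Measurable F := hf.comp (measurable_fst.comp measurable_snd)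
  have hFi : Integrable F ((Measure.dirac ()).prod kq2) :=
    integrable_of_bdd _ hFm fun p => hM _
  have h1 := TCL (Measure.dirac ()) hh2 hFm hFi
  have h2 : ∀ n, ∫⁻ p : Unit × G2, ‖F (p.1, ((h n, 1) : G2) * p.2) - F p‖ₑ ∂((Measure.dirac ()).prod kq2)
      = kq univ * ∫⁻ g, ‖f (h n * g) - f g‖ₑ ∂kq := by
    intro n
    have hm : Measurable (fun g : SL2R => ‖f (h n * g) - f g‖ₑ) :=
      ((hf.comp (measurable_const_mul _)).sub hf).enorm
    have e1 : ∀ p : Unit × G2, ‖F (p.1, ((h n, 1) : G2) * p.2) - F p‖ₑ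
        = (fun q : G2 => ‖f (h n * q.1) - f q.1‖ₑ) p.2 := fun p => rfl
    have m1 : Measurable (fun p : Unit × G2 => ‖f (h n * p.2.1) - f p.2.1‖ₑ) :=
      hm.comp (measurable_fst.comp measurable_snd)
    have m2' : Measurable (fun p : G2 => ‖f (h n * p.1) - f p.1‖ₑ) := hm.comp measurable_fst
    simp_rw [e1]
    rw [lintegral_prod _ m1.aemeasurable, lintegral_dirac]
    unfold kq2
    rw [lintegral_prod _ m2'.aemeasurable]
    simp only [lintegral_const]
    rw [lintegral_mul_const _ hm, mul_comm]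
  simp_rw [h2] at h1
  have hk0 : kq univ ≠ 0 := by rw [Ne, Measure.measure_univ_eq_zero]; exact kq_ne_zero
  have hkt : kq univ ≠ ⊤ := measure_ne_top _ _
  have h3 := ENNReal.Tendsto.const_mul (a := (kq univ)⁻¹) h1 (Or.inr (by simp [hk0]))
  rw [mul_zero] at h3
  refine h3.congr fun n => ?_
  rw [← mul_assoc, ENNReal.inv_mul_cancel hk0 hkt, one_mul]

/-- Left invariance under a dense set. -/
theorem dense_left {f : SL2R → ℝ} (hf : Measurable f) (hb : ∃ M, ∀ g, |f g| ≤ M) {D : Set SL2R}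
    (hD : Dense D) (hinv : ∀ d ∈ D, ∀ᵐ g ∂kq, f (d * g) = f g) : ∃ c, ∀ᵐ g ∂kq, f g = c := by
  have h1 : ∀ h : SL2R, ∀ᵐ g ∂kq, f (h * g) = f g := by
    intro h
    obtain ⟨d, hd, hdh⟩ := mem_closure_iff_seq_limit.1 (hD h)
    have hh : Tendsto (fun n => h⁻¹ * d n) atTop (𝓝 1) := by
      have := hdh.const_mul h⁻¹
      rwa [inv_mul_cancel] at this
    have hfm : Measurable (fun g => f (h * g)) := hf.comp (measurable_const_mul h)
    have h2 := TCL_one hfm (hb.imp fun M hM g => hM _) hh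
    have h3 : ∀ n, ∫⁻ g, ‖f (h * (h⁻¹ * d n * g)) - f (h * g)‖ₑ ∂kq
        = ∫⁻ g, ‖f g - f (h * g)‖ₑ ∂kq := by
      intro n
      refine lintegral_congr_ae ?_
      filter_upwards [hinv (d n) (hd n)] with g hg
      rw [← mul_assoc, mul_inv_cancel_left, hg]
    simp_rw [h3] at h2
    have h4 : ∫⁻ g, ‖f g - f (h * g)‖ₑ ∂kq = 0 := tendsto_nhds_unique tendsto_const_nhds h2
    have hm : Measurable (fun g => f g - f (h * g)) := hf.sub hfm
    rw [lintegral_eq_zero_iff hm.enorm] at h4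
    filter_upwards [h4] with g hg
    simp only [Pi.zero_apply, enorm_eq_zero] at hg
    linarith
  have hset : MeasurableSet {p : SL2R × SL2R | f (p.1 * p.2) = f p.2} :=
    measurableSet_eq_fun (hf.comp measurable_mul) (hf.comp measurable_snd)
  have h2 : ∀ᵐ g ∂kq, ∀ᵐ h ∂kq, f (h * g) = f g := by
    refine (Measure.ae_ae_comm (μ := kq) (ν := kq) (p := fun h g => f (h * g) = f g) hset).1 ?_
    filter_upwards with h
    exact h1 h
  have hne : (ae kq).NeBot := ae_neBot.2 kq_ne_zero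
  obtain ⟨g, hg⟩ := h2.exists
  refine ⟨f g, ?_⟩
  have h3 := kq_ae_right g⁻¹ hg
  filter_upwards [h3] with h h4
  rwa [inv_mul_cancel_right] at h4

/-- Right invariance under a dense set. -/
theorem dense_right {f : SL2R → ℝ} (hf : Measurable f) (hb : ∃ M, ∀ g, |f g| ≤ M) {D : Set SL2R}
    (hD : Dense D) (hinv : ∀ d ∈ D, ∀ᵐ g ∂kq, f (g * d) = f g) : ∃ c, ∀ᵐ g ∂kq, f g = c := by
  obtain ⟨c, hc⟩ := dense_left (f := fun g => f g⁻¹) (hf.comp measurable_inv)
    (hb.imp fun M hM g => hM _) (D := (fun g => g⁻¹) ⁻¹' D)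
    (hD.preimage (Homeomorph.inv SL2R).isOpenMap) (fun d hd => by
      have h1 := kq_ae_inv (hinv d⁻¹ hd)
      filter_upwards [h1] with g hg
      rw [mul_inv_rev, hg])
  refine ⟨c, ?_⟩
  have h1 := kq_ae_inv hc
  filter_upwards [h1] with g hg
  rwa [inv_inv] at hg

end Pool.Agent.IRS
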