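import Mathlib
import Pool.Agent.IRS.Avg

/-!
# Functions that are almost invariant under every element agree with strictly invariant ones
-/

set_option autoImplicit false
set_option linter.unusedSectionVars false

namespace Pool.Agent.IRS

open MeasureTheory Set

section

variable {Γ : Type*} [Group Γ] [MeasurableSpace Γ] [MeasurableInv Γ] [MeasurableMul Γ]
  {X : Type*} [MeasurableSpace X] {μ : Measure X} [IsProbabilityMeasure μ] (a : PAct Γ μ)
  (κ : Measure Γ) [IsFiniteMeasure κ] (hκ : κ ≠ 0) (hq : ∀ h : Γ, κ.map (h * ·) ≪ κ)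
include hκ hq

lemma ae_lmul {P : Γ → Prop} (h : Γ) (hP : ∀ᵐ g ∂κ, P g) : ∀ᵐ g ∂κ, P (h * g) := by
  have h1 : ∀ᵐ g ∂(κ.map (h * ·)), P g := (hq h).ae_le hP
  exact ae_of_ae_map (measurable_const_mul h).aemeasurable h1

/-- Strict invariance. -/
theorem strictify (v : X → ℝ) (hv : Measurable v) (hb : ∃ M, ∀ x, |v x| ≤ M)
    (hinv : ∀ g : Γ, ∀ᵐ x ∂μ, v (a.τ g x) = v x) :
    ∃ v' : X → ℝ, Measurable v' ∧ (∀ g x, v' (a.τ g x) = v' x) ∧ v' =ᵐ[μ] v := by
  obtain ⟨M, hM⟩ := hb
  have hVm : Measurable (fun p : X × Γ => v (a.τ p.2⁻¹ p.1)) :=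
    hv.comp (a.meas.comp (measurable_snd.inv.prodMk measurable_fst))
  have hk0 : 0 < κ.real univ := by
    refine ENNReal.toReal_pos ?_ (measure_ne_top _ _)
    rwa [Ne, Measure.measure_univ_eq_zero]
  set m : X → ℝ := fun x => (κ.real univ)⁻¹ * ∫ g, v (a.τ g⁻¹ x) ∂κ with hm
  have hmm : Measurable m := (hVm.stronglyMeasurable.integral_prod_right'.measurable).const_mul _
  set D : X → ENNReal := fun x => ∫⁻ g, ‖v (a.τ g⁻¹ x) - m x‖ₑ ∂κ with hD
  have hDm : Measurable D := by
    have : Measurable (fun p : X × Γ => ‖v (a.τ p.2⁻¹ p.1) - m p.1‖ₑ) :=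
      (hVm.sub (hmm.comp measurable_fst)).enorm
    exact this.lintegral_prod_right'
  have hsec : ∀ x, Measurable (fun g : Γ => v (a.τ g⁻¹ x)) := fun x =>
    hVm.comp (measurable_const.prodMk measurable_id)
  have hconst : ∀ x c, (∀ᵐ g ∂κ, v (a.τ g⁻¹ x) = c) → m x = c := by
    intro x c h
    simp only [hm]
    rw [integral_congr_ae h, integral_const, smul_eq_mul, ← mul_assoc, inv_mul_cancel₀ hk0.ne',
      one_mul]
  have hD0 : ∀ x, D x = 0 ↔ ∀ᵐ g ∂κ, v (a.τ g⁻¹ x) = m x := by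
    intro x
    simp only [hD]
    rw [lintegral_eq_zero_iff ((hsec x).sub_const _).enorm]
    constructor
    · intro h
      filter_upwards [h] with g hg
      simp only [Pi.zero_apply, enorm_eq_zero] at hg
      linarith
    · intro h
      filter_upwards [h] with g hg
      simp [hg]
  have hmove : ∀ (h : Γ) (x : X), D x = 0 → D (a.τ h x) = 0 ∧ m (a.τ h x) = m x := by
    intro h x hx
    have h1 : ∀ᵐ g ∂κ, v (a.τ g⁻¹ (a.τ h x)) = m x := by
      have h2 := ae_lmul κ hκ hq h⁻¹ ((hD0 x).1 hx)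
      filter_upwards [h2] with g hg
      rw [← hg, ← a.mul, mul_inv_rev, inv_inv]
    have h3 := hconst _ _ h1
    refine ⟨(hD0 _).2 ?_, h3⟩
    rw [h3]; exact h1
  classical
  refine ⟨fun x => if D x = 0 then m x else 0, ?_, ?_, ?_⟩
  · exact Measurable.ite (hDm (measurableSet_singleton 0)) hmm measurable_const
  · intro h x
    simp only
    by_cases hx : D x = 0
    · rw [if_pos hx, if_pos (hmove h x hx).1, (hmove h x hx).2]
    · have h1 : D (a.τ h x) ≠ 0 := by
        intro h2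
        have h3 := (hmove h⁻¹ _ h2).1
        rw [a.inv_apply] at h3
        exact hx h3
      rw [if_neg hx, if_neg h1]
  · have hset : MeasurableSet {p : X × Γ | v (a.τ p.2⁻¹ p.1) = v p.1} :=
      measurableSet_eq_fun hVm (hv.comp measurable_fst)
    have h1 : ∀ᵐ g ∂κ, ∀ᵐ x ∂μ, v (a.τ g⁻¹ x) = v x := by
      filter_upwards with g
      exact hinv g⁻¹
    have h2 : ∀ᵐ x ∂μ, ∀ᵐ g ∂κ, v (a.τ g⁻¹ x) = v x :=
      (Measure.ae_ae_comm (μ := μ) (ν := κ) (p := fun x g => v (a.τ g⁻¹ x) = v x) hset).2 h1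
    filter_upwards [h2] with x hx
    have h3 := hconst x (v x) hx
    have h4 : D x = 0 := (hD0 x).2 (by rw [h3]; exact hx)
    rw [if_pos h4, h3]

/-- Ergodicity for almost invariant functions. -/
theorem erg_const
    (herg : ∀ S : Set X, MeasurableSet S → (∀ g x, a.τ g x ∈ S ↔ x ∈ S) → μ S = 0 ∨ μ S = 1)
    (v : X → ℝ) (hv : Measurable v) (hb : ∃ M, ∀ x, |v x| ≤ M)
    (hinv : ∀ g : Γ, ∀ᵐ x ∂μ, v (a.τ g x) = v x) : ∀ᵐ x ∂μ, v x = ∫ y, v y ∂μ := by
  obtain ⟨v', hv', hs, hae⟩ := strictify a κ hκ hq v hv hb hinv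
  obtain ⟨M, hM⟩ := hb
  have hvi : Integrable v μ := integrable_of_bdd μ hv hM
  have hvi' : Integrable v' μ := hvi.congr hae.symm
  have hint : ∫ y, v' y ∂μ = ∫ y, v y ∂μ := integral_congr_ae hae
  set c := ∫ y, v y ∂μ with hc
  set S : Set X := {x | v' x ≤ c} with hS
  have hSm : MeasurableSet S := measurableSet_le hv' measurable_const
  have h1 : μ S = 0 ∨ μ S = 1 := herg S hSm fun g x => by simp only [hS, mem_ofPred_eq, hs]
  have hle : ∀ᵐ x ∂μ, v' x ≤ c := by
    rcases h1 with h1 | h1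
    · exfalso
      have h2 : ∀ᵐ x ∂μ, c < v' x := by
        have : ∀ᵐ x ∂μ, x ∉ S := measure_eq_zero_iff_ae_notMem.1 h1
        filter_upwards [this] with x hx
        exact not_le.1 hx
      have h3 : ∫ x, (v' x - c) ∂μ = 0 := by
        rw [integral_sub hvi' (integrable_const _), hint]; simp
      have hi : Integrable (fun x => v' x - c) μ := hvi'.sub (integrable_const _)
      have hn : 0 ≤ᵐ[μ] fun x => v' x - c := by
        filter_upwards [h2] with x hx
        simp only [Pi.zero_apply]; linarith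
      have h4 := (integral_eq_zero_iff_of_nonneg_ae hn hi).1 h3
      have h5 : ∀ᵐ x ∂μ, False := by
        filter_upwards [h2, h4] with x h6 h7
        simp only [Pi.zero_apply] at h7
        linarith
      rw [ae_iff] at h5
      simp at h5
    · have h2 := (prob_compl_eq_zero_iff hSm).2 h1
      have : ∀ᵐ x ∂μ, x ∉ Sᶜ := measure_eq_zero_iff_ae_notMem.1 h2
      filter_upwards [this] with x hx
      exact not_not.1 hx
  have h3 : ∫ x, (c - v' x) ∂μ = 0 := by
    rw [integral_sub (integrable_const _) hvi', hint]; simp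
  have hi : Integrable (fun x => c - v' x) μ := (integrable_const _).sub hvi'
  have hn : 0 ≤ᵐ[μ] fun x => c - v' x := by
    filter_upwards [hle] with x hx
    simp only [Pi.zero_apply]; linarith
  have h4 := (integral_eq_zero_iff_of_nonneg_ae hn hi).1 h3
  filter_upwards [h4, hae] with x h5 h6
  simp only [Pi.zero_apply] at h5
  rw [← h6]; linarith

end

end Pool.Agent.IRS
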