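import Mathlib
import Pool.Agent.IRS.DI
import Pool.Agent.IRS.Chab
import Pool.Agent.IRS.Strict

/-!
# Equivariant fields of subgroups
-/

set_option autoImplicit false

namespace Pool.Agent.IRS

open MeasureTheory Set Filter Topology ENNReal

/-- Restriction of an action along a homomorphism. -/
def PAct.comap {Γ Γ' Z : Type*} [Group Γ] [MeasurableSpace Γ] [Group Γ'] [MeasurableSpace Γ']
    [MeasurableSpace Z] {ζ : Measure Z} (a : PAct Γ ζ) (j : Γ' →* Γ) (hj : Measurable j) :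
    PAct Γ' ζ where
  τ g z := a.τ (j g) z
  one z := by rw [map_one, a.one]
  mul g h z := by rw [map_mul, a.mul]
  meas := a.meas.comp ((hj.comp measurable_fst).prodMk measurable_snd)
  mp g := a.mp (j g)

/-- First factor. -/
def j1 : SL2R →* G2 := MonoidHom.inl SL2R SL2R
/-- Second factor. -/
def j2 : SL2R →* G2 := MonoidHom.inr SL2R SL2R

lemma j1_apply (g : SL2R) : j1 g = (g, 1) := rfl
lemma j2_apply (g : SL2R) : j2 g = (1, g) := rfl
lemma measurable_j1 : Measurable j1 := measurable_id.prodMk measurable_const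
lemma measurable_j2 : Measurable j2 := measurable_const.prodMk measurable_id
lemma j12_comm (g h : SL2R) : j1 g * j2 h = j2 h * j1 g := by
  simp [j1_apply, j2_apply]
lemma j12 (g : G2) : j1 g.1 * j2 g.2 = g := by simp [j1_apply, j2_apply]

/-- An equivariant field of discrete subgroups inside the stabilisers. -/
structure Fld {X : Type} [MeasurableSpace X] (μ : Measure X) where
  A : PAct G2 μ
  H : X → Subgroup G2
  closed : ∀ x, IsClosed (H x : Set G2)
  meas : ∀ U : Set G2, IsOpen U → MeasurableSet {x | ((H x : Set G2) ∩ U).Nonempty}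
  equi : ∀ g x h, h ∈ H (A.τ g x) ↔ g⁻¹ * h * g ∈ H x
  stab : ∀ x, ∀ h ∈ H x, A.τ h x = x
  cnt : ∀ᵐ x ∂μ, (H x : Set G2).Countable
  fin : ∀ᵐ x ∂μ, ∀ g : G2, ∑' h : H x, ENNReal.ofReal (q2 (h * g)) ≠ ⊤
  d1 : ∀ᵐ x ∂μ, Dense (Prod.fst '' (H x : Set G2))
  d2 : ∀ᵐ x ∂μ, Dense (Prod.snd '' (H x : Set G2))
  cent : ∀ x, ((-1, 1) : G2) ∈ H x
  erg : ∀ S : Set X, MeasurableSet S → (∀ g x, A.τ g x ∈ S ↔ x ∈ S) → μ S = 0 ∨ μ S = 1

namespace Fld

variable {X : Type} [MeasurableSpace X] {μ : Measure X} [IsProbabilityMeasure μ] (𝓕 : Fld μ)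

/-- The action of the first factor. -/
def A1 : PAct SL2R μ := 𝓕.A.comap j1 measurable_j1
/-- The action of the second factor. -/
def A2 : PAct SL2R μ := 𝓕.A.comap j2 measurable_j2

/-- The first factor acts ergodically. -/
theorem erg1 (v : X → ℝ) (hv : Measurable v) (hb : ∃ M, ∀ x, |v x| ≤ M)
    (hinv : ∀ g : SL2R, ∀ᵐ x ∂μ, v (𝓕.A.τ (j1 g) x) = v x) : ∀ᵐ x ∂μ, v x = ∫ y, v y ∂μ := by
  obtain ⟨v', hv', hs, hae⟩ := strictify (𝓕.A1) kq kq_ne_zero kq_left v hv hb hinv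
  have hs' : ∀ g x, v' (𝓕.A.τ (j1 g) x) = v' x := hs
  obtain ⟨M, hM⟩ := hb
  -- a bounded version of v'
  set u : X → ℝ := fun x => max (-M) (min M (v' x)) with hu
  have hum : Measurable u := measurable_const.max (measurable_const.min hv')
  have hus : ∀ g x, u (𝓕.A.τ (j1 g) x) = u x := fun g x => by simp only [hu]; rw [hs']
  have huae : u =ᵐ[μ] v := by
    filter_upwards [hae] with x hx
    simp only [hu]
    rw [hx, min_eq_right ((le_abs_self _).trans (hM x)), max_eq_right (neg_le_of_abs_le (hM x))]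
  have hub : ∀ x, |u x| ≤ |M| := by
    intro x
    have h0 : 0 ≤ M := (abs_nonneg _).trans (hM x)
    rw [abs_of_nonneg h0, abs_le]
    exact ⟨le_max_left _ _, max_le (by linarith) (min_le_left _ _)⟩
  -- constancy along the second factor
  have h1 : ∀ᵐ x ∂μ, ∃ c, ∀ᵐ y ∂kq, u (𝓕.A.τ (j2 y) x) = c := by
    filter_upwards [𝓕.d2] with x hx
    have hm : Measurable (fun y : SL2R => u (𝓕.A.τ (j2 y) x)) :=
      hum.comp (𝓕.A.meas.comp (measurable_j2.prodMk measurable_const))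
    refine dense_right hm ⟨|M|, fun y => hub _⟩ hx ?_
    rintro _ ⟨h, hh, rfl⟩
    filter_upwards with y
    have e1 : 𝓕.A.τ (j2 h.2) x = 𝓕.A.τ (j1 h.1⁻¹) x := by
      have e2 : j2 h.2 = j1 h.1⁻¹ * h := by simp [j1_apply, j2_apply, Prod.ext_iff]
      rw [e2, 𝓕.A.mul, 𝓕.stab x h hh]
    rw [map_mul, 𝓕.A.mul, e1, ← 𝓕.A.mul, ← j12_comm, 𝓕.A.mul, hus]
  -- invariance under the second factor
  have h2 : ∀ y0 : SL2R, ∀ᵐ x ∂μ, u (𝓕.A.τ (j2 y0) x) = u x := by
    intro y0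
    have hset : MeasurableSet {p : X × SL2R | u (𝓕.A.τ (j2 (y0 * p.2)) p.1)
        = u (𝓕.A.τ (j2 p.2) p.1)} := by
      have m1 : Measurable (fun p : X × SL2R => (j2 (y0 * p.2), p.1)) :=
        (measurable_j2.comp ((measurable_const_mul y0).comp measurable_snd)).prodMk measurable_fst
      have m2 : Measurable (fun p : X × SL2R => (j2 p.2, p.1)) :=
        (measurable_j2.comp measurable_snd).prodMk measurable_fst
      have m3 : Measurable (fun p : X × SL2R => 𝓕.A.τ (j2 (y0 * p.2)) p.1) := 𝓕.A.meas.comp m1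
      have m4 : Measurable (fun p : X × SL2R => 𝓕.A.τ (j2 p.2) p.1) := 𝓕.A.meas.comp m2
      exact measurableSet_eq_fun (hum.comp m3) (hum.comp m4)
    have h3 : ∀ᵐ x ∂μ, ∀ᵐ y ∂kq, u (𝓕.A.τ (j2 (y0 * y)) x) = u (𝓕.A.τ (j2 y) x) := by
      filter_upwards [h1] with x ⟨c, hc⟩
      filter_upwards [hc, kq_ae_left y0 hc] with y h4 h5
      rw [h4, h5]
    have h4 := (Measure.ae_ae_comm (μ := μ) (ν := kq)
      (p := fun x y => u (𝓕.A.τ (j2 (y0 * y)) x) = u (𝓕.A.τ (j2 y) x)) hset).1 h3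
    have hne : (ae kq).NeBot := ae_neBot.2 kq_ne_zero
    obtain ⟨y, hy⟩ := h4.exists
    have h5 := (𝓕.A.mp (j2 y⁻¹)).quasiMeasurePreserving.ae hy
    filter_upwards [h5] with x hx
    rw [← 𝓕.A.mul, ← 𝓕.A.mul, ← map_mul, ← map_mul, mul_inv_cancel_right, mul_inv_cancel,
      map_one, 𝓕.A.one] at hx
    exact hx
  have h3 : ∀ g : G2, ∀ᵐ x ∂μ, u (𝓕.A.τ g x) = u x := by
    intro g
    filter_upwards [h2 g.2] with x hx
    rw [← j12 g, 𝓕.A.mul, hus, hx]
  have h4 := erg_const 𝓕.A kq2 kq2_ne_zero kq2_left 𝓕.erg u hum ⟨|M|, hub⟩ h3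
  have h5 : ∫ y, u y ∂μ = ∫ y, v y ∂μ := integral_congr_ae huae
  filter_upwards [h4, huae] with x h6 h7
  rw [← h7, h6, h5]

end Fld

end Pool.Agent.IRS
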