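import Mathlib
import Pool.Agent.IRS.Avg

/-!
# The mean ergodic theorem in a pointwise form
-/

set_option autoImplicit false

namespace Pool.Agent.IRS

open MeasureTheory Set Filter Topology ENNReal

/-- Mean ergodic theorem for a bounded function. -/
theorem met {X : Type*} [MeasurableSpace X] {μ : Measure X} [IsProbabilityMeasure μ]
    {f : X → X} (hf : MeasurePreserving f μ μ) {lam : X → ℝ} (hl : Measurable lam) {M : ℝ}
    (hM : ∀ x, |lam x| ≤ M) :
    ∃ w : X → ℝ, Measurable w ∧ (∀ x, |w x| ≤ M) ∧ (∀ᵐ x ∂μ, w (f x) = w x) ∧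
      Tendsto (fun N : ℕ => ∫⁻ x, ‖(N : ℝ)⁻¹ * ∑ n ∈ Finset.range N, lam (f^[n] x) - w x‖ₑ ∂μ)
        atTop (𝓝 0) := by
  have hM0 : 0 ≤ M := by
    have hne : (ae μ).NeBot := inferInstance
    have : Nonempty X := nonempty_of_isProbabilityMeasure μ
    obtain ⟨x⟩ := this
    exact (abs_nonneg _).trans (hM x)
  have hmem : MemLp lam 2 μ := by
    refine MemLp.of_bound hl.aestronglyMeasurable M ?_
    filter_upwards with x
    exact hM x
  set U : Lp ℝ 2 μ →ₗᵢ[ℝ] Lp ℝ 2 μ := Lp.compMeasurePreservingₗᵢ ℝ f hf with hU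
  have hUc : ∀ g : Lp ℝ 2 μ, (U g : X → ℝ) =ᵐ[μ] (g : X → ℝ) ∘ f := fun g =>
    Lp.coeFn_compMeasurePreserving g hf
  set T : Lp ℝ 2 μ →L[ℝ] Lp ℝ 2 μ := U.toContinuousLinearMap with hT
  have hT1 : ‖T‖ ≤ 1 := U.norm_toContinuousLinearMap_le
  set v0 : Lp ℝ 2 μ := hmem.toLp lam with hv0
  obtain ⟨v, hTv, h1⟩ : ∃ v : Lp ℝ 2 μ, T v = v ∧
      Tendsto (birkhoffAverage ℝ T _root_.id · v0) atTop (𝓝 v) := by
    refine ⟨_, ?_, T.tendsto_birkhoffAverage_orthogonalProjection hT1 v0⟩
    exact Subtype.prop ((T.eqLocus (1 : Lp ℝ 2 μ →L[ℝ] Lp ℝ 2 μ)).orthogonalProjectionOnto v0)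
  -- the iterates
  have hiter : ∀ n : ℕ, ((T^[n] v0 : Lp ℝ 2 μ) : X → ℝ) =ᵐ[μ] fun x => lam (f^[n] x) := by
    intro n
    induction n with
    | zero => exact hmem.coeFn_toLp
    | succ n ih =>
      rw [Function.iterate_succ_apply']
      have h2 := hUc (T^[n] v0)
      have h3 := hf.quasiMeasurePreserving.ae_eq_comp ih
      filter_upwards [h2, h3] with x h4 h5
      change (U (T^[n] v0) : X → ℝ) x = _
      rw [h4, h5]
      simp only [Function.comp]
      rw [← Function.iterate_succ_apply]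
  have havg : ∀ N : ℕ, ((birkhoffAverage ℝ T _root_.id N v0 : Lp ℝ 2 μ) : X → ℝ)
      =ᵐ[μ] fun x => (N : ℝ)⁻¹ * ∑ n ∈ Finset.range N, lam (f^[n] x) := by
    intro N
    unfold birkhoffAverage birkhoffSum
    have h2 := Lp.coeFn_smul ((N : ℝ)⁻¹) (∑ n ∈ Finset.range N, _root_.id (T^[n] v0))
    have h3 : ((∑ n ∈ Finset.range N, _root_.id (T^[n] v0) : Lp ℝ 2 μ) : X → ℝ)
        =ᵐ[μ] fun x => ∑ n ∈ Finset.range N, lam (f^[n] x) := by
      induction N with
      | zero =>
        simp only [Finset.range_zero, Finset.sum_empty]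
        exact Lp.coeFn_zero _ _ _
      | succ N ih =>
        rw [Finset.sum_range_succ]
        have h4 := Lp.coeFn_add (∑ n ∈ Finset.range N, _root_.id (T^[n] v0)) (_root_.id (T^[N] v0))
        filter_upwards [h4, ih (Lp.coeFn_smul _ _), hiter N] with x h5 h6 h7
        rw [h5, Pi.add_apply, h6, Finset.sum_range_succ]
        simp only [_root_.id]
        rw [h7]
    filter_upwards [h2, h3] with x h4 h5
    rw [h4, Pi.smul_apply, h5, smul_eq_mul]
  -- the clipped limit
  have hvm : Measurable (v : X → ℝ) := (Lp.stronglyMeasurable v).measurable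
  set w : X → ℝ := fun x => max (-M) (min M ((v : X → ℝ) x)) with hw
  have hwm : Measurable w := measurable_const.max (measurable_const.min hvm)
  have hclip : ∀ x y : ℝ, |x| ≤ M → |x - max (-M) (min M y)| ≤ |x - y| := by
    intro x y hx
    rw [abs_le] at hx
    rcases le_total M y with h | h
    · rw [min_eq_left h, max_eq_right (by linarith)]
      rw [abs_of_nonpos (by linarith), abs_of_nonpos (by linarith)]; linarith
    · rw [min_eq_right h]
      rcases le_total (-M) y with h' | h'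
      · rw [max_eq_right h']
      · rw [max_eq_left h', abs_of_nonneg (by linarith), abs_of_nonneg (by linarith)]; linarith
  refine ⟨w, hwm, fun x => abs_le.2 ⟨le_max_left _ _, max_le (by linarith) (min_le_left _ _)⟩, ?_, ?_⟩
  · have h2 := hUc v
    have h3 : U v = v := hTv
    rw [h3] at h2
    filter_upwards [h2] with x hx
    simp only [hw]
    simp only [Function.comp] at hx
    rw [← hx]
  · have h2 : Tendsto (fun N => ‖birkhoffAverage ℝ T _root_.id N v0 - v‖ₑ) atTop (𝓝 0) := by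
      have h3 := tendsto_iff_edist_tendsto_0.1 h1
      refine h3.congr fun N => ?_
      rw [edist_eq_enorm_sub]
    refine tendsto_of_tendsto_of_tendsto_of_le_of_le tendsto_const_nhds h2 (fun n => zero_le)
      fun N => ?_
    have h4 : ‖birkhoffAverage ℝ T _root_.id N v0 - v‖ₑ
        = eLpNorm ((birkhoffAverage ℝ T _root_.id N v0 - v : Lp ℝ 2 μ) : X → ℝ) 2 μ := by
      rw [Lp.enorm_def]
    rw [h4]
    have h5 : eLpNorm ((birkhoffAverage ℝ T _root_.id N v0 - v : Lp ℝ 2 μ) : X → ℝ) 1 μ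
        ≤ eLpNorm ((birkhoffAverage ℝ T _root_.id N v0 - v : Lp ℝ 2 μ) : X → ℝ) 2 μ :=
      eLpNorm_le_eLpNorm_of_exponent_le (by norm_num) (Lp.aestronglyMeasurable _)
    refine le_trans ?_ h5
    rw [eLpNorm_one_eq_lintegral_enorm]
    refine lintegral_mono_ae ?_
    filter_upwards [Lp.coeFn_sub (birkhoffAverage ℝ T _root_.id N v0) v, havg N] with x h6 h7
    rw [h6, Pi.sub_apply, h7]
    rw [← ofReal_norm, ← ofReal_norm]
    apply ENNReal.ofReal_le_ofReal
    refine hclip _ _ ?_
    -- the average is bounded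
    rcases Nat.eq_zero_or_pos N with hN | hN
    · subst hN; simpa using hM0
    · have hN' : (0 : ℝ) < N := by exact_mod_cast hN
      rw [abs_mul, abs_of_pos (by positivity)]
      have h8 : |∑ n ∈ Finset.range N, lam (f^[n] x)| ≤ N * M := by
        refine (Finset.abs_sum_le_sum_abs _ _).trans ?_
        refine (Finset.sum_le_sum fun n _ => hM (f^[n] x)).trans ?_
        simp
      calc (N : ℝ)⁻¹ * |∑ n ∈ Finset.range N, lam (f^[n] x)| ≤ (N : ℝ)⁻¹ * (N * M) := by gcongr
        _ = M := by field_simp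

end Pool.Agent.IRS
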