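import Mathlib
import Pool.Agent.IRS.Fld
import Pool.Agent.IRS.MET

/-!
# Convergence of the averages along the diagonal element
-/

set_option autoImplicit false

namespace Pool.Agent.IRS

open MeasureTheory Set Filter Topology ENNReal

lemma lintegral_comp_mp {X : Type*} [MeasurableSpace X] {μ : Measure X} {f : X → X}
    (hf : MeasurePreserving f μ μ) {φ : X → ENNReal} (hφ : Measurable φ) :
    ∫⁻ x, φ (f x) ∂μ = ∫⁻ x, φ x ∂μ := hf.lintegral_comp hφ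

lemma continuous_uu : Continuous uu := by
  refine continuous_induced_rng.2 ?_
  refine continuous_matrix fun i j => ?_
  fin_cases i <;> fin_cases j
  · exact continuous_const
  · exact continuous_id
  · exact continuous_const
  · exact continuous_const

lemma continuous_vv : Continuous vv := by
  refine continuous_induced_rng.2 ?_
  refine continuous_matrix fun i j => ?_
  fin_cases i <;> fin_cases j
  · exact continuous_const
  · exact continuous_const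
  · exact continuous_id
  · exact continuous_const

lemma tendsto_div4 (y : ℝ) : Tendsto (fun n : ℕ => y / 4 ^ n) atTop (𝓝 0) := by
  have h := (tendsto_pow_atTop_nhds_zero_of_lt_one (by norm_num : (0 : ℝ) ≤ 1 / 4)
    (by norm_num)).const_mul y
  rw [mul_zero] at h
  refine h.congr fun n => ?_
  rw [one_div, inv_pow, div_eq_mul_inv]

lemma tendsto_uu4 (y : ℝ) : Tendsto (fun n : ℕ => uu (y / 4 ^ n)) atTop (𝓝 1) := by
  have := (continuous_uu.tendsto 0).comp (tendsto_div4 y)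
  rwa [uu_zero] at this

lemma tendsto_vv4 (y : ℝ) : Tendsto (fun n : ℕ => vv (y / 4 ^ n)) atTop (𝓝 1) := by
  have := (continuous_vv.tendsto 0).comp (tendsto_div4 y)
  rwa [vv_zero] at this

lemma continuous_j1 : Continuous j1 := continuous_id.prodMk continuous_const

lemma tendsto_j1 {h : ℕ → SL2R} (hh : Tendsto h atTop (𝓝 1)) :
    Tendsto (fun n => j1 (h n)) atTop (𝓝 1) := by
  have := (continuous_j1.tendsto 1).comp hh
  rwa [map_one] at this

/-- Subgroups containing the unipotents are everything. -/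
lemma gen_all (S : Subgroup SL2R) (hu : ∀ x, uu x ∈ S) (hv : ∀ x, vv x ∈ S) (g : SL2R) : g ∈ S := by
  have h1 : ∀ g : SL2R, g 1 0 ≠ 0 → g ∈ S := by
    intro g hg
    rw [fact3 g hg]
    exact S.mul_mem (S.mul_mem (hu _) (hv _)) (hu _)
  by_cases hg : g 1 0 = 0
  · have h2 : (g * vv 1) 1 0 ≠ 0 := by
      rw [SL_mul_apply, hg]
      simp only [vv00, vv10]
      have hd := det_eq g
      rw [hg] at hd
      intro h3
      have : g 1 1 = 0 := by linarith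
      rw [this] at hd
      simp at hd
    have h3 := h1 _ h2
    have h4 : g = (g * vv 1) * (vv 1)⁻¹ := by rw [mul_inv_cancel_right]
    rw [h4]
    exact S.mul_mem h3 (S.inv_mem (hv 1))
  · exact h1 g hg

namespace Fld

variable {X : Type} [MeasurableSpace X] {μ : Measure X} [IsProbabilityMeasure μ] (𝓕 : Fld μ)

/-- Continuity of the action in measure. -/
lemma act_cont {w : X → ℝ} (hw : Measurable w) {M : ℝ} (hM : ∀ x, |w x| ≤ M) {h : ℕ → G2}
    (hh : Tendsto h atTop (𝓝 1)) :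
    Tendsto (fun n => ∫⁻ x, ‖w (𝓕.A.τ (h n) x) - w x‖ₑ ∂μ) atTop (𝓝 0) := by
  set F : X × G2 → ℝ := fun p => w (𝓕.A.τ p.2 p.1) with hF
  have hFm : Measurable F := hw.comp (𝓕.A.meas.comp (measurable_snd.prodMk measurable_fst))
  have h1 := TCL μ hh hFm (integrable_of_bdd _ hFm fun p => hM _)
  have h2 : ∀ n, ∫⁻ p, ‖F (p.1, h n * p.2) - F p‖ₑ ∂(μ.prod kq2)
      = kq2 univ * ∫⁻ x, ‖w (𝓕.A.τ (h n) x) - w x‖ₑ ∂μ := by
    intro n
    have hm : Measurable (fun x => ‖w (𝓕.A.τ (h n) x) - w x‖ₑ) :=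
      ((hw.comp (𝓕.A.meas_g _)).sub hw).enorm
    have e1 : ∀ p : X × G2, ‖F (p.1, h n * p.2) - F p‖ₑ
        = (fun x => ‖w (𝓕.A.τ (h n) x) - w x‖ₑ) (𝓕.A.τ p.2 p.1) := by
      intro p
      simp only [hF]
      rw [𝓕.A.mul]
    simp_rw [e1]
    have m1 : Measurable (fun p : X × G2 => (fun x => ‖w (𝓕.A.τ (h n) x) - w x‖ₑ)
        (𝓕.A.τ p.2 p.1)) := hm.comp (𝓕.A.meas.comp (measurable_snd.prodMk measurable_fst))
    rw [lintegral_prod_symm _ m1.aemeasurable]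
    have e2 : ∀ g : G2, ∫⁻ x, (fun x => ‖w (𝓕.A.τ (h n) x) - w x‖ₑ) (𝓕.A.τ g x) ∂μ
        = ∫⁻ x, ‖w (𝓕.A.τ (h n) x) - w x‖ₑ ∂μ := fun g => lintegral_comp_mp (𝓕.A.mp g) hm
    simp_rw [e2]
    rw [lintegral_const, mul_comm]
  simp_rw [h2] at h1
  have hk0 : kq2 univ ≠ 0 := by rw [Ne, Measure.measure_univ_eq_zero]; exact kq2_ne_zero
  have hkt : kq2 univ ≠ ⊤ := measure_ne_top _ _
  have h3 := ENNReal.Tendsto.const_mul (a := (kq2 univ)⁻¹) h1 (Or.inr (by simp [hk0]))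
  rw [mul_zero] at h3
  refine h3.congr fun n => ?_
  rw [← mul_assoc, ENNReal.inv_mul_cancel hk0 hkt, one_mul]

/-- A function invariant under the diagonal element is invariant under the first factor. -/
lemma mautner {w : X → ℝ} (hw : Measurable w) {M : ℝ} (hM : ∀ x, |w x| ≤ M)
    (ha : ∀ᵐ x ∂μ, w (𝓕.A.τ (j1 aa) x) = w x) (g : SL2R) :
    ∀ᵐ x ∂μ, w (𝓕.A.τ (j1 g) x) = w x := by
  -- the stabiliser
  set S : Subgroup SL2R :=
    { carrier := {g | ∀ᵐ x ∂μ, w (𝓕.A.τ (j1 g) x) = w x}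
      one_mem' := by
        change ∀ᵐ x ∂μ, w (𝓕.A.τ (j1 1) x) = w x
        filter_upwards with x
        rw [map_one, 𝓕.A.one]
      mul_mem' := by
        intro g h hg hh
        change ∀ᵐ x ∂μ, w (𝓕.A.τ (j1 (g * h)) x) = w x
        have h1 := (𝓕.A.mp (j1 h)).quasiMeasurePreserving.ae hg
        filter_upwards [h1, hh] with x h2 h3
        rw [map_mul, 𝓕.A.mul, h2, h3]
      inv_mem' := by
        intro g hg
        change ∀ᵐ x ∂μ, w (𝓕.A.τ (j1 g⁻¹) x) = w x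
        have h1 := (𝓕.A.mp (j1 g⁻¹)).quasiMeasurePreserving.ae hg
        filter_upwards [h1] with x h2
        rw [← 𝓕.A.mul, ← map_mul, mul_inv_cancel, map_one, 𝓕.A.one] at h2
        exact h2.symm } with hS
  have haS : aa ∈ S := ha
  have hmem : ∀ g, g ∈ S ↔ ∀ᵐ x ∂μ, w (𝓕.A.τ (j1 g) x) = w x := fun g => Iff.rfl
  -- transfer to small elements
  have key : ∀ (s : SL2R), s ∈ S → ∀ (u u' : SL2R), u' = s⁻¹ * u * s →
      ∫⁻ x, ‖w (𝓕.A.τ (j1 u) x) - w x‖ₑ ∂μ = ∫⁻ x, ‖w (𝓕.A.τ (j1 u') x) - w x‖ₑ ∂μ := by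
    intro s hs u u' hu
    have hm : Measurable (fun x => ‖w (𝓕.A.τ (j1 u) x) - w x‖ₑ) :=
      ((hw.comp (𝓕.A.meas_g _)).sub hw).enorm
    rw [← lintegral_comp_mp (𝓕.A.mp (j1 s)) hm]
    refine lintegral_congr_ae ?_
    have h1 := (𝓕.A.mp (j1 u')).quasiMeasurePreserving.ae ((hmem s).1 hs)
    filter_upwards [(hmem s).1 hs, h1] with x h2 h3
    rw [h2, ← 𝓕.A.mul, ← map_mul]
    have e : u * s = s * u' := by rw [hu]; group
    rw [e, map_mul, 𝓕.A.mul, h3]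
  have hzero : ∀ u : SL2R, (∃ h : ℕ → SL2R, Tendsto h atTop (𝓝 1) ∧
      ∀ n, ∃ s ∈ S, h n = s⁻¹ * u * s) → u ∈ S := by
    rintro u ⟨h, hh, hs⟩
    rw [hmem]
    have h1 := 𝓕.act_cont hw hM (tendsto_j1 hh)
    have h2 : ∀ n, ∫⁻ x, ‖w (𝓕.A.τ (j1 (h n)) x) - w x‖ₑ ∂μ
        = ∫⁻ x, ‖w (𝓕.A.τ (j1 u) x) - w x‖ₑ ∂μ := by
      intro n
      obtain ⟨s, hs1, hs2⟩ := hs n
      exact (key s hs1 u (h n) hs2).symm
    simp_rw [h2] at h1
    have h4 : ∫⁻ x, ‖w (𝓕.A.τ (j1 u) x) - w x‖ₑ ∂μ = 0 := tendsto_nhds_unique tendsto_const_nhds h1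
    have hm : Measurable (fun x => w (𝓕.A.τ (j1 u) x) - w x) := (hw.comp (𝓕.A.meas_g _)).sub hw
    rw [lintegral_eq_zero_iff hm.enorm] at h4
    filter_upwards [h4] with x hx
    simp only [Pi.zero_apply, enorm_eq_zero] at hx
    linarith
  refine gen_all S (fun y => hzero _ ⟨fun n => uu (y / 4 ^ n), tendsto_uu4 y, fun n =>
    ⟨aa ^ n, S.pow_mem haS n, ?_⟩⟩) (fun y => hzero _ ⟨fun n => vv (y / 4 ^ n), tendsto_vv4 y,
    fun n => ⟨(aa ^ n)⁻¹, S.inv_mem (S.pow_mem haS n), ?_⟩⟩) g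
  · rw [aa_pow_uu n y]; group
  · rw [aa_pow_vv n y]; group

omit [IsProbabilityMeasure μ] in
lemma iterate_tau (n : ℕ) (x : X) : (𝓕.A.τ (j1 aa))^[n] x = 𝓕.A.τ (j1 (aa ^ n)) x := by
  induction n with
  | zero => rw [pow_zero, map_one, 𝓕.A.one]; rfl
  | succ n ih => rw [Function.iterate_succ_apply', ih, ← 𝓕.A.mul, ← map_mul, ← pow_succ']

/-- Convergence of the averages. -/
theorem ces {lam : X → ℝ} (hl : Measurable lam) {M : ℝ} (hM : ∀ x, |lam x| ≤ M) :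
    Tendsto (fun N : ℕ => ∫⁻ x, ‖(N : ℝ)⁻¹ * ∑ n ∈ Finset.range N,
      lam (𝓕.A.τ (j1 (aa ^ n)) x) - ∫ y, lam y ∂μ‖ₑ ∂μ) atTop (𝓝 0) := by
  obtain ⟨w, hw, hwM, hwa, hconv⟩ := met (𝓕.A.mp (j1 aa)) hl hM
  simp_rw [𝓕.iterate_tau] at hconv
  have h1 : ∀ g : SL2R, ∀ᵐ x ∂μ, w (𝓕.A.τ (j1 g) x) = w x := 𝓕.mautner hw hwM hwa
  have h2 := 𝓕.erg1 w hw ⟨M, hwM⟩ h1
  have hli : Integrable lam μ := integrable_of_bdd μ hl hM
  have hwi : Integrable w μ := integrable_of_bdd μ hw hwM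
  -- the constant is the mean
  have h3 : ∫ y, w y ∂μ = ∫ y, lam y ∂μ := by
    have hterm : ∀ n : ℕ, Integrable (fun x => lam (𝓕.A.τ (j1 (aa ^ n)) x)) μ := fun n =>
      integrable_of_bdd μ (hl.comp (𝓕.A.meas_g _)) fun x => hM _
    have hint : ∀ N : ℕ, Integrable (fun x => (N : ℝ)⁻¹ * ∑ n ∈ Finset.range N,
        lam (𝓕.A.τ (j1 (aa ^ n)) x)) μ := fun N =>
      (integrable_finsetSum _ fun n _ => hterm n).const_mul _
    have h4 : ∀ N : ℕ, 1 ≤ N → ∫ x, (N : ℝ)⁻¹ * ∑ n ∈ Finset.range N,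
        lam (𝓕.A.τ (j1 (aa ^ n)) x) ∂μ = ∫ y, lam y ∂μ := by
      intro N hN
      rw [integral_const_mul, integral_finsetSum _ fun n _ => hterm n]
      have h5 : ∀ n ∈ Finset.range N, ∫ x, lam (𝓕.A.τ (j1 (aa ^ n)) x) ∂μ = ∫ y, lam y ∂μ :=
        fun n _ => 𝓕.A.integral_comp _ hl
      rw [Finset.sum_congr rfl h5, Finset.sum_const, Finset.card_range, nsmul_eq_mul,
        ← mul_assoc, inv_mul_cancel₀ (by positivity), one_mul]
    have h6 : Tendsto (fun N : ℕ => ∫ x, (N : ℝ)⁻¹ * ∑ n ∈ Finset.range N,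
        lam (𝓕.A.τ (j1 (aa ^ n)) x) ∂μ) atTop (𝓝 (∫ y, w y ∂μ)) := by
      refine tendsto_integral_of_L1 w hwi.1 (Eventually.of_forall fun N => hint N) ?_
      exact hconv
    have h7 : Tendsto (fun N : ℕ => ∫ x, (N : ℝ)⁻¹ * ∑ n ∈ Finset.range N,
        lam (𝓕.A.τ (j1 (aa ^ n)) x) ∂μ) atTop (𝓝 (∫ y, lam y ∂μ)) := by
      refine tendsto_const_nhds.congr' ?_
      filter_upwards [eventually_ge_atTop 1] with N hN
      exact (h4 N hN).symm
    exact tendsto_nhds_unique h6 h7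
  refine hconv.congr fun N => ?_
  refine lintegral_congr_ae ?_
  filter_upwards [h2] with x hx
  rw [hx, h3]

end Fld

end Pool.Agent.IRS
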