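import Mathlib
import Pool.Agent.IRS.Ces

/-!
# Auxiliary facts for the boundary argument
-/

set_option autoImplicit false

namespace Pool.Agent.IRS

open MeasureTheory Set Filter Topology ENNReal

lemma kq2_ae_left (h : G2) {P : G2 → Prop} (hP : ∀ᵐ g ∂kq2, P g) : ∀ᵐ g ∂kq2, P (h * g) :=
  ae_of_ae_map (measurable_const_mul h).aemeasurable ((kq2_left h).ae_le hP)

lemma kq2_right (h : G2) : kq2.map (· * h) ≪ kq2 := by
  have h1 : m2.map (· * h) = m2 := (m2_right h).map_eq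
  exact ((kq2_ac.map (measurable_mul_const h)).trans (by rw [h1])).trans m2_ac_kq2

lemma kq2_ae_right (h : G2) {P : G2 → Prop} (hP : ∀ᵐ g ∂kq2, P g) : ∀ᵐ g ∂kq2, P (g * h) :=
  ae_of_ae_map (measurable_mul_const h).aemeasurable ((kq2_right h).ae_le hP)

/-- Continuity of left translations on the product group. -/
lemma TCL_two {f : G2 → ℝ} (hf : Measurable f) {M : ℝ} (hM : ∀ g, |f g| ≤ M) {h : ℕ → G2}
    (hh : Tendsto h atTop (𝓝 1)) :
    Tendsto (fun n => ∫⁻ g, ‖f (h n * g) - f g‖ₑ ∂kq2) atTop (𝓝 0) := by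
  set F : Unit × G2 → ℝ := fun p => f p.2 with hF
  have hFm : Measurable F := hf.comp measurable_snd
  have h1 := TCL (Measure.dirac ()) hh hFm (integrable_of_bdd _ hFm fun p => hM _)
  refine h1.congr fun n => ?_
  have hm : Measurable (fun g : G2 => ‖f (h n * g) - f g‖ₑ) :=
    ((hf.comp (measurable_const_mul _)).sub hf).enorm
  have m1 : Measurable (fun p : Unit × G2 => ‖F (p.1, h n * p.2) - F p‖ₑ) := hm.comp measurable_snd
  rw [lintegral_prod _ m1.aemeasurable, lintegral_dirac]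

/-- Invariance passes to limits. -/
lemma inv_closed {f : G2 → ℝ} (hf : Measurable f) {M : ℝ} (hM : ∀ g, |f g| ≤ M) {d : ℕ → G2} {h : G2}
    (hd : Tendsto d atTop (𝓝 h)) (hinv : ∀ n, ∀ᵐ c ∂kq2, f (d n * c) = f c) :
    ∀ᵐ c ∂kq2, f (h * c) = f c := by
  have hh : Tendsto (fun n => h⁻¹ * d n) atTop (𝓝 1) := by
    have := hd.const_mul h⁻¹
    rwa [inv_mul_cancel] at this
  have hfm : Measurable (fun g => f (h * g)) := hf.comp (measurable_const_mul h)
  have h2 := TCL_two hfm (fun g => hM _) hh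
  have h3 : ∀ n, ∫⁻ g, ‖f (h * (h⁻¹ * d n * g)) - f (h * g)‖ₑ ∂kq2
      = ∫⁻ g, ‖f g - f (h * g)‖ₑ ∂kq2 := by
    intro n
    refine lintegral_congr_ae ?_
    filter_upwards [hinv n] with g hg
    rw [← mul_assoc, mul_inv_cancel_left, hg]
  simp_rw [h3] at h2
  have h4 : ∫⁻ g, ‖f g - f (h * g)‖ₑ ∂kq2 = 0 := tendsto_nhds_unique tendsto_const_nhds h2
  have hm : Measurable (fun g => f g - f (h * g)) := hf.sub hfm
  rw [lintegral_eq_zero_iff hm.enorm] at h4
  filter_upwards [h4] with g hg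
  simp only [Pi.zero_apply, enorm_eq_zero] at hg
  linarith

/-- Invariance under a dense subset of a factor. -/
lemma inv_dense {f : G2 → ℝ} (hf : Measurable f) {M : ℝ} (hM : ∀ g, |f g| ≤ M) (j : SL2R → G2)
    (hj : Continuous j) {D : Set SL2R} (hD : Dense D)
    (hinv : ∀ d ∈ D, ∀ᵐ c ∂kq2, f (j d * c) = f c) (y : SL2R) : ∀ᵐ c ∂kq2, f (j y * c) = f c := by
  obtain ⟨d, hd, hdh⟩ := mem_closure_iff_seq_limit.1 (hD y)
  exact inv_closed hf hM ((hj.tendsto y).comp hdh) fun n => hinv _ (hd n)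

/-- Left invariant functions are constant. -/
lemma const_of_inv {f : G2 → ℝ} (hf : Measurable f) (hinv : ∀ g, ∀ᵐ c ∂kq2, f (g * c) = f c) :
    ∃ c0, ∀ᵐ c ∂kq2, f c = c0 := by
  have hset : MeasurableSet {p : G2 × G2 | f (p.1 * p.2) = f p.2} :=
    measurableSet_eq_fun (hf.comp measurable_mul) (hf.comp measurable_snd)
  have h2 : ∀ᵐ g ∂kq2, ∀ᵐ h ∂kq2, f (h * g) = f g := by
    refine (Measure.ae_ae_comm (μ := kq2) (ν := kq2) (p := fun h g => f (h * g) = f g) hset).1 ?_
    filter_upwards with h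
    exact hinv h
  have hne : (ae kq2).NeBot := ae_neBot.2 kq2_ne_zero
  obtain ⟨g, hg⟩ := h2.exists
  refine ⟨f g, ?_⟩
  have h3 := kq2_ae_right g⁻¹ hg
  filter_upwards [h3] with h h4
  rwa [inv_mul_cancel_right] at h4

/-- A function with vanishing integrals on rectangles vanishes. -/
lemma zero_of_rect {X Y : Type*} [MeasurableSpace X] [MeasurableSpace Y] (μ : Measure X)
    (ν : Measure Y) [IsFiniteMeasure μ] [IsFiniteMeasure ν] {Ξ : X × Y → ℝ}
    (hΞ : Integrable Ξ (μ.prod ν))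
    (hrect : ∀ E : Set X, MeasurableSet E → ∀ O : Set Y, MeasurableSet O →
      ∫ p in E ×ˢ O, Ξ p ∂(μ.prod ν) = 0) : ∀ᵐ p ∂(μ.prod ν), Ξ p = 0 := by
  have hall : ∀ s : Set (X × Y), MeasurableSet s → ∫ p in s, Ξ p ∂(μ.prod ν) = 0 := by
    intro s hs
    induction s, hs using MeasurableSpace.induction_on_inter generateFrom_prod.symm isPiSystem_prod with
    | empty => simp
    | basic s hs =>
      obtain ⟨E, hE, O, hO, rfl⟩ := hs
      exact hrect E hE O hO
    | compl s hs ih =>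
      have h1 := integral_add_compl hs hΞ
      have h2 := hrect univ MeasurableSet.univ univ MeasurableSet.univ
      rw [univ_prod_univ, setIntegral_univ] at h2
      linarith
    | iUnion f hd hf ih =>
      rw [integral_iUnion hf hd hΞ.integrableOn]
      simp [ih]
  exact hΞ.ae_eq_zero_of_forall_setIntegral_eq_zero fun s hs _ => hall s hs

/-- The top left entry is almost never zero. -/
lemma ae_entry : ∀ᵐ g ∂kq, g 0 0 ≠ 0 := by
  have h1 : ∀ᵐ g ∂mH, g 0 0 ≠ 0 := by
    have hm : MeasurableSet {g : SL2R | g 0 0 ≠ 0} :=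
      (measurableSet_eq_fun (measurable_entry 0 0) measurable_const).compl
    unfold mH
    rw [ae_map_iff measurable_rn.aemeasurable hm]
    have h2 : ∀ᵐ c : V4, c.1 0 ≠ 0 := by
      have h3 : ∀ᵐ x : Fin 2 → ℝ, x 0 ≠ 0 := by
        have h4 : ∀ᵐ t : ℝ, t ≠ 0 := by rw [ae_iff]; simp
        exact (Measure.quasiMeasurePreserving_eval (fun _ : Fin 2 => (volume : Measure ℝ)) 0).ae h4
      exact Measure.quasiMeasurePreserving_fst.ae h3
    filter_upwards [ae_restrict_of_ae h2, ae_restrict_mem measurableSet_cone] with c h3 h4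
    rw [rn00 h4.1]
    exact div_ne_zero h3 (Real.sqrt_pos.2 h4.1).ne'
  exact kq_ac.ae_le h1

end Pool.Agent.IRS
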