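import Mathlib
import Pool.Agent.IRS.Bd1

/-!
# Cosets, the space of cosets and its measure: definitions
-/

set_option autoImplicit false

namespace Pool.Agent.IRS

open MeasureTheory Set Filter Topology ENNReal

/-- The one-parameter diagonal group. -/
noncomputable def dd (t : ℝ) : SL2R := ⟨!![Real.exp t, 0; 0, Real.exp (-t)], by
  simp [Matrix.det_fin_two, ← Real.exp_add]⟩

@[simp] lemma dd00 (t : ℝ) : dd t 0 0 = Real.exp t := rfl
@[simp] lemma dd01 (t : ℝ) : dd t 0 1 = 0 := rfl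
@[simp] lemma dd10 (t : ℝ) : dd t 1 0 = 0 := rfl
@[simp] lemma dd11 (t : ℝ) : dd t 1 1 = Real.exp (-t) := rfl

lemma dd_add (s t : ℝ) : dd (s + t) = dd s * dd t := by
  apply SL_ext
  · simp [SL_mul_apply, Real.exp_add]
  · simp [SL_mul_apply]
  · simp [SL_mul_apply]
  · simp [SL_mul_apply, ← Real.exp_add]; ring_nf

lemma dd_zero : dd 0 = 1 := by apply SL_ext <;> simp

lemma dd_neg (t : ℝ) : dd (-t) = (dd t)⁻¹ := by
  rw [eq_inv_iff_mul_eq_one, ← dd_add, neg_add_cancel, dd_zero]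

/-- The diagonal group normalises the upper unipotent group. -/
lemma dd_uu (t y : ℝ) : dd t * uu y = uu (Real.exp (2 * t) * y) * dd t := by
  apply SL_ext
  · simp [SL_mul_apply]
  · simp [SL_mul_apply]
    have h : Real.exp (2 * t) * Real.exp (-t) = Real.exp t := by
      rw [← Real.exp_add]; ring_nf
    rw [← h]; ring
  · simp [SL_mul_apply]
  · simp [SL_mul_apply]

/-- Left translate of a closed set: `{c | γ⁻¹ c ∈ C} = γ C`. -/
def lC (γ : G2) (C : CL G2) : CL G2 :=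
  ⟨{c | γ⁻¹ * c ∈ C.1}, C.2.preimage (continuous_const.mul continuous_id)⟩

/-- Right translate of a closed set: `{c | c γ ∈ C} = C γ⁻¹`. -/
def rC (γ : G2) (C : CL G2) : CL G2 :=
  ⟨{c | c * γ ∈ C.1}, C.2.preimage (continuous_id.mul continuous_const)⟩

lemma mem_lC {γ c : G2} {C : CL G2} : c ∈ (lC γ C).1 ↔ γ⁻¹ * c ∈ C.1 := Iff.rfl
lemma mem_rC {γ c : G2} {C : CL G2} : c ∈ (rC γ C).1 ↔ c * γ ∈ C.1 := Iff.rfl

lemma CL_ext {C D : CL G2} (h : ∀ c, c ∈ C.1 ↔ c ∈ D.1) : C = D :=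
  Subtype.ext (Set.ext h)

lemma lC_one (C : CL G2) : lC 1 C = C := CL_ext fun c => by rw [mem_lC]; simp
lemma rC_one (C : CL G2) : rC 1 C = C := CL_ext fun c => by rw [mem_rC]; simp
lemma lC_mul (g h : G2) (C : CL G2) : lC (g * h) C = lC g (lC h C) :=
  CL_ext fun c => by rw [mem_lC, mem_lC, mem_lC, mul_inv_rev, mul_assoc]
lemma rC_mul (g h : G2) (C : CL G2) : rC (g * h) C = rC g (rC h C) :=
  CL_ext fun c => by rw [mem_rC, mem_rC, mem_rC, mul_assoc]
lemma lC_rC (g h : G2) (C : CL G2) : lC g (rC h C) = rC h (lC g C) :=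
  CL_ext fun c => by rw [mem_lC, mem_rC, mem_rC, mem_lC, mul_assoc]

lemma measurable_lC : Measurable (fun p : G2 × CL G2 => lC p.1 p.2) := by
  refine measurable_to_CL fun U hU => ?_
  have hΦ : Continuous (fun p : G2 × G2 => p.1 * p.2) := continuous_mul
  have h1 := hit_prod_meas hΦ hU
  have h2 : {p : G2 × CL G2 | ((lC p.1 p.2).1 ∩ U).Nonempty}
      = {p : G2 × CL G2 | ∃ c ∈ p.2.1, p.1 * c ∈ U} := by
    ext ⟨g, C⟩
    constructor
    · rintro ⟨c, hc, hcU⟩
      refine ⟨g⁻¹ * c, hc, ?_⟩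
      simp only [mul_inv_cancel_left]
      exact hcU
    · rintro ⟨c, hc, hcU⟩
      refine ⟨g * c, ?_, hcU⟩
      simp only
      rw [mem_lC, inv_mul_cancel_left]
      exact hc
  rw [h2]
  exact h1

lemma measurable_rC : Measurable (fun p : G2 × CL G2 => rC p.1 p.2) := by
  refine measurable_to_CL fun U hU => ?_
  have hΦ : Continuous (fun p : G2 × G2 => p.2 * p.1⁻¹) := continuous_snd.mul continuous_fst.inv
  have h1 := hit_prod_meas hΦ hU
  have h2 : {p : G2 × CL G2 | ((rC p.1 p.2).1 ∩ U).Nonempty}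
      = {p : G2 × CL G2 | ∃ c ∈ p.2.1, c * p.1⁻¹ ∈ U} := by
    ext ⟨g, C⟩
    constructor
    · rintro ⟨c, hc, hcU⟩
      refine ⟨c * g, hc, ?_⟩
      simp only [mul_inv_cancel_right]
      exact hcU
    · rintro ⟨c, hc, hcU⟩
      refine ⟨c * g⁻¹, ?_, hcU⟩
      simp only
      rw [mem_rC, inv_mul_cancel_right]
      exact hc
  rw [h2]
  exact h1

/-- The sum of the weight over a closed set. -/
noncomputable def WC (C : CL G2) : ENNReal := ∑' c : C.1, ENNReal.ofReal (q2 c)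

namespace Fld

variable {X : Type} [MeasurableSpace X] {μ : Measure X} (𝓕 : Fld μ)

/-- The coset `H_x g`. -/
def co (x : X) (g : G2) : CL G2 :=
  ⟨{c | c * g⁻¹ ∈ 𝓕.H x}, (𝓕.closed x).preimage (continuous_id.mul continuous_const)⟩

lemma mem_co {x : X} {g c : G2} : c ∈ (𝓕.co x g).1 ↔ c * g⁻¹ ∈ 𝓕.H x := Iff.rfl

/-- The map `(x, g) ↦ (x, H_x g)`. -/
def Pi (p : X × G2) : X × CL G2 := (p.1, 𝓕.co p.1 p.2)

/-- The normalised weight; its sum over each coset is one. -/
noncomputable def wt (x : X) (g : G2) : ENNReal := ENNReal.ofReal (q2 g) * (WC (𝓕.co x g))⁻¹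

/-- The integral over the cosets of `H_x`. -/
noncomputable def fib (φ : X × CL G2 → ENNReal) (x : X) : ENNReal :=
  ∫⁻ g, φ (x, 𝓕.co x g) * 𝓕.wt x g ∂m2

/-- A finite measure on the space of cosets. -/
noncomputable def lam : Measure (X × CL G2) := (μ.prod kq2).map 𝓕.Pi

/-- The invariant measure on the space of cosets. -/
noncomputable def zeta : Measure (X × CL G2) := 𝓕.lam.withDensity (fun z => (WC z.2)⁻¹)

end Fld

end Pool.Agent.IRS
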