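import Mathlib
import Pool.Agent.IRS.Base

/-!
# Boundary argument, first part: invariance under the upper triangular group
-/

set_option autoImplicit false
set_option linter.unusedSectionVars false
set_option linter.unusedVariables false

namespace Pool.Agent.IRS

open MeasureTheory Set Filter Topology ENNReal

/-- Maps of the second coordinate preserve null sets of the product. -/
lemma prod_ae_map {X : Type*} [MeasurableSpace X] {μ : Measure X} [SFinite μ] {T : G2 → G2}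
    (hT : Measurable T) (hT' : kq2.map T ≪ kq2)
    {P : X × G2 → Prop} (hP : ∀ᵐ p ∂(μ.prod kq2), P p) :
    ∀ᵐ p ∂(μ.prod kq2), P (p.1, T p.2) := by
  have h1 : (μ.prod kq2).map (Prod.map id T) ≪ μ.prod kq2 := by
    rw [← Measure.map_prod_map _ _ measurable_id hT, Measure.map_id]
    exact Measure.AbsolutelyContinuous.rfl.prod hT'
  exact ae_of_ae_map (measurable_id.prodMap hT).aemeasurable (h1.ae_le hP)

/-- Right translations preserve null sets of the product. -/
lemma prod_ae_right {X : Type*} [MeasurableSpace X] {μ : Measure X} [SFinite μ] (h : G2)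
    {P : X × G2 → Prop} (hP : ∀ᵐ p ∂(μ.prod kq2), P p) :
    ∀ᵐ p ∂(μ.prod kq2), P (p.1, p.2 * h) :=
  prod_ae_map (measurable_mul_const h) (kq2_right h) hP

/-- Left translations preserve null sets of the product. -/
lemma prod_ae_left {X : Type*} [MeasurableSpace X] {μ : Measure X} [SFinite μ] (h : G2)
    {P : X × G2 → Prop} (hP : ∀ᵐ p ∂(μ.prod kq2), P p) :
    ∀ᵐ p ∂(μ.prod kq2), P (p.1, h * p.2) :=
  prod_ae_map (measurable_const_mul h) (kq2_left h) hP

lemma neg_one_sl : ((-1 : SL2R) 0 0 = -1) ∧ ((-1 : SL2R) 0 1 = 0) ∧ ((-1 : SL2R) 1 0 = 0) ∧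
    ((-1 : SL2R) 1 1 = -1) := by
  refine ⟨?_, ?_, ?_, ?_⟩ <;> simp [Matrix.SpecialLinearGroup.coe_neg]

/-- Upper triangular elements with positive diagonal. -/
lemma upper_eq (k : SL2R) (hk : k 1 0 = 0) (h0 : 0 < k 0 0) :
    k = uu (k 0 1 * k 0 0) * dd (Real.log (k 0 0)) := by
  have hd := det_eq k
  rw [hk, mul_zero, sub_zero] at hd
  have h1 : k 1 1 = (k 0 0)⁻¹ := by field_simp; linarith
  apply SL_ext
  · rw [SL_mul_apply]; simp [Real.exp_log h0]
  · rw [SL_mul_apply]; simp [Real.exp_log h0, Real.exp_neg, h0.ne']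
  · rw [SL_mul_apply, hk]; simp
  · rw [SL_mul_apply, h1]; simp [Real.exp_log h0, Real.exp_neg]

namespace Fld

variable {X : Type} [MeasurableSpace X] {μ : Measure X} [IsProbabilityMeasure μ] (𝓕 : Fld μ)

/-- Invariance under the upper triangular group. -/
theorem pinv {F : X × G2 → ℝ} (hF : Measurable F)
    (hI : ∀ x, ∀ h ∈ 𝓕.H x, ∀ g, F (x, h * g) = F (x, g))
    (hu : ∀ y : ℝ, ∀ᵐ p ∂(μ.prod kq2), F (p.1, p.2 * j1 (uu y)) = F p)
    (hd : ∀ t : ℝ, ∀ᵐ p ∂(μ.prod kq2), F (p.1, p.2 * j1 (dd t)) = F p)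
    (k : SL2R) (hk : k 1 0 = 0) :
    ∀ᵐ p ∂(μ.prod kq2), F (p.1, p.2 * j1 k) = F p := by
  have hmul : ∀ a b : SL2R, (∀ᵐ p ∂(μ.prod kq2), F (p.1, p.2 * j1 a) = F p) →
      (∀ᵐ p ∂(μ.prod kq2), F (p.1, p.2 * j1 b) = F p) →
      ∀ᵐ p ∂(μ.prod kq2), F (p.1, p.2 * j1 (a * b)) = F p := by
    intro a b ha hb
    filter_upwards [ha, prod_ae_right (j1 a) hb] with p h1 h2
    rw [map_mul, ← mul_assoc, ← h1]
    exact h2
  have hpos : ∀ k : SL2R, k 1 0 = 0 → 0 < k 0 0 →
      ∀ᵐ p ∂(μ.prod kq2), F (p.1, p.2 * j1 k) = F p := by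
    intro k hk h0
    rw [upper_eq k hk h0]
    exact hmul _ _ (hu _) (hd _)
  have hneg : ∀ᵐ p ∂(μ.prod kq2), F (p.1, p.2 * j1 (-1)) = F p := by
    filter_upwards with p
    have e : p.2 * j1 (-1) = ((-1, 1) : G2) * p.2 := by
      simp [j1_apply, Prod.ext_iff]
    rw [e]
    exact hI p.1 _ (𝓕.cent p.1) p.2
  have hne : k 0 0 ≠ 0 := by
    intro h
    have hd := det_eq k
    rw [hk, h] at hd
    simp at hd
  rcases lt_or_gt_of_ne hne with h | h
  · have e : k = (-1) * (-k) := by simp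
    rw [e]
    refine hmul _ _ hneg (hpos _ ?_ ?_)
    · have : (-k : SL2R) 1 0 = - (k 1 0) := by simp [Matrix.SpecialLinearGroup.coe_neg]
      rw [this, hk, neg_zero]
    · have : (-k : SL2R) 0 0 = - (k 0 0) := by simp [Matrix.SpecialLinearGroup.coe_neg]
      rw [this]; linarith
  · exact hpos k hk h

end Fld

end Pool.Agent.IRS
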