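import Mathlib
import Pool.Agent.IRS.Bd2a

/-!
# Boundary argument: convergence for a fixed element
-/

set_option autoImplicit false
set_option linter.unusedSectionVars false
set_option linter.unusedVariables false

namespace Pool.Agent.IRS

open MeasureTheory Set Filter Topology ENNReal

lemma aa_pow_10 (n : ℕ) : (aa ^ n) 1 0 = 0 := by
  induction n with
  | zero => simp
  | succ n ih => rw [pow_succ, SL_mul_apply, ih]; simp

/-- Cesaro for extended reals. -/
lemma cesaro_ennreal {a : ℕ → ENNReal} (ha : Tendsto a atTop (𝓝 0)) (hf : ∀ n, a n ≠ ⊤) :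
    Tendsto (fun N : ℕ => ‖(N : ℝ)⁻¹‖ₑ * ∑ n ∈ Finset.range N, a n) atTop (𝓝 0) := by
  have h1 : Tendsto (fun n => (a n).toReal) atTop (𝓝 0) := by
    have := (ENNReal.tendsto_toReal ENNReal.zero_ne_top).comp ha
    rwa [ENNReal.toReal_zero] at this
  have h2 := ENNReal.tendsto_ofReal h1.cesaro
  rw [ENNReal.ofReal_zero] at h2
  refine h2.congr fun N => ?_
  have h3 : 0 ≤ (N : ℝ)⁻¹ := by positivity
  rw [ENNReal.ofReal_mul h3, ENNReal.ofReal_sum_of_nonneg fun _ _ => ENNReal.toReal_nonneg]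
  congr 1
  · rw [Real.enorm_eq_ofReal h3]
  · exact Finset.sum_congr rfl fun n _ => ENNReal.ofReal_toReal (hf n)

namespace Fld

variable {X : Type} [MeasurableSpace X] {μ : Measure X} [IsProbabilityMeasure μ] (𝓕 : Fld μ)

lemma skew_meas {γ : G2 → G2} (hγ : Measurable γ) :
    Measurable (fun p : X × G2 => (𝓕.A.τ (γ p.2) p.1, p.2)) := by
  have h1 : Measurable (fun p : X × G2 => (γ p.2, p.1)) :=
    (hγ.comp measurable_snd).prodMk measurable_fst
  exact (𝓕.A.meas.comp h1).prodMk measurable_snd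

lemma skew_lint {γ : G2 → G2} (hγ : Measurable γ) {φ : X × G2 → ENNReal} (hφ : Measurable φ) :
    ∫⁻ p, φ (𝓕.A.τ (γ p.2) p.1, p.2) ∂(μ.prod kq2) = ∫⁻ p, φ p ∂(μ.prod kq2) := by
  have h1 : Measurable (fun p : X × G2 => φ (𝓕.A.τ (γ p.2) p.1, p.2)) :=
    hφ.comp (𝓕.skew_meas hγ)
  rw [lintegral_prod_symm _ h1.aemeasurable, lintegral_prod_symm _ hφ.aemeasurable]
  refine lintegral_congr fun c => ?_
  have h2 : Measurable (fun x : X => φ (x, c)) := hφ.comp (measurable_id.prodMk measurable_const)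
  exact lintegral_comp_mp (𝓕.A.mp (γ c)) h2

/-- The skew map preserves the product measure. -/
lemma skew_mp {γ : G2 → G2} (hγ : Measurable γ) :
    MeasurePreserving (fun p : X × G2 => (𝓕.A.τ (γ p.2) p.1, p.2)) (μ.prod kq2) (μ.prod kq2) := by
  refine ⟨𝓕.skew_meas hγ, Measure.ext fun s hs => ?_⟩
  have hi : Measurable (s.indicator (1 : X × G2 → ENNReal)) := measurable_one.indicator hs
  rw [Measure.map_apply (𝓕.skew_meas hγ) hs, ← lintegral_indicator_one (𝓕.skew_meas hγ hs),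
    ← lintegral_indicator_one hs]
  exact 𝓕.skew_lint hγ hi

/-- Convergence for a fixed element. -/
theorem conv_k {F : X × G2 → ℝ} (hF : Measurable F) {M : ℝ} (hM : ∀ p, |F p| ≤ M)
    (hI : ∀ x, ∀ h ∈ 𝓕.H x, ∀ g, F (x, h * g) = F (x, g))
    (hu : ∀ y : ℝ, ∀ᵐ p ∂(μ.prod kq2), F (p.1, p.2 * j1 (uu y)) = F p)
    (hd : ∀ t : ℝ, ∀ᵐ p ∂(μ.prod kq2), F (p.1, p.2 * j1 (dd t)) = F p)
    (k : SL2R) (hk : k 0 0 ≠ 0) :
    Tendsto (fun N : ℕ => ∫⁻ p : X × G2, ‖(N : ℝ)⁻¹ * ∑ n ∈ Finset.range N,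
        F (𝓕.A.τ (j1 (p.2.1 * aa ^ n)) p.1, (p.2.1 * aa ^ n * k, p.2.2))
        - ∫ x, F (x, p.2) ∂μ‖ₑ ∂(μ.prod kq2)) atTop (𝓝 0) := by
  have hM0 : 0 ≤ M := by
    have : Nonempty X := nonempty_of_isProbabilityMeasure μ
    obtain ⟨x⟩ := this
    exact (abs_nonneg _).trans (hM (x, 1))
  set y : ℝ := k 1 0 / k 0 0 with hy
  set q : SL2R := (vv y)⁻¹ * k with hq
  have hkq : k = vv y * q := by rw [hq]; group
  have hq10 : q 1 0 = 0 := by
    rw [hq, ← vv_neg, SL_mul_apply]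
    simp only [vv10, vv11, hy]
    field_simp
    ring
  set v : ℕ → G2 := fun n => j1 (vv (y / 4 ^ n)) with hv
  set γ : ℕ → G2 → G2 := fun n c => j1 (c.1 * aa ^ n) with hγ
  have hγm : ∀ n, Measurable (γ n) := fun n =>
    measurable_j1.comp ((measurable_mul_const _).comp measurable_fst)
  -- pointwise identification
  have hpt : ∀ n, ∀ᵐ p ∂(μ.prod kq2),
      F (𝓕.A.τ (j1 (p.2.1 * aa ^ n)) p.1, (p.2.1 * aa ^ n * k, p.2.2))
        = F (𝓕.A.τ (γ n p.2) p.1, p.2 * v n) := by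
    intro n
    have h1 := 𝓕.pinv hF hI hu hd (aa ^ n * q) (by
      rw [SL_mul_apply, aa_pow_10, hq10]; ring)
    have h2 := prod_ae_right (v n) h1
    have h3 := (𝓕.skew_mp (hγm n)).quasiMeasurePreserving.ae h2
    filter_upwards [h3] with p hp
    rw [← hp]
    congr 2
    have e1 : aa ^ n * k = vv (y / 4 ^ n) * (aa ^ n * q) := by
      have e2 := aa_pow_vv n y
      rw [hkq]
      conv_lhs => rw [e2]
      group
    change (p.2.1 * aa ^ n * k, p.2.2) = p.2 * v n * j1 (aa ^ n * q)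
    rw [mul_assoc p.2.1, e1]
    simp [hv, j1_apply, Prod.ext_iff, mul_assoc]
  -- the first part
  set a : ℕ → ENNReal := fun n => ∫⁻ p : X × G2, ‖F (p.1, p.2 * v n) - F p‖ₑ ∂(μ.prod kq2) with ha
  have hFi : Integrable F (μ.prod kq2) := integrable_of_bdd _ hF hM
  have ha0 : Tendsto a atTop (𝓝 0) := TCR μ (tendsto_j1 (tendsto_vv4 y)) hF hFi
  have hFn : ∀ n, Measurable (fun p : X × G2 => F (p.1, p.2 * v n)) := fun n =>
    hF.comp (measurable_fst.prodMk ((measurable_mul_const _).comp measurable_snd))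
  have hdiff : ∀ p q : X × G2, ‖F p - F q‖ₑ ≤ ENNReal.ofReal (2 * M) := by
    intro p q
    rw [← ofReal_norm]
    apply ENNReal.ofReal_le_ofReal
    calc ‖F p - F q‖ ≤ |F p| + |F q| := abs_sub _ _
      _ ≤ 2 * M := by linarith [hM p, hM q]
  have haf : ∀ n, a n ≠ ⊤ := by
    intro n
    have h1 : a n ≤ ∫⁻ _ : X × G2, ENNReal.ofReal (2 * M) ∂(μ.prod kq2) :=
      lintegral_mono fun p => hdiff _ _
    rw [lintegral_const] at h1
    exact (h1.trans_lt (ENNReal.mul_lt_top ENNReal.ofReal_lt_top (measure_lt_top _ _))).ne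
  have hces := cesaro_ennreal ha0 haf
  -- the second part
  set lam : G2 → X → ℝ := fun c x => F (𝓕.A.τ (j1 c.1) x, c) with hlam
  have hlm : ∀ c, Measurable (lam c) := fun c =>
    hF.comp ((𝓕.A.meas_g _).prodMk measurable_const)
  have hlM : ∀ c x, |lam c x| ≤ M := fun c x => hM _
  have hli : ∀ c, ∫ x, lam c x ∂μ = ∫ x, F (x, c) ∂μ := fun c =>
    𝓕.A.integral_comp (j1 c.1) (F := fun x => F (x, c))
      (hF.comp (measurable_id.prodMk measurable_const))
  have hFhat : Measurable (fun c : G2 => ∫ x, F (x, c) ∂μ) :=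
    (hF.stronglyMeasurable.integral_prod_left' (μ := μ)).measurable
  have hγF : ∀ n, Measurable (fun p : X × G2 => F (𝓕.A.τ (γ n p.2) p.1, p.2)) := fun n =>
    hF.comp (𝓕.skew_meas (hγm n))
  set G : ℕ → X × G2 → ℝ := fun N p => (N : ℝ)⁻¹ * ∑ n ∈ Finset.range N,
    F (𝓕.A.τ (γ n p.2) p.1, p.2) - ∫ x, F (x, p.2) ∂μ with hG
  have hGm : ∀ N, Measurable (G N) := fun N =>
    ((Finset.measurable_fun_sum _ fun n _ => hγF n).const_mul _).sub (hFhat.comp measurable_snd)
  have hsecond : Tendsto (fun N : ℕ => ∫⁻ p, ‖G N p‖ₑ ∂(μ.prod kq2)) atTop (𝓝 0) := by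
    have e1 : ∀ N, ∫⁻ p, ‖G N p‖ₑ ∂(μ.prod kq2) = ∫⁻ c, ∫⁻ x, ‖G N (x, c)‖ₑ ∂μ ∂kq2 := fun N =>
      lintegral_prod_symm _ (hGm N).enorm.aemeasurable
    simp_rw [e1]
    have e0 : (0 : ENNReal) = ∫⁻ _ : G2, 0 ∂kq2 := by simp
    rw [e0]
    refine tendsto_lintegral_of_dominated_convergence (fun _ => ENNReal.ofReal (2 * M))
      (fun N => ?_) (fun N => ?_) ?_ ?_
    · exact (hGm N).enorm.lintegral_prod_left'
    · filter_upwards with c
      have h1 : ∀ x, ‖G N (x, c)‖ₑ ≤ ENNReal.ofReal (2 * M) := by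
        intro x
        rw [← ofReal_norm]
        apply ENNReal.ofReal_le_ofReal
        have h2 : |(N : ℝ)⁻¹ * ∑ n ∈ Finset.range N, F (𝓕.A.τ (γ n c) x, c)| ≤ M := by
          rcases Nat.eq_zero_or_pos N with hN | hN
          · subst hN; simpa using hM0
          · have hN' : (0 : ℝ) < N := by exact_mod_cast hN
            rw [abs_mul, abs_of_pos (by positivity)]
            have h8 : |∑ n ∈ Finset.range N, F (𝓕.A.τ (γ n c) x, c)| ≤ N * M := by
              refine (Finset.abs_sum_le_sum_abs _ _).trans ?_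
              refine (Finset.sum_le_sum fun n _ => hM _).trans ?_
              simp
            calc (N : ℝ)⁻¹ * |∑ n ∈ Finset.range N, F (𝓕.A.τ (γ n c) x, c)|
                ≤ (N : ℝ)⁻¹ * (N * M) := by gcongr
              _ = M := by field_simp
        have h3 : |∫ x, F (x, c) ∂μ| ≤ M := by
          calc |∫ x, F (x, c) ∂μ| ≤ ∫ x, |F (x, c)| ∂μ := abs_integral_le_integral_abs
            _ ≤ ∫ _, M ∂μ := by
                refine integral_mono_of_nonneg (by filter_upwards with x; positivity)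
                  (integrable_const _) (by filter_upwards with x; exact hM _)
            _ = M := by simp
        calc ‖G N (x, c)‖ ≤ |(N : ℝ)⁻¹ * ∑ n ∈ Finset.range N, F (𝓕.A.τ (γ n c) x, c)|
              + |∫ x, F (x, c) ∂μ| := abs_sub _ _
          _ ≤ 2 * M := by linarith
      refine (lintegral_mono h1).trans ?_
      rw [lintegral_const, measure_univ, mul_one]
    · rw [lintegral_const]
      exact (ENNReal.mul_lt_top ENNReal.ofReal_lt_top (measure_lt_top _ _)).ne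
    · filter_upwards with c
      have h1 := 𝓕.ces (hlm c) (hlM c)
      refine h1.congr fun N => ?_
      refine lintegral_congr fun x => ?_
      simp only [hG]
      rw [hli]
      congr 3
      refine Finset.sum_congr rfl fun n _ => ?_
      simp only [hlam, hγ]
      rw [← 𝓕.A.mul, ← map_mul]
  -- conclusion
  have hle : ∀ N : ℕ, ∫⁻ p : X × G2, ‖(N : ℝ)⁻¹ * ∑ n ∈ Finset.range N,
        F (𝓕.A.τ (j1 (p.2.1 * aa ^ n)) p.1, (p.2.1 * aa ^ n * k, p.2.2))
        - ∫ x, F (x, p.2) ∂μ‖ₑ ∂(μ.prod kq2)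
      ≤ ‖(N : ℝ)⁻¹‖ₑ * ∑ n ∈ Finset.range N, a n + ∫⁻ p, ‖G N p‖ₑ ∂(μ.prod kq2) := by
    intro N
    have hall : ∀ᵐ p ∂(μ.prod kq2), ∀ n,
      F (𝓕.A.τ (j1 (p.2.1 * aa ^ n)) p.1, (p.2.1 * aa ^ n * k, p.2.2))
        = F (𝓕.A.τ (γ n p.2) p.1, p.2 * v n) := ae_all_iff.2 hpt
    set d : ℕ → X × G2 → ENNReal := fun n p =>
      ‖F (𝓕.A.τ (γ n p.2) p.1, p.2 * v n) - F (𝓕.A.τ (γ n p.2) p.1, p.2)‖ₑ with hd
    have hdm : ∀ n, Measurable (d n) := fun n =>
      (((hFn n).sub hF).enorm).comp (𝓕.skew_meas (hγm n))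
    have hda : ∀ n, ∫⁻ p, d n p ∂(μ.prod kq2) = a n := fun n =>
      𝓕.skew_lint (hγm n) (φ := fun p => ‖F (p.1, p.2 * v n) - F p‖ₑ) ((hFn n).sub hF).enorm
    calc _ ≤ ∫⁻ p, (‖(N : ℝ)⁻¹‖ₑ * ∑ n ∈ Finset.range N, d n p + ‖G N p‖ₑ) ∂(μ.prod kq2) := by
          refine lintegral_mono_ae ?_
          filter_upwards [hall] with p hp
          simp_rw [hp]
          have e : (N : ℝ)⁻¹ * ∑ n ∈ Finset.range N, F (𝓕.A.τ (γ n p.2) p.1, p.2 * v n)
              - ∫ x, F (x, p.2) ∂μ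
              = (N : ℝ)⁻¹ * ∑ n ∈ Finset.range N, (F (𝓕.A.τ (γ n p.2) p.1, p.2 * v n)
                - F (𝓕.A.τ (γ n p.2) p.1, p.2)) + G N p := by
            simp only [hG]
            rw [Finset.sum_sub_distrib]
            ring
          rw [e]
          refine (enorm_add_le _ _).trans ?_
          gcongr
          rw [enorm_mul]
          gcongr
          exact enorm_sum_le _ _
      _ = _ := by
          rw [lintegral_add_left ((Finset.measurable_fun_sum _ fun n _ => hdm n).const_mul _),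
            lintegral_const_mul _ (Finset.measurable_fun_sum _ fun n _ => hdm n),
            lintegral_finsetSum _ fun n _ => hdm n]
          simp_rw [hda]
  have hlim := hces.add hsecond
  rw [add_zero] at hlim
  exact tendsto_of_tendsto_of_tendsto_of_le_of_le tendsto_const_nhds hlim (fun N => zero_le) hle

end Fld

end Pool.Agent.IRS
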