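import Mathlib
import Pool.Agent.IRS.Bd2b

/-!
# Boundary argument, second part

`hat_inv`: put `G N x k c := (1/N) ∑_{n<N} F (A (j1 (c.1 aa^n)) x, (c.1 aa^n k, c.2))`.  For `h ∈ H x`:
`G N x (h.1 k) (j2 h.2 * c) = G N x k c` exactly: with `a = c.1 aa^n`, `x' = A (j1 a) x`, the element
`j1 a * h * (j1 a)⁻¹ = (a h.1 a⁻¹, h.2)` is in `H x'` by `equi`, apply `hI` at `x'` to
`(a h.1 a⁻¹, h.2) * (a k, c.2) = (a h.1 k, h.2 c.2)`.
By `conv_k`, `ae_entry` and dominated convergence in `k` the integral of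
`‖G N x k c - Fhat c‖ₑ` over `μ × kq × kq2` tends to zero (`Fhat c = ∫ F (x, c) dμ`); so along a
subsequence it tends to zero for a.e. `(x, c, k)`; take such an `x0` with `d2`.
-/

set_option autoImplicit false
set_option linter.unusedSectionVars false

namespace Pool.Agent.IRS

open MeasureTheory Set Filter Topology ENNReal

namespace Fld

variable {X : Type} [MeasurableSpace X] {μ : Measure X} [IsProbabilityMeasure μ] (𝓕 : Fld μ)

/-- the averages -/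
private noncomputable def bd3G (F : X × G2 → ℝ) (N : ℕ) (ω : (X × G2) × SL2R) : ℝ :=
  (N : ℝ)⁻¹ * ∑ n ∈ Finset.range N,
    F (𝓕.A.τ (j1 (ω.1.2.1 * aa ^ n)) ω.1.1, (ω.1.2.1 * aa ^ n * ω.2, ω.1.2.2))

private lemma bd3G_meas {F : X × G2 → ℝ} (hF : Measurable F) (N : ℕ) :
    Measurable (𝓕.bd3G F N) := by
  unfold bd3G
  refine (Finset.measurable_sum _ fun n _ => hF.comp ?_).const_mul _
  have m1 : Measurable (fun ω : (X × G2) × SL2R => ω.1.2.1 * aa ^ n) :=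
    (measurable_fst.comp (measurable_snd.comp measurable_fst)).mul_const _
  have m2 : Measurable (fun ω : (X × G2) × SL2R => (j1 (ω.1.2.1 * aa ^ n), ω.1.1)) :=
    (measurable_j1.comp m1).prodMk (measurable_fst.comp measurable_fst)
  exact (𝓕.A.meas.comp m2).prodMk ((m1.mul measurable_snd).prodMk
    (measurable_snd.comp (measurable_snd.comp measurable_fst)))

private lemma bd3G_bdd {F : X × G2 → ℝ} {M : ℝ} (hM : ∀ p, |F p| ≤ M) (N : ℕ)
    (ω : (X × G2) × SL2R) : |𝓕.bd3G F N ω| ≤ M := by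
  have hM0 : 0 ≤ M := (abs_nonneg _).trans (hM (ω.1.1, 1))
  unfold bd3G
  rw [abs_mul, abs_of_nonneg (by positivity : (0 : ℝ) ≤ (N : ℝ)⁻¹)]
  calc (N : ℝ)⁻¹ * |∑ n ∈ Finset.range N,
        F (𝓕.A.τ (j1 (ω.1.2.1 * aa ^ n)) ω.1.1, (ω.1.2.1 * aa ^ n * ω.2, ω.1.2.2))|
      ≤ (N : ℝ)⁻¹ * ∑ n ∈ Finset.range N, M :=
        mul_le_mul_of_nonneg_left ((Finset.abs_sum_le_sum_abs _ _).trans
          (Finset.sum_le_sum fun n _ => hM _)) (by positivity)
    _ = ((N : ℝ)⁻¹ * N) * M := by rw [Finset.sum_const, Finset.card_range, nsmul_eq_mul]; ring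
    _ ≤ 1 * M := mul_le_mul_of_nonneg_right (by
        rcases Nat.eq_zero_or_pos N with h | h
        · simp [h]
        · rw [inv_mul_cancel₀ (by positivity)]) hM0
    _ = M := one_mul M

private lemma bd3G_left {F : X × G2 → ℝ}
    (hI : ∀ x, ∀ h ∈ 𝓕.H x, ∀ g, F (x, h * g) = F (x, g)) (N : ℕ) (x : X) (c : G2) (k : SL2R)
    (h : G2) (hh : h ∈ 𝓕.H x) :
    𝓕.bd3G F N ((x, j2 h.2 * c), h.1 * k) = 𝓕.bd3G F N ((x, c), k) := by
  unfold bd3G
  congr 1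
  refine Finset.sum_congr rfl fun n _ => ?_
  have e1 : (j2 h.2 * c).1 = c.1 := by simp [j2_apply]
  have e2 : (j2 h.2 * c).2 = h.2 * c.2 := by simp [j2_apply]
  simp only [e1, e2]
  set a := c.1 * aa ^ n with ha
  have h1 : j1 a * h * (j1 a)⁻¹ ∈ 𝓕.H (𝓕.A.τ (j1 a) x) := by
    rw [𝓕.equi]
    have : (j1 a)⁻¹ * (j1 a * h * (j1 a)⁻¹) * j1 a = h := by group
    rwa [this]
  have h2 := hI (𝓕.A.τ (j1 a) x) _ h1 (a * k, c.2)
  rw [← h2]
  congr 2
  simp [j1_apply, Prod.ext_iff, mul_assoc]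

theorem hat_inv {F : X × G2 → ℝ} (hF : Measurable F) {M : ℝ} (hM : ∀ p, |F p| ≤ M)
    (hI : ∀ x, ∀ h ∈ 𝓕.H x, ∀ g, F (x, h * g) = F (x, g))
    (hu : ∀ y : ℝ, ∀ᵐ p ∂(μ.prod kq2), F (p.1, p.2 * j1 (uu y)) = F p)
    (hd : ∀ t : ℝ, ∀ᵐ p ∂(μ.prod kq2), F (p.1, p.2 * j1 (dd t)) = F p) (y : SL2R) :
    ∀ᵐ c ∂kq2, ∫ x, F (x, j2 y * c) ∂μ = ∫ x, F (x, c) ∂μ := by
  set Fh : G2 → ℝ := fun c => ∫ x, F (x, c) ∂μ with hFh
  have hFhm : Measurable Fh := by
    have := (hF.stronglyMeasurable).integral_prod_left' (μ := μ)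
    exact this.measurable
  have hFhb : ∀ c, |Fh c| ≤ M := by
    intro c
    have h1 := norm_integral_le_of_norm_le_const (μ := μ) (f := fun x => F (x, c)) (C := M)
      (Eventually.of_forall fun x => hM (x, c))
    simpa using h1
  have hM0 : 0 ≤ M := (abs_nonneg _).trans (hFhb 1)
  set g : (X × G2) × SL2R → ℝ := fun ω => Fh ω.1.2 with hg
  have hgm : Measurable g := hFhm.comp (measurable_snd.comp measurable_fst)
  have hmeas : ∀ N, Measurable (fun ω => ‖𝓕.bd3G F N ω - g ω‖ₑ) := fun N =>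
    ((𝓕.bd3G_meas hF N).sub hgm).enorm
  -- convergence in mean
  have h1 : Tendsto (fun N : ℕ => ∫⁻ ω, ‖𝓕.bd3G F N ω - g ω‖ₑ ∂((μ.prod kq2).prod kq)) atTop
      (𝓝 0) := by
    have e1 : ∀ N : ℕ, ∫⁻ ω, ‖𝓕.bd3G F N ω - g ω‖ₑ ∂((μ.prod kq2).prod kq) =
        ∫⁻ k, ∫⁻ p, ‖𝓕.bd3G F N (p, k) - g (p, k)‖ₑ ∂(μ.prod kq2) ∂kq := fun N =>
      lintegral_prod_symm _ (hmeas N).aemeasurable
    simp_rw [e1]
    have h2 : ∫⁻ _k : SL2R, (0 : ENNReal) ∂kq = 0 := by simp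
    rw [← h2]
    refine tendsto_lintegral_of_dominated_convergence
      (fun _ => ENNReal.ofReal (2 * M) * (μ.prod kq2) univ) ?_ ?_ ?_ ?_
    · intro N
      exact (hmeas N).lintegral_prod_left'
    · intro N
      filter_upwards with k
      rw [← lintegral_const]
      refine lintegral_mono fun p => ?_
      rw [Real.enorm_eq_ofReal_abs]
      refine ENNReal.ofReal_le_ofReal ?_
      have a1 := abs_sub (𝓕.bd3G F N (p, k)) (g (p, k))
      have a2 := 𝓕.bd3G_bdd hM N (p, k)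
      have a3 := hFhb p.2
      have a4 : |g (p, k)| ≤ M := a3
      linarith
    · rw [lintegral_const]
      exact ENNReal.mul_ne_top (ENNReal.mul_ne_top ENNReal.ofReal_ne_top
        (measure_ne_top _ _)) (measure_ne_top _ _)
    · filter_upwards [ae_entry] with k hk
      exact 𝓕.conv_k hF hM hI hu hd k hk
  have h2 : TendstoInMeasure ((μ.prod kq2).prod kq) (fun N => 𝓕.bd3G F N) atTop g := by
    refine tendstoInMeasure_of_tendsto_eLpNorm (p := 1) one_ne_zero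
      (fun N => (𝓕.bd3G_meas hF N).aestronglyMeasurable) hgm.aestronglyMeasurable ?_
    simp_rw [eLpNorm_one_eq_lintegral_enorm]
    exact h1
  obtain ⟨ns, -, hns⟩ := h2.exists_seq_tendsto_ae
  have h3 : ∀ᵐ x ∂μ, ∀ᵐ c ∂kq2, ∀ᵐ k ∂kq,
      Tendsto (fun i => 𝓕.bd3G F (ns i) ((x, c), k)) atTop (𝓝 (Fh c)) := by
    have a1 := Measure.ae_ae_of_ae_prod hns
    exact Measure.ae_ae_of_ae_prod a1
  have hne : (ae μ).NeBot := inferInstance
  obtain ⟨x0, hx0, hd2⟩ := (h3.and 𝓕.d2).exists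
  refine inv_dense hFhm hFhb j2 (by
    change Continuous fun g : SL2R => ((1, g) : G2)
    exact continuous_const.prodMk continuous_id) hd2 ?_ y
  rintro _ ⟨h, hh, rfl⟩
  have hneK : (ae kq).NeBot := ae_neBot.2 kq_ne_zero
  filter_upwards [hx0, kq2_ae_left (j2 h.2) hx0] with c hc1 hc2
  obtain ⟨k, hk1, hk2⟩ := (hc1.and (kq_ae_left h.1 hc2)).exists
  have e1 : ∀ i, 𝓕.bd3G F (ns i) ((x0, j2 h.2 * c), h.1 * k) = 𝓕.bd3G F (ns i) ((x0, c), k) :=
    fun i => 𝓕.bd3G_left hI (ns i) x0 c k h hh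
  simp_rw [e1] at hk2
  exact tendsto_nhds_unique hk2 hk1

end Fld

end Pool.Agent.IRS
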