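import Mathlib
import Pool.Agent.IRS.Bd3a

/-!
# Functions invariant under the upper triangular group depend on the base point only
-/

set_option autoImplicit false
set_option linter.unusedSectionVars false

namespace Pool.Agent.IRS

open MeasureTheory Set Filter Topology ENNReal

lemma continuous_j2 : Continuous j2 := continuous_const.prodMk continuous_id

/-- Invariance for almost all elements gives invariance for all. -/
lemma inv_all {f : G2 → ℝ} (h : ∀ᵐ y ∂kq, ∀ᵐ c ∂kq2, f (j2 y * c) = f c) (y : SL2R) :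
    ∀ᵐ c ∂kq2, f (j2 y * c) = f c := by
  have hmul : ∀ a b : SL2R, (∀ᵐ c ∂kq2, f (j2 a * c) = f c) → (∀ᵐ c ∂kq2, f (j2 b * c) = f c) →
      ∀ᵐ c ∂kq2, f (j2 (a * b) * c) = f c := by
    intro a b ha hb
    filter_upwards [kq2_ae_left (j2 b) ha, hb] with c h1 h2
    rw [map_mul, mul_assoc, h1, h2]
  have hinv : ∀ a : SL2R, (∀ᵐ c ∂kq2, f (j2 a * c) = f c) →
      ∀ᵐ c ∂kq2, f (j2 a⁻¹ * c) = f c := by
    intro a ha
    filter_upwards [kq2_ae_left (j2 a⁻¹) ha] with c h1
    rw [← h1, ← mul_assoc, ← map_mul, mul_inv_cancel, map_one, one_mul]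
  have hne : (ae kq).NeBot := ae_neBot.2 kq_ne_zero
  obtain ⟨z, hz1, hz2⟩ := (h.and (kq_ae_left y h)).exists
  have e : y = (y * z) * z⁻¹ := by group
  rw [e]
  exact hmul _ _ hz2 (hinv _ hz1)

namespace Fld

variable {X : Type} [MeasurableSpace X] {μ : Measure X} [IsProbabilityMeasure μ] (𝓕 : Fld μ)

/-- Invariance under left translations of the second factor. -/
theorem left2 {F : X × G2 → ℝ} (hF : Measurable F) {M : ℝ} (hM : ∀ p, |F p| ≤ M)
    (hI : ∀ x, ∀ h ∈ 𝓕.H x, ∀ g, F (x, h * g) = F (x, g))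
    (hu : ∀ y : ℝ, ∀ᵐ p ∂(μ.prod kq2), F (p.1, p.2 * j1 (uu y)) = F p)
    (hd : ∀ t : ℝ, ∀ᵐ p ∂(μ.prod kq2), F (p.1, p.2 * j1 (dd t)) = F p) (y : SL2R) :
    ∀ᵐ p ∂(μ.prod kq2), F (p.1, j2 y * p.2) = F p := by
  have hM0 : 0 ≤ M := by
    have : Nonempty X := nonempty_of_isProbabilityMeasure μ
    obtain ⟨x⟩ := this
    exact (abs_nonneg _).trans (hM (x, 1))
  have hFy : Measurable (fun p : X × G2 => F (p.1, j2 y * p.2)) :=
    hF.comp (measurable_fst.prodMk ((measurable_const_mul _).comp measurable_snd))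
  have hΞm : Measurable (fun p : X × G2 => F (p.1, j2 y * p.2) - F p) := hFy.sub hF
  have hi1 : Integrable (fun p : X × G2 => F (p.1, j2 y * p.2)) (μ.prod kq2) :=
    integrable_of_bdd _ hFy fun p => hM _
  have hi2 : Integrable F (μ.prod kq2) := integrable_of_bdd _ hF hM
  have hΞ : Integrable (fun p : X × G2 => F (p.1, j2 y * p.2) - F p) (μ.prod kq2) := hi1.sub hi2
  have hsec : ∀ c : G2, Measurable (fun x : X => F (x, c)) := fun c =>
    hF.comp (measurable_id.prodMk measurable_const)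
  have h1 := zero_of_rect μ kq2 hΞ (fun E hE O hO => by
    rw [← Measure.prod_restrict, integral_prod_symm]
    · have h2 : ∀ᵐ c ∂kq2, ∫ x in E, (F (x, j2 y * c) - F (x, c)) ∂μ = 0 := by
        have h3 := 𝓕.hat_inv (F := fun p => E.indicator (fun _ => (1 : ℝ)) p.1 * F p)
          (((measurable_const.indicator hE).comp measurable_fst).mul hF) (M := M)
          (fun p => by
            rw [abs_mul]
            by_cases hp : p.1 ∈ E
            · simp [hp, hM p]
            · simp [hp, hM0])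
          (fun x h hh g => by simp only; rw [hI x h hh g])
          (fun y' => by filter_upwards [hu y'] with p hp; rw [hp])
          (fun t => by filter_upwards [hd t] with p hp; rw [hp]) y
        filter_upwards [h3] with c hc
        have e : ∀ c : G2, ∫ x in E, F (x, c) ∂μ
            = ∫ x, E.indicator (fun _ => (1 : ℝ)) x * F (x, c) ∂μ := by
          intro c
          rw [← integral_indicator hE]
          refine integral_congr_ae ?_
          filter_upwards with x
          by_cases hx : x ∈ E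
          · simp [hx]
          · simp [hx]
        have ii : ∀ c : G2, IntegrableOn (fun x => F (x, c)) E μ := fun c =>
          (integrable_of_bdd μ (hsec c) fun x => hM _).integrableOn
        rw [integral_sub (ii _) (ii _), e, e]
        rw [hc, sub_self]
      have h4 := ae_restrict_of_ae (s := O) h2
      rw [integral_congr_ae h4]
      simp
    · rw [Measure.prod_restrict]
      exact hΞ.integrableOn)
  filter_upwards [h1] with p hp
  linarith

theorem boundary {F : X × G2 → ℝ} (hF : Measurable F) {M : ℝ} (hM : ∀ p, |F p| ≤ M)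
    (hI : ∀ x, ∀ h ∈ 𝓕.H x, ∀ g, F (x, h * g) = F (x, g))
    (hu : ∀ y : ℝ, ∀ᵐ p ∂(μ.prod kq2), F (p.1, p.2 * j1 (uu y)) = F p)
    (hd : ∀ t : ℝ, ∀ᵐ p ∂(μ.prod kq2), F (p.1, p.2 * j1 (dd t)) = F p) :
    ∃ Φ : X → ℝ, Measurable Φ ∧ (∀ x, |Φ x| ≤ M) ∧ ∀ᵐ p ∂(μ.prod kq2), F p = Φ p.1 := by
  have hM0 : 0 ≤ M := by
    have : Nonempty X := nonempty_of_isProbabilityMeasure μ
    obtain ⟨x⟩ := this
    exact (abs_nonneg _).trans (hM (x, 1))
  have hsec : ∀ x : X, Measurable (fun c : G2 => F (x, c)) := fun x =>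
    hF.comp (measurable_const.prodMk measurable_id)
  -- almost all elements of the second factor
  have hd3 : Measurable (fun q : (SL2R × X) × G2 => ‖F (q.1.2, j2 q.1.1 * q.2) - F (q.1.2, q.2)‖ₑ) := by
    have m1 : Measurable (fun q : (SL2R × X) × G2 => (q.1.2, j2 q.1.1 * q.2)) :=
      (measurable_snd.comp measurable_fst).prodMk
        ((measurable_j2.comp (measurable_fst.comp measurable_fst)).mul measurable_snd)
    have m2' : Measurable (fun q : (SL2R × X) × G2 => (q.1.2, q.2)) :=
      (measurable_snd.comp measurable_fst).prodMk measurable_snd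
    exact ((hF.comp m1).sub (hF.comp m2')).enorm
  have hR : ∀ (y : SL2R) (x : X), (∀ᵐ c ∂kq2, F (x, j2 y * c) = F (x, c)) ↔
      ∫⁻ c, ‖F (x, j2 y * c) - F (x, c)‖ₑ ∂kq2 = 0 := by
    intro y x
    have hm : Measurable (fun c : G2 => ‖F (x, j2 y * c) - F (x, c)‖ₑ) :=
      (((hsec x).comp (measurable_const_mul _)).sub (hsec x)).enorm
    rw [lintegral_eq_zero_iff hm]
    constructor
    · intro h
      filter_upwards [h] with c hc
      simp [hc]
    · intro h
      filter_upwards [h] with c hc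
      simp only [Pi.zero_apply, enorm_eq_zero] at hc
      linarith
  have hset : MeasurableSet {q : SL2R × X | ∀ᵐ c ∂kq2, F (q.2, j2 q.1 * c) = F (q.2, c)} := by
    simp_rw [hR]
    exact (hd3.lintegral_prod_right') (measurableSet_singleton 0)
  have h1 : ∀ᵐ y ∂kq, ∀ᵐ x ∂μ, ∀ᵐ c ∂kq2, F (x, j2 y * c) = F (x, c) := by
    filter_upwards with y
    exact Measure.ae_ae_of_ae_prod (𝓕.left2 hF hM hI hu hd y)
  have h2 := (Measure.ae_ae_comm (μ := kq) (ν := μ)
    (p := fun y x => ∀ᵐ c ∂kq2, F (x, j2 y * c) = F (x, c)) hset).1 h1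
  -- constancy on fibres
  have h3 : ∀ᵐ x ∂μ, ∃ c0, ∀ᵐ c ∂kq2, F (x, c) = c0 := by
    filter_upwards [h2, 𝓕.d1] with x hx hx1
    have a2 : ∀ y : SL2R, ∀ᵐ c ∂kq2, F (x, j2 y * c) = F (x, c) := fun y =>
      inv_all (f := fun c => F (x, c)) hx y
    have a1 : ∀ y : SL2R, ∀ᵐ c ∂kq2, F (x, j1 y * c) = F (x, c) := by
      intro y
      refine inv_dense (f := fun c => F (x, c)) (hsec x) (fun c => hM _) j1 continuous_j1 hx1 ?_ y
      rintro _ ⟨h, hh, rfl⟩
      filter_upwards [a2 h.2⁻¹] with c hc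
      have e : j1 h.1 * c = h * (j2 h.2⁻¹ * c) := by
        rw [← mul_assoc]
        congr 1
        simp [j1_apply, j2_apply, Prod.ext_iff]
      rw [e, hI x h hh, hc]
    refine const_of_inv (hsec x) fun g => ?_
    filter_upwards [kq2_ae_left (j2 g.2) (a1 g.1), a2 g.2] with c hc1 hc2
    rw [← hc2, ← hc1, ← mul_assoc, j12]
  have hk0 : 0 < kq2.real univ := by
    refine ENNReal.toReal_pos ?_ (measure_ne_top _ _)
    rw [Ne, Measure.measure_univ_eq_zero]
    exact kq2_ne_zero
  set Φ : X → ℝ := fun x => (kq2.real univ)⁻¹ * ∫ c, F (x, c) ∂kq2 with hΦ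
  have hΦm : Measurable Φ := (hF.stronglyMeasurable.integral_prod_right').measurable.const_mul _
  refine ⟨Φ, hΦm, fun x => ?_, ?_⟩
  · simp only [hΦ]
    rw [abs_mul, abs_of_pos (inv_pos.2 hk0), inv_mul_le_iff₀ hk0]
    calc |∫ c, F (x, c) ∂kq2| ≤ ∫ c, |F (x, c)| ∂kq2 := abs_integral_le_integral_abs
      _ ≤ ∫ _, M ∂kq2 := by
          refine integral_mono_of_nonneg (by filter_upwards with c; positivity)
            (integrable_const _) (by filter_upwards with c; exact hM _)
      _ = kq2.real univ * M := by simp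
  · have hset2 : MeasurableSet {p : X × G2 | F p = Φ p.1} :=
      measurableSet_eq_fun hF (hΦm.comp measurable_fst)
    rw [Measure.ae_prod_iff_ae_ae hset2]
    filter_upwards [h3] with x ⟨c0, hc0⟩
    have e : Φ x = c0 := by
      simp only [hΦ]
      rw [integral_congr_ae hc0, integral_const, smul_eq_mul, ← mul_assoc,
        inv_mul_cancel₀ hk0.ne', one_mul]
    filter_upwards [hc0] with c hc
    rw [hc, e]

end Fld

end Pool.Agent.IRS
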