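import Mathlib
import Pool.Agent.IRS.Haar

/-!
# The averaging probability measure on SL(2,R)
-/

set_option autoImplicit false

namespace Pool.Agent.IRS

open MeasureTheory Matrix

/-- The unnormalised density. -/
noncomputable def rh0 (g : SL2R) : ℝ := max 0 (10 - nS g)

lemma rh0_nonneg (g : SL2R) : 0 ≤ rh0 g := le_max_left _ _
lemma rh0_le (g : SL2R) : rh0 g ≤ 10 := max_le (by norm_num) (by linarith [nS_pos g])
lemma rh0_zero {g : SL2R} (h : 10 ≤ nS g) : rh0 g = 0 := max_eq_left (by linarith)
lemma rh0_ge (g : SL2R) : 10 - nS g ≤ rh0 g := le_max_right _ _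

lemma rh0_lip (g h : SL2R) : |rh0 g - rh0 h| ≤ |nS g - nS h| := by
  unfold rh0
  rw [max_comm, max_comm (0 : ℝ)]
  refine (abs_max_sub_max_le_abs _ _ _).trans ?_
  rw [sub_sub_sub_cancel_left, abs_sub_comm]

lemma measurable_rh0 : Measurable rh0 := measurable_const.max (measurable_const.sub measurable_nS)

lemma rh0_integrable : Integrable rh0 mH := by
  have hm : MeasurableSet {g : SL2R | nS g ≤ 10} := measurableSet_le measurable_nS measurable_const
  have h1 : Integrable (Set.indicator {g : SL2R | nS g ≤ 10} (fun _ => (10 : ℝ))) mH :=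
    (integrable_indicator_iff hm).2 (integrableOn_const (mH_ball_lt 10).ne)
  refine h1.mono' measurable_rh0.aestronglyMeasurable ?_
  filter_upwards with g
  rw [Real.norm_eq_abs, abs_of_nonneg (rh0_nonneg g)]
  by_cases hg : nS g ≤ 10
  · rw [Set.indicator_of_mem (by exact hg)]; exact rh0_le g
  · rw [Set.indicator_of_notMem (by exact hg), rh0_zero (by linarith)]

lemma rh0_int_pos : 0 < ∫ g, rh0 g ∂mH := by
  have hm : MeasurableSet {g : SL2R | nS g ≤ 3} := measurableSet_le measurable_nS measurable_const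
  have h1 : ∫ g, Set.indicator {g : SL2R | nS g ≤ 3} (fun _ => (7 : ℝ)) g ∂mH
      ≤ ∫ g, rh0 g ∂mH := by
    refine integral_mono ((integrable_indicator_iff hm).2
      (integrableOn_const (mH_ball_lt 3).ne)) rh0_integrable fun g => ?_
    by_cases hg : nS g ≤ 3
    · simp only
      rw [Set.indicator_of_mem (by exact hg)]; linarith [rh0_ge g]
    · simp only
      rw [Set.indicator_of_notMem (by exact hg)]; exact rh0_nonneg g
  refine lt_of_lt_of_le ?_ h1
  rw [integral_indicator hm, setIntegral_const, smul_eq_mul]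
  have h2 : 0 < mH.real {g | nS g ≤ 3} :=
    ENNReal.toReal_pos mH_pos.ne' (mH_ball_lt 3).ne
  positivity

/-- The normalising constant. -/
noncomputable def kap : ℝ := (∫ g, rh0 g ∂mH)⁻¹

lemma kap_pos : 0 < kap := inv_pos.2 rh0_int_pos

/-- The density. -/
noncomputable def rho (g : SL2R) : ℝ := kap * rh0 g

lemma rho_nonneg (g : SL2R) : 0 ≤ rho g := mul_nonneg kap_pos.le (rh0_nonneg g)
lemma rho_le (g : SL2R) : rho g ≤ 10 * kap := by
  unfold rho; nlinarith [kap_pos, rh0_le g]
lemma rho_zero {g : SL2R} (h : 10 ≤ nS g) : rho g = 0 := by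
  unfold rho; rw [rh0_zero h, mul_zero]
lemma rho_lip (g h : SL2R) : |rho g - rho h| ≤ kap * |nS g - nS h| := by
  unfold rho
  rw [← mul_sub, abs_mul, abs_of_pos kap_pos]
  exact mul_le_mul_of_nonneg_left (rh0_lip g h) kap_pos.le
lemma measurable_rho : Measurable rho := measurable_rh0.const_mul _
lemma rho_integrable : Integrable rho mH := rh0_integrable.const_mul _
lemma rho_int : ∫ g, rho g ∂mH = 1 := by
  unfold rho
  rw [integral_const_mul, kap, inv_mul_cancel₀ rh0_int_pos.ne']

/-- The averaging measure. -/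
noncomputable def nuM : Measure SL2R := mH.withDensity (fun g => ENNReal.ofReal (rho g))

instance : IsProbabilityMeasure nuM := by
  refine ⟨?_⟩
  unfold nuM
  rw [withDensity_apply _ MeasurableSet.univ, Measure.restrict_univ,
    ← ofReal_integral_eq_lintegral_ofReal rho_integrable (by filter_upwards with g; exact rho_nonneg g),
    rho_int, ENNReal.ofReal_one]

lemma nuM_integral (f : SL2R → ℝ) : ∫ g, f g ∂nuM = ∫ g, rho g * f g ∂mH := by
  unfold nuM
  rw [integral_withDensity_eq_integral_toReal_smul measurable_rho.ennreal_ofReal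
    (by filter_upwards with g; exact ENNReal.ofReal_lt_top)]
  congr 1; ext g
  rw [ENNReal.toReal_ofReal (rho_nonneg g), smul_eq_mul]

/-- Left translation of integrals. -/
lemma mH_int_left (g : SL2R) {F : SL2R → ℝ} (hF : Measurable F) :
    ∫ h, F h ∂mH = ∫ k, F (g * k) ∂mH := by
  have hg : Measurable (fun x : SL2R => g * x) := by
    apply measurable_to_SL
    intro i j
    simp_rw [SL_mul_apply]
    exact ((measurable_entry 0 j).const_mul _).add ((measurable_entry 1 j).const_mul _)
  conv_lhs => rw [← mH_left g]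
  rw [integral_map hg.aemeasurable hF.aestronglyMeasurable]

/-- The ball of radius 3. -/
def EE : Set SL2R := {g | nS g ≤ 3}

lemma EE_meas : MeasurableSet EE := measurableSet_le measurable_nS measurable_const

/-- The constant. -/
noncomputable def CC : NNReal := ⟨(kap * mH.real EE)⁻¹, by
  have := kap_pos; positivity⟩

lemma EE_real_pos : 0 < mH.real EE := ENNReal.toReal_pos mH_pos.ne' (mH_ball_lt 3).ne

/-- The normalised measure on the ball. -/
noncomputable def sig : Measure SL2R := (mH EE)⁻¹ • mH.restrict EE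

instance : IsProbabilityMeasure sig := by
  refine ⟨?_⟩
  unfold sig
  rw [Measure.smul_apply, Measure.restrict_apply_univ, smul_eq_mul]
  exact ENNReal.inv_mul_cancel mH_pos.ne' (mH_ball_lt 3).ne

lemma key_le (S : Set SL2R) (hS : MeasurableSet S) (hS9 : ∀ g ∈ S, nS g ≤ 9) :
    (mH EE)⁻¹ • mH.restrict S ≤ CC • nuM := by
  rw [Measure.le_iff]
  intro s hs
  rw [Measure.smul_apply, Measure.restrict_apply hs, smul_eq_mul, Measure.smul_apply]
  have h1 : ENNReal.ofReal kap * mH (s ∩ S) ≤ nuM s := by
    unfold nuM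
    rw [withDensity_apply _ hs]
    calc ENNReal.ofReal kap * mH (s ∩ S) = ∫⁻ _ in s ∩ S, ENNReal.ofReal kap ∂mH := by
          rw [setLIntegral_const]
      _ ≤ ∫⁻ g in s ∩ S, ENNReal.ofReal (rho g) ∂mH := by
          refine setLIntegral_mono' (hs.inter hS) fun g hg => ?_
          apply ENNReal.ofReal_le_ofReal
          have := hS9 g hg.2
          have h2 := rh0_ge g
          unfold rho
          nlinarith [kap_pos]
      _ ≤ ∫⁻ g in s, ENNReal.ofReal (rho g) ∂mH :=
          lintegral_mono_set Set.inter_subset_left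
  have h2 : (mH EE)⁻¹ = (CC : ENNReal) * ENNReal.ofReal kap := by
    have e1 : mH EE = ENNReal.ofReal (mH.real EE) := by
      have hne : mH EE ≠ ⊤ := (mH_ball_lt 3).ne
      unfold Measure.real
      rw [ENNReal.ofReal_toReal hne]
    have e2 : (CC : ENNReal) = ENNReal.ofReal ((kap * mH.real EE)⁻¹) := by
      rw [ENNReal.ofReal, Real.toNNReal_of_nonneg]
      · rfl
    rw [e1, e2, ← ENNReal.ofReal_mul (by have := kap_pos; positivity),
      ← ENNReal.ofReal_inv_of_pos EE_real_pos]
    congr 1
    have := kap_pos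
    field_simp
  rw [h2, mul_assoc]
  change _ ≤ (CC : ENNReal) * nuM s
  gcongr

lemma sig_le : sig ≤ CC • nuM := key_le EE EE_meas fun g hg => by
  have : nS g ≤ 3 := hg
  linarith

lemma sig_map_le (c : SL2R) (hc : nS c ≤ 3) : sig.map (c * ·) ≤ CC • nuM := by
  have hcm : Measurable (fun x : SL2R => c * x) := by
    apply measurable_to_SL
    intro i j
    simp_rw [SL_mul_apply]
    exact ((measurable_entry 0 j).const_mul _).add ((measurable_entry 1 j).const_mul _)
  have hcm' : Measurable (fun x : SL2R => c⁻¹ * x) := by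
    apply measurable_to_SL
    intro i j
    simp_rw [SL_mul_apply]
    exact ((measurable_entry 0 j).const_mul _).add ((measurable_entry 1 j).const_mul _)
  set S : Set SL2R := (fun x => c⁻¹ * x) ⁻¹' EE with hS
  have hSm : MeasurableSet S := hcm' EE_meas
  have h1 : sig.map (c * ·) = (mH EE)⁻¹ • mH.restrict S := by
    unfold sig
    rw [Measure.map_smul]
    congr 1
    ext s hs
    rw [Measure.map_apply hcm hs, Measure.restrict_apply (hcm hs), Measure.restrict_apply hs]
    conv_rhs => rw [← mH_left c, Measure.map_apply hcm (hs.inter hSm)]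
    congr 1
    ext x
    simp [hS]
  rw [h1]
  refine key_le S hSm fun g hg => ?_
  have h2 : nS (c⁻¹ * g) ≤ 3 := hg
  have h3 : g = c * (c⁻¹ * g) := by rw [mul_inv_cancel_left]
  rw [h3]
  refine (nS_mul_le _ _).trans ?_
  nlinarith [nS_pos c, nS_pos (c⁻¹ * g)]

section act

variable {Z : Type*} [MeasurableSpace Z] {ζ : Measure Z} [SigmaFinite ζ] (a : PAct SL2R ζ)

/-- The displacement of bounded elements. -/
lemma psi_small (f : BL2 ζ) (c : SL2R) (hc : nS c ≤ 3) :
    a.ψ f c ≤ √(8 * CC * a.E nuM f) := by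
  apply Real.le_sqrt_of_sq_le
  have : MeasurableMul SL2R := inferInstance
  exact a.ψ_le_E nuM f c sig sig_le (sig_map_le c hc)

lemma subLen (f : BL2 ζ) : SubLen (a.ψ f) (√(8 * CC * a.E nuM f)) where
  nonneg := a.ψ_nonneg f
  mul := a.ψ_mul_le f
  inv := a.ψ_inv f
  uu := fun x hx => psi_small a f _ (by rw [nS_uu]; linarith)
  vv := fun x hx => psi_small a f _ (by rw [nS_vv]; linarith)

/-- The logarithmic bound. -/
lemma psi_log (f : BL2 ζ) (g : SL2R) :
    a.ψ f g ≤ 210 * (1 + Real.log (nS g)) * √(8 * CC * a.E nuM f) := (subLen a f).le_log g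

end act

end Pool.Agent.IRS
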