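import Mathlib
import Pool.Agent.IRS.Dens

/-!
# Pointwise bounds for averages
-/

set_option autoImplicit false

namespace Pool.Agent.IRS

open MeasureTheory Matrix

lemma measurable_SLinv : Measurable (fun g : SL2R => g⁻¹) := measurable_inv

/-- The finite measure on a ball. -/
noncomputable def mR (R : ℝ) : Measure SL2R := (mH.restrict {g | nS g ≤ R}).map (fun g => g⁻¹)

lemma ball_meas (R : ℝ) : MeasurableSet {g : SL2R | nS g ≤ R} :=
  measurableSet_le measurable_nS measurable_const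

instance (R : ℝ) : IsFiniteMeasure (mR R) := by
  have : IsFiniteMeasure (mH.restrict {g : SL2R | nS g ≤ R}) :=
    ⟨by rw [Measure.restrict_apply_univ]; exact mH_ball_lt R⟩
  unfold mR
  infer_instance

lemma mR_ae (R : ℝ) : ∀ᵐ g ∂(mR R), nS g ≤ R := by
  unfold mR
  have hm : MeasurableSet {g : SL2R | nS g ≤ R} := ball_meas R
  have h1 : ∀ᵐ g ∂(mH.restrict {g : SL2R | nS g ≤ R}), nS g ≤ R := ae_restrict_mem hm
  rw [ae_map_iff measurable_SLinv.aemeasurable hm]
  filter_upwards [h1] with g hg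
  rw [nS_inv]; exact hg

lemma mR_univ (R : ℝ) : (mR R).real Set.univ = mH.real {g | nS g ≤ R} := by
  unfold mR Measure.real
  rw [Measure.map_apply measurable_SLinv MeasurableSet.univ, Set.preimage_univ,
    Measure.restrict_apply_univ]

lemma mR_int (R : ℝ) {f : SL2R → ℝ} (hf : Measurable f) :
    ∫ g, f g ∂(mR R) = ∫ g in {g | nS g ≤ R}, f g⁻¹ ∂mH := by
  unfold mR
  rw [integral_map measurable_SLinv.aemeasurable hf.aestronglyMeasurable]

/-- Cauchy Schwarz for a finite measure. -/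
lemma sq_int_le_fin {Γ : Type*} [MeasurableSpace Γ] (μ : Measure Γ) [IsFiniteMeasure μ]
    {u : Γ → ℝ} (hu : Integrable u μ) (hu2 : Integrable (fun g => u g ^ 2) μ) :
    (∫ g, u g ∂μ) ^ 2 ≤ μ.real Set.univ * ∫ g, u g ^ 2 ∂μ := by
  set m := μ.real Set.univ with hm
  set I := ∫ g, u g ∂μ with hI
  set J := ∫ g, u g ^ 2 ∂μ with hJ
  have hm0 : 0 ≤ m := measureReal_nonneg
  have h0 : 0 ≤ ∫ g, (m * u g - I) ^ 2 ∂μ := integral_nonneg fun g => sq_nonneg _
  have h1 : ∫ g, (m * u g - I) ^ 2 ∂μ = m ^ 2 * J - 2 * m * I * I + I ^ 2 * m := by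
    have e : (fun g => (m * u g - I) ^ 2) = fun g => (m ^ 2 * u g ^ 2 + (-(2 * m * I)) * u g)
        + I ^ 2 := by
      ext g; ring
    have i1 : Integrable (fun g => m ^ 2 * u g ^ 2) μ := hu2.const_mul _
    have i2 : Integrable (fun g => (-(2 * m * I)) * u g) μ := hu.const_mul _
    have i3 : Integrable (fun _ : Γ => I ^ 2) μ := integrable_const _
    have i4 : Integrable (fun g => m ^ 2 * u g ^ 2 + (-(2 * m * I)) * u g) μ := i1.add i2
    rw [e, integral_add i4 i3, integral_add i1 i2, integral_const_mul, integral_const_mul,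
      integral_const, smul_eq_mul]
    ring
  rcases hm0.eq_or_lt with h | h
  · have hμ : μ = 0 := by
      have h3 : μ Set.univ = 0 := by
        rcases (ENNReal.toReal_eq_zero_iff _).1 h.symm with h4 | h4
        · exact h4
        · exact absurd h4 (measure_ne_top μ _)
      exact Measure.measure_univ_eq_zero.1 h3
    have : I = 0 := by rw [hI, hμ, integral_zero_measure]
    rw [this, ← h]; simp
  · rw [h1] at h0
    have h2 : 0 ≤ m * (m * J - I ^ 2) := by nlinarith
    have h3 := nonneg_of_mul_nonneg_right h2 h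
    linarith

section act

variable {Z : Type*} [MeasurableSpace Z] {ζ : Measure Z} [SigmaFinite ζ] (a : PAct SL2R ζ)

/-- The representation of an average. -/
lemma rep (W : BL2 ζ) (g : SL2R) (z : Z) :
    ((a.A (nui nuM) W : BL2 ζ) : Z → ℝ) (a.τ g z)
      = ∫ k, rho (g * k) * (W : Z → ℝ) (a.τ k⁻¹ z) ∂mH := by
  have hmul : ∀ z' : Z, Measurable (fun h : SL2R => (W : Z → ℝ) (a.τ h z')) :=
    fun z' => a.meas_sec (bmeas W) z'
  rw [a.A_apply, nui, integral_map measurable_SLinv.aemeasurable (hmul _).aestronglyMeasurable,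
    nuM_integral, mH_int_left g (F := fun h => rho h * (W : Z → ℝ) (a.τ h⁻¹ (a.τ g z)))]
  · congr 1; ext k
    rw [← a.mul, _root_.mul_inv_rev, inv_mul_cancel_right]
  · exact measurable_rho.mul ((hmul _).comp measurable_SLinv)

lemma meas_lmul (g : SL2R) : Measurable (fun x : SL2R => g * x) := by
  apply measurable_to_SL
  intro i j
  simp_rw [SL_mul_apply]
  exact ((measurable_entry 0 j).const_mul _).add ((measurable_entry 1 j).const_mul _)

lemma rho_g_integrable (g : SL2R) : Integrable (fun k => rho (g * k)) mH := by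
  have h1 : Integrable rho (mH.map (g * ·)) := by rw [mH_left]; exact rho_integrable
  exact (integrable_map_measure measurable_rho.aestronglyMeasurable
    (meas_lmul g).aemeasurable).1 h1

lemma rho_g_int (g : SL2R) : ∫ k, rho (g * k) ∂mH = 1 := by
  rw [← mH_int_left g measurable_rho, rho_int]

/-- Support of the density. -/
lemma rho_supp {g k : SL2R} {T : ℝ} (hg : nS g ≤ T) (hk : rho (g * k) ≠ 0) : nS k ≤ 10 * T := by
  have h1 : nS (g * k) < 10 := by
    by_contra hcon
    push Not at hcon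
    exact hk (rho_zero hcon)
  have h2 : k = g⁻¹ * (g * k) := by rw [inv_mul_cancel_left]
  have h3 : nS k ≤ nS g * nS (g * k) := by
    conv_lhs => rw [h2]
    refine (nS_mul_le _ _).trans ?_
    rw [nS_inv]
  have h4 := nS_pos g
  have h5 := nS_pos (g * k)
  nlinarith

/-- The local variation. -/
noncomputable def JJ (R : ℝ) (W : BL2 ζ) (z : Z) : ℝ :=
  ∫ k, ((W : Z → ℝ) (a.τ k z) - (W : Z → ℝ) z) ^ 2 ∂(mR R)

lemma sec_meas (W : BL2 ζ) (z : Z) (c : ℝ) :
    Measurable (fun k : SL2R => ((W : Z → ℝ) (a.τ k z) - c) ^ 2) :=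
  ((a.meas_sec (bmeas W) z).sub_const c).pow_const 2

omit [SigmaFinite ζ] in
lemma sec_bdd (W : BL2 ζ) (z : Z) (c : ℝ) :
    ∃ M, ∀ k : SL2R, |((W : Z → ℝ) (a.τ k z) - c) ^ 2| ≤ M := by
  obtain ⟨M, hM⟩ := bbdd W
  refine ⟨(M + |c|) ^ 2, fun k => ?_⟩
  rw [abs_pow]
  refine pow_le_pow_left₀ (abs_nonneg _) ?_ 2
  exact (abs_sub _ _).trans (by linarith [hM (a.τ k z)])

lemma sec_int (R : ℝ) (W : BL2 ζ) (z : Z) (c : ℝ) :
    Integrable (fun k : SL2R => ((W : Z → ℝ) (a.τ k z) - c) ^ 2) (mR R) := by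
  obtain ⟨M, hM⟩ := sec_bdd a W z c
  exact integrable_of_bdd (mR R) (sec_meas a W z c) hM

lemma sec_intOn (R : ℝ) (W : BL2 ζ) (z : Z) (c : ℝ) :
    IntegrableOn (fun k : SL2R => ((W : Z → ℝ) (a.τ k⁻¹ z) - c) ^ 2) {g | nS g ≤ R} mH := by
  have : IsFiniteMeasure (mH.restrict {g : SL2R | nS g ≤ R}) :=
    ⟨by rw [Measure.restrict_apply_univ]; exact mH_ball_lt R⟩
  obtain ⟨M, hM⟩ := sec_bdd a W z c
  exact integrable_of_bdd _ ((sec_meas a W z c).comp measurable_SLinv) fun k => hM k⁻¹

/-- Bound of an average at a far point. -/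
lemma far_bound (w : BL2 ζ) {g : SL2R} {T : ℝ} (hg : nS g ≤ T) (z : Z) (c : ℝ) :
    (((a.A (nui nuM) w : BL2 ζ) : Z → ℝ) (a.τ g z) - c) ^ 2
      ≤ 10 * kap * ∫ k, ((w : Z → ℝ) (a.τ k z) - c) ^ 2 ∂(mR (10 * T)) := by
  rw [rep, mR_int _ (sec_meas a w z c)]
  set φ : SL2R → ℝ := fun k => (w : Z → ℝ) (a.τ k⁻¹ z) with hφ
  have hφm : Measurable φ := (a.meas_sec (bmeas w) z).comp measurable_SLinv
  obtain ⟨M, hM⟩ := bbdd w
  have hφb : ∀ k, |φ k| ≤ M := fun k => hM _
  have hρm : Measurable (fun k => rho (g * k)) := measurable_rho.comp (meas_lmul g)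
  have hρi := rho_g_integrable g
  have hi1 : Integrable (fun k => rho (g * k) * φ k) mH := by
    refine (hρi.mul_const M).mono' (hρm.mul hφm).aestronglyMeasurable ?_
    filter_upwards with k
    rw [Real.norm_eq_abs, abs_mul, abs_of_nonneg (rho_nonneg _)]
    exact mul_le_mul_of_nonneg_left (hφb k) (rho_nonneg _)
  have hi2 : Integrable (fun k => rho (g * k) * (φ k - c)) mH := by
    have : (fun k => rho (g * k) * (φ k - c)) = fun k => rho (g * k) * φ k - rho (g * k) * c := by
      ext k; ring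
    rw [this]; exact hi1.sub (hρi.mul_const c)
  have hi3 : Integrable (fun k => rho (g * k) * (φ k - c) ^ 2) mH := by
    refine (hρi.mul_const ((M + |c|) ^ 2)).mono'
      (hρm.mul ((hφm.sub_const c).pow_const 2)).aestronglyMeasurable ?_
    filter_upwards with k
    rw [Real.norm_eq_abs, abs_mul, abs_of_nonneg (rho_nonneg _), abs_pow]
    refine mul_le_mul_of_nonneg_left (pow_le_pow_left₀ (abs_nonneg _) ?_ 2) (rho_nonneg _)
    exact (abs_sub _ _).trans (by linarith [hφb k])
  -- subtract the constant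
  have e1 : (∫ k, rho (g * k) * φ k ∂mH) - c = ∫ k, rho (g * k) * (φ k - c) ∂mH := by
    have : (fun k => rho (g * k) * (φ k - c)) = fun k => rho (g * k) * φ k - rho (g * k) * c := by
      ext k; ring
    rw [this, integral_sub hi1 (hρi.mul_const c), integral_mul_const, rho_g_int, one_mul]
  rw [e1]
  -- Jensen through the square of a difference
  set I := ∫ k, rho (g * k) * (φ k - c) ∂mH with hI
  have e2 : I ^ 2 ≤ ∫ k, rho (g * k) * (φ k - c) ^ 2 ∂mH := by
    have h0 : 0 ≤ ∫ k, rho (g * k) * ((φ k - c) - I) ^ 2 ∂mH :=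
      integral_nonneg fun k => mul_nonneg (rho_nonneg _) (sq_nonneg _)
    have h1 : (fun k => rho (g * k) * ((φ k - c) - I) ^ 2)
        = fun k => (rho (g * k) * (φ k - c) ^ 2 + (-(2 * I)) * (rho (g * k) * (φ k - c)))
          + I ^ 2 * rho (g * k) := by
      ext k; ring
    have i2 : Integrable (fun k => (-(2 * I)) * (rho (g * k) * (φ k - c))) mH := hi2.const_mul _
    have i3 : Integrable (fun k => I ^ 2 * rho (g * k)) mH := hρi.const_mul _
    have i4 : Integrable (fun k => rho (g * k) * (φ k - c) ^ 2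
      + (-(2 * I)) * (rho (g * k) * (φ k - c))) mH := hi3.add i2
    rw [h1, integral_add i4 i3, integral_add hi3 i2, integral_const_mul, integral_const_mul,
      rho_g_int, ← hI] at h0
    nlinarith
  refine e2.trans ?_
  have hball := ball_meas (10 * T)
  have e3 : ∫ k, rho (g * k) * (φ k - c) ^ 2 ∂mH
      = ∫ k in {g | nS g ≤ 10 * T}, rho (g * k) * (φ k - c) ^ 2 ∂mH := by
    rw [setIntegral_eq_integral_of_forall_compl_eq_zero]
    intro k hk
    have : rho (g * k) = 0 := by
      by_contra hcon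
      exact hk (rho_supp hg hcon)
    rw [this, zero_mul]
  rw [e3, ← integral_const_mul]
  refine setIntegral_mono_on hi3.integrableOn ((sec_intOn a (10 * T) w z c).const_mul _)
    hball fun k _ => ?_
  exact mul_le_mul_of_nonneg_right (rho_le _) (sq_nonneg _)

/-- Bound for the difference of an average at two close points. -/
lemma near_bound (W : BL2 ζ) {g g' : SL2R} {R ε : ℝ} (hg : nS g ≤ R) (hg' : nS g' ≤ R)
    (hε : nM ((g : Matrix (Fin 2) (Fin 2) ℝ) - g') ≤ ε) (z : Z) :
    (((a.A (nui nuM) W : BL2 ζ) : Z → ℝ) (a.τ g z)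
      - ((a.A (nui nuM) W : BL2 ζ) : Z → ℝ) (a.τ g' z)) ^ 2
      ≤ (kap * ε * (10 * R)) ^ 2 * (16 * (10 * R) ^ 4) * JJ a (10 * R) W z := by
  have hR : 0 < R := (nS_pos g).trans_le hg
  have hε0 : 0 ≤ ε := (nM_nonneg _).trans hε
  unfold JJ
  rw [rep, rep, mR_int _ (sec_meas a W z _)]
  set c := (W : Z → ℝ) z with hc
  set φ : SL2R → ℝ := fun k => (W : Z → ℝ) (a.τ k⁻¹ z) with hφ
  have hφm : Measurable φ := (a.meas_sec (bmeas W) z).comp measurable_SLinv
  obtain ⟨M, hM⟩ := bbdd W
  have hφb : ∀ k, |φ k| ≤ M := fun k => hM _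
  have hi1 : ∀ g : SL2R, Integrable (fun k => rho (g * k) * φ k) mH := by
    intro g
    refine ((rho_g_integrable g).mul_const M).mono'
      ((measurable_rho.comp (meas_lmul g)).mul hφm).aestronglyMeasurable ?_
    filter_upwards with k
    rw [Real.norm_eq_abs, abs_mul, abs_of_nonneg (rho_nonneg _)]
    exact mul_le_mul_of_nonneg_left (hφb k) (rho_nonneg _)
  have e1 : (∫ k, rho (g * k) * φ k ∂mH) - ∫ k, rho (g' * k) * φ k ∂mH
      = ∫ k, (rho (g * k) - rho (g' * k)) * (φ k - c) ∂mH := by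
    have : (fun k => (rho (g * k) - rho (g' * k)) * (φ k - c))
        = fun k => (rho (g * k) * φ k - rho (g' * k) * φ k)
          - (rho (g * k) * c - rho (g' * k) * c) := by
      ext k; ring
    have i1 := (rho_g_integrable g).mul_const c
    have i2 := (rho_g_integrable g').mul_const c
    have i3 : Integrable (fun k => rho (g * k) * φ k - rho (g' * k) * φ k) mH :=
      (hi1 g).sub (hi1 g')
    have i4 : Integrable (fun k => rho (g * k) * c - rho (g' * k) * c) mH := i1.sub i2
    rw [this, integral_sub i3 i4, integral_sub (hi1 g) (hi1 g'), integral_sub i1 i2,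
      integral_mul_const, integral_mul_const, rho_g_int, rho_g_int]
    ring
  rw [e1]
  set S : Set SL2R := {k | nS k ≤ 10 * R} with hS
  have hball : MeasurableSet S := ball_meas (10 * R)
  have hfin : IsFiniteMeasure (mH.restrict S) :=
    ⟨by rw [Measure.restrict_apply_univ]; exact mH_ball_lt _⟩
  have e2 : ∫ k, (rho (g * k) - rho (g' * k)) * (φ k - c) ∂mH
      = ∫ k in S, (rho (g * k) - rho (g' * k)) * (φ k - c) ∂mH := by
    rw [setIntegral_eq_integral_of_forall_compl_eq_zero]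
    intro k hk
    have h1 : rho (g * k) = 0 := by
      by_contra hcon
      exact hk (rho_supp hg hcon)
    have h2 : rho (g' * k) = 0 := by
      by_contra hcon
      exact hk (rho_supp hg' hcon)
    rw [h1, h2, sub_zero, zero_mul]
  rw [e2]
  have hΔ : ∀ k ∈ S, |rho (g * k) - rho (g' * k)| ≤ kap * ε * (10 * R) := by
    intro k hk
    refine (rho_lip _ _).trans ?_
    rw [mul_assoc]
    refine mul_le_mul_of_nonneg_left ?_ kap_pos.le
    have h1 : |nS (g * k) - nS (g' * k)|
        ≤ nM (((g * k : SL2R) : Matrix (Fin 2) (Fin 2) ℝ) - ((g' * k : SL2R) : Matrix (Fin 2) (Fin 2) ℝ)) :=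
      abs_nM_sub _ _
    refine h1.trans ?_
    rw [Matrix.SpecialLinearGroup.coe_mul, Matrix.SpecialLinearGroup.coe_mul, ← Matrix.sub_mul]
    refine (nM_mul_le _ _).trans ?_
    exact mul_le_mul hε hk (nM_nonneg _) hε0
  have hdm : Measurable (fun k => (rho (g * k) - rho (g' * k)) * (φ k - c)) :=
    ((measurable_rho.comp (meas_lmul g)).sub (measurable_rho.comp (meas_lmul g'))).mul
      (hφm.sub_const c)
  have hi4 : IntegrableOn (fun k => (φ k - c) ^ 2) S mH := sec_intOn a (10 * R) W z c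
  -- Cauchy Schwarz
  set D := kap * ε * (10 * R) with hD
  have hD0 : 0 ≤ D := by have := kap_pos; positivity
  have hb1 : ∀ k, |(rho (g * k) - rho (g' * k)) * (φ k - c)| ≤ (20 * kap) * (M + |c|) := by
    intro k
    rw [abs_mul]
    have hk := kap_pos
    refine mul_le_mul ?_ ((abs_sub _ _).trans (by linarith [hφb k])) (abs_nonneg _) (by positivity)
    refine (abs_sub _ _).trans ?_
    rw [abs_of_nonneg (rho_nonneg _), abs_of_nonneg (rho_nonneg _)]
    linarith [rho_le (g * k), rho_le (g' * k)]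
  have hi5 : Integrable (fun k => (rho (g * k) - rho (g' * k)) * (φ k - c)) (mH.restrict S) :=
    integrable_of_bdd _ hdm hb1
  have hi6 : Integrable (fun k => ((rho (g * k) - rho (g' * k)) * (φ k - c)) ^ 2)
      (mH.restrict S) := by
    refine integrable_of_bdd _ (hdm.pow_const 2) (M := ((20 * kap) * (M + |c|)) ^ 2) fun k => ?_
    rw [abs_pow]
    exact pow_le_pow_left₀ (abs_nonneg _) (hb1 k) 2
  have e4 := sq_int_le_fin (mH.restrict S) hi5 hi6
  have e5 : (mH.restrict S).real Set.univ ≤ 16 * (10 * R) ^ 4 := by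
    unfold Measure.real
    rw [Measure.restrict_apply_univ]
    exact mH_ball_real (by positivity)
  have e6 : ∫ k in S, ((rho (g * k) - rho (g' * k)) * (φ k - c)) ^ 2 ∂mH
      ≤ D ^ 2 * ∫ k in S, (φ k - c) ^ 2 ∂mH := by
    rw [← integral_const_mul]
    refine setIntegral_mono_on hi6 (hi4.const_mul _) hball fun k hk => ?_
    rw [mul_pow]
    refine mul_le_mul_of_nonneg_right ?_ (sq_nonneg _)
    rw [← sq_abs]
    exact pow_le_pow_left₀ (abs_nonneg _) (hΔ k hk) 2
  have e7 : 0 ≤ ∫ k in S, (φ k - c) ^ 2 ∂mH := integral_nonneg fun k => sq_nonneg _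
  calc (∫ k in S, (rho (g * k) - rho (g' * k)) * (φ k - c) ∂mH) ^ 2
      ≤ (mH.restrict S).real Set.univ
        * ∫ k in S, ((rho (g * k) - rho (g' * k)) * (φ k - c)) ^ 2 ∂mH := e4
    _ ≤ (16 * (10 * R) ^ 4) * (D ^ 2 * ∫ k in S, (φ k - c) ^ 2 ∂mH) :=
        mul_le_mul e5 e6 (integral_nonneg fun k => sq_nonneg _) (by positivity)
    _ = D ^ 2 * (16 * (10 * R) ^ 4) * ∫ k in S, (φ k - c) ^ 2 ∂mH := by ring

end act

end Pool.Agent.IRS
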