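import Mathlib
import Pool.Agent.IRS.Base

/-!
# Measurability of sums over closed sets
-/

set_option autoImplicit false

namespace Pool.Agent.IRS

open MeasureTheory Set Filter Topology ENNReal

section

variable {G : Type*} [TopologicalSpace G] [SecondCountableTopology G] [T2Space G]

open TopologicalSpace

/-- The partial sums. -/
private noncomputable def sP (b : G → ENNReal) (P : Finset (Set G)) (C : CL G) : ENNReal :=
  ∑ B ∈ P, (⨅ g ∈ B, b g) * (hitC B).indicator (fun _ => (1 : ENNReal)) C

omit [T2Space G] in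
private lemma sP_meas (b : G → ENNReal) (P : Finset (Set G)) (hP : ∀ B ∈ P, B ∈ countableBasis G) :
    Measurable (sP b P) := by
  unfold sP
  refine Finset.measurable_fun_sum _ fun B hB => ?_
  exact (measurable_const.indicator
    (hitC_meas (isOpen_of_mem_countableBasis (hP B hB)))).const_mul _

omit [SecondCountableTopology G] [T2Space G] in
private lemma sP_le (b : G → ENNReal) (P : Finset (Set G)) (hd : (P : Set (Set G)).PairwiseDisjoint id)
    (C : CL G) : sP b P C ≤ ∑' c : C.1, b c := by
  classical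
  have h1 : sP b P C = ∑ B ∈ P.filter (fun B => C ∈ hitC B), ⨅ g ∈ B, b g := by
    unfold sP
    rw [Finset.sum_filter]
    refine Finset.sum_congr rfl fun B _ => ?_
    by_cases h : C ∈ hitC B
    · rw [indicator_of_mem h, mul_one, if_pos h]
    · rw [indicator_of_notMem h, mul_zero, if_neg h]
  rw [h1, ← Finset.sum_coe_sort, ← tsum_fintype (L := SummationFilter.unconditional _)]
  have h2 : ∀ B : {B // B ∈ P.filter (fun B => C ∈ hitC B)}, ∃ c : C.1, (c : G) ∈ B.1 := by
    rintro ⟨B, hB⟩
    obtain ⟨c, hc, hcB⟩ := (Finset.mem_filter.1 hB).2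
    exact ⟨⟨c, hc⟩, hcB⟩
  choose f hf using h2
  have hinj : Function.Injective f := by
    intro B B' h
    by_contra hne
    have hne' : B.1 ≠ B'.1 := fun h' => hne (Subtype.ext h')
    have h3 := hd (Finset.mem_coe.2 (Finset.mem_filter.1 B.2).1)
      (Finset.mem_coe.2 (Finset.mem_filter.1 B'.2).1) hne'
    have h4 := hf B'
    rw [← h] at h4
    exact Set.disjoint_left.1 h3 (hf B) h4
  calc ∑' B : {B // B ∈ P.filter (fun B => C ∈ hitC B)}, ⨅ g ∈ B.1, b g
      ≤ ∑' B : {B // B ∈ P.filter (fun B => C ∈ hitC B)}, b (f B) :=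
        ENNReal.tsum_le_tsum fun B => iInf₂_le _ (hf B)
    _ ≤ ∑' c : C.1, b c := ENNReal.tsum_comp_le_tsum_of_injective hinj (fun c : C.1 => b c)

private lemma le_sP (b : G → ENNReal) (hb : Continuous b) (hb' : ∀ g, b g ≠ ∞) (C : CL G) :
    ∑' c : C.1, b c ≤ ⨆ P ∈ {P : Finset (Set G) | (P : Set (Set G)) ⊆ countableBasis G ∧
      (P : Set (Set G)).PairwiseDisjoint id}, sP b P C := by
  classical
  rw [ENNReal.tsum_eq_iSup_sum]
  refine iSup_le fun F => ?_
  refine ENNReal.le_of_forall_pos_le_add fun ε hε _ => ?_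
  set δ : NNReal := ε / (F.card + 1) with hδ
  have hδ0 : 0 < δ := by positivity
  obtain ⟨U, hU, hUd⟩ := (F.image (fun c : C.1 => (c : G))).finite_toSet.t2_separation
  have h1 : ∀ c : C.1, ∃ B ∈ countableBasis G, (c : G) ∈ B ∧
      B ⊆ U c ∩ {g | b c < b g + δ} := by
    intro c
    refine (isBasis_countableBasis G).exists_subset_of_mem_open ⟨(hU c).1, ?_⟩ ((hU c).2.inter ?_)
    · exact ENNReal.lt_add_right (hb' _) (by exact_mod_cast hδ0.ne')
    · exact isOpen_lt continuous_const (hb.add continuous_const)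
  choose B hB hcB hBU using h1
  have hne : ∀ c ∈ F, ∀ c' ∈ F, c ≠ c' → Disjoint (B c) (B c') := by
    intro c hc c' hc' hcc
    refine Disjoint.mono ((hBU c).trans inter_subset_left) ((hBU c').trans inter_subset_left) ?_
    refine hUd ?_ ?_ fun h => hcc (Subtype.ext h)
    · exact Finset.mem_coe.2 (Finset.mem_image_of_mem _ hc)
    · exact Finset.mem_coe.2 (Finset.mem_image_of_mem _ hc')
  have hinj : Set.InjOn B F := by
    intro c hc c' hc' h
    by_contra hcc
    have h2 := hne c hc c' hc' hcc
    rw [← h] at h2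
    exact Set.disjoint_left.1 h2 (hcB c) (hcB c)
  have h3 : ∀ c ∈ F, b c ≤ (⨅ g ∈ B c, b g) + δ := by
    intro c _
    rw [← tsub_le_iff_right]
    refine le_iInf₂ fun g hg => ?_
    rw [tsub_le_iff_right]
    exact ((hBU c) hg).2.le
  have h4 : ∑ c ∈ F, b c ≤ sP b (F.image B) C + F.card * δ := by
    have h5 : sP b (F.image B) C = ∑ c ∈ F, ⨅ g ∈ B c, b g := by
      unfold sP
      rw [Finset.sum_image hinj]
      refine Finset.sum_congr rfl fun c _ => ?_
      rw [indicator_of_mem (show C ∈ hitC (B c) from ⟨c, c.2, hcB c⟩), mul_one]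
    rw [h5, ← nsmul_eq_mul, ← Finset.sum_const, ← Finset.sum_add_distrib]
    exact Finset.sum_le_sum h3
  have h6 : ((F.card : ENNReal)) * δ ≤ ε := by
    have h7 : (F.card : NNReal) * δ ≤ ε := by
      rw [hδ, mul_div_assoc', div_le_iff₀ (by positivity)]
      have : (F.card : NNReal) * ε ≤ (F.card + 1) * ε := by
        gcongr
        exact le_self_add
      rwa [mul_comm ε]
    exact_mod_cast h7
  have h8 : sP b (F.image B) C ≤ ⨆ P ∈ {P : Finset (Set G) | (P : Set (Set G)) ⊆ countableBasis G ∧
      (P : Set (Set G)).PairwiseDisjoint id}, sP b P C := by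
    refine le_iSup₂ (f := fun (P : Finset (Set G)) (_ : P ∈ {P : Finset (Set G) |
      (P : Set (Set G)) ⊆ countableBasis G ∧ (P : Set (Set G)).PairwiseDisjoint id}) => sP b P C)
      (F.image B) ⟨?_, ?_⟩
    · intro V hV
      obtain ⟨c, _, rfl⟩ := Finset.mem_image.1 (Finset.mem_coe.1 hV)
      exact hB c
    · intro V hV V' hV' hVV
      obtain ⟨c, hc, rfl⟩ := Finset.mem_image.1 (Finset.mem_coe.1 hV)
      obtain ⟨c', hc', rfl⟩ := Finset.mem_image.1 (Finset.mem_coe.1 hV')
      exact hne c hc c' hc' fun h => hVV (by rw [h])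
  exact h4.trans (add_le_add h8 h6)

private theorem meas_tsum (b : G → ENNReal) (hb : Continuous b) (hb' : ∀ g, b g ≠ ∞) :
    Measurable (fun C : CL G => ∑' c : C.1, b c) := by
  have h1 : (fun C : CL G => ∑' c : C.1, b c) = fun C => ⨆ P ∈ {P : Finset (Set G) |
      (P : Set (Set G)) ⊆ countableBasis G ∧ (P : Set (Set G)).PairwiseDisjoint id}, sP b P C := by
    funext C
    refine le_antisymm (le_sP b hb hb' C) ?_
    exact iSup₂_le fun P hP => sP_le b P hP.2 C
  rw [h1]
  refine Measurable.biSup _ ?_ fun P hP => sP_meas b P fun B hB => hP.1 hB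
  have h2 : {P : Finset (Set G) | (P : Set (Set G)) ⊆ countableBasis G}.Countable := by
    have h3 : {F : Set (Set G) | F.Finite ∧ F ⊆ countableBasis G}.Countable :=
      Set.countable_ofPred_finite_subset (countable_countableBasis G)
    refine (h3.preimage_of_injOn (f := fun P : Finset (Set G) => (P : Set (Set G))) ?_).mono ?_
    · exact Finset.coe_injective.injOn
    · intro P hP
      exact ⟨P.finite_toSet, hP⟩
  exact h2.mono fun P hP => hP.1

end

theorem measurable_WC : Measurable WC := by
  refine meas_tsum (fun g : G2 => ENNReal.ofReal (q2 g)) ?_ fun g => ENNReal.ofReal_ne_top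
  exact ENNReal.continuous_ofReal.comp continuous_q2

end Pool.Agent.IRS
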