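import Mathlib
import Pool.Agent.IRS.Base

/-!
# Unfolding over a countable subgroup
-/

set_option autoImplicit false

namespace Pool.Agent.IRS

open MeasureTheory Set Filter Topology ENNReal

theorem unf_q {D : Subgroup G2} (hD : (D : Set G2).Countable) {v b : G2 → ENNReal}
    (hv : Measurable v) (hb : Measurable b) (s : ∀ g, ∑' h : D, v (h * g) = 1) :
    ∫⁻ g, (∑' h : D, b (h * g)) * v g ∂m2 = ∫⁻ g, b g ∂m2 := by
  have hc : Countable D := hD.to_subtype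
  have e1 : ∀ g, (∑' h : D, b (h * g)) * v g = ∑' h : D, b (h * g) * v g := fun g =>
    ENNReal.tsum_mul_right.symm
  have m1 : ∀ h : D, Measurable (fun g => b (h * g)) := fun h => hb.comp (measurable_const_mul (h : G2))
  have n1 : ∀ h : D, Measurable (fun g => v ((h : G2)⁻¹ * g)) := fun h =>
    hv.comp (measurable_const_mul ((h : G2)⁻¹))
  have t1 : ∫⁻ g, ∑' h : D, b (h * g) * v g ∂m2 = ∑' h : D, ∫⁻ g, b (h * g) * v g ∂m2 :=
    lintegral_tsum (fun h : D => ((m1 h).mul hv).aemeasurable)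
  have t2 : ∫⁻ g, ∑' h : D, b g * v ((h : G2)⁻¹ * g) ∂m2
      = ∑' h : D, ∫⁻ g, b g * v ((h : G2)⁻¹ * g) ∂m2 :=
    lintegral_tsum (fun h : D => (hb.mul (n1 h)).aemeasurable)
  have e2 : ∀ h : D, ∫⁻ g, b (h * g) * v g ∂m2 = ∫⁻ g, b g * v ((h : G2)⁻¹ * g) ∂m2 := by
    intro h
    have hm : Measurable (fun g => b g * v ((h : G2)⁻¹ * g)) := hb.mul (n1 h)
    rw [← (m2_left (h : G2)).lintegral_comp hm]
    simp only [inv_mul_cancel_left]
  rw [lintegral_congr e1, t1, tsum_congr e2, ← t2]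
  refine lintegral_congr fun g => ?_
  rw [ENNReal.tsum_mul_left]
  have e3 : ∑' h : D, v ((h : G2)⁻¹ * g) = ∑' h : D, v (h * g) := by
    rw [← (Equiv.inv D).tsum_eq (fun h : D => v (h * g))]
    rfl
  rw [e3, s g, mul_one]

theorem unf {D : Subgroup G2} (hD : (D : Set G2).Countable) {ψ v1 v2 : G2 → ENNReal}
    (hψ : Measurable ψ) (h1 : Measurable v1) (h2 : Measurable v2)
    (hinv : ∀ h ∈ D, ∀ g, ψ (h * g) = ψ g)
    (s1 : ∀ g, ∑' h : D, v1 (h * g) = 1) (s2 : ∀ g, ∑' h : D, v2 (h * g) = 1) :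
    ∫⁻ g, ψ g * v1 g ∂m2 = ∫⁻ g, ψ g * v2 g ∂m2 := by
  have hm : Measurable (fun g => ψ g * v2 g) := hψ.mul h2
  rw [← unf_q hD h1 hm s1]
  refine lintegral_congr fun g => ?_
  congr 1
  have e1 : ∀ h : D, ψ (h * g) * v2 (h * g) = ψ g * v2 (h * g) := fun h => by
    rw [hinv h h.2 g]
  calc ψ g = ψ g * ∑' h : D, v2 (h * g) := by rw [s2 g, mul_one]
    _ = ∑' h : D, ψ g * v2 (h * g) := ENNReal.tsum_mul_left.symm
    _ = ∑' h : D, ψ (h * g) * v2 (h * g) := by simp_rw [e1]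
    _ = _ := rfl

end Pool.Agent.IRS
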