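import Mathlib
import Pool.Agent.IRS.SumCL
import Pool.Agent.IRS.UnfA

/-!
# Cosets and weights
-/

set_option autoImplicit false

namespace Pool.Agent.IRS

open MeasureTheory Set Filter Topology ENNReal

namespace Fld

variable {X : Type} [MeasurableSpace X] {μ : Measure X} (𝓕 : Fld μ)

/-- The subgroup as a closed set. -/
def HC (x : X) : CL G2 := ⟨(𝓕.H x : Set G2), 𝓕.closed x⟩

lemma measurable_HC : Measurable 𝓕.HC := measurable_to_CL 𝓕.meas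

lemma measurable_Pi : Measurable 𝓕.Pi := by
  refine measurable_fst.prodMk ?_
  refine measurable_to_CL fun U hU => ?_
  have hΦ : Continuous (fun p : G2 × G2 => p.2 * p.1) := continuous_snd.mul continuous_fst
  have h1 := hit_prod_meas hΦ hU
  have h2 : {p : X × G2 | ((𝓕.co p.1 p.2).1 ∩ U).Nonempty}
      = (fun p : X × G2 => (p.2, 𝓕.HC p.1)) ⁻¹'
        {p : G2 × CL G2 | ∃ c ∈ p.2.1, c * p.1 ∈ U} := by
    ext ⟨x, g⟩
    constructor
    · rintro ⟨c, hc, hcU⟩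
      refine ⟨c * g⁻¹, hc, ?_⟩
      simp only [inv_mul_cancel_right]
      exact hcU
    · rintro ⟨c, hc, hcU⟩
      refine ⟨c * g, ?_, hcU⟩
      simp only
      rw [mem_co, mul_inv_cancel_right]
      exact hc
  rw [h2]
  exact (measurable_snd.prodMk (𝓕.measurable_HC.comp measurable_fst)) h1

lemma co_left (γ : G2) (x : X) (g : G2) : 𝓕.co (𝓕.A.τ γ x) (γ * g) = lC γ (𝓕.co x g) := by
  refine CL_ext fun c => ?_
  rw [mem_lC, mem_co, mem_co, 𝓕.equi]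
  have e : γ⁻¹ * (c * (γ * g)⁻¹) * γ = γ⁻¹ * c * g⁻¹ := by group
  rw [e]

lemma co_right (γ : G2) (x : X) (g : G2) : 𝓕.co x (g * γ⁻¹) = rC γ (𝓕.co x g) := by
  refine CL_ext fun c => ?_
  rw [mem_rC, mem_co, mem_co]
  have e : c * (g * γ⁻¹)⁻¹ = c * γ * g⁻¹ := by group
  rw [e]

lemma co_right' (γ : G2) (x : X) (g : G2) : rC γ⁻¹ (𝓕.co x g) = 𝓕.co x (g * γ) := by
  rw [← co_right, inv_inv]

lemma co_inv {x : X} {h : G2} (hh : h ∈ 𝓕.H x) (g : G2) : 𝓕.co x (h * g) = 𝓕.co x g := by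
  refine CL_ext fun c => ?_
  rw [mem_co, mem_co]
  have e : c * (h * g)⁻¹ = c * g⁻¹ * h⁻¹ := by group
  rw [e]
  exact (𝓕.H x).mul_mem_cancel_right ((𝓕.H x).inv_mem hh)

/-- Parametrisation of a coset. -/
def eco (x : X) (g : G2) : 𝓕.H x ≃ (𝓕.co x g).1 where
  toFun h := ⟨(h : G2) * g, by rw [mem_co, mul_inv_cancel_right]; exact h.2⟩
  invFun c := ⟨(c : G2) * g⁻¹, c.2⟩
  left_inv h := by apply Subtype.ext; simp
  right_inv c := by apply Subtype.ext; simp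

/-- Parametrisation of a translated coset. -/
def eco' (γ : G2) (x : X) (g : G2) : 𝓕.H x ≃ (lC γ (𝓕.co x g)).1 where
  toFun h := ⟨γ * ((h : G2) * g), by
    rw [mem_lC, inv_mul_cancel_left, mem_co, mul_inv_cancel_right]; exact h.2⟩
  invFun c := ⟨γ⁻¹ * (c : G2) * g⁻¹, c.2⟩
  left_inv h := by apply Subtype.ext; simp
  right_inv c := by apply Subtype.ext; simp [mul_assoc]

/-- Inversion from a right coset to a left coset. -/
def einv (x : X) (g : G2) : (𝓕.co x g⁻¹).1 ≃ (lC g (𝓕.co x 1)).1 where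
  toFun c := ⟨(c : G2)⁻¹, by
    have := c.2
    rw [mem_co, inv_inv] at this
    rw [mem_lC, mem_co, inv_one, mul_one, ← mul_inv_rev]
    exact (𝓕.H x).inv_mem this⟩
  invFun c := ⟨(c : G2)⁻¹, by
    have := c.2
    rw [mem_lC, mem_co, inv_one, mul_one] at this
    rw [mem_co, inv_inv]
    have h2 := (𝓕.H x).inv_mem this
    rw [mul_inv_rev, inv_inv] at h2
    exact h2⟩
  left_inv c := by apply Subtype.ext; simp
  right_inv c := by apply Subtype.ext; simp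

lemma WC_co (x : X) (g : G2) : WC (𝓕.co x g) = ∑' h : 𝓕.H x, ENNReal.ofReal (q2 (h * g)) := by
  unfold WC
  exact ((𝓕.eco x g).tsum_eq (fun c : (𝓕.co x g).1 => ENNReal.ofReal (q2 c))).symm

lemma WC_co' (γ : G2) (x : X) (g : G2) :
    WC (lC γ (𝓕.co x g)) = ∑' h : 𝓕.H x, ENNReal.ofReal (q2 (γ * (h * g))) := by
  unfold WC
  exact ((𝓕.eco' γ x g).tsum_eq
    (fun c : (lC γ (𝓕.co x g)).1 => ENNReal.ofReal (q2 c))).symm

lemma WC_ne_zero (x : X) (g : G2) : WC (𝓕.co x g) ≠ 0 := by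
  rw [WC_co]
  intro h
  have h1 := ENNReal.le_tsum (f := fun h : 𝓕.H x => ENNReal.ofReal (q2 (h * g))) 1
  rw [h] at h1
  have h2 : ENNReal.ofReal (q2 g) ≤ 0 := by simpa using h1
  have h3 : 0 < ENNReal.ofReal (q2 g) := ENNReal.ofReal_pos.2 (q2_pos g)
  exact absurd h2 (not_le.2 h3)

lemma WC_fin : ∀ᵐ x ∂μ, ∀ g, WC (𝓕.co x g) ≠ ⊤ := by
  filter_upwards [𝓕.fin] with x hx g
  rw [WC_co]
  exact hx g

/-- The weight at the moved point. -/
lemma wt_inv (x : X) (g : G2) : 𝓕.wt (𝓕.A.τ g x) g = 𝓕.wt x g⁻¹ := by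
  unfold wt
  rw [q2_inv]
  congr 2
  have h1 : 𝓕.co (𝓕.A.τ g x) g = lC g (𝓕.co x 1) := by
    rw [← co_left, mul_one]
  rw [h1]
  unfold WC
  rw [← (𝓕.einv x g).tsum_eq (fun c : (lC g (𝓕.co x 1)).1 => ENNReal.ofReal (q2 c))]
  refine tsum_congr fun c => ?_
  change ENNReal.ofReal (q2 (c : G2)⁻¹) = ENNReal.ofReal (q2 c)
  rw [q2_inv]

lemma wt_sum : ∀ᵐ x ∂μ, ∀ g, ∑' h : 𝓕.H x, 𝓕.wt x (h * g) = 1 := by
  filter_upwards [𝓕.WC_fin] with x hx g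
  unfold wt
  have h1 : ∀ h : 𝓕.H x, ENNReal.ofReal (q2 (h * g)) * (WC (𝓕.co x (h * g)))⁻¹
      = ENNReal.ofReal (q2 (h * g)) * (WC (𝓕.co x g))⁻¹ := fun h => by
    rw [𝓕.co_inv h.2]
  simp_rw [h1]
  rw [ENNReal.tsum_mul_right, ← WC_co, ENNReal.mul_inv_cancel (𝓕.WC_ne_zero x g) (hx g)]

lemma wt_sum_left : ∀ᵐ x ∂μ, ∀ γ g, ∑' h : 𝓕.H x, 𝓕.wt (𝓕.A.τ γ x) (γ * (h * g)) = 1 := by
  filter_upwards [𝓕.fin] with x hx γ g
  unfold wt
  have h1 : ∀ h : 𝓕.H x, ENNReal.ofReal (q2 (γ * (h * g))) * (WC (𝓕.co (𝓕.A.τ γ x) (γ * (h * g))))⁻¹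
      = ENNReal.ofReal (q2 (γ * (h * g))) * (WC (𝓕.co (𝓕.A.τ γ x) (γ * g)))⁻¹ := fun h => by
    rw [co_left, co_left, 𝓕.co_inv h.2]
  simp_rw [h1]
  have h2 : WC (𝓕.co (𝓕.A.τ γ x) (γ * g)) = ∑' h : 𝓕.H x, ENNReal.ofReal (q2 (γ * (h * g))) := by
    rw [co_left, WC_co']
  rw [ENNReal.tsum_mul_right, ← h2, ENNReal.mul_inv_cancel (𝓕.WC_ne_zero _ _)]
  rw [h2]
  have h3 : ∑' h : 𝓕.H x, ENNReal.ofReal (q2 (γ * (h * g)))
      ≤ ENNReal.ofReal (N2 γ) * ∑' h : 𝓕.H x, ENNReal.ofReal (q2 (h * g)) := by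
    rw [← ENNReal.tsum_mul_left]
    refine ENNReal.tsum_le_tsum fun h => ?_
    rw [← ENNReal.ofReal_mul (N2_pos γ).le]
    exact ENNReal.ofReal_le_ofReal (q2_mul_le _ _)
  exact (h3.trans_lt (ENNReal.mul_lt_top ENNReal.ofReal_lt_top (hx g).lt_top)).ne

lemma measurable_wt : Measurable (fun p : X × G2 => 𝓕.wt p.1 p.2) := by
  unfold wt
  refine Measurable.mul (measurable_q2.comp measurable_snd).ennreal_ofReal ?_
  exact (measurable_WC.comp (measurable_snd.comp 𝓕.measurable_Pi)).inv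

lemma measurable_wt' (x : X) : Measurable (𝓕.wt x) := by
  have h1 : Measurable (Prod.mk x : G2 → X × G2) := measurable_prodMk_left
  have h2 := 𝓕.measurable_wt.comp h1
  exact h2

end Fld

end Pool.Agent.IRS
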