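import Mathlib
import Pool.Agent.IRS.Zs1

/-!
# The measure on the space of cosets

* `measurable_fib`: `Measurable.lintegral_prod_right'` with `measurable_Pi`, `measurable_wt`.
* `lintegral_zeta`: `lintegral_withDensity_eq_lintegral_mul`, `lintegral_map`, `lintegral_prod`,
  `lintegral_kq2` (so `∫⁻ zeta = ∫⁻ x, ∫⁻ g, q2 g * ((WC (co x g))⁻¹ * φ (x, co x g))`).
* `SigmaFinite`: `lam` is finite and the density is finite a.e. (`WC_ne_zero`).
* `ae_zeta`: `zeta ≪ lam ≪ zeta` (`withDensity_absolutelyContinuous'`, `WC_fin`), `ae_map_iff`.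
* `fib_left`: for `x` as in `wt_sum`, `wt_sum_left`, `cnt`: by `m2_left γ`,
  `fib φ (γ x) = ∫ φ (γ x, co (γ x) (γ g)) * wt (γ x) (γ g)`, `co_left`, and `unf` with
  `ψ g = φ (γ x, lC γ (co x g))`, `v1 g = wt (γ x) (γ g)`, `v2 g = wt x g`.
* `fib_right`: by `m2_right`, `fib (φ ∘ right γ) x = ∫ φ (x, co x (g γ⁻¹)) wt x g
  = ∫ φ (x, co x g) wt x (g γ)`, and `unf` (`∑_h wt x (h g γ) = 1` by `wt_sum`).
* `left`, `right`: measure preserving by `lintegral_zeta` and `fib_left`, `fib_right`.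
-/

set_option autoImplicit false
set_option linter.unusedSectionVars false

namespace Pool.Agent.IRS

open MeasureTheory Set Filter Topology ENNReal

namespace Fld

variable {X : Type} [MeasurableSpace X] {μ : Measure X} (𝓕 : Fld μ)

lemma measurable_co (x : X) : Measurable (𝓕.co x) := by
  have h1 : Measurable (Prod.mk x : G2 → X × G2) := measurable_prodMk_left
  have h2 := measurable_snd.comp (𝓕.measurable_Pi.comp h1)
  exact h2

lemma measurable_int {φ : X × CL G2 → ENNReal} (hφ : Measurable φ) :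
    Measurable (fun p : X × G2 => φ (p.1, 𝓕.co p.1 p.2) * 𝓕.wt p.1 p.2) :=
  (hφ.comp 𝓕.measurable_Pi).mul 𝓕.measurable_wt

lemma measurable_fib {φ : X × CL G2 → ENNReal} (hφ : Measurable φ) : Measurable (𝓕.fib φ) :=
  (𝓕.measurable_int hφ).lintegral_prod_right'

lemma fib_left {φ : X × CL G2 → ENNReal} (hφ : Measurable φ) (γ : G2) :
    ∀ᵐ x ∂μ, 𝓕.fib (fun z => φ (𝓕.A.τ γ z.1, lC γ z.2)) x = 𝓕.fib φ (𝓕.A.τ γ x) := by
  filter_upwards [𝓕.wt_sum, 𝓕.wt_sum_left, 𝓕.cnt] with x h1 h2 h3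
  unfold fib
  have m1 : Measurable (fun g => φ (𝓕.A.τ γ x, 𝓕.co (𝓕.A.τ γ x) g) * 𝓕.wt (𝓕.A.τ γ x) g) := by
    have h4 : Measurable (Prod.mk (𝓕.A.τ γ x) : G2 → X × G2) := measurable_prodMk_left
    have h5 := (𝓕.measurable_int hφ).comp h4
    exact h5
  rw [← (m2_left γ).lintegral_comp m1]
  simp_rw [𝓕.co_left]
  refine unf (D := 𝓕.H x) h3 (ψ := fun g => φ (𝓕.A.τ γ x, lC γ (𝓕.co x g))) ?_ (𝓕.measurable_wt' x)
    ((𝓕.measurable_wt' (𝓕.A.τ γ x)).comp (measurable_const_mul γ)) ?_ h1 (h2 γ)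
  · refine hφ.comp (measurable_const.prodMk ?_)
    have h6 : Measurable (fun g => (γ, 𝓕.co x g)) := measurable_const.prodMk (𝓕.measurable_co x)
    exact measurable_lC.comp h6
  · intro h hh g
    rw [𝓕.co_inv hh]

lemma fib_right {φ : X × CL G2 → ENNReal} (hφ : Measurable φ) (γ : G2) :
    ∀ᵐ x ∂μ, 𝓕.fib (fun z => φ (z.1, rC γ z.2)) x = 𝓕.fib φ x := by
  filter_upwards [𝓕.wt_sum, 𝓕.cnt] with x h1 h3
  unfold fib
  simp only
  simp_rw [← 𝓕.co_right]
  have mco := 𝓕.measurable_co x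
  have m0 : Measurable (fun g => φ (x, 𝓕.co x g)) := hφ.comp (measurable_const.prodMk mco)
  have m1 : Measurable (fun g => φ (x, 𝓕.co x (g * γ⁻¹)) * 𝓕.wt x g) :=
    (m0.comp (measurable_mul_const γ⁻¹)).mul (𝓕.measurable_wt' x)
  rw [← (m2_right γ).lintegral_comp m1]
  simp_rw [mul_inv_cancel_right]
  refine unf (D := 𝓕.H x) h3 (ψ := fun g => φ (x, 𝓕.co x g)) m0
    ((𝓕.measurable_wt' x).comp (measurable_mul_const γ)) (𝓕.measurable_wt' x) ?_ ?_ h1
  · intro h hh g
    rw [𝓕.co_inv hh]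
  · intro g
    have e : ∀ h : 𝓕.H x, (𝓕.wt x ∘ fun g => g * γ) ((h : G2) * g) = 𝓕.wt x (h * (g * γ)) :=
      fun h => by simp only [Function.comp, mul_assoc]
    exact (tsum_congr e).trans (h1 (g * γ))

variable [IsProbabilityMeasure μ]

instance : IsFiniteMeasure 𝓕.lam := by
  unfold lam
  exact Measure.isFiniteMeasure_map _ _

lemma ae_lam {Q : X × CL G2 → Prop} (hQ : MeasurableSet {z | Q z}) :
    (∀ᵐ z ∂𝓕.lam, Q z) ↔ ∀ᵐ p ∂(μ.prod kq2), Q (𝓕.Pi p) := by
  unfold lam
  exact ae_map_iff 𝓕.measurable_Pi.aemeasurable hQ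

lemma measurable_dens : Measurable (fun z : X × CL G2 => (WC z.2)⁻¹) :=
  (measurable_WC.comp measurable_snd).inv

theorem lintegral_zeta {φ : X × CL G2 → ENNReal} (hφ : Measurable φ) :
    ∫⁻ z, φ z ∂𝓕.zeta = ∫⁻ x, 𝓕.fib φ x ∂μ := by
  have m1 : Measurable (fun z : X × CL G2 => (WC z.2)⁻¹ * φ z) := measurable_dens.mul hφ
  unfold zeta
  rw [lintegral_withDensity_eq_lintegral_mul _ measurable_dens hφ]
  unfold lam
  have e1 : ((fun z : X × CL G2 => (WC z.2)⁻¹) * φ) = fun z => (WC z.2)⁻¹ * φ z := rfl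
  have m2' : Measurable (fun p : X × G2 => (WC (𝓕.Pi p).2)⁻¹ * φ (𝓕.Pi p)) :=
    m1.comp 𝓕.measurable_Pi
  rw [e1, lintegral_map m1 𝓕.measurable_Pi, lintegral_prod _ m2'.aemeasurable]
  refine lintegral_congr fun x => ?_
  have h1 : Measurable (Prod.mk x : G2 → X × G2) := measurable_prodMk_left
  have m3 : Measurable (fun g : G2 => (WC (𝓕.Pi (x, g)).2)⁻¹ * φ (𝓕.Pi (x, g))) := m2'.comp h1
  rw [lintegral_kq2 m3]
  unfold fib wt
  refine lintegral_congr fun g => ?_
  simp only [Pi]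
  ring

instance : SigmaFinite 𝓕.zeta := by
  unfold zeta
  refine SigmaFinite.withDensity_of_ne_top ?_
  rw [𝓕.ae_lam (by
    have : MeasurableSet {z : X × CL G2 | (WC z.2)⁻¹ = ⊤} :=
      measurable_dens (measurableSet_singleton ⊤)
    exact this.compl)]
  filter_upwards with p
  rw [Ne, ENNReal.inv_eq_top]
  exact 𝓕.WC_ne_zero _ _

theorem ae_zeta {Q : X × CL G2 → Prop} (hQ : MeasurableSet {z | Q z}) :
    (∀ᵐ z ∂𝓕.zeta, Q z) ↔ ∀ᵐ p ∂(μ.prod kq2), Q (𝓕.Pi p) := by
  rw [← 𝓕.ae_lam hQ]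
  constructor
  · intro h
    have h1 : 𝓕.lam ≪ 𝓕.zeta := by
      unfold zeta
      refine withDensity_absolutelyContinuous' measurable_dens.aemeasurable ?_
      rw [𝓕.ae_lam (by
        have : MeasurableSet {z : X × CL G2 | (WC z.2)⁻¹ = 0} :=
          measurable_dens (measurableSet_singleton 0)
        exact this.compl)]
      have h2 : ∀ᵐ p ∂(μ.prod kq2), ∀ g, WC (𝓕.co p.1 g) ≠ ⊤ :=
        Measure.quasiMeasurePreserving_fst.ae 𝓕.WC_fin
      filter_upwards [h2] with p hp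
      rw [Ne, ENNReal.inv_eq_zero]
      exact hp _
    exact h1.ae_le h
  · intro h
    have h1 : 𝓕.zeta ≪ 𝓕.lam := withDensity_absolutelyContinuous _ _
    exact h1.ae_le h

/-- The left action on the space of cosets. -/
noncomputable def left : PAct G2 𝓕.zeta where
  τ γ z := (𝓕.A.τ γ z.1, lC γ z.2)
  one z := by rw [𝓕.A.one, lC_one]
  mul g h z := by rw [𝓕.A.mul, lC_mul]
  meas := by
    have h1 : Measurable (fun p : G2 × (X × CL G2) => (p.1, p.2.1)) :=
      measurable_fst.prodMk (measurable_fst.comp measurable_snd)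
    have h2 : Measurable (fun p : G2 × (X × CL G2) => (p.1, p.2.2)) :=
      measurable_fst.prodMk (measurable_snd.comp measurable_snd)
    exact (𝓕.A.meas.comp h1).prodMk (measurable_lC.comp h2)
  mp γ := by
    have hm : Measurable (fun z : X × CL G2 => (𝓕.A.τ γ z.1, lC γ z.2)) := by
      have h2 : Measurable (fun C : CL G2 => (γ, C)) := measurable_const.prodMk measurable_id
      exact ((𝓕.A.meas_g γ).comp measurable_fst).prodMk
        ((measurable_lC.comp h2).comp measurable_snd)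
    refine ⟨hm, ?_⟩
    refine Measure.ext fun s hs => ?_
    have hi : Measurable (s.indicator (1 : X × CL G2 → ENNReal)) := measurable_one.indicator hs
    rw [Measure.map_apply hm hs, ← lintegral_indicator_one (hm hs), ← lintegral_indicator_one hs,
      𝓕.lintegral_zeta hi]
    have e : ((fun z : X × CL G2 => (𝓕.A.τ γ z.1, lC γ z.2)) ⁻¹' s).indicator
        (1 : X × CL G2 → ENNReal) = fun z => s.indicator 1 (𝓕.A.τ γ z.1, lC γ z.2) := rfl
    have hc : Measurable (fun z : X × CL G2 => s.indicator (1 : X × CL G2 → ENNReal)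
        (𝓕.A.τ γ z.1, lC γ z.2)) := hi.comp hm
    rw [e, 𝓕.lintegral_zeta hc, lintegral_congr_ae (𝓕.fib_left hi γ)]
    exact (𝓕.A.mp γ).lintegral_comp (𝓕.measurable_fib hi)

/-- The right action on the space of cosets. -/
noncomputable def right : PAct G2 𝓕.zeta where
  τ γ z := (z.1, rC γ z.2)
  one z := by rw [rC_one]
  mul g h z := by rw [rC_mul]
  meas := by
    have h2 : Measurable (fun p : G2 × (X × CL G2) => (p.1, p.2.2)) :=
      measurable_fst.prodMk (measurable_snd.comp measurable_snd)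
    exact (measurable_fst.comp measurable_snd).prodMk (measurable_rC.comp h2)
  mp γ := by
    have hm : Measurable (fun z : X × CL G2 => (z.1, rC γ z.2)) := by
      have h2 : Measurable (fun C : CL G2 => (γ, C)) := measurable_const.prodMk measurable_id
      exact measurable_fst.prodMk ((measurable_rC.comp h2).comp measurable_snd)
    refine ⟨hm, ?_⟩
    refine Measure.ext fun s hs => ?_
    have hi : Measurable (s.indicator (1 : X × CL G2 → ENNReal)) := measurable_one.indicator hs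
    rw [Measure.map_apply hm hs, ← lintegral_indicator_one (hm hs), ← lintegral_indicator_one hs,
      𝓕.lintegral_zeta hi]
    have e : ((fun z : X × CL G2 => (z.1, rC γ z.2)) ⁻¹' s).indicator
        (1 : X × CL G2 → ENNReal) = fun z => s.indicator 1 (z.1, rC γ z.2) := rfl
    have hc : Measurable (fun z : X × CL G2 => s.indicator (1 : X × CL G2 → ENNReal)
        (z.1, rC γ z.2)) := hi.comp hm
    rw [e, 𝓕.lintegral_zeta hc, lintegral_congr_ae (𝓕.fib_right hi γ)]

lemma left_right (g h : G2) (z : X × CL G2) :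
    𝓕.left.τ g (𝓕.right.τ h z) = 𝓕.right.τ h (𝓕.left.τ g z) := by
  change (𝓕.A.τ g z.1, lC g (rC h z.2)) = (𝓕.A.τ g z.1, rC h (lC g z.2))
  rw [lC_rC]

end Fld

end Pool.Agent.IRS
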