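import Mathlib
import Pool.Agent.IRS.Zs2

/-!
# Mass transport, ergodicity for functions with values in [0, ∞]

`mt`: Tonelli, then `x = g y` (`A.mp g`), `wt_inv`, Tonelli again, then `m2_inv`:
`∫_x ∫_g Ω (g⁻¹ x) wt x g = ∫_g ∫_y Ω y wt (g y) g = ∫_y Ω y ∫_g wt y g⁻¹ = ∫_y Ω y ∫_g wt y g`.

`erg_ennreal`: apply `erg_const 𝓕.A kq2 kq2_ne_zero kq2_left 𝓕.erg` to the bounded function
`x ↦ ((1 + u x)⁻¹).toReal`, which determines `u x`.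
-/

set_option autoImplicit false
set_option linter.unusedSectionVars false

namespace Pool.Agent.IRS

open MeasureTheory Set Filter Topology ENNReal

namespace Fld

variable {X : Type} [MeasurableSpace X] {μ : Measure X} [IsProbabilityMeasure μ] (𝓕 : Fld μ)

theorem mt {Ω : X → ENNReal} (hΩ : Measurable Ω) :
    ∫⁻ x, ∫⁻ g, Ω (𝓕.A.τ g⁻¹ x) * 𝓕.wt x g ∂m2 ∂μ = ∫⁻ y, Ω y * 𝓕.fib (fun _ => 1) y ∂μ := by
  have mA : Measurable (fun p : X × G2 => 𝓕.A.τ p.2⁻¹ p.1) :=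
    𝓕.A.meas.comp (measurable_snd.inv.prodMk measurable_fst)
  have m1 : Measurable (fun p : X × G2 => Ω (𝓕.A.τ p.2⁻¹ p.1) * 𝓕.wt p.1 p.2) :=
    (hΩ.comp mA).mul 𝓕.measurable_wt
  have e0 : ∫⁻ x, ∫⁻ g, Ω (𝓕.A.τ g⁻¹ x) * 𝓕.wt x g ∂m2 ∂μ
      = ∫⁻ g, ∫⁻ x, Ω (𝓕.A.τ g⁻¹ x) * 𝓕.wt x g ∂μ ∂m2 :=
    lintegral_lintegral_swap (f := fun x g => Ω (𝓕.A.τ g⁻¹ x) * 𝓕.wt x g) m1.aemeasurable
  rw [e0]
  have e1 : ∀ g : G2, ∫⁻ x, Ω (𝓕.A.τ g⁻¹ x) * 𝓕.wt x g ∂μ = ∫⁻ y, Ω y * 𝓕.wt y g⁻¹ ∂μ := by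
    intro g
    have h1 : Measurable (fun x : X => (x, g)) := measurable_prodMk_right
    have h2' := m1.comp h1
    have h2 : Measurable (fun x => Ω (𝓕.A.τ g⁻¹ x) * 𝓕.wt x g) := h2'
    rw [← (𝓕.A.mp g).lintegral_comp h2]
    refine lintegral_congr fun y => ?_
    rw [𝓕.A.inv_apply, 𝓕.wt_inv]
  simp_rw [e1]
  have h3 : Measurable (fun p : X × G2 => (p.1, p.2⁻¹)) :=
    measurable_fst.prodMk measurable_snd.inv
  have m3' := 𝓕.measurable_wt.comp h3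
  have m3 : Measurable (fun p : X × G2 => Ω p.1 * 𝓕.wt p.1 p.2⁻¹) :=
    (hΩ.comp measurable_fst).mul m3'
  have e2 : ∫⁻ y, ∫⁻ g, Ω y * 𝓕.wt y g⁻¹ ∂m2 ∂μ = ∫⁻ g, ∫⁻ y, Ω y * 𝓕.wt y g⁻¹ ∂μ ∂m2 :=
    lintegral_lintegral_swap (f := fun y g => Ω y * 𝓕.wt y g⁻¹) m3.aemeasurable
  rw [← e2]
  refine lintegral_congr fun y => ?_
  have m4' := (𝓕.measurable_wt' y).comp (measurable_inv (G := G2))
  have m4 : Measurable (fun g : G2 => 𝓕.wt y g⁻¹) := m4'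
  rw [lintegral_const_mul _ m4]
  congr 1
  unfold fib
  simp only [one_mul]
  exact m2_inv.lintegral_comp (𝓕.measurable_wt' y)

theorem erg_ennreal {u : X → ENNReal} (hu : Measurable u)
    (hinv : ∀ g : G2, ∀ᵐ x ∂μ, u (𝓕.A.τ g x) = u x) : ∃ c, ∀ᵐ x ∂μ, u x = c := by
  set v : X → ℝ := fun x => ((1 + u x)⁻¹).toReal with hv
  have hvm : Measurable v := ((hu.const_add 1).inv).ennreal_toReal
  have hle : ∀ x, (1 + u x)⁻¹ ≤ 1 := fun x => ENNReal.inv_le_one.2 le_self_add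
  have hb : ∃ M, ∀ x, |v x| ≤ M := ⟨1, fun x => by
    rw [abs_of_nonneg ENNReal.toReal_nonneg]
    refine ENNReal.toReal_le_of_le_ofReal zero_le_one ?_
    rw [ENNReal.ofReal_one]
    exact hle x⟩
  have h := erg_const 𝓕.A kq2 kq2_ne_zero kq2_left 𝓕.erg v hvm hb (fun g => by
    filter_upwards [hinv g] with x hx
    simp only [hv, hx])
  refine ⟨(ENNReal.ofReal (∫ y, v y ∂μ))⁻¹ - 1, ?_⟩
  filter_upwards [h] with x hx
  rw [← hx]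
  have hne : (1 + u x)⁻¹ ≠ ⊤ := ((hle x).trans_lt one_lt_top).ne
  simp only [hv]
  rw [ENNReal.ofReal_toReal hne, inv_inv, ENNReal.add_sub_cancel_left one_ne_top]

theorem inf_or_fin : (∀ᵐ x ∂μ, 𝓕.fib (fun _ => 1) x = ⊤) ∨
    (∀ᵐ x ∂μ, 𝓕.fib (fun _ => 1) x ≠ ⊤) := by
  have h := 𝓕.erg_ennreal (u := 𝓕.fib (fun _ => 1)) (𝓕.measurable_fib measurable_const)
    (fun g => by
      filter_upwards [𝓕.fib_left (φ := fun _ => 1) measurable_const g] with x hx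
      exact hx.symm)
  obtain ⟨c, hc⟩ := h
  by_cases hct : c = ⊤
  · left
    filter_upwards [hc] with x hx
    rw [hx, hct]
  · right
    filter_upwards [hc] with x hx
    rw [hx]
    exact hct

end Fld

end Pool.Agent.IRS
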