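import Mathlib
import Pool.Agent.IRS.Mt

/-!
# No invariant square integrable functions when the covolume is infinite

PROOF.  Put `u z := min (w z ^ 2) 1` (as ENNReal-valued or real-valued function in `[0, 1]`), measurable,
left invariant a.e. for each `g`, `∫ u dzeta < ∞`.  Let `V (y, g) := u (Pi (A.τ g y, g))`.  For fixed `γ`:
`u (A.τ γ x, lC γ (co x g)) = u (x, co x g)` for a.e. `(x, g)` (`ae_zeta`), and `co_left`; the map
`(y, g) ↦ (A.τ g y, g)` preserves null sets of `μ.prod kq2` (for each `g` it preserves `μ`); hence for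
each `γ`, for a.e. `(y, g)`: `V (y, γ g) = V (y, g)`.  Fubini: for a.e. `y`, for a.e. `g`, for a.e. `γ`:
`V (y, γ g) = V (y, g)`; so `V (y, .)` is a.e. constant (`kq2_ae_right`), equal to
`Ω y := (kq2 univ)⁻¹ * ∫⁻ V (y, g) dkq2`.  So `u (Pi (x, g)) = Ω (A.τ g⁻¹ x)` for a.e. `(x, g)` and
`∞ > ∫ u dzeta = ∫_x ∫_g Ω (g⁻¹ x) wt x g = ∫ Ω y * ⊤ dμ` (`lintegral_zeta`, `mt`), so `Ω = 0` a.e.
(a measurable function with finite integral is finite a.e.), so `∫ u dzeta = 0` and `u = 0` a.e.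
-/

set_option autoImplicit false
set_option linter.unusedSectionVars false

namespace Pool.Agent.IRS

open MeasureTheory Set Filter Topology ENNReal

namespace Fld

variable {X : Type} [MeasurableSpace X] {μ : Measure X} [IsProbabilityMeasure μ] (𝓕 : Fld μ)

/-- Fubini for almost everywhere statements, moved along a family of quasi-invariant maps. -/
lemma ae_move {Q : X × G2 → Prop} (hQ : MeasurableSet {p | Q p})
    (h : ∀ᵐ p ∂(μ.prod kq2), Q p) (s : G2 → G2) (hs : Measurable s) :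
    ∀ᵐ p ∂(μ.prod kq2), Q (𝓕.A.τ (s p.2) p.1, p.2) := by
  have hS : Measurable (fun p : X × G2 => (𝓕.A.τ (s p.2) p.1, p.2)) :=
    (𝓕.A.meas.comp ((hs.comp measurable_snd).prodMk measurable_fst)).prodMk measurable_snd
  have h1 : ∀ᵐ x ∂μ, ∀ᵐ g ∂kq2, Q (x, g) := Measure.ae_ae_of_ae_prod h
  have h2 : ∀ᵐ g ∂kq2, ∀ᵐ x ∂μ, Q (x, g) :=
    (Measure.ae_ae_comm (μ := μ) (ν := kq2) (p := fun x g => Q (x, g)) hQ).1 h1
  have h3 : ∀ᵐ g ∂kq2, ∀ᵐ x ∂μ, Q (𝓕.A.τ (s g) x, g) := by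
    filter_upwards [h2] with g hg
    exact (𝓕.A.mp (s g)).quasiMeasurePreserving.ae hg
  have h4 : ∀ᵐ x ∂μ, ∀ᵐ g ∂kq2, Q (𝓕.A.τ (s g) x, g) :=
    (Measure.ae_ae_comm (μ := μ) (ν := kq2) (p := fun x g => Q (𝓕.A.τ (s g) x, g))
      (hS hQ)).2 h3
  exact (Measure.ae_prod_iff_ae_ae (hS hQ)).2 h4

theorem no_inv (hinf : ∀ᵐ x ∂μ, 𝓕.fib (fun _ => 1) x = ⊤) (w : X × CL G2 → ℝ)
    (hw : Measurable w) (hsq : Integrable (fun z => w z ^ 2) 𝓕.zeta)
    (hinv : ∀ g : G2, ∀ᵐ z ∂𝓕.zeta, w (𝓕.left.τ g z) = w z) : ∀ᵐ z ∂𝓕.zeta, w z = 0 := by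
  set u : X × CL G2 → ENNReal := fun z => min (ENNReal.ofReal (w z ^ 2)) 1 with hu
  have hum : Measurable u := ((hw.pow_const 2).ennreal_ofReal).min measurable_const
  have hfin : ∫⁻ z, u z ∂𝓕.zeta < ⊤ := by
    refine lt_of_le_of_lt (lintegral_mono fun z => min_le_left _ _) ?_
    exact hsq.lintegral_lt_top
  -- the function on the group
  set V : X × G2 → ENNReal := fun p => u (𝓕.Pi (𝓕.A.τ p.2 p.1, p.2)) with hV
  have hS : Measurable (fun p : X × G2 => (𝓕.A.τ p.2 p.1, p.2)) :=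
    (𝓕.A.meas.comp (measurable_snd.prodMk measurable_fst)).prodMk measurable_snd
  have hVm : Measurable V := hum.comp (𝓕.measurable_Pi.comp hS)
  have hVinv : ∀ γ : G2, ∀ᵐ p ∂(μ.prod kq2), V (p.1, γ * p.2) = V p := by
    intro γ
    have hset : MeasurableSet {z : X × CL G2 | u (𝓕.left.τ γ z) = u z} :=
      measurableSet_eq_fun (hum.comp (𝓕.left.meas_g γ)) hum
    have h1 : ∀ᵐ z ∂𝓕.zeta, u (𝓕.left.τ γ z) = u z := by
      filter_upwards [hinv γ] with z hz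
      simp only [hu, hz]
    have h2 := (𝓕.ae_zeta hset).1 h1
    have hset2 : MeasurableSet {p : X × G2 | u (𝓕.left.τ γ (𝓕.Pi p)) = u (𝓕.Pi p)} :=
      𝓕.measurable_Pi hset
    have h3 := 𝓕.ae_move hset2 h2 (fun g => g) measurable_id
    filter_upwards [h3] with p hp
    have e1 : 𝓕.left.τ γ (𝓕.Pi (𝓕.A.τ p.2 p.1, p.2))
        = 𝓕.Pi (𝓕.A.τ (γ * p.2) p.1, γ * p.2) := by
      change (𝓕.A.τ γ (𝓕.A.τ p.2 p.1), lC γ (𝓕.co (𝓕.A.τ p.2 p.1) p.2))
        = (𝓕.A.τ (γ * p.2) p.1, 𝓕.co (𝓕.A.τ (γ * p.2) p.1) (γ * p.2))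
      rw [𝓕.A.mul, 𝓕.co_left]
    rw [e1] at hp
    exact hp
  -- it is constant on the fibres
  have hconst : ∀ᵐ y ∂μ, ∃ c, ∀ᵐ g ∂kq2, V (y, g) = c := by
    have m1 : Measurable (fun q : G2 × (X × G2) => V (q.2.1, q.1 * q.2.2)) := by
      have h1 : Measurable (fun q : G2 × (X × G2) => (q.2.1, q.1 * q.2.2)) :=
        (measurable_fst.comp measurable_snd).prodMk
          (measurable_fst.mul (measurable_snd.comp measurable_snd))
      exact hVm.comp h1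
    have m2' : Measurable (fun q : G2 × (X × G2) => V q.2) := hVm.comp measurable_snd
    have h1 : ∀ᵐ γ ∂kq2, ∀ᵐ p ∂(μ.prod kq2), V (p.1, γ * p.2) = V p := by
      filter_upwards with γ
      exact hVinv γ
    have h2 : ∀ᵐ p ∂(μ.prod kq2), ∀ᵐ γ ∂kq2, V (p.1, γ * p.2) = V p :=
      (Measure.ae_ae_comm (μ := kq2) (ν := μ.prod kq2) (p := fun γ p => V (p.1, γ * p.2) = V p)
        (measurableSet_eq_fun m1 m2')).1 h1
    have h3 : ∀ᵐ y ∂μ, ∀ᵐ g ∂kq2, ∀ᵐ γ ∂kq2, V (y, γ * g) = V (y, g) :=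
      Measure.ae_ae_of_ae_prod h2
    filter_upwards [h3] with y hy
    have hne : (ae kq2).NeBot := ae_neBot.2 kq2_ne_zero
    obtain ⟨g, hg⟩ := hy.exists
    refine ⟨V (y, g), ?_⟩
    have h4 := kq2_ae_right g⁻¹ hg
    filter_upwards [h4] with γ h5
    rwa [inv_mul_cancel_right] at h5
  set Ω : X → ENNReal := fun y => (kq2 univ)⁻¹ * ∫⁻ g, V (y, g) ∂kq2 with hΩ
  have hΩm : Measurable Ω := (hVm.lintegral_prod_right').const_mul _
  have hk0 : kq2 univ ≠ 0 := by rw [Ne, Measure.measure_univ_eq_zero]; exact kq2_ne_zero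
  have hkt : kq2 univ ≠ ⊤ := measure_ne_top _ _
  have hVΩ : ∀ᵐ y ∂μ, ∀ᵐ g ∂kq2, V (y, g) = Ω y := by
    filter_upwards [hconst] with y ⟨c, hc⟩
    have h1 : Ω y = c := by
      simp only [hΩ]
      rw [lintegral_congr_ae hc, lintegral_const, mul_comm c, ← mul_assoc,
        ENNReal.inv_mul_cancel hk0 hkt, one_mul]
    rw [h1]
    exact hc
  have hsetV : MeasurableSet {p : X × G2 | V p = Ω p.1} :=
    measurableSet_eq_fun hVm (hΩm.comp measurable_fst)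
  have h5 : ∀ᵐ p ∂(μ.prod kq2), V p = Ω p.1 := (Measure.ae_prod_iff_ae_ae hsetV).2 hVΩ
  have h6 : ∀ᵐ p ∂(μ.prod kq2), u (𝓕.Pi p) = Ω (𝓕.A.τ p.2⁻¹ p.1) := by
    have h7 := 𝓕.ae_move hsetV h5 (fun g => g⁻¹) measurable_inv
    filter_upwards [h7] with p hp
    have e1 : V (𝓕.A.τ p.2⁻¹ p.1, p.2) = u (𝓕.Pi p) := by
      change u (𝓕.Pi (𝓕.A.τ p.2 (𝓕.A.τ p.2⁻¹ p.1), p.2)) = u (𝓕.Pi p)
      rw [𝓕.A.apply_inv]
    rw [← e1]
    exact hp
  -- the integral of u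
  have h8 : ∫⁻ z, u z ∂𝓕.zeta = ∫⁻ y, Ω y * 𝓕.fib (fun _ => 1) y ∂μ := by
    rw [𝓕.lintegral_zeta hum, ← 𝓕.mt hΩm]
    refine lintegral_congr_ae ?_
    filter_upwards [Measure.ae_ae_of_ae_prod h6] with x hx
    unfold fib
    refine lintegral_congr_ae ?_
    filter_upwards [m2_ac_kq2.ae_le hx] with g hg
    have e2 : u (x, 𝓕.co x g) = Ω (𝓕.A.τ g⁻¹ x) := hg
    rw [e2]
  have h9 : ∫⁻ y, Ω y * ⊤ ∂μ = ∫⁻ z, u z ∂𝓕.zeta := by
    rw [h8]
    refine lintegral_congr_ae ?_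
    filter_upwards [hinf] with y hy
    rw [hy]
  have h10 : ∀ᵐ y ∂μ, Ω y = 0 := by
    have h11 := ae_lt_top (hΩm.mul_const ⊤) (μ := μ) (by rw [h9]; exact hfin.ne)
    filter_upwards [h11] with y hy
    by_contra hne
    rw [ENNReal.mul_top hne] at hy
    exact lt_irrefl _ hy
  have h12 : ∫⁻ z, u z ∂𝓕.zeta = 0 := by
    rw [← h9, lintegral_eq_zero_iff (hΩm.mul_const ⊤)]
    filter_upwards [h10] with y hy
    rw [hy, zero_mul]
    rfl
  rw [lintegral_eq_zero_iff hum] at h12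
  filter_upwards [h12] with z hz
  have h13 : min (ENNReal.ofReal (w z ^ 2)) 1 = 0 := hz
  rcases min_eq_iff.1 h13 with h14 | h14
  · have h15 := ENNReal.ofReal_eq_zero.1 h14.1
    exact pow_eq_zero_iff two_ne_zero |>.1 (le_antisymm h15 (sq_nonneg _))
  · exact absurd h14.1 one_ne_zero

end Fld

end Pool.Agent.IRS
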