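import Mathlib

/-!
# The choice of a good dyadic scale
-/

set_option autoImplicit false

namespace Pool.Agent.IRS

open Finset Filter Topology

/-- Telescoping with dyadic blocks. -/
lemma dyad_tele (e N : ℕ → ℝ) (he : Antitone e) (hdrop : ∀ s, N s - N (s + 1) ≤ 2 * e s) (K : ℕ) :
    N 0 - N (2 ^ K) ≤ 2 * (e 0 + ∑ k ∈ range K, 2 ^ k * e (2 ^ k)) := by
  have hblock : ∀ s n : ℕ, N s - N (s + n) ≤ 2 * (n * e s) := by
    intro s n
    induction n with
    | zero => simp
    | succ n ih =>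
      have h1 := hdrop (s + n)
      have h2 := he (show s ≤ s + n by omega)
      push_cast
      rw [← add_assoc]
      linarith
  induction K with
  | zero =>
    have := hdrop 0
    simpa using this
  | succ K ih =>
    rw [sum_range_succ]
    have h1 := hblock (2 ^ K) (2 ^ K)
    rw [← two_mul, ← pow_succ'] at h1
    push_cast at h1
    linarith

/-- A good scale. -/
theorem dyadic (e N : ℕ → ℝ) (he : Antitone e) (hpos : ∀ s, 0 ≤ e s)
    (hdrop : ∀ s, N s - N (s + 1) ≤ 2 * e s) (hlim : Tendsto N atTop (𝓝 0))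
    {n0 : ℝ} (hn0 : 0 < n0) (h0 : n0 ≤ N 0) {β : ℝ} (hβ : 1 / 8 ≤ β) (hβ' : β < 1 / 2)
    (k0 : ℕ) {η : ℝ} (hη0 : e 0 ≤ η) (hη1 : 2 ^ (k0 + 2) * η ≤ n0 / 16)
    (hη2 : η ≤ n0 * (1 - 2 * β) / 16 * β ^ (k0 + 1)) :
    ∃ k, k0 + 1 ≤ k ∧ e (2 ^ (k - 1)) ≤ 64 * e (2 ^ (k + 1)) ∧
      n0 * (1 - 2 * β) / 16 * β ^ (k + 1) ≤ e (2 ^ (k + 1)) := by
  by_contra hcon
  push Not at hcon
  set c := n0 * (1 - 2 * β) / 16 with hc
  have hb : 0 < 1 - 2 * β := by linarith
  have hc0 : 0 < c := by positivity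
  have hβ0 : 0 < β := by linarith
  -- the bound on all scales
  have hall : ∀ k, k0 ≤ k → e (2 ^ k) ≤ c * β ^ k ∧ e (2 ^ (k + 1)) ≤ c * β ^ (k + 1) := by
    intro k hk
    induction k, hk using Nat.le_induction with
    | base =>
      have h1 : e (2 ^ k0) ≤ e 0 := he (Nat.zero_le _)
      have h2 : e (2 ^ (k0 + 1)) ≤ e 0 := he (Nat.zero_le _)
      have h3 : c * β ^ (k0 + 1) ≤ c * β ^ k0 := by
        rw [pow_succ]
        have : 0 < β ^ k0 := by positivity
        nlinarith [mul_pos hc0 this]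
      exact ⟨by linarith, by linarith⟩
    | succ k hk ih =>
      refine ⟨ih.2, ?_⟩
      by_contra h1
      push Not at h1
      have h2 : c * β ^ (k + 1 + 1) ≤ e (2 ^ (k + 1 + 1)) := h1.le
      have h3 : ¬ e (2 ^ (k + 1 - 1)) ≤ 64 * e (2 ^ (k + 1 + 1)) := by
        intro h4
        exact absurd h2 (not_le.2 (hcon (k + 1) (by omega) h4))
      rw [Nat.add_sub_cancel] at h3
      push Not at h3
      have h5 := ih.1
      have h6 : 64 * (c * β ^ (k + 1 + 1)) < c * β ^ k := by linarith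
      have h7 : β ^ (k + 1 + 1) = β ^ k * β ^ 2 := by rw [add_assoc, pow_add]
      have h8 : 0 < c * β ^ k := by positivity
      have h9 : 1 / 64 ≤ β ^ 2 := by nlinarith
      rw [h7] at h6
      nlinarith
  -- the geometric sum
  have hgeo : ∀ n : ℕ, ∑ k ∈ range n, (2 * β) ^ k ≤ 1 / (1 - 2 * β) := by
    intro n
    rw [geom_sum_eq (by linarith), ← neg_div_neg_eq, neg_sub, neg_sub]
    gcongr
    have : 0 ≤ (2 * β) ^ n := by positivity
    linarith
  have hsum : ∀ K : ℕ, ∑ k ∈ range K, 2 ^ k * e (2 ^ k) ≤ 2 ^ k0 * η + c / (1 - 2 * β) := by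
    intro K
    have hle : ∀ k, 2 ^ k * e (2 ^ k) ≤ (if k < k0 then 2 ^ k * η else 0) + c * (2 * β) ^ k := by
      intro k
      split_ifs with h
      · have h1 : e (2 ^ k) ≤ η := (he (Nat.zero_le _)).trans hη0
        have h2 : (0 : ℝ) ≤ c * (2 * β) ^ k := by positivity
        have h3 : (2 : ℝ) ^ k * e (2 ^ k) ≤ 2 ^ k * η := by gcongr
        linarith
      · have h1 := (hall k (by omega)).1
        rw [zero_add]
        calc (2 : ℝ) ^ k * e (2 ^ k) ≤ 2 ^ k * (c * β ^ k) := by gcongr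
          _ = c * (2 * β) ^ k := by rw [mul_pow]; ring
    refine (sum_le_sum fun k _ => hle k).trans ?_
    rw [sum_add_distrib, ← mul_sum]
    have hη : 0 ≤ η := (hpos 0).trans hη0
    have h1 : ∑ k ∈ range K, (if k < k0 then (2 : ℝ) ^ k * η else 0) ≤ 2 ^ k0 * η := by
      rw [← sum_filter]
      have h2 : ∑ k ∈ (range K).filter (· < k0), (2 : ℝ) ^ k * η
          ≤ ∑ k ∈ range k0, (2 : ℝ) ^ k * η := by
        refine sum_le_sum_of_subset_of_nonneg ?_ fun k _ _ => by positivity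
        intro k hk
        exact mem_range.2 (mem_filter.1 hk).2
      refine h2.trans ?_
      rw [← sum_mul]
      refine mul_le_mul_of_nonneg_right ?_ hη
      rw [geom_sum_eq (by norm_num)]
      norm_num
    have h3 : c * ∑ k ∈ range K, (2 * β) ^ k ≤ c / (1 - 2 * β) := by
      rw [div_eq_mul_one_div]
      exact mul_le_mul_of_nonneg_left (hgeo K) hc0.le
    linarith
  have hc2 : c / (1 - 2 * β) = n0 / 16 := by rw [hc]; field_simp
  have htot : ∀ K : ℕ, N 0 - N (2 ^ K) ≤ n0 / 2 := by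
    intro K
    have h1 := dyad_tele e N he hdrop K
    have h2 := hsum K
    rw [hc2] at h2
    have h3 : (2 : ℝ) ^ (k0 + 2) * η = 4 * (2 ^ k0 * η) := by rw [pow_add]; ring
    have hη : 0 ≤ η := (hpos 0).trans hη0
    have h5 : η ≤ 2 ^ k0 * η := by
      have : (1 : ℝ) ≤ 2 ^ k0 := one_le_pow₀ (by norm_num)
      nlinarith
    linarith
  have hlim2 : Tendsto (fun K : ℕ => N (2 ^ K)) atTop (𝓝 0) :=
    hlim.comp (tendsto_pow_atTop_atTop_of_one_lt (by norm_num))
  have hlim3 : Tendsto (fun K : ℕ => N 0 - N (2 ^ K)) atTop (𝓝 (N 0 - 0)) :=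
    tendsto_const_nhds.sub hlim2
  have := le_of_tendsto hlim3 (Eventually.of_forall htot)
  linarith

end Pool.Agent.IRS
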