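import Mathlib
import Pool.Agent.IRS.Bnd

/-!
# Integrated bounds
-/

set_option autoImplicit false

namespace Pool.Agent.IRS

open MeasureTheory Matrix

section act

variable {Z : Type*} [MeasurableSpace Z] {ζ : Measure Z} [SigmaFinite ζ] (a : PAct SL2R ζ)

lemma dsq_prod_int (R : ℝ) (W : BL2 ζ) :
    Integrable (fun p : SL2R × Z => ((W : Z → ℝ) (a.τ p.1 p.2) - (W : Z → ℝ) p.2) ^ 2)
      ((mR R).prod ζ) := by
  have h1 := a.sq_prod_int (mR R) W
  have h2 : Integrable (fun p : SL2R × Z => (W : Z → ℝ) p.2 ^ 2) ((mR R).prod ζ) :=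
    (bsq W).comp_snd _
  have h3 := (a.mul_prod_int (mR R) W W).const_mul (-2)
  have h4 := (h1.add h2).add h3
  refine h4.congr ?_
  filter_upwards with p
  simp only [Pi.add_apply]
  ring

lemma JJ_integrable (R : ℝ) (W : BL2 ζ) : Integrable (JJ a R W) ζ :=
  (dsq_prod_int a R W).integral_prod_right

omit [SigmaFinite ζ] in
lemma JJ_nonneg (R : ℝ) (W : BL2 ζ) (z : Z) : 0 ≤ JJ a R W z :=
  integral_nonneg fun _ => sq_nonneg _

lemma JJ_integral_le {R : ℝ} (W : BL2 ζ) {S : ℝ}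
    (hS : ∀ k : SL2R, nS k ≤ R → a.ψ W k ≤ S) :
    ∫ z, JJ a R W z ∂ζ ≤ mH.real {g | nS g ≤ R} * S ^ 2 := by
  have h1 : ∫ z, JJ a R W z ∂ζ = ∫ k, a.ψ W k ^ 2 ∂(mR R) := by
    unfold JJ
    rw [← integral_integral_swap (dsq_prod_int a R W)]
    congr 1; ext k
    unfold PAct.ψ
    rw [nrm_sq_eq]
    rfl
  rw [h1]
  calc ∫ k, a.ψ W k ^ 2 ∂(mR R) ≤ ∫ _ : SL2R, S ^ 2 ∂(mR R) := by
        refine integral_mono_of_nonneg (by filter_upwards with k; positivity)
          (integrable_const _) ?_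
        filter_upwards [mR_ae R] with k hk
        exact pow_le_pow_left₀ (a.ψ_nonneg W k) (hS k hk) 2
    _ = mH.real {g | nS g ≤ R} * S ^ 2 := by
        rw [integral_const, smul_eq_mul, mR_univ]

/-- Displacement of an average. -/
lemma psi_A_log (f : BL2 ζ) (u : SL2R) :
    a.ψ (a.A nuM f) u ≤ 1470 * (1 + Real.log (nS u)) * √(8 * CC * a.E nuM f) := by
  have hs : 0 ≤ √(8 * CC * a.E nuM f) := Real.sqrt_nonneg _
  have hu : 2 ≤ nS u := two_le_nS u
  have hlu : 0 ≤ Real.log (nS u) := Real.log_nonneg (by linarith)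
  have hl10 : Real.log 10 ≤ 2.5 := by
    have h1 : Real.log 10 ≤ Real.log (2 ^ 3 * (5/4)) := Real.log_le_log (by norm_num) (by norm_num)
    rw [Real.log_mul (by norm_num) (by norm_num), Real.log_pow] at h1
    have h2 : Real.log (5/4) ≤ 5/4 - 1 := Real.log_le_sub_one_of_pos (by norm_num)
    have h3 := Real.log_two_lt_d9
    norm_num at h1 h2
    linarith
  refine a.ψ_A_le nuM f u (by positivity) ?_
  have h0 : ∀ᵐ g ∂nuM, nS g ≤ 10 := by
    unfold nuM
    rw [ae_withDensity_iff (measurable_rho.ennreal_ofReal)]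
    filter_upwards with g hg
    by_contra hcon
    push Not at hcon
    exact hg (by rw [rho_zero hcon.le, ENNReal.ofReal_zero])
  filter_upwards [h0] with g hg
  have h1 := psi_log a f (g * u)
  have h2 := psi_log a f g
  have h3 : Real.log (nS (g * u)) ≤ Real.log 10 + Real.log (nS u) := by
    rw [← Real.log_mul (by norm_num) (by linarith)]
    refine Real.log_le_log (nS_pos _) ?_
    refine (nS_mul_le _ _).trans ?_
    nlinarith
  have h4 : Real.log (nS g) ≤ Real.log 10 := Real.log_le_log (nS_pos _) hg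
  have h5 : 210 * (1 + Real.log (nS (g * u))) + 210 * (1 + Real.log (nS g))
      ≤ 1470 * (1 + Real.log (nS u)) := by linarith
  nlinarith

/-- The energy is controlled by the unipotent displacements. -/
lemma E_le_unip (F : BL2 ζ) {M : ℝ} (hu : ∀ x : ℝ, |x| ≤ 1 → a.ψ F (uu x) ≤ M)
    (hv : ∀ x : ℝ, |x| ≤ 1 → a.ψ F (vv x) ≤ M) : a.E nuM F ≤ 1100000 * M ^ 2 := by
  have hM : 0 ≤ M := (a.ψ_nonneg F _).trans (hu 0 (by simp))
  have hsub : SubLen (a.ψ F) M :=
    { nonneg := a.ψ_nonneg F, mul := a.ψ_mul_le F, inv := a.ψ_inv F, uu := hu, vv := hv }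
  have hl10 : Real.log 10 ≤ 2.5 := by
    have h1 : Real.log 10 ≤ Real.log (2 ^ 3 * (5/4)) := Real.log_le_log (by norm_num) (by norm_num)
    rw [Real.log_mul (by norm_num) (by norm_num), Real.log_pow] at h1
    have h2 : Real.log (5/4) ≤ 5/4 - 1 := Real.log_le_sub_one_of_pos (by norm_num)
    have h3 := Real.log_two_lt_d9
    norm_num at h1 h2
    linarith
  have h0 : ∀ᵐ g ∂nuM, nS g ≤ 10 := by
    unfold nuM
    rw [ae_withDensity_iff (measurable_rho.ennreal_ofReal)]
    filter_upwards with g hg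
    by_contra hcon
    push Not at hcon
    exact hg (by rw [rho_zero hcon.le, ENNReal.ofReal_zero])
  have h1 : ∀ᵐ g ∂nuM, a.ψ F g ≤ 735 * M := by
    filter_upwards [h0] with g hg
    refine (hsub.le_log g).trans ?_
    refine mul_le_mul_of_nonneg_right ?_ hM
    have h4 : Real.log (nS g) ≤ Real.log 10 := Real.log_le_log (nS_pos _) hg
    linarith
  refine (a.E_le nuM F h1).trans ?_
  nlinarith [sq_nonneg M]

end act

end Pool.Agent.IRS
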