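import Mathlib
import Pool.Agent.IRS.Int

/-!
# The return estimate
-/

set_option autoImplicit false
set_option linter.unusedVariables false

namespace Pool.Agent.IRS

open MeasureTheory Matrix

lemma CPair.ea_Qy_le {V : Type*} [AddCommGroup V] [Module ℝ V] {F : PSForm V}
    {P Q : Module.End ℝ V} (h : CPair F P Q) (y : V) : ea F P (Q y) ≤ ea F P y := by
  have h1 := (h.good_P' (h.good_Q' good_one)).1.nonneg y
  have h2 := (h.good_P' (h.good_Q (h.good_Q' good_one))).1.nonneg y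
  simp only [ea, map_sub, LinearMap.sub_apply, Module.End.one_apply,
    Module.End.mul_apply, h.rQ, h.cPQ] at h1 h2 ⊢
  linarith

lemma sq3 (A B C : ℝ) : (A - B + C) ^ 2 ≤ 3 * (A ^ 2 + B ^ 2 + C ^ 2) := by
  nlinarith [sq_nonneg (A + B), sq_nonneg (A - C), sq_nonneg (B + C)]

lemma sq3' (A B C : ℝ) : (A - B - C) ^ 2 ≤ 3 * (A ^ 2 + B ^ 2 + C ^ 2) := by
  nlinarith [sq_nonneg (A + B), sq_nonneg (A + C), sq_nonneg (B - C)]

lemma sq2 (A B : ℝ) : (A - B) ^ 2 ≤ 2 * (A ^ 2 + B ^ 2) := by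
  nlinarith [sq_nonneg (A + B)]

section act

variable {Z : Type*} [MeasurableSpace Z] {ζ : Measure Z} [SigmaFinite ζ] (a b : PAct SL2R ζ)

/-- Many returns at the point `z`. -/
def Ret (ε T : ℝ) (z : Z) : Prop :=
  ∀ X : SL2R, nS X ≤ 3 → ∃ h1 h2 : SL2R, a.τ h1 z = b.τ h2 z ∧
    nM ((h1 : Matrix (Fin 2) (Fin 2) ℝ) - X) ≤ ε ∧ nS h2 ≤ T

/-- Numerical constant. -/
noncomputable def K1 : ℝ := (kap * 120) ^ 2 * (16 * 120 ^ 4)

lemma K1_nonneg : 0 ≤ K1 := by unfold K1; positivity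

lemma nS_one : nS (1 : SL2R) = 2 := by
  have : (1 : SL2R) = uu 0 := uu_zero.symm
  rw [this, nS_uu]; simp

variable {a b} (hab : ∀ g h z, a.τ g (b.τ h z) = b.τ h (a.τ g z))
include hab

/-- The first function. -/
noncomputable def W1 (a b : PAct SL2R ζ) (f : BL2 ζ) : BL2 ζ := a.A nuM (b.P nuM f)

/-- The second function. -/
noncomputable def W2 (a b : PAct SL2R ζ) (f : BL2 ζ) (k : SL2R) : BL2 ζ :=
  b.A nuM (a.T k (a.P nuM f) - a.P nuM f)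

omit hab in
lemma F_eq1 (f : BL2 ζ) : a.P nuM (b.P nuM f) = a.A (nui nuM) (W1 a b f) := rfl

lemma F_eq2 (f : BL2 ζ) (k : SL2R) :
    a.T k (a.P nuM (b.P nuM f)) - a.P nuM (b.P nuM f) = b.A (nui nuM) (W2 a b f k) := by
  have hba : ∀ g h z, b.τ g (a.τ h z) = a.τ h (b.τ g z) := fun g h z => (hab h g z).symm
  have hc := (PAct.P_comm nuM hab)
  have h8 := congrArg (fun A : Module.End ℝ (BL2 ζ) => A f) hc.eq
  simp only [Module.End.mul_apply] at h8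
  rw [h8]
  unfold W2
  rw [← b.P_apply, map_sub, PAct.P_T_comm nuM hba]

/-- The second difference at a point with returns. -/
lemma second_diff (f : BL2 ζ) {ε T : ℝ} (hε0 : 0 ≤ ε) (hε : ε ≤ 1) (hT : 2 ≤ T) {z : Z}
    (hz : Ret a b ε T z) {k x : SL2R} (hk : nS k ≤ 3) (hx : nS x ≤ 3) :
    (((a.P nuM (b.P nuM f) : BL2 ζ) : Z → ℝ) (a.τ k (a.τ x z))
      - ((a.P nuM (b.P nuM f) : BL2 ζ) : Z → ℝ) (a.τ x z)
      - ((a.P nuM (b.P nuM f) : BL2 ζ) : Z → ℝ) (a.τ k z)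
      + ((a.P nuM (b.P nuM f) : BL2 ζ) : Z → ℝ) z) ^ 2
    ≤ 3 * (10 * K1 * ε ^ 2 * JJ a 120 (W1 a b f) z
      + 40 * kap * JJ b (10 * T) (W2 a b f k) z) := by
  obtain ⟨h1, h2, hret, hh1, hh2⟩ := hz x hx
  set F : BL2 ζ := a.P nuM (b.P nuM f) with hF
  have e1 : F = a.A (nui nuM) (W1 a b f) := F_eq1 f
  have e2 : a.T k F - F = b.A (nui nuM) (W2 a b f k) := F_eq2 hab f k
  have nh1 : nS h1 ≤ 4 := by
    have := nM_sub_le (h1 : Matrix (Fin 2) (Fin 2) ℝ) x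
    have hx' : nM (x : Matrix (Fin 2) (Fin 2) ℝ) ≤ 3 := hx
    change nM (h1 : Matrix (Fin 2) (Fin 2) ℝ) ≤ 4
    linarith
  have nkx : nS (k * x) ≤ 12 := (nS_mul_le _ _).trans (by nlinarith [nS_pos k, nS_pos x])
  have nkh : nS (k * h1) ≤ 12 := (nS_mul_le _ _).trans (by nlinarith [nS_pos k, nS_pos h1])
  have nd : nM (((k * x : SL2R) : Matrix (Fin 2) (Fin 2) ℝ)
      - ((k * h1 : SL2R) : Matrix (Fin 2) (Fin 2) ℝ)) ≤ 3 * ε := by
    rw [Matrix.SpecialLinearGroup.coe_mul, Matrix.SpecialLinearGroup.coe_mul, ← Matrix.mul_sub]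
    refine (nM_mul_le _ _).trans ?_
    rw [nM_sub_comm]
    exact mul_le_mul hk hh1 (nM_nonneg _) (by norm_num)
  have nd' : nM ((x : Matrix (Fin 2) (Fin 2) ℝ) - (h1 : Matrix (Fin 2) (Fin 2) ℝ)) ≤ ε := by
    rw [nM_sub_comm]; exact hh1
  have A1 := near_bound a (W1 a b f) nkx nkh nd z
  have A2 := near_bound a (W1 a b f) (g := x) (g' := h1) (R := 12) (by linarith) (by linarith)
    nd' z
  rw [← e1] at A1 A2
  rw [show (10 : ℝ) * 12 = 120 by norm_num] at A1 A2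
  have A3 := far_bound b (W2 a b f k) hh2 z ((W2 a b f k : Z → ℝ) z)
  have A4 := far_bound b (W2 a b f k) (g := 1) (T := T) (by rw [nS_one]; exact hT) z
    ((W2 a b f k : Z → ℝ) z)
  rw [← e2] at A3 A4
  rw [b.one] at A4
  have hJ2 : ∫ k', ((W2 a b f k : Z → ℝ) (b.τ k' z) - (W2 a b f k : Z → ℝ) z) ^ 2 ∂(mR (10 * T))
      = JJ b (10 * T) (W2 a b f k) z := rfl
  rw [hJ2] at A3 A4
  have hD : ∀ z', ((a.T k F - F : BL2 ζ) : Z → ℝ) z'
      = (F : Z → ℝ) (a.τ k z') - (F : Z → ℝ) z' := fun z' => rfl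
  rw [hD] at A3 A4
  rw [a.mul] at A1
  rw [a.mul] at A1
  rw [hret] at A1 A2
  set J1 := JJ a 120 (W1 a b f) z with hJ1
  set J2 := JJ b (10 * T) (W2 a b f k) z with hJ2'
  set u1 := (F : Z → ℝ) (a.τ k (a.τ x z))
  set u2 := (F : Z → ℝ) (a.τ k (b.τ h2 z))
  set u3 := (F : Z → ℝ) (a.τ x z)
  set u4 := (F : Z → ℝ) (b.τ h2 z)
  set u5 := (F : Z → ℝ) (a.τ k z)
  set u6 := (F : Z → ℝ) z
  set c := (W2 a b f k : Z → ℝ) z
  have B1 : (u1 - u2) ^ 2 ≤ 9 * K1 * ε ^ 2 * J1 := by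
    refine A1.trans (le_of_eq ?_); unfold K1; ring
  have B2 : (u3 - u4) ^ 2 ≤ K1 * ε ^ 2 * J1 := by
    refine A2.trans (le_of_eq ?_); unfold K1; ring
  have e3 : u1 - u3 - u5 + u6 = (u1 - u2) - (u3 - u4) + ((u2 - u4 - c) - (u5 - u6 - c)) := by ring
  rw [e3]
  have B3 : ((u2 - u4 - c) - (u5 - u6 - c)) ^ 2 ≤ 40 * kap * J2 := by
    refine (sq2 _ _).trans ?_
    clear_value u1 u2 u3 u4 u5 u6 c J1 J2
    linarith
  refine (sq3 _ _ _).trans ?_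
  clear_value u1 u2 u3 u4 u5 u6 c J1 J2
  linarith

/-- The commutator trick. -/
lemma comm_diff (f : BL2 ζ) {ε T : ℝ} (hε0 : 0 ≤ ε) (hε : ε ≤ 1) (hT : 2 ≤ T) {z : Z}
    (hz : Ret a b ε T z) {c k x : SL2R} (hc : nS c ≤ 3) (hk : nS k ≤ 3) (hx : nS x ≤ 3)
    (hxk : nS (x * k) ≤ 3) (hcomm : c * (x * k) = k * x) :
    (((a.P nuM (b.P nuM f) : BL2 ζ) : Z → ℝ) (a.τ c z)
      - ((a.P nuM (b.P nuM f) : BL2 ζ) : Z → ℝ) z) ^ 2
    ≤ 9 * (30 * K1 * ε ^ 2 * JJ a 120 (W1 a b f) z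
      + 40 * kap * (JJ b (10 * T) (W2 a b f k) z + JJ b (10 * T) (W2 a b f x) z
        + JJ b (10 * T) (W2 a b f c) z)) := by
  have d1 := second_diff hab f hε0 hε hT hz hk hx
  have d2 := second_diff hab f hε0 hε hT hz hx hk
  have d3 := second_diff hab f hε0 hε hT hz hc hxk
  set F : BL2 ζ := a.P nuM (b.P nuM f) with hF
  have hm := a.mul
  simp only [← hm] at d1 d2 d3
  rw [hcomm] at d3
  set J1 := JJ a 120 (W1 a b f) z
  set J2 := JJ b (10 * T) (W2 a b f k) z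
  set J3 := JJ b (10 * T) (W2 a b f x) z
  set J4 := JJ b (10 * T) (W2 a b f c) z
  set u1 := (F : Z → ℝ) (a.τ (k * x) z)
  set u2 := (F : Z → ℝ) (a.τ (x * k) z)
  set u3 := (F : Z → ℝ) (a.τ x z)
  set u4 := (F : Z → ℝ) (a.τ k z)
  set u5 := (F : Z → ℝ) (a.τ c z)
  set u6 := (F : Z → ℝ) z
  have e : u5 - u6 = (u1 - u3 - u4 + u6) - (u2 - u4 - u3 + u6) - (u1 - u2 - u5 + u6) := by ring
  rw [e]
  set δ1 := u1 - u3 - u4 + u6
  set δ2 := u2 - u4 - u3 + u6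
  set δ3 := u1 - u2 - u5 + u6
  refine (sq3' _ _ _).trans ?_
  clear_value δ1 δ2 δ3 J1 J2 J3 J4
  linarith

end act

end Pool.Agent.IRS
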