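import Mathlib
import Pool.Agent.IRS.Zone

/-!
# The main inequality of one step
-/

set_option autoImplicit false
set_option linter.unusedVariables false

namespace Pool.Agent.IRS

open MeasureTheory Matrix

section act

variable {Z : Type*} [MeasurableSpace Z] {ζ : Measure Z} [SigmaFinite ζ] {a b : PAct SL2R ζ}
  (hab : ∀ g h z, a.τ g (b.τ h z) = b.τ h (a.τ g z))
include hab

/-- The volume of the ball of radius `10 T`. -/
noncomputable def VT (T : ℝ) : ℝ := mH.real {g | nS g ≤ 10 * T}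

omit hab in
lemma VT_nonneg (T : ℝ) : 0 ≤ VT T := measureReal_nonneg

/-- Constants. -/
noncomputable def c1 : ℝ := mH.real {g : SL2R | nS g ≤ 120} * (1470 * (1 + Real.log 120)) ^ 2 * (8 * CC)
noncomputable def c2 : ℝ := (1470 * 3.5) ^ 2 * (8 * CC) * (8 * CC)

omit hab in
lemma c1_nonneg : 0 ≤ c1 := by
  unfold c1
  have : 0 ≤ mH.real {g : SL2R | nS g ≤ 120} := measureReal_nonneg
  positivity
omit hab in
lemma c2_nonneg : 0 ≤ c2 := by unfold c2; positivity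

lemma J1_le (f : BL2 ζ) : ∫ z, JJ a 120 (W1 a b f) z ∂ζ ≤ c1 * a.E nuM f := by
  have h1 : ∀ k : SL2R, nS k ≤ 120 → a.ψ (W1 a b f) k
      ≤ 1470 * (1 + Real.log 120) * √(8 * CC * a.E nuM (b.P nuM f)) := by
    intro k hk
    refine (psi_A_log a _ k).trans ?_
    have h2 : Real.log (nS k) ≤ Real.log 120 := Real.log_le_log (nS_pos _) hk
    have h3 := Real.sqrt_nonneg (8 * CC * a.E nuM (b.P nuM f))
    gcongr
  refine (JJ_integral_le a (W1 a b f) h1).trans ?_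
  have hE : a.E nuM (b.P nuM f) ≤ a.E nuM f := by
    rw [← a.ea_eq, ← a.ea_eq]
    exact (PAct.cpair nuM hab).ea_Qy_le f
  have hE0 := a.E_nonneg nuM (b.P nuM f)
  rw [mul_pow, Real.sq_sqrt (by positivity)]
  unfold c1
  have hv : 0 ≤ mH.real {g : SL2R | nS g ≤ 120} := measureReal_nonneg
  calc mH.real {g : SL2R | nS g ≤ 120} * ((1470 * (1 + Real.log 120)) ^ 2
        * (8 * CC * a.E nuM (b.P nuM f)))
      = mH.real {g : SL2R | nS g ≤ 120} * (1470 * (1 + Real.log 120)) ^ 2 * (8 * CC)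
        * a.E nuM (b.P nuM f) := by ring
    _ ≤ _ := by gcongr

lemma J2_le (f : BL2 ζ) {T : ℝ} (hT : 2 ≤ T) {k : SL2R} (hk : nS k ≤ 3) :
    ∫ z, JJ b (10 * T) (W2 a b f k) z ∂ζ
      ≤ c2 * (VT T * (1 + Real.log T) ^ 2 * CPair.em (frm ζ) (a.P nuM) (b.P nuM) f) := by
  set v : BL2 ζ := a.T k (a.P nuM f) - a.P nuM f with hv
  have hlT : 0 ≤ Real.log T := Real.log_nonneg (by linarith)
  have hl10 : Real.log 10 ≤ 2.5 := by
    have h1 : Real.log 10 ≤ Real.log (2 ^ 3 * (5/4)) := Real.log_le_log (by norm_num) (by norm_num)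
    rw [Real.log_mul (by norm_num) (by norm_num), Real.log_pow] at h1
    have h2 : Real.log (5/4) ≤ 5/4 - 1 := Real.log_le_sub_one_of_pos (by norm_num)
    have h3 := Real.log_two_lt_d9
    norm_num at h1 h2
    linarith
  have h1 : ∀ g : SL2R, nS g ≤ 10 * T → b.ψ (W2 a b f k) g
      ≤ 1470 * (3.5 * (1 + Real.log T)) * √(8 * CC * b.E nuM v) := by
    intro g hg
    refine (psi_A_log b v g).trans ?_
    have h2 : Real.log (nS g) ≤ Real.log 10 + Real.log T := by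
      rw [← Real.log_mul (by norm_num) (by linarith)]
      exact Real.log_le_log (nS_pos _) hg
    have h3 := Real.sqrt_nonneg (8 * CC * b.E nuM v)
    gcongr
    linarith
  refine (JJ_integral_le b (W2 a b f k) h1).trans ?_
  have hcp := PAct.cpair (a := a) (b := b) nuM hab
  have hE : b.E nuM v ≤ 8 * CC * CPair.em (frm ζ) (a.P nuM) (b.P nuM) f := by
    have hK : ∀ x : BL2 ζ, a.ψ x k ^ 2 ≤ 8 * CC * a.E nuM x := by
      intro x
      have h3 := psi_small a x k hk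
      calc a.ψ x k ^ 2 ≤ (√(8 * CC * a.E nuM x)) ^ 2 :=
            pow_le_pow_left₀ (a.ψ_nonneg x k) h3 2
        _ = _ := Real.sq_sqrt (by have := a.E_nonneg nuM x; positivity)
    refine (PAct.E_diff_le nuM hab k hK (a.P nuM f)).trans ?_
    refine mul_le_mul_of_nonneg_left (hcp.em_P_le f) (by positivity)
  have hE0 := b.E_nonneg nuM v
  rw [mul_pow, Real.sq_sqrt (by positivity)]
  unfold c2
  have hV : 0 ≤ VT T := VT_nonneg T
  calc mH.real {g : SL2R | nS g ≤ 10 * T} * ((1470 * (3.5 * (1 + Real.log T))) ^ 2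
        * (8 * CC * b.E nuM v))
      = VT T * (1 + Real.log T) ^ 2 * ((1470 * 3.5) ^ 2 * (8 * CC)) * b.E nuM v := by
        unfold VT; ring
    _ ≤ VT T * (1 + Real.log T) ^ 2 * ((1470 * 3.5) ^ 2 * (8 * CC))
        * (8 * CC * CPair.em (frm ζ) (a.P nuM) (b.P nuM) f) := by gcongr
    _ = _ := by ring

/-- The displacement of the iterate under a commutator. -/
lemma psi_comm (f : BL2 ζ) {ε T τ : ℝ} (hε0 : 0 ≤ ε) (hε : ε ≤ 1) (hT : 2 ≤ T) {Y : Set Z}
    (hY : MeasurableSet Y) (hret : ∀ z ∈ Y, Ret a b ε T z)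
    (htail : ∀ c : SL2R, nS c ≤ 3 →
      ∫ z in Yᶜ, ((a.P nuM (b.P nuM f) : BL2 ζ) : Z → ℝ) (a.τ c z) ^ 2 ∂ζ ≤ τ)
    {c k x : SL2R} (hc : nS c ≤ 3) (hk : nS k ≤ 3) (hx : nS x ≤ 3)
    (hxk : nS (x * k) ≤ 3) (hcomm : c * (x * k) = k * x) :
    a.ψ (a.P nuM (b.P nuM f)) c ^ 2 ≤
      270 * K1 * c1 * (ε ^ 2 * a.E nuM f)
      + 1080 * kap * c2 * (VT T * (1 + Real.log T) ^ 2 * CPair.em (frm ζ) (a.P nuM) (b.P nuM) f)
      + 4 * τ := by
  set F : BL2 ζ := a.P nuM (b.P nuM f) with hF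
  have h0 : a.ψ F c ^ 2 = ∫ z, ((F : Z → ℝ) (a.τ c z) - (F : Z → ℝ) z) ^ 2 ∂ζ := by
    unfold PAct.ψ
    rw [nrm_sq_eq]; rfl
  have hint : Integrable (fun z => ((F : Z → ℝ) (a.τ c z) - (F : Z → ℝ) z) ^ 2) ζ :=
    bsq (a.T c F - F)
  rw [h0, ← integral_add_compl hY hint]
  have i1 := JJ_integrable a 120 (W1 a b f)
  have i2 := JJ_integrable b (10 * T) (W2 a b f k)
  have i3 := JJ_integrable b (10 * T) (W2 a b f x)
  have i4 := JJ_integrable b (10 * T) (W2 a b f c)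
  have i5 : Integrable (fun z => JJ b (10 * T) (W2 a b f k) z + JJ b (10 * T) (W2 a b f x) z
      + JJ b (10 * T) (W2 a b f c) z) ζ := (i2.add i3).add i4
  have i6 : Integrable (fun z => 30 * K1 * ε ^ 2 * JJ a 120 (W1 a b f) z
      + 40 * kap * (JJ b (10 * T) (W2 a b f k) z + JJ b (10 * T) (W2 a b f x) z
        + JJ b (10 * T) (W2 a b f c) z)) ζ := (i1.const_mul _).add (i5.const_mul _)
  have i7 : Integrable (fun z => 9 * (30 * K1 * ε ^ 2 * JJ a 120 (W1 a b f) z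
      + 40 * kap * (JJ b (10 * T) (W2 a b f k) z + JJ b (10 * T) (W2 a b f x) z
        + JJ b (10 * T) (W2 a b f c) z))) ζ := i6.const_mul 9
  have hkap := kap_pos
  have hK1 := K1_nonneg
  have h1 : ∫ z in Y, ((F : Z → ℝ) (a.τ c z) - (F : Z → ℝ) z) ^ 2 ∂ζ
      ≤ ∫ z, 9 * (30 * K1 * ε ^ 2 * JJ a 120 (W1 a b f) z
      + 40 * kap * (JJ b (10 * T) (W2 a b f k) z + JJ b (10 * T) (W2 a b f x) z
        + JJ b (10 * T) (W2 a b f c) z)) ∂ζ := by
    refine le_trans (setIntegral_mono_on hint.integrableOn i7.integrableOn hY fun z hz =>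
      comm_diff hab f hε0 hε hT (hret z hz) hc hk hx hxk hcomm) ?_
    refine setIntegral_le_integral i7 ?_
    filter_upwards with z
    have j1 := JJ_nonneg a 120 (W1 a b f) z
    have j2 := JJ_nonneg b (10 * T) (W2 a b f k) z
    have j3 := JJ_nonneg b (10 * T) (W2 a b f x) z
    have j4 := JJ_nonneg b (10 * T) (W2 a b f c) z
    simp only [Pi.zero_apply]
    positivity
  have h2 : ∫ z, 9 * (30 * K1 * ε ^ 2 * JJ a 120 (W1 a b f) z
      + 40 * kap * (JJ b (10 * T) (W2 a b f k) z + JJ b (10 * T) (W2 a b f x) z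
        + JJ b (10 * T) (W2 a b f c) z)) ∂ζ
      = 9 * (30 * K1 * ε ^ 2 * ∫ z, JJ a 120 (W1 a b f) z ∂ζ
      + 40 * kap * (∫ z, JJ b (10 * T) (W2 a b f k) z ∂ζ + ∫ z, JJ b (10 * T) (W2 a b f x) z ∂ζ
        + ∫ z, JJ b (10 * T) (W2 a b f c) z ∂ζ)) := by
    have i23 : Integrable (fun z => JJ b (10 * T) (W2 a b f k) z
      + JJ b (10 * T) (W2 a b f x) z) ζ := i2.add i3
    rw [integral_const_mul, integral_add (i1.const_mul _) (i5.const_mul _), integral_const_mul,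
      integral_const_mul, integral_add i23 i4, integral_add i2 i3]
  have b1 := J1_le hab f
  have b2 := J2_le hab f hT hk
  have b3 := J2_le hab f hT hx
  have b4 := J2_le hab f hT hc
  have t1 := htail c hc
  have t2 := htail 1 (by rw [nS_one]; norm_num)
  simp only [a.one] at t2
  have iF : Integrable (fun z => (F : Z → ℝ) z ^ 2) ζ := bsq F
  have iFc : Integrable (fun z => (F : Z → ℝ) (a.τ c z) ^ 2) ζ := bsq (a.T c F)
  have h3 : ∫ z in Yᶜ, ((F : Z → ℝ) (a.τ c z) - (F : Z → ℝ) z) ^ 2 ∂ζ ≤ 4 * τ := by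
    have h4 : ∫ z in Yᶜ, ((F : Z → ℝ) (a.τ c z) - (F : Z → ℝ) z) ^ 2 ∂ζ
        ≤ ∫ z in Yᶜ, (2 * (F : Z → ℝ) (a.τ c z) ^ 2 + 2 * (F : Z → ℝ) z ^ 2) ∂ζ := by
      refine integral_mono hint.integrableOn
        ((iFc.const_mul 2).add (iF.const_mul 2)).integrableOn fun z => ?_
      have := sq2 ((F : Z → ℝ) (a.τ c z)) ((F : Z → ℝ) z)
      simp only
      linarith
    have h5 : ∫ z in Yᶜ, (2 * (F : Z → ℝ) (a.τ c z) ^ 2 + 2 * (F : Z → ℝ) z ^ 2) ∂ζ
        = 2 * ∫ z in Yᶜ, (F : Z → ℝ) (a.τ c z) ^ 2 ∂ζ + 2 * ∫ z in Yᶜ, (F : Z → ℝ) z ^ 2 ∂ζ := by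
      have j1 : IntegrableOn (fun z => 2 * (F : Z → ℝ) (a.τ c z) ^ 2) Yᶜ ζ :=
        (iFc.const_mul 2).integrableOn
      have j2 : IntegrableOn (fun z => 2 * (F : Z → ℝ) z ^ 2) Yᶜ ζ :=
        (iF.const_mul 2).integrableOn
      rw [integral_add j1 j2, integral_const_mul, integral_const_mul]
    linarith
  have h6 : 30 * K1 * ε ^ 2 * ∫ z, JJ a 120 (W1 a b f) z ∂ζ
      ≤ 30 * K1 * ε ^ 2 * (c1 * a.E nuM f) := mul_le_mul_of_nonneg_left b1 (by positivity)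
  have h7 : 40 * kap * (∫ z, JJ b (10 * T) (W2 a b f k) z ∂ζ
      + ∫ z, JJ b (10 * T) (W2 a b f x) z ∂ζ + ∫ z, JJ b (10 * T) (W2 a b f c) z ∂ζ)
      ≤ 40 * kap * (3 * (c2 * (VT T * (1 + Real.log T) ^ 2
        * CPair.em (frm ζ) (a.P nuM) (b.P nuM) f))) :=
    mul_le_mul_of_nonneg_left (by linarith) (by positivity)
  linarith

/-- The constant of the step. -/
noncomputable def Kc : ℝ := 1100000 * (270 * K1 * c1 + 1080 * kap * c2 + 4)

omit hab in
lemma Kc_pos : 0 < Kc := by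
  unfold Kc
  have := K1_nonneg
  have := c1_nonneg
  have := c2_nonneg
  have := kap_pos
  positivity

/-- The main inequality. -/
theorem step (f : BL2 ζ) {ε T τ : ℝ} (hε0 : 0 ≤ ε) (hε : ε ≤ 1) (hT : 2 ≤ T) {Y : Set Z}
    (hY : MeasurableSet Y) (hret : ∀ z ∈ Y, Ret a b ε T z)
    (htail : ∀ c : SL2R, nS c ≤ 3 →
      ∫ z in Yᶜ, ((a.P nuM (b.P nuM f) : BL2 ζ) : Z → ℝ) (a.τ c z) ^ 2 ∂ζ ≤ τ) :
    a.E nuM (a.P nuM (b.P nuM f)) ≤ Kc * (ε ^ 2 * a.E nuM f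
      + VT T * (1 + Real.log T) ^ 2 * CPair.em (frm ζ) (a.P nuM) (b.P nuM) f + τ) := by
  set F : BL2 ζ := a.P nuM (b.P nuM f) with hF
  set D : ℝ := 270 * K1 * c1 * (ε ^ 2 * a.E nuM f)
      + 1080 * kap * c2 * (VT T * (1 + Real.log T) ^ 2 * CPair.em (frm ζ) (a.P nuM) (b.P nuM) f)
      + 4 * τ with hD
  have huu : ∀ x : ℝ, |x| ≤ 1 → a.ψ F (uu x) ^ 2 ≤ D := by
    intro x hx
    have h3 : |x / 3| ≤ 1 / 3 := by rw [abs_div]; norm_num; linarith
    refine psi_comm hab f hε0 hε hT hY hret htail (c := uu x) (k := aa) (x := uu (x / 3))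
      (by rw [nS_uu]; linarith) (by rw [nS_aa]; norm_num) (by rw [nS_uu]; linarith) ?_
      (uu_comm x)
    have : nS (uu (x / 3) * aa) = 5 / 2 + |x / 3| / 2 := by
      unfold nS nM
      change |(uu (x / 3) * aa) 0 0| + |(uu (x / 3) * aa) 0 1| + |(uu (x / 3) * aa) 1 0|
        + |(uu (x / 3) * aa) 1 1| = _
      simp only [SL_mul_apply, uu00, uu01, uu10, uu11, aa00, aa01, aa10, aa11]
      norm_num [abs_mul]
      ring
    rw [this]; linarith
  have hvv : ∀ x : ℝ, |x| ≤ 1 → a.ψ F (vv x) ^ 2 ≤ D := by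
    intro x hx
    have h3 : |x / 3| ≤ 1 / 3 := by rw [abs_div]; norm_num; linarith
    refine psi_comm hab f hε0 hε hT hY hret htail (c := vv x) (k := aa⁻¹) (x := vv (x / 3))
      (by rw [nS_vv]; linarith) (by rw [nS_inv, nS_aa]; norm_num) (by rw [nS_vv]; linarith) ?_
      (vv_comm x)
    have hai : aa⁻¹ 0 0 = 1 / 2 ∧ aa⁻¹ 0 1 = 0 ∧ aa⁻¹ 1 0 = 0 ∧ aa⁻¹ 1 1 = 2 := by
      refine ⟨?_, ?_, ?_, ?_⟩ <;>
        simp [Matrix.SpecialLinearGroup.coe_inv, Matrix.adjugate_fin_two]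
    have : nS (vv (x / 3) * aa⁻¹) = 5 / 2 + |x / 3| / 2 := by
      unfold nS nM
      change |(vv (x / 3) * aa⁻¹) 0 0| + |(vv (x / 3) * aa⁻¹) 0 1| + |(vv (x / 3) * aa⁻¹) 1 0|
        + |(vv (x / 3) * aa⁻¹) 1 1| = _
      simp only [SL_mul_apply, vv00, vv01, vv10, vv11, hai.1, hai.2.1, hai.2.2.1, hai.2.2.2]
      norm_num [abs_mul]
      ring
    rw [this]; linarith
  have hD0 : 0 ≤ D := (sq_nonneg _).trans (huu 0 (by simp))
  have h1 := E_le_unip a F (M := √D) (fun x hx => Real.le_sqrt_of_sq_le (huu x hx))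
    (fun x hx => Real.le_sqrt_of_sq_le (hvv x hx))
  rw [Real.sq_sqrt hD0] at h1
  refine h1.trans ?_
  have hτ : 0 ≤ τ := by
    refine le_trans ?_ (htail 1 (by rw [nS_one]; norm_num))
    exact integral_nonneg fun z => sq_nonneg _
  have hE0 := a.E_nonneg nuM f
  have hem := (PAct.cpair (a := a) (b := b) nuM hab).em_nonneg f
  have hV := VT_nonneg T
  have hK1 := K1_nonneg
  have hc1 := c1_nonneg
  have hc2 := c2_nonneg
  have hkap := kap_pos
  set x1 := ε ^ 2 * a.E nuM f with hx1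
  set x2 := VT T * (1 + Real.log T) ^ 2 * CPair.em (frm ζ) (a.P nuM) (b.P nuM) f with hx2
  have hx1' : 0 ≤ x1 := by positivity
  have hx2' : 0 ≤ x2 := by positivity
  have hA : 0 ≤ 270 * K1 * c1 := by positivity
  have hB : 0 ≤ 1080 * kap * c2 := by positivity
  rw [hD]
  unfold Kc
  set A := 270 * K1 * c1
  set B := 1080 * kap * c2
  have m1 := mul_nonneg hA hx2'
  have m2 := mul_nonneg hA hτ
  have m3 := mul_nonneg hB hx1'
  have m4 := mul_nonneg hB hτ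
  clear_value A B x1 x2
  nlinarith

end act

end Pool.Agent.IRS
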