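import Mathlib
import Pool.Agent.IRS.Step

/-!
# The iterates tend to zero on the complement of the invariant vectors
-/

set_option autoImplicit false
set_option linter.unusedVariables false
set_option linter.unusedSectionVars false

namespace Pool.Agent.IRS

open MeasureTheory Matrix Filter Topology

section act

variable {Z : Type*} [MeasurableSpace Z] {ζ : Measure Z} [SigmaFinite ζ] {a b : PAct SL2R ζ}

lemma A_bdd (a : PAct SL2R ζ) (ν : Measure SL2R) [IsProbabilityMeasure ν] {f : BL2 ζ} {M : ℝ}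
    (hM : ∀ z, |(f : Z → ℝ) z| ≤ M) (z : Z) : |((a.A ν f : BL2 ζ) : Z → ℝ) z| ≤ M := by
  rw [a.A_apply]
  calc |∫ g, (f : Z → ℝ) (a.τ g z) ∂ν| ≤ ∫ g, |(f : Z → ℝ) (a.τ g z)| ∂ν :=
        abs_integral_le_integral_abs
    _ ≤ ∫ _, M ∂ν := by
        refine integral_mono_of_nonneg (by filter_upwards with g; positivity)
          (integrable_const _) (by filter_upwards with g; exact hM _)
    _ = M := by simp

lemma P_bdd (a : PAct SL2R ζ) {f : BL2 ζ} {M : ℝ}
    (hM : ∀ z, |(f : Z → ℝ) z| ≤ M) (z : Z) : |((a.P nuM f : BL2 ζ) : Z → ℝ) z| ≤ M :=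
  A_bdd a _ (A_bdd a _ hM) z

/-- The iterates. -/
noncomputable def it (a b : PAct SL2R ζ) (f : BL2 ζ) (s : ℕ) : BL2 ζ :=
  ((a.P nuM * b.P nuM) ^ s) f

lemma it_zero (f : BL2 ζ) : it a b f 0 = f := rfl

lemma it_succ (f : BL2 ζ) (s : ℕ) : it a b f (s + 1) = a.P nuM (b.P nuM (it a b f s)) := by
  unfold it; rw [pow_succ']; rfl

lemma it_add (f : BL2 ζ) (s r : ℕ) :
    ((a.P nuM * b.P nuM) ^ r) (it a b f s) = it a b f (r + s) := by
  unfold it; rw [pow_add]; rfl

lemma it_bdd {f : BL2 ζ} {M : ℝ} (hM : ∀ z, |(f : Z → ℝ) z| ≤ M) (s : ℕ) (z : Z) :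
    |((it a b f s : BL2 ζ) : Z → ℝ) z| ≤ M := by
  induction s generalizing z with
  | zero => exact hM z
  | succ s ih => rw [it_succ]; exact P_bdd a (P_bdd b ih) z

lemma tends_two : Tendsto (fun s : ℕ => 2 * s) atTop atTop :=
  tendsto_atTop_mono (fun s => by simp only [id]; omega) tendsto_id

lemma tends_two' : Tendsto (fun s : ℕ => 2 * s + 1) atTop atTop :=
  tendsto_atTop_mono (fun s => by simp only [id]; omega) tendsto_id

variable (hab : ∀ g h z, a.τ g (b.τ h z) = b.τ h (a.τ g z))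
include hab

lemma it_symm (r : ℕ) (x y : BL2 ζ) :
    (frm ζ).B (((a.P nuM * b.P nuM) ^ r) x) y = (frm ζ).B x (((a.P nuM * b.P nuM) ^ r) y) := by
  have hcp := PAct.cpair (a := a) (b := b) nuM hab
  induction r generalizing x y with
  | zero => rfl
  | succ r ih =>
    have e1 : ((a.P nuM * b.P nuM) ^ (r + 1)) x
        = a.P nuM (b.P nuM (((a.P nuM * b.P nuM) ^ r) x)) := by rw [pow_succ']; rfl
    have e2 : ((a.P nuM * b.P nuM) ^ (r + 1)) y
        = ((a.P nuM * b.P nuM) ^ r) (a.P nuM (b.P nuM y)) := by rw [pow_succ]; rfl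
    rw [e1, e2, hcp.hP.symm, hcp.hQ.symm, ih]
    congr 2
    exact (hcp.cPQ y).symm

/-- The squared norms. -/
noncomputable def NN (a b : PAct SL2R ζ) (f : BL2 ζ) (s : ℕ) : ℝ :=
  (frm ζ).B (it a b f s) (it a b f s)

omit hab in
lemma NN_nonneg (f : BL2 ζ) (s : ℕ) : 0 ≤ NN a b f s := (frm ζ).nonneg _

lemma NN_drop_ge (f : BL2 ζ) (s : ℕ) :
    a.E nuM (it a b f s) ≤ NN a b f s - NN a b f (s + 1) := by
  have hcp := PAct.cpair (a := a) (b := b) nuM hab
  unfold NN
  rw [it_succ, ← a.ea_eq]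
  exact hcp.ea_le_drop _

lemma NN_drop_ge' (f : BL2 ζ) (s : ℕ) :
    b.E nuM (it a b f s) ≤ NN a b f s - NN a b f (s + 1) := by
  have hcp := PAct.cpair (a := a) (b := b) nuM hab
  unfold NN
  rw [it_succ, ← b.ea_eq, hcp.cPQ]
  exact hcp.swap.ea_le_drop _

lemma NN_drop_le (f : BL2 ζ) (s : ℕ) :
    NN a b f s - NN a b f (s + 1) ≤ 2 * (a.E nuM (it a b f s) + b.E nuM (it a b f s)) := by
  have hcp := PAct.cpair (a := a) (b := b) nuM hab
  unfold NN
  rw [it_succ, ← b.ea_eq, ← a.ea_eq]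
  exact hcp.drop_le _

lemma NN_anti (f : BL2 ζ) : Antitone (NN a b f) := by
  refine antitone_nat_of_succ_le fun s => ?_
  have h1 := NN_drop_ge hab f s
  have h2 := a.E_nonneg nuM (it a b f s)
  linarith

lemma NN_cross (f : BL2 ζ) (s t : ℕ) :
    (frm ζ).B (it a b f (2 * s)) (it a b f (2 * t)) = NN a b f (s + t) := by
  have h : ∀ s t : ℕ, s ≤ t →
      (frm ζ).B (it a b f (2 * s)) (it a b f (2 * t)) = NN a b f (s + t) := by
    intro s t hst
    have e1 : it a b f (2 * t) = ((a.P nuM * b.P nuM) ^ (t - s)) (it a b f (s + t)) := by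
      rw [it_add]; congr 1; omega
    rw [e1, ← it_symm hab, it_add]
    unfold NN
    have e2 : t - s + 2 * s = s + t := by omega
    rw [e2]
  rcases le_total s t with hst | hst
  · exact h s t hst
  · rw [(frm ζ).symm, h t s hst, add_comm]

omit hab in
lemma memLp_BL2 (x : BL2 ζ) : MemLp (x : Z → ℝ) 2 ζ :=
  (memLp_two_iff_integrable_sq (bmeas x).aestronglyMeasurable).2 (bsq x)

omit hab in
lemma norm_toLp_sub (x y : BL2 ζ) :
    ‖(memLp_BL2 x).toLp (x : Z → ℝ) - (memLp_BL2 y).toLp (y : Z → ℝ)‖ = (frm ζ).nrm (x - y) := by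
  rw [← MemLp.toLp_sub, Lp.norm_toLp]
  have h1 : MemLp ((x : Z → ℝ) - (y : Z → ℝ)) 2 ζ := (memLp_BL2 x).sub (memLp_BL2 y)
  rw [MemLp.eLpNorm_eq_integral_rpow_norm (by norm_num) (by norm_num) h1]
  unfold PSForm.nrm
  rw [frm_self, ENNReal.toReal_ofReal (by positivity), Real.sqrt_eq_rpow]
  simp only [ENNReal.toReal_ofNat, Real.rpow_ofNat, Real.norm_eq_abs, sq_abs]
  norm_num

omit hab in
lemma nrm_zero_ae {x : BL2 ζ} (h : (frm ζ).nrm x = 0) : (x : Z → ℝ) =ᵐ[ζ] 0 := by
  have h1 := nrm_sq_eq x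
  rw [h, zero_pow (by norm_num)] at h1
  have h2 := (integral_eq_zero_iff_of_nonneg (fun z => sq_nonneg ((x : Z → ℝ) z)) (bsq x)).1 h1.symm
  filter_upwards [h2] with z hz
  simpa using hz

/-- The limit of the even iterates. -/
lemma exists_limit (f : BL2 ζ) : ∃ w : BL2 ζ,
    Tendsto (fun s => (frm ζ).nrm (it a b f (2 * s) - w)) atTop (𝓝 0) := by
  obtain ⟨M, hM⟩ := bbdd f
  set ℓ := ⨅ s, NN a b f s with hℓ
  have hbdd : BddBelow (Set.range (NN a b f)) := ⟨0, by rintro _ ⟨s, rfl⟩; exact NN_nonneg f s⟩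
  have hconv : Tendsto (NN a b f) atTop (𝓝 ℓ) := tendsto_atTop_ciInf (NN_anti hab f) hbdd
  set g : ℕ → Lp ℝ 2 ζ := fun s => (memLp_BL2 (it a b f (2 * s))).toLp _ with hg
  have hcau : CauchySeq g := by
    refine cauchySeq_of_le_tendsto_0' (fun s => √(NN a b f (2 * s) - ℓ)) ?_ ?_
    · intro s t hst
      rw [dist_eq_norm, hg]
      simp only
      rw [norm_toLp_sub]
      unfold PSForm.nrm
      apply Real.sqrt_le_sqrt
      simp only [map_sub, LinearMap.sub_apply]
      rw [NN_cross hab, NN_cross hab, NN_cross hab, NN_cross hab]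
      have h1 : NN a b f (t + t) ≤ NN a b f (s + t) := NN_anti hab f (by omega)
      have h2 : ℓ ≤ NN a b f (s + t) := ciInf_le hbdd _
      have h3 : NN a b f (s + s) = NN a b f (2 * s) := by rw [two_mul]
      rw [add_comm t s, h3]
      linarith
    · have h1 : Tendsto (fun s : ℕ => NN a b f (2 * s) - ℓ) atTop (𝓝 (ℓ - ℓ)) :=
        (hconv.comp tends_two).sub_const ℓ
      rw [sub_self] at h1
      have h2 := h1.sqrt
      rwa [Real.sqrt_zero] at h2
  obtain ⟨w, hw⟩ := cauchySeq_tendsto_of_complete hcau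
  -- a bounded representative
  have hwm : Measurable (w : Z → ℝ) := (Lp.stronglyMeasurable w).measurable
  set w' : Z → ℝ := fun z => max (-M) (min M ((w : Z → ℝ) z)) with hw'
  have hclip : ∀ x y : ℝ, |x| ≤ M → |x - max (-M) (min M y)| ≤ |x - y| := by
    intro x y hx
    rw [abs_le] at hx
    rcases le_total M y with h | h
    · rw [min_eq_left h, max_eq_right (by linarith)]
      rw [abs_of_nonpos (by linarith), abs_of_nonpos (by linarith)]; linarith
    · rw [min_eq_right h]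
      rcases le_total (-M) y with h' | h'
      · rw [max_eq_right h']
      · rw [max_eq_left h', abs_of_nonneg (by linarith), abs_of_nonneg (by linarith)]; linarith
  have hw'm : Measurable w' := measurable_const.max (measurable_const.min hwm)
  have hw'sq : Integrable (fun z => w' z ^ 2) ζ := by
    have h1 : Integrable (fun z => (w : Z → ℝ) z ^ 2) ζ :=
      (memLp_two_iff_integrable_sq (Lp.aestronglyMeasurable w)).1 (Lp.memLp w)
    refine h1.mono' (hw'm.pow_const 2).aestronglyMeasurable ?_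
    filter_upwards with z
    rw [Real.norm_eq_abs, abs_pow]
    by_cases hM0 : 0 ≤ M
    · have := hclip 0 ((w : Z → ℝ) z) (by simpa using hM0)
      rw [zero_sub, zero_sub, abs_neg, abs_neg] at this
      calc |w' z| ^ 2 ≤ |(w : Z → ℝ) z| ^ 2 := pow_le_pow_left₀ (abs_nonneg _) this 2
        _ = _ := sq_abs _
    · exact absurd ((abs_nonneg _).trans (hM z)) hM0
  set W : BL2 ζ := ⟨w', hw'm, ⟨|M|, fun z => by
    have h1 : -M ≤ w' z := le_max_left _ _
    by_cases hM0 : 0 ≤ M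
    · have h2 : w' z ≤ M := max_le (by linarith) (min_le_left _ _)
      rw [abs_of_nonneg hM0]
      exact abs_le.2 ⟨h1, h2⟩
    · exact absurd ((abs_nonneg _).trans (hM z)) hM0⟩, hw'sq⟩ with hW
  refine ⟨W, ?_⟩
  have h0 : Tendsto (fun s => ‖g s - w‖) atTop (𝓝 0) := by
    have := (tendsto_iff_norm_sub_tendsto_zero.1 hw)
    exact this
  refine squeeze_zero (fun s => (frm ζ).nrm_nonneg _) (fun s => ?_) h0
  rw [← norm_toLp_sub]
  refine Lp.norm_le_norm_of_ae_le ?_
  have e1 := MemLp.coeFn_toLp (memLp_BL2 (it a b f (2 * s)))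
  have e2 := MemLp.coeFn_toLp (memLp_BL2 W)
  have e3 := Lp.coeFn_sub ((memLp_BL2 (it a b f (2 * s))).toLp _) ((memLp_BL2 W).toLp _)
  have e4 := Lp.coeFn_sub (g s) w
  filter_upwards [e1, e2, e3, e4] with z h1 h2 h3 h4
  rw [h3, h4, Pi.sub_apply, Pi.sub_apply, hg]
  simp only
  rw [h1, h2, Real.norm_eq_abs, Real.norm_eq_abs]
  exact hclip _ _ (it_bdd hM _ z)

/-- Convergence to zero on the complement of the invariant functions. -/
theorem NN_tendsto (f : BL2 ζ)
    (hinv : ∀ w : BL2 ζ, (∀ g, ((a.T g w : BL2 ζ) : Z → ℝ) =ᵐ[ζ] (w : Z → ℝ)) →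
      (∀ g, ((b.T g w : BL2 ζ) : Z → ℝ) =ᵐ[ζ] (w : Z → ℝ)) →
      ∫ z, (f : Z → ℝ) z * (w : Z → ℝ) z ∂ζ = 0) :
    Tendsto (NN a b f) atTop (𝓝 0) := by
  obtain ⟨w, hw⟩ := exists_limit hab f
  have hbdd : BddBelow (Set.range (NN a b f)) := ⟨0, by rintro _ ⟨s, rfl⟩; exact NN_nonneg f s⟩
  have hconv : Tendsto (NN a b f) atTop (𝓝 (⨅ s, NN a b f s)) :=
    tendsto_atTop_ciInf (NN_anti hab f) hbdd
  have hdrop : Tendsto (fun s : ℕ => NN a b f (2 * s) - NN a b f (2 * s + 1)) atTop (𝓝 0) := by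
    have h1 := (hconv.comp tends_two).sub (hconv.comp tends_two')
    rw [sub_self] at h1
    exact h1
  have key : ∀ (c : PAct SL2R ζ) (hc : ∀ s, c.E nuM (it a b f s) ≤ NN a b f s - NN a b f (s + 1))
      (g : SL2R), ((c.T g w : BL2 ζ) : Z → ℝ) =ᵐ[ζ] (w : Z → ℝ) := by
    intro c hc g
    have h1 : ∀ s : ℕ, (frm ζ).nrm (c.T g w - w) ≤ 2 * (frm ζ).nrm (it a b f (2 * s) - w)
        + 210 * (1 + Real.log (nS g))
          * √(8 * CC * (NN a b f (2 * s) - NN a b f (2 * s + 1))) := by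
      intro s
      have e1 : c.T g w - w = (c.T g (w - it a b f (2 * s)))
          + ((c.T g (it a b f (2 * s)) - it a b f (2 * s)) + (it a b f (2 * s) - w)) := by
        rw [map_sub]; abel
      rw [e1]
      refine ((frm ζ).nrm_add_le _ _).trans ?_
      have e2 := (frm ζ).nrm_add_le (c.T g (it a b f (2 * s)) - it a b f (2 * s))
        (it a b f (2 * s) - w)
      rw [c.nrm_T, (frm ζ).nrm_sub_comm w]
      have e3 := psi_log c (it a b f (2 * s)) g
      have e4 : √(8 * CC * c.E nuM (it a b f (2 * s)))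
          ≤ √(8 * CC * (NN a b f (2 * s) - NN a b f (2 * s + 1))) :=
        Real.sqrt_le_sqrt (mul_le_mul_of_nonneg_left (hc _) (by positivity))
      have hl : 0 ≤ Real.log (nS g) := Real.log_nonneg (by linarith [two_le_nS g])
      have e5 : 210 * (1 + Real.log (nS g)) * √(8 * CC * c.E nuM (it a b f (2 * s)))
          ≤ 210 * (1 + Real.log (nS g))
          * √(8 * CC * (NN a b f (2 * s) - NN a b f (2 * s + 1))) :=
        mul_le_mul_of_nonneg_left e4 (by positivity)
      unfold PAct.ψ at e3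
      linarith
    have h2 : Tendsto (fun s : ℕ => 2 * (frm ζ).nrm (it a b f (2 * s) - w)
        + 210 * (1 + Real.log (nS g))
          * √(8 * CC * (NN a b f (2 * s) - NN a b f (2 * s + 1)))) atTop (𝓝 0) := by
      have h3 := (hdrop.const_mul (8 * (CC : ℝ))).sqrt
      rw [mul_zero, Real.sqrt_zero] at h3
      have h4 := (hw.const_mul 2).add (h3.const_mul (210 * (1 + Real.log (nS g))))
      simpa using h4
    have h3 : (frm ζ).nrm (c.T g w - w) ≤ 0 := ge_of_tendsto h2 (Eventually.of_forall h1)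
    have h4 := nrm_zero_ae (le_antisymm h3 ((frm ζ).nrm_nonneg _))
    filter_upwards [h4] with z hz
    have : ((c.T g w - w : BL2 ζ) : Z → ℝ) z = ((c.T g w : BL2 ζ) : Z → ℝ) z - (w : Z → ℝ) z := rfl
    rw [this] at hz
    simp only [Pi.zero_apply] at hz
    linarith
  have h0 := hinv w (key a (NN_drop_ge hab f)) (key b (NN_drop_ge' hab f))
  have h0' : (frm ζ).B f w = 0 := h0
  -- the pairing with f
  have h1 : Tendsto (fun s => (frm ζ).B f (it a b f (2 * s))) atTop (𝓝 0) := by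
    have h2 : ∀ s, |(frm ζ).B f (it a b f (2 * s)) - 0|
        ≤ (frm ζ).nrm f * (frm ζ).nrm (it a b f (2 * s) - w) := by
      intro s
      have : (frm ζ).B f (it a b f (2 * s)) - 0 = (frm ζ).B f (it a b f (2 * s) - w) := by
        rw [map_sub, h0']
      rw [this]
      exact (frm ζ).abs_le _ _
    rw [tendsto_iff_norm_sub_tendsto_zero]
    refine squeeze_zero (fun s => norm_nonneg _) h2 ?_
    have := hw.const_mul ((frm ζ).nrm f)
    rwa [mul_zero] at this
  have h2 : (fun s => (frm ζ).B f (it a b f (2 * s))) = NN a b f := by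
    funext s
    have := NN_cross hab f 0 s
    rw [mul_zero, it_zero, zero_add] at this
    exact this
  rw [h2] at h1
  exact h1

end act

end Pool.Agent.IRS
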