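import Mathlib

/-!
# The choice of the parameters
-/

set_option autoImplicit false

namespace Pool.Agent.IRS

open Filter Topology

/-- A logarithm is smaller than a power. -/
lemma one_add_log_le {δ T : ℝ} (hδ : 0 < δ) (hT : 1 ≤ T) :
    1 + Real.log T ≤ (1 + 1 / δ) * T ^ δ := by
  have h1 := Real.log_le_rpow_div (by linarith : 0 ≤ T) hδ
  have h2 : 1 ≤ T ^ δ := Real.one_le_rpow hT hδ.le
  have h3 : T ^ δ / δ = 1 / δ * T ^ δ := by ring
  rw [h3] at h1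
  nlinarith

theorem choose_params {A n0 : ℝ} (hA : 2 < A) (hn0 : 0 < n0) (C D E : ℝ) (hD : 0 ≤ D) :
    ∃ β : ℝ, 1 / 8 ≤ β ∧ β < 1 / 2 ∧ ∃ k0 : ℕ, ∀ k ≥ k0, ∃ T : ℝ, 2 ≤ T ∧
      D * (T ^ 2 * (1 + Real.log T) ^ 2) / 2 ^ k ≤ 1 / 8 ∧
      E * (C * T ^ (-A)) < n0 * (1 - 2 * β) / 16 * β ^ (k + 1) := by
  set θ : ℝ := (1 / A + 1 / 2) / 2 with hθ
  have hA0 : 0 < A := by linarith
  have hAinv : 1 / A < 1 / 2 := by
    apply one_div_lt_one_div_of_lt <;> linarith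
  have hAinv0 : 0 < 1 / A := by positivity
  have hθ0 : 0 < θ := by rw [hθ]; positivity
  have hθ1 : θ < 1 / 2 := by rw [hθ]; linarith
  have hθ2 : 1 < A * θ := by
    rw [hθ]
    have : A * (1 / A) = 1 := by field_simp
    nlinarith
  set δ : ℝ := (1 / θ - 2) / 4 with hδ
  have hδ0 : 0 < δ := by
    have : 2 < 1 / θ := by
      rw [lt_div_iff₀ hθ0]; linarith
    rw [hδ]; linarith
  have hδ1 : θ * (2 + 2 * δ) < 1 := by
    have h1 : θ * (1 / θ) = 1 := by field_simp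
    rw [hδ]
    nlinarith
  set r : ℝ := (2 : ℝ) ^ (θ * (2 + 2 * δ) - 1) with hr
  have hr0 : 0 < r := by positivity
  have hr1 : r < 1 := Real.rpow_lt_one_of_one_lt_of_neg (by norm_num) (by linarith)
  set ρ : ℝ := (2 : ℝ) ^ (-(A * θ)) with hρ
  have hρ0 : 0 < ρ := by positivity
  have hρ1 : ρ < 1 / 2 := by
    have : (2 : ℝ) ^ (-(A * θ)) < (2 : ℝ) ^ (-1 : ℝ) :=
      Real.rpow_lt_rpow_of_exponent_lt (by norm_num) (by linarith)
    rw [Real.rpow_neg_one] at this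
    rw [hρ]; linarith
  set β : ℝ := max (1 / 8) ((ρ + 1 / 2) / 2) with hβ
  have hβ1 : 1 / 8 ≤ β := le_max_left _ _
  have hβ2 : β < 1 / 2 := max_lt (by norm_num) (by linarith)
  have hβ3 : ρ < β := lt_of_lt_of_le (by linarith) (le_max_right _ _)
  have hβ0 : 0 < β := by linarith
  refine ⟨β, hβ1, hβ2, ?_⟩
  have hb : 0 < 1 - 2 * β := by linarith
  -- the two geometric sequences
  have t1 : Tendsto (fun k : ℕ => D * (1 + 1 / δ) ^ 2 * r ^ k) atTop (𝓝 0) := by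
    have := (tendsto_pow_atTop_nhds_zero_of_lt_one hr0.le hr1).const_mul (D * (1 + 1 / δ) ^ 2)
    rwa [mul_zero] at this
  have t2 : Tendsto (fun k : ℕ => E * C * (ρ / β) ^ k) atTop (𝓝 0) := by
    have := (tendsto_pow_atTop_nhds_zero_of_lt_one (by positivity : 0 ≤ ρ / β)
      ((div_lt_one hβ0).2 hβ3)).const_mul (E * C)
    rwa [mul_zero] at this
  have e1 : ∀ᶠ k : ℕ in atTop, D * (1 + 1 / δ) ^ 2 * r ^ k ≤ 1 / 8 :=
    (t1.eventually (gt_mem_nhds (by norm_num : (0 : ℝ) < 1 / 8))).mono fun k hk => hk.le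
  have e2 : ∀ᶠ k : ℕ in atTop, E * C * (ρ / β) ^ k < n0 * (1 - 2 * β) / 16 * β :=
    t2.eventually (gt_mem_nhds (by positivity))
  have e3 : ∀ᶠ k : ℕ in atTop, 1 ≤ θ * k := by
    have : Tendsto (fun k : ℕ => θ * (k : ℝ)) atTop atTop :=
      tendsto_natCast_atTop_atTop.const_mul_atTop hθ0
    exact this.eventually_ge_atTop 1
  obtain ⟨k0, hk0⟩ := eventually_atTop.1 (e1.and (e2.and e3))
  refine ⟨k0, fun k hk => ⟨(2 : ℝ) ^ (θ * k), ?_, ?_, ?_⟩⟩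
  · calc (2 : ℝ) = 2 ^ (1 : ℝ) := by rw [Real.rpow_one]
      _ ≤ (2 : ℝ) ^ (θ * k) := Real.rpow_le_rpow_of_exponent_le (by norm_num) (hk0 k hk).2.2
  · set T : ℝ := (2 : ℝ) ^ (θ * k) with hT
    have hT1 : 1 ≤ T := Real.one_le_rpow (by norm_num) (by positivity)
    have hT0 : 0 < T := by linarith
    have h1 := one_add_log_le hδ0 hT1
    have hl : 0 ≤ 1 + Real.log T := by linarith [Real.log_nonneg hT1]
    have h2 : (1 + Real.log T) ^ 2 ≤ ((1 + 1 / δ) * T ^ δ) ^ 2 := pow_le_pow_left₀ hl h1 2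
    have h3 : T ^ 2 * (T ^ δ) ^ 2 / 2 ^ k = r ^ k := by
      have a1 : T ^ 2 = (2 : ℝ) ^ (θ * k * 2) := by
        rw [hT, ← Real.rpow_natCast, ← Real.rpow_mul (by norm_num)]; norm_num
      have a2 : (T ^ δ) ^ 2 = (2 : ℝ) ^ (θ * k * δ * 2) := by
        rw [hT, ← Real.rpow_mul (by norm_num), ← Real.rpow_natCast, ← Real.rpow_mul (by norm_num)]
        norm_num
      have a3 : (2 : ℝ) ^ k = (2 : ℝ) ^ (k : ℝ) := (Real.rpow_natCast _ _).symm
      have a4 : r ^ k = (2 : ℝ) ^ ((θ * (2 + 2 * δ) - 1) * k) := by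
        rw [hr, ← Real.rpow_natCast, ← Real.rpow_mul (by norm_num)]
      rw [a1, a2, a3, a4, ← Real.rpow_add (by norm_num), ← Real.rpow_sub (by norm_num)]
      congr 1; ring
    calc D * (T ^ 2 * (1 + Real.log T) ^ 2) / 2 ^ k
        ≤ D * (T ^ 2 * ((1 + 1 / δ) * T ^ δ) ^ 2) / 2 ^ k := by gcongr
      _ = D * (1 + 1 / δ) ^ 2 * (T ^ 2 * (T ^ δ) ^ 2 / 2 ^ k) := by ring
      _ = D * (1 + 1 / δ) ^ 2 * r ^ k := by rw [h3]
      _ ≤ 1 / 8 := (hk0 k hk).1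
  · have h1 : ((2 : ℝ) ^ (θ * k)) ^ (-A) = ρ ^ k := by
      rw [hρ, ← Real.rpow_mul (by norm_num), ← Real.rpow_natCast, ← Real.rpow_mul (by norm_num)]
      congr 1; ring
    rw [h1]
    have h2 := (hk0 k hk).2.1
    rw [div_pow] at h2
    have h3 : 0 < β ^ k := by positivity
    have h4 : E * C * (ρ ^ k / β ^ k) * β ^ k < n0 * (1 - 2 * β) / 16 * β * β ^ k :=
      mul_lt_mul_of_pos_right h2 h3
    have h5 : E * C * (ρ ^ k / β ^ k) * β ^ k = E * (C * ρ ^ k) := by field_simp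
    rw [h5] at h4
    calc E * (C * ρ ^ k) < n0 * (1 - 2 * β) / 16 * β * β ^ k := h4
      _ = _ := by ring

end Pool.Agent.IRS
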