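import Mathlib
import Pool.Agent.IRS.Haar

/-!
# The quadratic volume growth of SL(2,R)
-/

set_option autoImplicit false

namespace Pool.Agent.IRS

open MeasureTheory Matrix Set

/-- The singular weight. -/
noncomputable def sw (x : ℝ) : ENNReal := ENNReal.ofReal (|x| ^ (-(1/2) : ℝ))

lemma measurable_sw : Measurable sw := by
  unfold sw
  fun_prop

lemma sw_half {T : ℝ} (hT : 0 ≤ T) : ∫⁻ x in Icc 0 T, sw x = ENNReal.ofReal (2 * √T) := by
  have h0 : ∫⁻ x in Icc 0 T, sw x = ∫⁻ x in Ioc 0 T, ENNReal.ofReal (x ^ (-(1/2) : ℝ)) := by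
    rw [setLIntegral_congr (Ioc_ae_eq_Icc.symm)]
    refine setLIntegral_congr_fun measurableSet_Ioc fun x hx => ?_
    unfold sw
    rw [abs_of_pos hx.1]
  have hint : IntervalIntegrable (fun x : ℝ => x ^ (-(1/2) : ℝ)) volume 0 T :=
    intervalIntegral.intervalIntegrable_rpow' (by norm_num)
  rw [h0, ← ofReal_integral_eq_lintegral_ofReal]
  · rw [← intervalIntegral.integral_of_le hT, integral_rpow (Or.inl (by norm_num))]
    congr 1
    rw [Real.zero_rpow (by norm_num), Real.sqrt_eq_rpow]
    norm_num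
    ring
  · exact (intervalIntegrable_iff_integrableOn_Ioc_of_le hT).1 hint
  · filter_upwards [ae_restrict_mem measurableSet_Ioc] with x hx
    exact Real.rpow_nonneg hx.1.le _

lemma sw_int {T : ℝ} (hT : 0 ≤ T) : ∫⁻ x in Icc (-T) T, sw x ≤ ENNReal.ofReal (4 * √T) := by
  have h1 : ∫⁻ x in Icc (-T) 0, sw x = ∫⁻ x in Icc 0 T, sw x := by
    have h := (Measure.measurePreserving_neg (volume : Measure ℝ)).setLIntegral_comp_preimage
      (measurableSet_Icc (a := (0 : ℝ)) (b := T)) measurable_sw
    rw [← h]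
    have e : (fun x : ℝ => -x) ⁻¹' Icc 0 T = Icc (-T) 0 := by
      ext x
      simp only [mem_preimage, mem_Icc]
      constructor
      · rintro ⟨h1, h2⟩; constructor <;> linarith
      · rintro ⟨h1, h2⟩; constructor <;> linarith
    have e2 : (Neg.neg : ℝ → ℝ) ⁻¹' Icc 0 T = Icc (-T) 0 := e
    rw [e2]
    refine setLIntegral_congr_fun measurableSet_Icc fun x _ => ?_
    unfold sw
    rw [abs_neg]
  have h2 : Icc (-T) T ⊆ Icc (-T) 0 ∪ Icc 0 T := by
    intro x hx
    rcases le_total x 0 with h | h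
    · exact Or.inl ⟨hx.1, h⟩
    · exact Or.inr ⟨h, hx.2⟩
  calc ∫⁻ x in Icc (-T) T, sw x ≤ ∫⁻ x in Icc (-T) 0 ∪ Icc 0 T, sw x := lintegral_mono_set h2
    _ ≤ (∫⁻ x in Icc (-T) 0, sw x) + ∫⁻ x in Icc 0 T, sw x := lintegral_union_le _ _ _
    _ = ENNReal.ofReal (4 * √T) := by
        rw [h1, sw_half hT, ← ENNReal.ofReal_add (by positivity) (by positivity)]
        congr 1; ring

/-- A strip on the line. -/
lemma strip_vol {p : ℝ} (hp : p ≠ 0) (q : ℝ) :
    volume {y : ℝ | 0 < p * y - q ∧ p * y - q ≤ 1} ≤ ENNReal.ofReal (1 / |p|) := by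
  have hsub : {y : ℝ | 0 < p * y - q ∧ p * y - q ≤ 1}
      ⊆ Metric.closedBall ((q + 1/2) / p) (1 / (2 * |p|)) := by
    intro y hy
    rw [Metric.mem_closedBall, Real.dist_eq]
    have h1 : y - (q + 1/2) / p = (p * y - q - 1/2) / p := by field_simp; ring
    rw [h1, abs_div, div_le_div_iff₀ (abs_pos.2 hp) (by positivity)]
    have h2 : |p * y - q - 1/2| ≤ 1/2 := by
      rw [abs_le]; constructor <;> linarith [hy.1, hy.2]
    nlinarith [abs_pos.2 hp]
  refine (measure_mono hsub).trans ?_
  rw [Real.volume_closedBall]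
  apply ENNReal.ofReal_le_ofReal
  apply le_of_eq
  have := abs_pos.2 hp
  field_simp

/-- The slice. -/
def slice (T p q : ℝ) : Set (ℝ × ℝ) :=
  {w | |w.1| ≤ T ∧ |w.2| ≤ T ∧ 0 < p * w.2 - w.1 * q ∧ p * w.2 - w.1 * q ≤ 1}

lemma slice_meas (T p q : ℝ) : MeasurableSet (slice T p q) := by
  unfold slice
  have m1 : Measurable (fun w : ℝ × ℝ => |w.1|) := by fun_prop
  have m2 : Measurable (fun w : ℝ × ℝ => |w.2|) := by fun_prop
  have m3 : Measurable (fun w : ℝ × ℝ => p * w.2 - w.1 * q) := by fun_prop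
  exact (measurableSet_le m1 measurable_const).inter ((measurableSet_le m2 measurable_const).inter
    ((measurableSet_lt measurable_const m3).inter (measurableSet_le m3 measurable_const)))

lemma slice_vol1 {T p q : ℝ} (hT : 0 ≤ T) (hp : p ≠ 0) :
    volume (slice T p q) ≤ ENNReal.ofReal (2 * T / |p|) := by
  rw [Measure.volume_eq_prod, Measure.prod_apply (slice_meas T p q)]
  calc ∫⁻ x, volume (Prod.mk x ⁻¹' slice T p q)
      ≤ ∫⁻ x, (Icc (-T) T).indicator (fun _ => ENNReal.ofReal (1 / |p|)) x := by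
        refine lintegral_mono fun x => ?_
        by_cases hx : |x| ≤ T
        · rw [indicator_of_mem (by rw [mem_Icc]; exact abs_le.1 hx)]
          refine le_trans (measure_mono ?_) (strip_vol hp (x * q))
          intro y hy
          exact ⟨hy.2.2.1, hy.2.2.2⟩
        · have : Prod.mk x ⁻¹' slice T p q = ∅ := by
            ext y
            simp only [mem_preimage, mem_empty_iff_false, iff_false]
            intro hy
            exact hx hy.1
          rw [this, measure_empty]
          exact zero_le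
    _ = ENNReal.ofReal (2 * T / |p|) := by
        rw [lintegral_indicator measurableSet_Icc, setLIntegral_const, Real.volume_Icc,
          ← ENNReal.ofReal_mul (by positivity)]
        congr 1; ring

lemma slice_swap (T p q : ℝ) : volume (slice T p q) = volume (slice T (-q) (-p)) := by
  have h := (Measure.measurePreserving_swap (μ := (volume : Measure ℝ)) (ν := (volume : Measure ℝ)))
  have h1 : Prod.swap ⁻¹' slice T (-q) (-p) = slice T p q := by
    ext w
    simp only [mem_preimage, slice, Set.mem_ofPred_eq, Prod.fst_swap, Prod.snd_swap]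
    have : -q * w.1 - w.2 * -p = p * w.2 - w.1 * q := by ring
    rw [this]
    tauto
  rw [← h1]
  exact h.measure_preimage (slice_meas T (-q) (-p)).nullMeasurableSet

lemma slice_vol {T p q : ℝ} (hT : 0 ≤ T) (hp : p ≠ 0) (hq : q ≠ 0) :
    volume (slice T p q) ≤ ENNReal.ofReal (2 * T) * (sw p * sw q) := by
  have h1 := slice_vol1 (q := q) hT hp
  have h2 : volume (slice T p q) ≤ ENNReal.ofReal (2 * T / |q|) := by
    rw [slice_swap]
    have := slice_vol1 (T := T) (p := -q) (q := -p) hT (neg_ne_zero.2 hq)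
    rwa [abs_neg] at this
  unfold sw
  rw [← ENNReal.ofReal_mul (by positivity), ← ENNReal.ofReal_mul (by positivity)]
  have hp' := abs_pos.2 hp
  have hq' := abs_pos.2 hq
  have hs1 : |p| ^ (-(1/2) : ℝ) = 1 / √|p| := by
    rw [Real.rpow_neg hp'.le, ← Real.sqrt_eq_rpow, one_div]
  have hs2 : |q| ^ (-(1/2) : ℝ) = 1 / √|q| := by
    rw [Real.rpow_neg hq'.le, ← Real.sqrt_eq_rpow, one_div]
  rw [hs1, hs2]
  have sp := Real.sqrt_pos.2 hp'
  have sq := Real.sqrt_pos.2 hq'
  have spp := Real.mul_self_sqrt hp'.le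
  have sqq := Real.mul_self_sqrt hq'.le
  rcases le_total |p| |q| with h | h
  · refine h2.trans (ENNReal.ofReal_le_ofReal ?_)
    have h3 : √|p| ≤ √|q| := Real.sqrt_le_sqrt h
    have h4 : 1 / |q| ≤ 1 / √|p| * (1 / √|q|) := by
      rw [one_div_mul_one_div]
      apply one_div_le_one_div_of_le (by positivity)
      nlinarith
    calc 2 * T / |q| = 2 * T * (1 / |q|) := by ring
      _ ≤ _ := mul_le_mul_of_nonneg_left h4 (by positivity)
  · refine h1.trans (ENNReal.ofReal_le_ofReal ?_)
    have h3 : √|q| ≤ √|p| := Real.sqrt_le_sqrt h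
    have h4 : 1 / |p| ≤ 1 / √|p| * (1 / √|q|) := by
      rw [one_div_mul_one_div]
      apply one_div_le_one_div_of_le (by positivity)
      nlinarith
    calc 2 * T / |p| = 2 * T * (1 / |p|) := by ring
      _ ≤ _ := mul_le_mul_of_nonneg_left h4 (by positivity)

/-- The four dimensional region. -/
def reg (T : ℝ) : Set ((ℝ × ℝ) × (ℝ × ℝ)) :=
  {w | |w.1.1| ≤ T ∧ |w.1.2| ≤ T ∧ w.2 ∈ slice T w.1.1 w.1.2}

lemma reg_meas (T : ℝ) : MeasurableSet (reg T) := by
  unfold reg slice
  have m1 : Measurable (fun w : (ℝ × ℝ) × (ℝ × ℝ) => |w.1.1|) := by fun_prop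
  have m2 : Measurable (fun w : (ℝ × ℝ) × (ℝ × ℝ) => |w.1.2|) := by fun_prop
  have m3 : Measurable (fun w : (ℝ × ℝ) × (ℝ × ℝ) => |w.2.1|) := by fun_prop
  have m4 : Measurable (fun w : (ℝ × ℝ) × (ℝ × ℝ) => |w.2.2|) := by fun_prop
  have m5 : Measurable (fun w : (ℝ × ℝ) × (ℝ × ℝ) => w.1.1 * w.2.2 - w.2.1 * w.1.2) := by fun_prop
  exact (measurableSet_le m1 measurable_const).inter ((measurableSet_le m2 measurable_const).inter
    ((measurableSet_le m3 measurable_const).inter ((measurableSet_le m4 measurable_const).inter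
    ((measurableSet_lt measurable_const m5).inter (measurableSet_le m5 measurable_const)))))

lemma reg_vol {T : ℝ} (hT : 0 ≤ T) : volume (reg T) ≤ ENNReal.ofReal (32 * T ^ 2) := by
  rw [Measure.volume_eq_prod, Measure.prod_apply (reg_meas T)]
  have hae : ∀ᵐ v : ℝ × ℝ, v.1 ≠ 0 ∧ v.2 ≠ 0 := by
    have h1 : ∀ᵐ x : ℝ, x ≠ 0 := by
      rw [ae_iff]; simp
    have a1 : ∀ᵐ v : ℝ × ℝ, v.1 ≠ 0 := Measure.quasiMeasurePreserving_fst.ae h1
    have a2 : ∀ᵐ v : ℝ × ℝ, v.2 ≠ 0 := Measure.quasiMeasurePreserving_snd.ae h1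
    filter_upwards [a1, a2] with v h2 h3
    exact ⟨h2, h3⟩
  calc ∫⁻ v : ℝ × ℝ, volume (Prod.mk v ⁻¹' reg T)
      ≤ ∫⁻ v : ℝ × ℝ, ENNReal.ofReal (2 * T) * ((Icc (-T) T).indicator sw v.1
        * (Icc (-T) T).indicator sw v.2) := by
        refine lintegral_mono_ae ?_
        filter_upwards [hae] with v hv
        by_cases h1 : |v.1| ≤ T
        · by_cases h2 : |v.2| ≤ T
          · rw [indicator_of_mem (by rw [mem_Icc]; exact abs_le.1 h1),
              indicator_of_mem (by rw [mem_Icc]; exact abs_le.1 h2)]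
            refine le_trans (measure_mono ?_) (slice_vol hT hv.1 hv.2)
            intro w hw
            exact hw.2.2
          · have : Prod.mk v ⁻¹' reg T = ∅ := by
              ext y
              simp only [mem_preimage, mem_empty_iff_false, iff_false]
              intro hy
              exact h2 hy.2.1
            rw [this, measure_empty]; exact zero_le
        · have : Prod.mk v ⁻¹' reg T = ∅ := by
            ext y
            simp only [mem_preimage, mem_empty_iff_false, iff_false]
            intro hy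
            exact h1 hy.1
          rw [this, measure_empty]; exact zero_le
    _ = ENNReal.ofReal (2 * T) * ((∫⁻ x in Icc (-T) T, sw x) * ∫⁻ x in Icc (-T) T, sw x) := by
        have hm : Measurable ((Icc (-T) T).indicator sw) := measurable_sw.indicator measurableSet_Icc
        have hm2 : Measurable (fun v : ℝ × ℝ => (Icc (-T) T).indicator sw v.1
          * (Icc (-T) T).indicator sw v.2) := (hm.comp measurable_fst).mul (hm.comp measurable_snd)
        rw [lintegral_const_mul _ hm2,
          Measure.volume_eq_prod, lintegral_prod_mul hm.aemeasurable hm.aemeasurable,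
          lintegral_indicator measurableSet_Icc]
    _ ≤ ENNReal.ofReal (2 * T) * (ENNReal.ofReal (4 * √T) * ENNReal.ofReal (4 * √T)) := by
        gcongr <;> exact sw_int hT
    _ = ENNReal.ofReal (32 * T ^ 2) := by
        rw [← ENNReal.ofReal_mul (by positivity), ← ENNReal.ofReal_mul (by positivity)]
        congr 1
        have := Real.mul_self_sqrt hT
        calc 2 * T * (4 * √T * (4 * √T)) = 32 * T * (√T * √T) := by ring
          _ = _ := by rw [this]; ring

/-- Quadratic growth. -/
lemma mH_ball_sq {T : ℝ} (hT : 0 ≤ T) : mH.real {g | nS g ≤ T} ≤ 32 * T ^ 2 := by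
  have hm : MeasurableSet {g : SL2R | nS g ≤ T} := measurableSet_le measurable_nS measurable_const
  have h1 : mH {g | nS g ≤ T} ≤ ENNReal.ofReal (32 * T ^ 2) := by
    unfold mH
    rw [Measure.map_apply measurable_rn hm, Measure.restrict_apply (measurable_rn hm)]
    have hp := (volume_preserving_finTwoArrow ℝ).prod (volume_preserving_finTwoArrow ℝ)
    have hsub : rn ⁻¹' {g | nS g ≤ T} ∩ cone
        ⊆ (Prod.map (MeasurableEquiv.finTwoArrow (α := ℝ)) (MeasurableEquiv.finTwoArrow (α := ℝ)))
          ⁻¹' reg T := by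
      rintro c ⟨h1, h2⟩
      obtain ⟨q1, q2, q3, q4⟩ := sqrt_rn_bound h2 T h1
      exact ⟨q1, q2, q3, q4, h2.1, h2.2⟩
    refine (measure_mono hsub).trans ?_
    have h3 := hp.measure_preimage (reg_meas T).nullMeasurableSet
    rw [Measure.volume_eq_prod]
    rw [h3]
    exact reg_vol hT
  unfold Measure.real
  refine (ENNReal.toReal_mono ENNReal.ofReal_ne_top h1).trans ?_
  rw [ENNReal.toReal_ofReal (by positivity)]

end Pool.Agent.IRS
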