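import Mathlib
import Pool.Agent.IRS.Lim
import Pool.Agent.IRS.Vol
import Pool.Agent.IRS.Dyad
import Pool.Agent.IRS.Param

/-!
# The energy theorem
-/

set_option autoImplicit false
set_option linter.unusedVariables false
set_option linter.unusedSectionVars false

namespace Pool.Agent.IRS

open MeasureTheory Matrix Filter Topology

/-- The universal scale. -/
noncomputable def eps0 : ℝ := 1 / (1 + 512 * Kc)

lemma eps0_pos : 0 < eps0 := by
  unfold eps0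
  have := Kc_pos
  positivity

lemma eps0_le : eps0 ≤ 1 := by
  unfold eps0
  have := Kc_pos
  rw [div_le_one (by positivity)]
  linarith

lemma eps0_sq : 64 * Kc * eps0 ^ 2 ≤ 1 / 8 := by
  have hK := Kc_pos
  have h0 := eps0_pos
  have h1 := eps0_le
  have h2 : eps0 ^ 2 ≤ eps0 := by nlinarith
  have h3 : 512 * Kc * eps0 ≤ 1 := by
    unfold eps0
    rw [mul_one_div, div_le_one (by positivity)]
    linarith
  nlinarith

section act

variable {Z : Type*} [MeasurableSpace Z] {ζ : Measure Z} [SigmaFinite ζ] {a b : PAct SL2R ζ}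
  (hab : ∀ g h z, a.τ g (b.τ h z) = b.τ h (a.τ g z))
include hab

/-- The total energy of the iterates. -/
noncomputable def ee (a b : PAct SL2R ζ) (f : BL2 ζ) (s : ℕ) : ℝ :=
  a.E nuM (it a b f s) + b.E nuM (it a b f s)

omit hab in
lemma ee_nonneg (f : BL2 ζ) (s : ℕ) : 0 ≤ ee a b f s :=
  add_nonneg (a.E_nonneg _ _) (b.E_nonneg _ _)

lemma ee_anti (f : BL2 ζ) : Antitone (ee a b f) := by
  have hcp := PAct.cpair (a := a) (b := b) nuM hab
  refine antitone_nat_of_succ_le fun s => ?_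
  unfold ee
  rw [it_succ, ← a.ea_eq, ← a.ea_eq, ← b.ea_eq, ← b.ea_eq]
  refine add_le_add (hcp.ea_step _) ?_
  rw [hcp.cPQ]
  exact hcp.swap.ea_step _

lemma it_swap (f : BL2 ζ) (s : ℕ) : it b a f s = it a b f s := by
  unfold it
  rw [(PAct.P_comm nuM hab).eq]

/-- The mixed energy decays. -/
lemma em_it_le (f : BL2 ζ) (r : ℕ) :
    2 * CPair.em (frm ζ) (a.P nuM) (b.P nuM) (it a b f (2 * r)) ≤ ee a b f r / (2 * r + 1) := by
  have hcp := PAct.cpair (a := a) (b := b) nuM hab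
  have h1 := hcp.em_decay r (it a b f r)
  have h2 := hcp.swap.em_decay r (it a b f r)
  have e1 : ((a.P nuM * b.P nuM) ^ r) (it a b f r) = it a b f (2 * r) := by
    rw [it_add]; congr 1; omega
  have e2 : ((b.P nuM * a.P nuM) ^ r) (it a b f r) = it a b f (2 * r) := by
    rw [← e1, hcp.comm.eq]
  rw [e1] at h1
  rw [e2, ← hcp.em_comm] at h2
  rw [a.ea_eq] at h1
  rw [b.ea_eq] at h2
  rw [le_div_iff₀ (by positivity)]
  push_cast at h1 h2
  unfold ee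
  linarith

/-- The energy theorem. -/
theorem energy_aux (f : BL2 ζ) {A C n0 β η : ℝ} {k0 : ℕ} (hβ : 1 / 8 ≤ β) (hβ' : β < 1 / 2)
    (hn0 : 0 < n0)
    (hpar : ∀ k ≥ k0, ∃ T : ℝ, 2 ≤ T ∧
      (64 * Kc * 3200) * (T ^ 2 * (1 + Real.log T) ^ 2) / 2 ^ k ≤ 1 / 8 ∧
      (3 * Kc) * (C * T ^ (-A)) < n0 * (1 - 2 * β) / 16 * β ^ (k + 1))
    (hη1 : 2 ^ (k0 + 2) * η ≤ n0 / 16) (hη2 : η ≤ n0 * (1 - 2 * β) / 16 * β ^ (k0 + 1))
    (Y : ℝ → Set Z) (hY : ∀ T, MeasurableSet (Y T))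
    (hret : ∀ T, 2 ≤ T → ∀ z ∈ Y T, Ret a b eps0 T z ∧ Ret b a eps0 T z)
    (htail : ∀ s : ℕ, ∀ T, 2 ≤ T → ∀ c : SL2R, nS c ≤ 3 →
      ∫ z in (Y T)ᶜ, ((it a b f (s + 1) : BL2 ζ) : Z → ℝ) (a.τ c z) ^ 2 ∂ζ ≤ C * T ^ (-A) ∧
      ∫ z in (Y T)ᶜ, ((it a b f (s + 1) : BL2 ζ) : Z → ℝ) (b.τ c z) ^ 2 ∂ζ ≤ C * T ^ (-A))
    (hlim : Tendsto (NN a b f) atTop (𝓝 0)) (hE : a.E nuM f + b.E nuM f ≤ η) :
    NN a b f 0 < n0 := by
  by_contra hcon
  push Not at hcon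
  obtain ⟨k, hk, h1, h2⟩ := dyadic (ee a b f) (NN a b f) (ee_anti hab f) (ee_nonneg f)
    (fun s => NN_drop_le hab f s) hlim hn0 hcon hβ hβ' k0 hE hη1 hη2
  obtain ⟨T, hT, hp1, hp2⟩ := hpar k (by omega)
  set s : ℕ := 2 ^ k with hs
  set r : ℕ := 2 ^ (k - 1) with hr
  have hsr : s = 2 * r := by
    rw [hs, hr, ← pow_succ']; congr 1; omega
  have hanti := ee_anti hab f
  have hba : ∀ g h z, b.τ g (a.τ h z) = a.τ h (b.τ g z) := fun g h z => (hab h g z).symm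
  have hcp := PAct.cpair (a := a) (b := b) nuM hab
  have s1 := step hab (it a b f s) (ε := eps0) (T := T) (τ := C * T ^ (-A)) eps0_pos.le eps0_le hT
    (hY T) (fun z hz => (hret T hT z hz).1) (fun c hc => by
      have := (htail s T hT c hc).1
      rw [it_succ] at this
      exact this)
  have s2 := step hba (it a b f s) (ε := eps0) (T := T) (τ := C * T ^ (-A)) eps0_pos.le eps0_le hT
    (hY T) (fun z hz => (hret T hT z hz).2) (fun c hc => by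
      have := (htail s T hT c hc).2
      rw [it_succ, hcp.cPQ] at this
      exact this)
  rw [← hcp.cPQ, ← it_succ, ← hcp.em_comm] at s2
  rw [← it_succ] at s1
  have h3 := em_it_le hab f r
  rw [← hsr] at h3
  set e := ee a b f with he
  set m := CPair.em (frm ζ) (a.P nuM) (b.P nuM) (it a b f s) with hm
  set τ := C * T ^ (-A) with hτ
  have hKc := Kc_pos
  have hsum : e (s + 1) ≤ Kc * (eps0 ^ 2 * e s + VT T * (1 + Real.log T) ^ 2 * (2 * m) + 2 * τ) := by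
    have : e (s + 1) = a.E nuM (it a b f (s + 1)) + b.E nuM (it a b f (s + 1)) := rfl
    rw [this]
    have h4 : e s = a.E nuM (it a b f s) + b.E nuM (it a b f s) := rfl
    rw [h4]
    calc _ ≤ _ := add_le_add s1 s2
      _ = _ := by ring
  have h5 : e s ≤ e r := hanti (by omega)
  have h6 : e (2 ^ (k + 1)) ≤ e (s + 1) := by
    apply hanti
    rw [hs, pow_succ]
    have : 1 ≤ 2 ^ k := Nat.one_le_two_pow
    omega
  have h7 : e r ≤ 64 * e (s + 1) := by linarith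
  have hT0 : 0 ≤ T := by linarith
  have hV : VT T ≤ 3200 * T ^ 2 := by
    unfold VT
    refine (mH_ball_sq (by positivity)).trans (le_of_eq ?_)
    ring
  have hE0 : 0 ≤ e (s + 1) := ee_nonneg f _
  have her : 0 ≤ e r := ee_nonneg f _
  have hl : 0 ≤ 1 + Real.log T := by linarith [Real.log_nonneg (by linarith : (1 : ℝ) ≤ T)]
  have h8 : VT T * (1 + Real.log T) ^ 2 * (2 * m)
      ≤ 64 * (3200 * (T ^ 2 * (1 + Real.log T) ^ 2) / 2 ^ k) * e (s + 1) := by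
    have h9 : (2 : ℝ) ^ k = 2 * r := by
      have := congrArg (fun n : ℕ => (n : ℝ)) hsr
      simp only [hs] at this
      push_cast at this
      exact this
    have hr0 : (0 : ℝ) < 2 * r := by rw [← h9]; positivity
    calc VT T * (1 + Real.log T) ^ 2 * (2 * m)
        ≤ VT T * (1 + Real.log T) ^ 2 * (e r / (2 * r + 1)) :=
          mul_le_mul_of_nonneg_left h3 (mul_nonneg (VT_nonneg T) (sq_nonneg _))
      _ ≤ (3200 * T ^ 2) * (1 + Real.log T) ^ 2 * (e r / (2 * r)) := by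
          gcongr
          linarith
      _ ≤ (3200 * T ^ 2) * (1 + Real.log T) ^ 2 * (64 * e (s + 1) / (2 * r)) := by
          gcongr
      _ = 64 * (3200 * (T ^ 2 * (1 + Real.log T) ^ 2) / 2 ^ k) * e (s + 1) := by
          rw [h9]; ring
  have h10 : Kc * (eps0 ^ 2 * e s) ≤ 1 / 8 * e (s + 1) := by
    have h11 : eps0 ^ 2 * e s ≤ eps0 ^ 2 * (64 * e (s + 1)) :=
      mul_le_mul_of_nonneg_left (h5.trans h7) (sq_nonneg _)
    have h12 := eps0_sq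
    calc Kc * (eps0 ^ 2 * e s) ≤ Kc * (eps0 ^ 2 * (64 * e (s + 1))) :=
          mul_le_mul_of_nonneg_left h11 hKc.le
      _ = (64 * Kc * eps0 ^ 2) * e (s + 1) := by ring
      _ ≤ 1 / 8 * e (s + 1) := mul_le_mul_of_nonneg_right h12 hE0
  have h13 : Kc * (VT T * (1 + Real.log T) ^ 2 * (2 * m)) ≤ 1 / 8 * e (s + 1) := by
    calc Kc * (VT T * (1 + Real.log T) ^ 2 * (2 * m))
        ≤ Kc * (64 * (3200 * (T ^ 2 * (1 + Real.log T) ^ 2) / 2 ^ k) * e (s + 1)) :=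
          mul_le_mul_of_nonneg_left h8 hKc.le
      _ = ((64 * Kc * 3200) * (T ^ 2 * (1 + Real.log T) ^ 2) / 2 ^ k) * e (s + 1) := by ring
      _ ≤ 1 / 8 * e (s + 1) := mul_le_mul_of_nonneg_right hp1 hE0
  have h14 : e (s + 1) ≤ 3 * Kc * τ := by linarith
  linarith

end act

/-- The energy theorem with all constants chosen. -/
theorem energy {A C n0 : ℝ} (hA : 2 < A) (hn0 : 0 < n0) :
    ∃ η : ℝ, 0 < η ∧ ∀ (Z : Type) [MeasurableSpace Z] (ζ : Measure Z) [SigmaFinite ζ]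
      (a b : PAct SL2R ζ) (hab : ∀ g h z, a.τ g (b.τ h z) = b.τ h (a.τ g z)) (f : BL2 ζ)
      (Y : ℝ → Set Z) (hY : ∀ T, MeasurableSet (Y T))
      (hret : ∀ T, 2 ≤ T → ∀ z ∈ Y T, Ret a b eps0 T z ∧ Ret b a eps0 T z)
      (htail : ∀ s : ℕ, ∀ T, 2 ≤ T → ∀ c : SL2R, nS c ≤ 3 →
        ∫ z in (Y T)ᶜ, ((it a b f (s + 1) : BL2 ζ) : Z → ℝ) (a.τ c z) ^ 2 ∂ζ ≤ C * T ^ (-A) ∧
        ∫ z in (Y T)ᶜ, ((it a b f (s + 1) : BL2 ζ) : Z → ℝ) (b.τ c z) ^ 2 ∂ζ ≤ C * T ^ (-A))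
      (hinv : ∀ w : BL2 ζ, (∀ g, ((a.T g w : BL2 ζ) : Z → ℝ) =ᵐ[ζ] (w : Z → ℝ)) →
        (∀ g, ((b.T g w : BL2 ζ) : Z → ℝ) =ᵐ[ζ] (w : Z → ℝ)) →
        ∫ z, (f : Z → ℝ) z * (w : Z → ℝ) z ∂ζ = 0)
      (hE : a.E nuM f + b.E nuM f ≤ η), ∫ z, (f : Z → ℝ) z ^ 2 ∂ζ < n0 := by
  have hKc := Kc_pos
  obtain ⟨β, hβ, hβ', k0, hpar⟩ := choose_params hA hn0 C (64 * Kc * 3200) (3 * Kc)
    (by positivity)
  have hb : 0 < 1 - 2 * β := by linarith
  have hβ0 : 0 < β := by linarith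
  refine ⟨min (n0 / 16 / 2 ^ (k0 + 2)) (n0 * (1 - 2 * β) / 16 * β ^ (k0 + 1)), by positivity, ?_⟩
  intro Z _ ζ _ a b hab f Y hY hret htail hinv hE
  have h1 := energy_aux hab f hβ hβ' hn0 hpar
    (η := min (n0 / 16 / 2 ^ (k0 + 2)) (n0 * (1 - 2 * β) / 16 * β ^ (k0 + 1))) ?_
    (min_le_right _ _) Y hY hret htail (NN_tendsto hab f hinv) hE
  · have h2 : NN a b f 0 = ∫ z, (f : Z → ℝ) z ^ 2 ∂ζ := by
      unfold NN
      rw [it_zero, frm_self]
    rwa [h2] at h1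
  · have h3 := min_le_left (n0 / 16 / 2 ^ (k0 + 2)) (n0 * (1 - 2 * β) / 16 * β ^ (k0 + 1))
    rw [le_div_iff₀ (by positivity)] at h3
    linarith

end Pool.Agent.IRS

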