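import Mathlib
import Pool.Agent.IRS.Haar
import Pool.Agent.IRS.Chab

/-!
# PSL(2,R), the product group, and conjugation of closed subgroups
-/

set_option autoImplicit false

namespace Pool.Agent.IRS

open MeasureTheory Matrix Set TopologicalSpace

/-- PSL(2,R). -/
abbrev PSL2R := Matrix.ProjectiveSpecialLinearGroup (Fin 2) ℝ

/-- The group G = PSL(2,R) x PSL(2,R). -/
abbrev GG := PSL2R × PSL2R

/-- The quotient map. -/
def pr : SL2R →* PSL2R := QuotientGroup.mk' (Subgroup.center SL2R)

lemma continuous_pr : Continuous pr := QuotientGroup.continuous_mk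
lemma isOpenMap_pr : IsOpenMap pr := QuotientGroup.isOpenMap_coe
lemma pr_surj : Function.Surjective pr := QuotientGroup.mk'_surjective _

instance : LocallyCompactSpace SL2R := by
  have h1 : IsClosed {A : Matrix (Fin 2) (Fin 2) ℝ | A.det = 1} :=
    isClosed_eq (continuous_id.matrix_det) continuous_const
  have h2 : LocallyCompactSpace (Matrix (Fin 2) (Fin 2) ℝ) :=
    inferInstanceAs (LocallyCompactSpace (Fin 2 → Fin 2 → ℝ))
  have h3 : Topology.IsClosedEmbedding (Subtype.val : {A : Matrix (Fin 2) (Fin 2) ℝ | A.det = 1} → _) :=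
    h1.isClosedEmbedding_subtypeVal
  exact h3.locallyCompactSpace

instance : SecondCountableTopology PSL2R :=
  inferInstanceAs (SecondCountableTopology (SL2R ⧸ Subgroup.center SL2R))

instance : LocallyCompactSpace PSL2R :=
  inferInstanceAs (LocallyCompactSpace (SL2R ⧸ Subgroup.center SL2R))

instance : T2Space PSL2R := by
  have h1 : IsClosed (Subgroup.center SL2R : Set SL2R) := by
    have : (Subgroup.center SL2R : Set SL2R) = ⋂ g : SL2R, {z | g * z = z * g} := by
      ext z
      simp [Subgroup.mem_center_iff]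
    rw [this]
    exact isClosed_iInter fun g => isClosed_eq (continuous_const.mul continuous_id)
      (continuous_id.mul continuous_const)
  have : IsClosed (Subgroup.center SL2R : Set SL2R) := h1
  have h2 : T3Space (SL2R ⧸ Subgroup.center SL2R) := inferInstance
  exact (inferInstance : T2Space (SL2R ⧸ Subgroup.center SL2R))

/-- Conjugate of a closed subgroup. -/
def conj {G : Type*} [Group G] [TopologicalSpace G] [IsTopologicalGroup G] (g : G)
    (H : ClosedSubgroup G) : ClosedSubgroup G where
  toSubgroup := H.toSubgroup.map (MulAut.conj g).toMonoidHom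
  isClosed' := by
    have h1 : ((H.toSubgroup.map (MulAut.conj g).toMonoidHom : Subgroup G) : Set G)
        = (fun x => g⁻¹ * x * g) ⁻¹' (H.toSubgroup : Set G) := by
      ext x
      constructor
      · rintro ⟨y, hy, rfl⟩
        simp only [mem_preimage]
        have : g⁻¹ * ((MulAut.conj g).toMonoidHom y) * g = y := by simp [MulAut.conj_apply, mul_assoc]
        rw [this]; exact hy
      · intro hx
        exact ⟨g⁻¹ * x * g, hx, by simp [MulAut.conj_apply, mul_assoc]⟩
    change IsClosed ((H.toSubgroup.map (MulAut.conj g).toMonoidHom : Subgroup G) : Set G)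
    rw [h1]
    have hc : Continuous (fun x : G => g⁻¹ * x * g) := by fun_prop
    exact H.isClosed'.preimage hc

section conj

variable {G : Type*} [Group G] [TopologicalSpace G] [IsTopologicalGroup G]

lemma mem_conj {g x : G} {H : ClosedSubgroup G} : x ∈ (conj g H : Set G) ↔ g⁻¹ * x * g ∈ (H : Set G) := by
  constructor
  · rintro ⟨y, hy, rfl⟩
    have : g⁻¹ * ((MulAut.conj g).toMonoidHom y) * g = y := by simp [MulAut.conj_apply, mul_assoc]
    rw [this]; exact hy
  · intro hx
    exact ⟨g⁻¹ * x * g, hx, by simp [MulAut.conj_apply, mul_assoc]⟩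

omit [IsTopologicalGroup G] in
lemma CS_ext {H K : ClosedSubgroup G} (h : ∀ x, x ∈ (H : Set G) ↔ x ∈ (K : Set G)) : H = K := by
  apply SetLike.coe_injective
  ext x; exact h x

lemma conj_one (H : ClosedSubgroup G) : conj (1 : G) H = H := by
  apply CS_ext; intro x; rw [mem_conj]; simp

lemma conj_mul (g h : G) (H : ClosedSubgroup G) : conj (g * h) H = conj g (conj h H) := by
  apply CS_ext; intro x; rw [mem_conj, mem_conj, mem_conj]
  simp [mul_assoc]

lemma conj_self {g : G} {H : ClosedSubgroup G} (hg : g ∈ (H : Set G)) : conj g H = H := by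
  apply CS_ext; intro x; rw [mem_conj]
  constructor
  · intro hx
    have h1 := H.mul_mem (H.mul_mem hg hx) (H.inv_mem hg)
    have h2 : g * (g⁻¹ * x * g) * g⁻¹ = x := by group
    rw [h2] at h1; exact h1
  · intro hx
    exact H.mul_mem (H.mul_mem (H.inv_mem hg) hx) hg

/-- Joint measurability of conjugation through a continuous homomorphism. -/
lemma measurable_conj [SecondCountableTopology G] [LocallyCompactSpace G] [T2Space G]
    {M : Type*} [TopologicalSpace M] [MeasurableSpace M] [OpensMeasurableSpace M] {j : M → G}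
    (hj : Continuous j) : Measurable (fun p : M × ClosedSubgroup G => conj (j p.1) p.2) := by
  refine measurable_to_CS fun U hU => ?_
  have hΦ : Continuous (fun p : M × G => j p.1 * p.2 * (j p.1)⁻¹) := by fun_prop
  have h1 := hit_prod_meas hΦ hU
  have h2 : {p : M × ClosedSubgroup G | ((conj (j p.1) p.2 : Set G) ∩ U).Nonempty}
      = (fun p : M × ClosedSubgroup G => (p.1, toCL p.2)) ⁻¹'
        {p : M × CL G | ∃ c ∈ p.2.1, j p.1 * c * (j p.1)⁻¹ ∈ U} := by
    ext ⟨m, H⟩
    constructor
    · rintro ⟨x, hx, hxU⟩
      rw [mem_conj] at hx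
      refine ⟨(j m)⁻¹ * x * j m, hx, ?_⟩
      have : j m * ((j m)⁻¹ * x * j m) * (j m)⁻¹ = x := by group
      simp only
      rw [this]; exact hxU
    · rintro ⟨c, hc, hcU⟩
      refine ⟨j m * c * (j m)⁻¹, ?_, hcU⟩
      simp only
      rw [mem_conj]
      have : (j m)⁻¹ * (j m * c * (j m)⁻¹) * j m = c := by group
      rw [this]; exact hc
  rw [h2]
  exact (measurable_fst.prodMk (measurable_toCL.comp measurable_snd)) h1

end conj

end Pool.Agent.IRS
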