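import Mathlib
import Pool.Agent.IRS.Psl
import Pool.Agent.IRS.Energy
import Pool.Agent.IRS.Strict
import Pool.Agent.IRS.Qs

/-!
# Invariant random subgroups of PSL(2,R) x PSL(2,R)
-/

set_option autoImplicit false

namespace Pool.Agent.IRS

open MeasureTheory Matrix Set

/-- An invariant random subgroup: a probability measure on the closed subgroups (with the Borel
sets of the Chabauty topology) which is invariant under conjugation. -/
structure IsIRS (μ : Measure (ClosedSubgroup GG)) : Prop where
  prob : IsProbabilityMeasure μ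
  inv : ∀ g : GG, μ.map (conj g) = μ

/-- Ergodicity: conjugation invariant Borel sets have measure zero or one. -/
def IsErg (μ : Measure (ClosedSubgroup GG)) : Prop :=
  ∀ S : Set (ClosedSubgroup GG), MeasurableSet S → (∀ g H, conj g H ∈ S ↔ H ∈ S) →
    μ S = 0 ∨ μ S = 1

/-- Both projections are dense. -/
def Irred (H : ClosedSubgroup GG) : Prop :=
  Dense (Prod.fst '' (H : Set GG)) ∧ Dense (Prod.snd '' (H : Set GG))

/-- The quantitative form of irreducibility: for every `X` in SL(2,R) with `|X| ≤ 3` there is an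
element of `H` whose first coordinate is represented by a matrix `ε`-close to `X` and whose
second coordinate is represented by a matrix of norm at most `T`; and the same with the two
factors exchanged.  The norm is the sum of the absolute values of the entries. -/
def TDense (ε T : ℝ) (H : ClosedSubgroup GG) : Prop :=
  ∀ X : SL2R, nS X ≤ 3 →
    (∃ A B : SL2R, (pr A, pr B) ∈ (H : Set GG) ∧
      nM ((A : Matrix (Fin 2) (Fin 2) ℝ) - X) ≤ ε ∧ nS B ≤ T) ∧
    (∃ A B : SL2R, (pr A, pr B) ∈ (H : Set GG) ∧ nS A ≤ T ∧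
      nM ((B : Matrix (Fin 2) (Fin 2) ℝ) - X) ≤ ε)

/-- The inclusion of the first factor. -/
noncomputable def i1 (g : SL2R) : GG := (pr g, 1)
/-- The inclusion of the second factor. -/
noncomputable def i2 (g : SL2R) : GG := (1, pr g)

lemma i1_mul (g h : SL2R) : i1 (g * h) = i1 g * i1 h := by simp [i1]
lemma i2_mul (g h : SL2R) : i2 (g * h) = i2 g * i2 h := by simp [i2]
lemma i1_one : i1 1 = 1 := by simp [i1]
lemma i2_one : i2 1 = 1 := by simp [i2]
lemma i12_comm (g h : SL2R) : i1 g * i2 h = i2 h * i1 g := by simp [i1, i2]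
lemma continuous_i1 : Continuous i1 := by
  unfold i1; exact continuous_pr.prodMk continuous_const
lemma continuous_i2 : Continuous i2 := by
  unfold i2; exact continuous_const.prodMk continuous_pr

section act

variable {μ : Measure (ClosedSubgroup GG)} (hμ : IsIRS μ)

/-- The quotient map of the products. -/
noncomputable def pp (g : SL2R × SL2R) : GG := (pr g.1, pr g.2)

lemma continuous_pp : Continuous pp :=
  (continuous_pr.comp continuous_fst).prodMk (continuous_pr.comp continuous_snd)

lemma pp_surj : Function.Surjective pp := by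
  rintro ⟨x, y⟩
  obtain ⟨x', hx⟩ := pr_surj x
  obtain ⟨y', hy⟩ := pr_surj y
  exact ⟨(x', y'), by simp [pp, hx, hy]⟩

lemma pp_mul (g h : SL2R × SL2R) : pp (g * h) = pp g * pp h := by simp [pp]
lemma pp_one : pp 1 = 1 := by simp [pp]
lemma pp_inv (g : SL2R × SL2R) : pp g⁻¹ = (pp g)⁻¹ := by simp [pp]

lemma conj_pp_meas : Measurable (fun p : (SL2R × SL2R) × ClosedSubgroup GG => conj (pp p.1) p.2) :=
  measurable_conj (G := GG) (M := SL2R × SL2R) (j := pp) continuous_pp

lemma conj_pp_meas' (g' : SL2R × SL2R) :
    Measurable (fun H : ClosedSubgroup GG => conj (pp g') H) := by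
  have h2 : Measurable (fun H : ClosedSubgroup GG => ((g', H) : (SL2R × SL2R) × ClosedSubgroup GG)) :=
    measurable_const.prodMk measurable_id
  have h3 := conj_pp_meas.comp h2
  exact h3

lemma conj_meas (g : GG) : Measurable (fun H : ClosedSubgroup GG => conj g H) := by
  obtain ⟨g', hg⟩ := pp_surj g
  rw [← hg]
  exact conj_pp_meas' g'

/-- The action of the first factor by conjugation. -/
noncomputable def act1 : PAct SL2R μ where
  τ g H := conj (i1 g) H
  one H := by rw [i1_one, conj_one]
  mul g h H := by rw [i1_mul, conj_mul]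
  meas := measurable_conj continuous_i1
  mp g := ⟨conj_meas _, hμ.inv _⟩

/-- The action of the second factor by conjugation. -/
noncomputable def act2 : PAct SL2R μ where
  τ g H := conj (i2 g) H
  one H := by rw [i2_one, conj_one]
  mul g h H := by rw [i2_mul, conj_mul]
  meas := measurable_conj continuous_i2
  mp g := ⟨conj_meas _, hμ.inv _⟩

lemma act_comm (g h : SL2R) (H : ClosedSubgroup GG) :
    (act1 hμ).τ g ((act2 hμ).τ h H) = (act2 hμ).τ h ((act1 hμ).τ g H) := by
  change conj (i1 g) (conj (i2 h) H) = conj (i2 h) (conj (i1 g) H)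
  rw [← conj_mul, ← conj_mul, i12_comm]

/-- The joint action. -/
noncomputable def act12 : PAct (SL2R × SL2R) μ where
  τ g H := conj (pp g) H
  one H := by rw [pp_one, conj_one]
  mul g h H := by rw [pp_mul, conj_mul]
  meas := measurable_conj continuous_pp
  mp g := ⟨conj_meas _, hμ.inv _⟩

/-- Density gives returns. -/
lemma ret_of_dense {ε T : ℝ} {H : ClosedSubgroup GG} (h : TDense ε T H) :
    Ret (act1 hμ) (act2 hμ) ε T H ∧ Ret (act2 hμ) (act1 hμ) ε T H := by
  constructor
  · intro X hX
    obtain ⟨⟨A, B, hAB, hA, hB⟩, _⟩ := h X hX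
    refine ⟨A, B⁻¹, ?_, hA, by rw [nS_inv]; exact hB⟩
    change conj (i1 A) H = conj (i2 B⁻¹) H
    have h1 : i2 B * i1 A = (pr A, pr B) := by simp [i1, i2]
    have h2 : conj (i2 B * i1 A) H = H := by rw [h1]; exact conj_self hAB
    rw [conj_mul] at h2
    conv_rhs => rw [← h2]
    rw [← conj_mul, ← i2_mul, inv_mul_cancel, i2_one, conj_one]
  · intro X hX
    obtain ⟨_, ⟨A, B, hAB, hA, hB⟩⟩ := h X hX
    refine ⟨B, A⁻¹, ?_, hB, by rw [nS_inv]; exact hA⟩
    change conj (i2 B) H = conj (i1 A⁻¹) H
    have h1 : i1 A * i2 B = (pr A, pr B) := by simp [i1, i2]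
    have h2 : conj (i1 A * i2 B) H = H := by rw [h1]; exact conj_self hAB
    rw [conj_mul] at h2
    conv_rhs => rw [← h2]
    rw [← conj_mul, ← i1_mul, inv_mul_cancel, i1_one, conj_one]

end act

end Pool.Agent.IRS
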