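import Mathlib
import Pool.Agent.IRS.Defs

/-!
# Strong ergodicity of invariant random subgroups with a polynomial density tail
-/

set_option autoImplicit false

namespace Pool.Agent.IRS

open MeasureTheory Matrix Set Filter Topology

/-- The energy is at most the mean square displacement. -/
lemma PAct.E_le_int {Γ : Type*} [Group Γ] [MeasurableSpace Γ] [MeasurableInv Γ] {Z : Type*}
    [MeasurableSpace Z] {ζ : Measure Z} [SigmaFinite ζ] (a : PAct Γ ζ) (ν : Measure Γ)
    [IsProbabilityMeasure ν] (f : BL2 ζ) : a.E ν f ≤ ∫ g, a.ψ f g ^ 2 ∂ν := by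
  have h1 : ∫ g, a.ψ f g ^ 2 ∂ν = 2 * (frm ζ).B f f - 2 * (frm ζ).B (a.A ν f) f := by
    simp_rw [a.ψ_sq]
    rw [integral_sub (integrable_const _) ((a.B_T_integrable ν f f).const_mul 2), a.B_A ν]
    simp only [integral_const, probReal_univ, smul_eq_mul, one_mul, integral_const_mul]
  rw [h1, PAct.E]
  have h2 := (frm ζ).nonneg (f - a.A ν f)
  simp only [map_sub, LinearMap.sub_apply] at h2
  rw [(frm ζ).symm f (a.A ν f)] at h2
  linarith

theorem strong_ergodicity : ∃ ε : ℝ, 0 < ε ∧ ∀ μ : Measure (ClosedSubgroup GG), IsIRS μ → IsErg μ →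
    ∀ A C : ℝ, 2 < A →
    (∀ T : ℝ, 1 ≤ T → μ {H | ¬ TDense ε T H} ≤ ENNReal.ofReal (C * T ^ (-A))) →
    ∀ B : ℕ → Set (ClosedSubgroup GG), (∀ n, MeasurableSet (B n)) →
    (∀ g : GG, Tendsto (fun n => μ (symmDiff (conj g ⁻¹' B n) (B n))) atTop (𝓝 0)) →
    Tendsto (fun n => μ (B n) * (1 - μ (B n))) atTop (𝓝 0) := by
  refine ⟨eps0, eps0_pos, fun μ hμ herg A C hA htail B hB hinv => ?_⟩
  have hprob := hμ.prob
  set a := act1 hμ with ha
  set b := act2 hμ with hb
  -- real valued statement
  suffices hreal : Tendsto (fun n => μ.real (B n) * (1 - μ.real (B n))) atTop (𝓝 0) by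
    have h1 : (fun n => μ (B n) * (1 - μ (B n)))
        = fun n => ENNReal.ofReal (μ.real (B n) * (1 - μ.real (B n))) := by
      funext n
      have e1 : μ (B n) = ENNReal.ofReal (μ.real (B n)) := (ofReal_measureReal (measure_ne_top _ _)).symm
      rw [ENNReal.ofReal_mul measureReal_nonneg, ENNReal.ofReal_sub _ measureReal_nonneg,
        ENNReal.ofReal_one, ← e1]
    rw [h1]
    have := ENNReal.tendsto_ofReal hreal
    rwa [ENNReal.ofReal_zero] at this
  -- the functions
  have hfm : ∀ n, Measurable (fun H => (B n).indicator (fun _ => (1 : ℝ)) H - μ.real (B n)) :=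
    fun n => (measurable_const.indicator (hB n)).sub_const _
  have hfb : ∀ n H, |(B n).indicator (fun _ => (1 : ℝ)) H - μ.real (B n)| ≤ 1 := by
    intro n H
    have h1 : 0 ≤ μ.real (B n) := measureReal_nonneg
    have h2 : μ.real (B n) ≤ 1 := measureReal_le_one
    by_cases hH : H ∈ B n
    · rw [indicator_of_mem hH, abs_le]; constructor <;> linarith
    · rw [indicator_of_notMem hH, abs_le]; constructor <;> linarith
  set f : ℕ → BL2 μ := fun n => ⟨fun H => (B n).indicator (fun _ => (1 : ℝ)) H - μ.real (B n),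
    hfm n, ⟨1, hfb n⟩, integrable_of_bdd μ ((hfm n).pow_const 2) (M := 1) fun H => by
      rw [abs_pow]; exact pow_le_one₀ (abs_nonneg _) (hfb n H)⟩ with hf
  have hfn : ∀ n H, (f n : ClosedSubgroup GG → ℝ) H
    = (B n).indicator (fun _ => (1 : ℝ)) H - μ.real (B n) := fun n H => rfl
  have hind : ∀ n, Integrable ((B n).indicator (fun _ => (1 : ℝ))) μ := fun n =>
    (integrable_const _).indicator (hB n)
  have hindint : ∀ n, ∫ H, (B n).indicator (fun _ => (1 : ℝ)) H ∂μ = μ.real (B n) := by
    intro n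
    rw [integral_indicator (hB n), setIntegral_const]; simp
  have hmean : ∀ n, ∫ H, (f n : ClosedSubgroup GG → ℝ) H ∂μ = 0 := by
    intro n
    simp_rw [hfn]
    rw [integral_sub (hind n) (integrable_const _), hindint]; simp
  have hnorm : ∀ n, ∫ H, (f n : ClosedSubgroup GG → ℝ) H ^ 2 ∂μ = μ.real (B n) * (1 - μ.real (B n)) := by
    intro n
    have h1 : ∀ H, (f n : ClosedSubgroup GG → ℝ) H ^ 2
        = (1 - 2 * μ.real (B n)) * (B n).indicator (fun _ => (1 : ℝ)) H + μ.real (B n) ^ 2 := by
      intro H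
      rw [hfn]
      by_cases hH : H ∈ B n
      · rw [indicator_of_mem hH]; ring
      · rw [indicator_of_notMem hH]; ring
    simp_rw [h1]
    rw [integral_add ((hind n).const_mul _) (integrable_const _), integral_const_mul, hindint]
    simp; ring
  -- displacement
  have hdisp : ∀ (c : PAct SL2R μ) (j : SL2R → GG), (∀ g H, c.τ g H = conj (j g) H) →
      Tendsto (fun n => c.E nuM (f n)) atTop (𝓝 0) := by
    intro c j hc
    have h1 : ∀ n g, c.ψ (f n) g ^ 2 = μ.real (symmDiff (conj (j g) ⁻¹' B n) (B n)) := by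
      intro n g
      unfold PAct.ψ
      rw [nrm_sq_eq]
      have h2 : MeasurableSet (symmDiff (conj (j g) ⁻¹' B n) (B n)) :=
        ((conj_meas (j g)) (hB n)).symmDiff (hB n)
      have h3 : ∀ H, ((c.T g (f n) - f n : BL2 μ) : ClosedSubgroup GG → ℝ) H ^ 2
          = (symmDiff (conj (j g) ⁻¹' B n) (B n)).indicator (fun _ => (1 : ℝ)) H := by
        intro H
        have h4 : ((c.T g (f n) - f n : BL2 μ) : ClosedSubgroup GG → ℝ) H
            = (f n : ClosedSubgroup GG → ℝ) (conj (j g) H) - (f n : ClosedSubgroup GG → ℝ) H := by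
          rw [← hc]; rfl
        rw [h4, hfn, hfn]
        by_cases h5 : conj (j g) H ∈ B n
        · by_cases h6 : H ∈ B n
          · rw [indicator_of_mem h5, indicator_of_mem h6, indicator_of_notMem]
            · ring
            · rintro (⟨_, h7⟩ | ⟨_, h7⟩)
              · exact h7 h6
              · exact h7 h5
          · rw [indicator_of_mem h5, indicator_of_notMem h6, indicator_of_mem]
            · ring
            · exact Or.inl ⟨h5, h6⟩
        · by_cases h6 : H ∈ B n
          · rw [indicator_of_notMem h5, indicator_of_mem h6, indicator_of_mem]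
            · ring
            · exact Or.inr ⟨h6, h5⟩
          · rw [indicator_of_notMem h5, indicator_of_notMem h6, indicator_of_notMem]
            · ring
            · rintro (⟨h7, _⟩ | ⟨h7, _⟩)
              · exact h5 h7
              · exact h6 h7
      simp_rw [h3]
      rw [integral_indicator h2, setIntegral_const]; simp
    have h2 : ∀ g, Tendsto (fun n => c.ψ (f n) g ^ 2) atTop (𝓝 0) := by
      intro g
      simp_rw [h1]
      have := (ENNReal.tendsto_toReal ENNReal.zero_ne_top).comp (hinv (j g))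
      rw [ENNReal.toReal_zero] at this
      exact this
    have h3 : Tendsto (fun n => ∫ g, c.ψ (f n) g ^ 2 ∂nuM) atTop (𝓝 (∫ _, (0 : ℝ) ∂nuM)) := by
      refine tendsto_integral_of_dominated_convergence (fun _ => (1 : ℝ))
        (fun n => ((c.ψ_measurable (f n)).pow_const 2).aestronglyMeasurable) (integrable_const _)
        (fun n => ?_) (by filter_upwards with g; exact h2 g)
      filter_upwards with g
      rw [Real.norm_eq_abs, abs_of_nonneg (sq_nonneg _), h1]
      exact measureReal_le_one
    rw [integral_zero] at h3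
    exact squeeze_zero (fun n => c.E_nonneg nuM _) (fun n => c.E_le_int nuM (f n)) h3
  have hEa := hdisp a i1 (fun _ _ => rfl)
  have hEb := hdisp b i2 (fun _ _ => rfl)
  have hE : Tendsto (fun n => a.E nuM (f n) + b.E nuM (f n)) atTop (𝓝 0) := by
    have := hEa.add hEb
    rwa [add_zero] at this
  -- the energy theorem
  rw [Metric.tendsto_atTop]
  intro δ hδ
  obtain ⟨η, hη, hen⟩ := energy (A := A) (C := max C 0) (n0 := δ) hA hδ
  have h1 : ∀ᶠ n in atTop, a.E nuM (f n) + b.E nuM (f n) ≤ η :=
    (hE.eventually (gt_mem_nhds hη)).mono fun n hn => hn.le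
  obtain ⟨N, hN⟩ := eventually_atTop.1 h1
  refine ⟨N, fun n hn => ?_⟩
  have h2 := hen (ClosedSubgroup GG) μ a b (act_comm hμ) (f n)
    (fun T => (toMeasurable μ {H | ¬ TDense eps0 T H})ᶜ)
    (fun T => (measurableSet_toMeasurable _ _).compl) ?_ ?_ ?_ (hN n hn)
  · rw [hnorm] at h2
    rw [Real.dist_eq, sub_zero, abs_of_nonneg]
    · exact h2
    · rw [← hnorm]; exact integral_nonneg fun _ => sq_nonneg _
  · intro T hT H hH
    have h3 : TDense eps0 T H := by
      by_contra h4
      exact hH (subset_toMeasurable μ _ h4)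
    exact ret_of_dense hμ h3
  · intro s T hT c hc
    have hT0 : 0 < T := by linarith
    have h3 : μ.real (toMeasurable μ {H | ¬ TDense eps0 T H}) ≤ max C 0 * T ^ (-A) := by
      unfold Measure.real
      rw [measure_toMeasurable]
      have h4 := htail T (by linarith)
      have h5 : ENNReal.ofReal (C * T ^ (-A)) ≤ ENNReal.ofReal (max C 0 * T ^ (-A)) := by
        apply ENNReal.ofReal_le_ofReal
        exact mul_le_mul_of_nonneg_right (le_max_left _ _) (by positivity)
      refine (ENNReal.toReal_mono ENNReal.ofReal_ne_top (h4.trans h5)).trans ?_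
      rw [ENNReal.toReal_ofReal (by positivity)]
    have key : ∀ (d : PAct SL2R μ), ∫ z in (toMeasurable μ {H | ¬ TDense eps0 T H})ᶜᶜ,
        ((it a b (f n) (s + 1) : BL2 μ) : ClosedSubgroup GG → ℝ) (d.τ c z) ^ 2 ∂μ
        ≤ max C 0 * T ^ (-A) := by
      intro d
      rw [compl_compl]
      have hbd : ∀ z, |((it a b (f n) (s + 1) : BL2 μ) : ClosedSubgroup GG → ℝ) z| ≤ 1 :=
        it_bdd (hfb n) (s + 1)
      have hms := measurableSet_toMeasurable μ {H | ¬ TDense eps0 T H}
      calc ∫ z in (toMeasurable μ {H | ¬ TDense eps0 T H}),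
          ((it a b (f n) (s + 1) : BL2 μ) : ClosedSubgroup GG → ℝ) (d.τ c z) ^ 2 ∂μ
          ≤ ∫ _ in (toMeasurable μ {H | ¬ TDense eps0 T H}), (1 : ℝ) ∂μ := by
            refine integral_mono_of_nonneg (by filter_upwards with z; positivity)
              (integrable_const _) (by
                filter_upwards with z
                rw [← sq_abs]
                exact pow_le_one₀ (abs_nonneg _) (hbd _))
        _ = μ.real (toMeasurable μ {H | ¬ TDense eps0 T H}) := by
            rw [setIntegral_const]; simp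
        _ ≤ _ := h3
    exact ⟨key a, key b⟩
  · intro w hwa hwb
    have hjoint : ∀ g : SL2R × SL2R, ∀ᵐ H ∂μ, (w : ClosedSubgroup GG → ℝ) ((act12 hμ).τ g H)
        = (w : ClosedSubgroup GG → ℝ) H := by
      intro g
      have e1 : ∀ H, (act12 hμ).τ g H = a.τ g.1 (b.τ g.2 H) := by
        intro H
        change conj (pp g) H = conj (i1 g.1) (conj (i2 g.2) H)
        rw [← conj_mul]
        congr 1
        simp [pp, i1, i2]
      have e2 : ∀ᵐ H ∂μ, (w : ClosedSubgroup GG → ℝ) (a.τ g.1 (b.τ g.2 H))
          = (w : ClosedSubgroup GG → ℝ) (b.τ g.2 H) := by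
        have h3 := hwa g.1
        exact (b.mp g.2).quasiMeasurePreserving.ae h3
      filter_upwards [e2, hwb g.2] with H h4 h5
      rw [e1, h4]
      exact h5
    have hergS : ∀ S : Set (ClosedSubgroup GG), MeasurableSet S →
        (∀ g H, (act12 hμ).τ g H ∈ S ↔ H ∈ S) → μ S = 0 ∨ μ S = 1 := by
      intro S hS hSi
      refine herg S hS fun g H => ?_
      obtain ⟨g', rfl⟩ := pp_surj g
      exact hSi g' H
    have hc := erg_const (act12 hμ) kq2 kq2_ne_zero kq2_left hergS (w : ClosedSubgroup GG → ℝ)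
      (bmeas w) (bbdd w) hjoint
    have h3 : ∫ H, (f n : ClosedSubgroup GG → ℝ) H * (w : ClosedSubgroup GG → ℝ) H ∂μ
        = ∫ H, (f n : ClosedSubgroup GG → ℝ) H * (∫ y, (w : ClosedSubgroup GG → ℝ) y ∂μ) ∂μ := by
      refine integral_congr_ae ?_
      filter_upwards [hc] with H hH
      rw [hH]
    rw [h3, integral_mul_const, hmean, zero_mul]

end Pool.Agent.IRS
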