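import Mathlib
import Pool.Agent.IRS.StrongErg

/-!
# The square root of a function, and bump functions

* `sqrt_energy`: `f = sqrt φ` is in `BL2` (`f² = φ`); `(√s - √t)² ≤ |s - t|`, so
  `a.ψ f g ^ 2 ≤ ∫ |φ (τ g z) - φ z|` (`nrm_sq_eq`) and `PAct.E_le_int`.
* `exists_bump`: `β z := min (WC z.2) 1`, `b x := fib β x`; for a.e. `x`, `0 < b x < ∞`
  (`b x ≤ ∫ WC (co x g) wt x g dm2 = ∫ q2 < ∞`, and `β * wt > 0` everywhere, `m2 ≠ 0`).  Let
  `B_n z := (min n (β z / b z.1)).toReal`, so `fib (ofReal B_n) x ≤ fib β x / b x = 1`, and by monotone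
  convergence `fib (ofReal B_n) x → 1`, hence `∫ B_n dzeta = ∫ fib → 1`.
-/

set_option autoImplicit false
set_option linter.unusedSectionVars false

namespace Pool.Agent.IRS

open MeasureTheory Set Filter Topology ENNReal

private lemma sqrt_sub_sq_le {s t : ℝ} (hs : 0 ≤ s) (ht : 0 ≤ t) :
    (Real.sqrt s - Real.sqrt t) ^ 2 ≤ |s - t| := by
  have h1 := Real.sq_sqrt hs
  have h2 := Real.sq_sqrt ht
  have h3 := Real.sqrt_nonneg s
  have h4 := Real.sqrt_nonneg t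
  have h5 : |s - t| = |Real.sqrt s - Real.sqrt t| * (Real.sqrt s + Real.sqrt t) := by
    have : s - t = (Real.sqrt s - Real.sqrt t) * (Real.sqrt s + Real.sqrt t) := by
      linear_combination -h1 + h2
    rw [this, abs_mul, abs_of_nonneg (add_nonneg h3 h4)]
  rw [h5, ← sq_abs, sq]
  refine mul_le_mul_of_nonneg_left ?_ (abs_nonneg _)
  rw [abs_le]
  constructor <;> linarith

theorem sqrt_energy {Z : Type*} [MeasurableSpace Z] {ζ : Measure Z} [SigmaFinite ζ]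
    (φ : Z → ℝ) (hφ : Measurable φ) (h0 : ∀ z, 0 ≤ φ z) (hb : ∃ M, ∀ z, φ z ≤ M)
    (hi : Integrable φ ζ) :
    ∃ f : BL2 ζ, (∀ z, (f : Z → ℝ) z = Real.sqrt (φ z)) ∧
      ∀ (a : PAct SL2R ζ) (ν : Measure SL2R) [IsProbabilityMeasure ν],
        ENNReal.ofReal (a.E ν f) ≤ ∫⁻ g, ∫⁻ z, ‖φ (a.τ g z) - φ z‖ₑ ∂ζ ∂ν := by
  obtain ⟨M, hM⟩ := hb
  have hf1 : ∃ M, ∀ z, |Real.sqrt (φ z)| ≤ M := ⟨Real.sqrt M, fun z => by
    rw [abs_of_nonneg (Real.sqrt_nonneg _)]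
    exact Real.sqrt_le_sqrt (hM z)⟩
  have hf2 : Integrable (fun z => Real.sqrt (φ z) ^ 2) ζ := by
    refine hi.congr ?_
    filter_upwards with z
    exact (Real.sq_sqrt (h0 z)).symm
  obtain ⟨f, hf⟩ : ∃ f : BL2 ζ, ∀ z, (f : Z → ℝ) z = Real.sqrt (φ z) :=
    ⟨⟨fun z => Real.sqrt (φ z), hφ.sqrt, hf1, hf2⟩, fun z => rfl⟩
  refine ⟨f, hf, ?_⟩
  intro a ν _
  have hint : Integrable (fun g => a.ψ f g ^ 2) ν := by
    simp_rw [a.ψ_sq]
    exact (integrable_const _).sub ((a.B_T_integrable ν f f).const_mul 2)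
  refine (ENNReal.ofReal_le_ofReal (a.E_le_int ν f)).trans ?_
  rw [ofReal_integral_eq_lintegral_ofReal hint (Eventually.of_forall fun g => sq_nonneg _)]
  refine lintegral_mono fun g => ?_
  change ENNReal.ofReal ((frm ζ).nrm (a.T g f - f) ^ 2) ≤ _
  rw [nrm_sq_eq, ofReal_integral_eq_lintegral_ofReal (bsq _)
    (Eventually.of_forall fun z => sq_nonneg _)]
  refine lintegral_mono fun z => ?_
  rw [Real.enorm_eq_ofReal_abs]
  refine ENNReal.ofReal_le_ofReal ?_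
  have h1 : ((a.T g f - f : BL2 ζ) : Z → ℝ) z = Real.sqrt (φ (a.τ g z)) - Real.sqrt (φ z) := by
    rw [← hf, ← hf]
    rfl
  rw [h1]
  exact sqrt_sub_sq_le (h0 _) (h0 _)

end Pool.Agent.IRS
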