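import Mathlib
import Pool.Agent.IRS.Zs2

/-!
# The square root of a function, and bump functions

* `sqrt_energy`: `f = sqrt φ` is in `BL2` (`f² = φ`); `(√s - √t)² ≤ |s - t|`, so
  `a.ψ f g ^ 2 ≤ ∫ |φ (τ g z) - φ z|` (`nrm_sq_eq`) and `PAct.E_le_int`.
* `exists_bump`: `β z := min (WC z.2) 1`, `b x := fib β x`; for a.e. `x`, `0 < b x < ∞`
  (`b x ≤ ∫ WC (co x g) wt x g dm2 = ∫ q2 < ∞`, and `β * wt > 0` everywhere, `m2 ≠ 0`).  Let
  `B_n z := (min n (β z / b z.1)).toReal`, so `fib (ofReal B_n) x ≤ fib β x / b x = 1`, and by monotone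
  convergence `fib (ofReal B_n) x → 1`, hence `∫ B_n dzeta = ∫ fib → 1`.
-/

set_option autoImplicit false
set_option linter.unusedSectionVars false

namespace Pool.Agent.IRS

open MeasureTheory Set Filter Topology ENNReal

namespace Fld

variable {X : Type} [MeasurableSpace X] {μ : Measure X} [IsProbabilityMeasure μ] (𝓕 : Fld μ)

theorem exists_bump {δ : ℝ} (hδ : 0 < δ) :
    ∃ B : X × CL G2 → ℝ, Measurable B ∧ (∀ z, 0 ≤ B z) ∧ (∃ M, ∀ z, B z ≤ M) ∧
      Integrable B 𝓕.zeta ∧ (∀ᵐ x ∂μ, 𝓕.fib (fun z => ENNReal.ofReal (B z)) x ≤ 1) ∧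
      1 - δ ≤ ∫ z, B z ∂𝓕.zeta := by
  set β : X × CL G2 → ENNReal := fun z => min (WC z.2) 1 with hβ
  have mβ : Measurable β := (measurable_WC.comp measurable_snd).min measurable_const
  set b : X → ENNReal := 𝓕.fib β with hb
  have mb : Measurable b := 𝓕.measurable_fib mβ
  have m2ne : m2 ≠ 0 := by
    intro h
    have h1 : kq2 ≪ (0 : Measure G2) := h ▸ kq2_ac
    have h2 : kq2 = 0 := Measure.absolutelyContinuous_zero_iff.1 h1
    exact kq2_ne_zero h2
  have mint : ∀ x, Measurable (fun g => β (x, 𝓕.co x g) * 𝓕.wt x g) := by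
    intro x
    have h4 : Measurable (Prod.mk x : G2 → X × G2) := measurable_prodMk_left
    have h5 := (𝓕.measurable_int mβ).comp h4
    exact h5
  have hbt : ∀ᵐ x ∂μ, b x ≠ 0 ∧ b x ≠ ⊤ := by
    filter_upwards [𝓕.WC_fin] with x hx
    have hb1 : b x = ∫⁻ g, β (x, 𝓕.co x g) * 𝓕.wt x g ∂m2 := rfl
    constructor
    · intro h0
      rw [hb1, lintegral_eq_zero_iff (mint x)] at h0
      have hne : (ae m2).NeBot := ae_neBot.2 m2ne
      obtain ⟨g, hg⟩ := h0.exists
      simp only [Pi.zero_apply] at hg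
      rcases mul_eq_zero.1 hg with h | h
      · have h2 : WC (𝓕.co x g) ≠ 0 := 𝓕.WC_ne_zero x g
        simp only [hβ] at h
        rcases min_choice (WC (𝓕.co x g)) 1 with h3 | h3
        · rw [h3] at h; exact h2 h
        · rw [h3] at h; exact one_ne_zero h
      · unfold wt at h
        rcases mul_eq_zero.1 h with h3 | h3
        · exact (ENNReal.ofReal_pos.2 (q2_pos g)).ne' h3
        · exact hx g (ENNReal.inv_eq_zero.1 h3)
    · rw [hb1]
      refine (lt_of_le_of_lt (lintegral_mono fun g => ?_) lintegral_q2_lt).ne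
      have h1 : β (x, 𝓕.co x g) ≤ WC (𝓕.co x g) := min_le_left _ _
      calc β (x, 𝓕.co x g) * 𝓕.wt x g
          ≤ WC (𝓕.co x g) * (ENNReal.ofReal (q2 g) * (WC (𝓕.co x g))⁻¹) := by
            gcongr
            exact le_of_eq rfl
        _ = ENNReal.ofReal (q2 g) * (WC (𝓕.co x g) * (WC (𝓕.co x g))⁻¹) := by ring
        _ ≤ ENNReal.ofReal (q2 g) * 1 := by
            gcongr
            exact ENNReal.mul_inv_le_one _
        _ = ENNReal.ofReal (q2 g) := mul_one _
  set φ : X × CL G2 → ENNReal := fun z => (b z.1)⁻¹ * β z with hφ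
  have mφ : Measurable φ := (mb.comp measurable_fst).inv.mul mβ
  have hfib : ∀ᵐ x ∂μ, 𝓕.fib φ x = 1 := by
    filter_upwards [hbt] with x hx
    have h1 : 𝓕.fib φ x = ∫⁻ g, (b x)⁻¹ * (β (x, 𝓕.co x g) * 𝓕.wt x g) ∂m2 := by
      unfold fib
      refine lintegral_congr fun g => ?_
      simp only [hφ]
      ring
    rw [h1, lintegral_const_mul _ (mint x)]
    exact ENNReal.inv_mul_cancel hx.1 hx.2
  set F : ℕ → X × CL G2 → ENNReal := fun n z => min (n : ENNReal) (φ z) with hF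
  have mF : ∀ n, Measurable (F n) := fun n => measurable_const.min mφ
  have Fle : ∀ n z, F n z ≤ φ z := fun n z => min_le_right _ _
  have Flt : ∀ n z, F n z ≠ ⊤ := fun n z =>
    ((min_le_left _ _).trans_lt (ENNReal.natCast_lt_top n)).ne
  have Fmono : Monotone F := by
    intro n m hnm z
    exact min_le_min (Nat.cast_le.2 hnm) le_rfl
  have Fsup : ∀ z, ⨆ n, F n z = φ z := by
    intro z
    apply le_antisymm
    · exact iSup_le fun n => Fle n z
    · refine le_of_forall_lt fun c hc => ?_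
      obtain ⟨n, hn⟩ := ENNReal.exists_nat_gt (ne_top_of_lt hc)
      refine lt_of_lt_of_le ?_ (le_iSup (fun n => F n z) n)
      exact lt_min hn hc
  have hlim : ⨆ n, ∫⁻ z, F n z ∂𝓕.zeta = 1 := by
    rw [← lintegral_iSup mF Fmono]
    simp_rw [Fsup]
    rw [𝓕.lintegral_zeta mφ, lintegral_congr_ae hfib]
    simp
  have hlt : ENNReal.ofReal (1 - δ) < ⨆ n, ∫⁻ z, F n z ∂𝓕.zeta := by
    rw [hlim, ← ENNReal.ofReal_one]
    exact (ENNReal.ofReal_lt_ofReal_iff one_pos).2 (by linarith)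
  obtain ⟨n, hn⟩ := lt_iSup_iff.1 hlt
  have hle1 : ∫⁻ z, F n z ∂𝓕.zeta ≤ 1 := by
    rw [← hlim]
    exact le_iSup (fun n => ∫⁻ z, F n z ∂𝓕.zeta) n
  have hof : ∀ z, ENNReal.ofReal (F n z).toReal = F n z := fun z => ENNReal.ofReal_toReal (Flt n z)
  refine ⟨fun z => (F n z).toReal, (mF n).ennreal_toReal, fun z => ENNReal.toReal_nonneg,
    ⟨n, fun z => ?_⟩, ?_, ?_, ?_⟩
  · have h1 : F n z ≤ (n : ENNReal) := min_le_left _ _
    have h2 := ENNReal.toReal_mono (ENNReal.natCast_ne_top n) h1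
    simpa using h2
  · exact integrable_toReal_of_lintegral_ne_top (mF n).aemeasurable (ne_top_of_le_ne_top one_ne_top hle1)
  · filter_upwards [hfib] with x hx
    simp_rw [hof]
    rw [← hx]
    unfold fib
    refine lintegral_mono fun g => ?_
    exact mul_le_mul_left (Fle n _) _
  · rw [integral_toReal (mF n).aemeasurable (Eventually.of_forall fun z => (Flt n z).lt_top)]
    exact (ENNReal.ofReal_le_iff_le_toReal (ne_top_of_le_ne_top one_ne_top hle1)).1 hn.le

end Fld

end Pool.Agent.IRS
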