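import Mathlib
import Pool.Agent.IRS.Zs2
import Pool.Agent.IRS.Lim

/-!
# The class of functions with fibre norm at most one

* `Cl_T`: `fib_left` and quasi-invariance (`(A.mp γ).quasiMeasurePreserving.ae`).
* `Cl_A`: pointwise `(∫ f (τ g z) dν)² ≤ ∫ f (τ g z)² dν` (`sq_integral_le`, `ofReal` of it as a
  lintegral), Tonelli: `fib (..) x ≤ ∫⁻ g, fib (f² ∘ τ g) x dν`; for each `g` the integrand is `≤ 1` for
  a.e. `x`, hence (Fubini, joint measurability of `(g, x) ↦ fib (f² ∘ τ g) x`) for a.e. `x` for a.e. `g`.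
* `Cl_it`: `it_succ`, `PAct.P_apply`, induction (`nui nuM` is a probability measure).
* `tail`: `∫ over {z | z.1 ∈ S}` `= ∫⁻_{x ∈ S} fib (f²) x ≤ μ S` (`lintegral_zeta` applied to the indicator).
-/

set_option autoImplicit false
set_option linter.unusedSectionVars false

namespace Pool.Agent.IRS

open MeasureTheory Set Filter Topology ENNReal

namespace Fld

variable {X : Type} [MeasurableSpace X] {μ : Measure X} [IsProbabilityMeasure μ] (𝓕 : Fld μ)

/-- Functions whose fibre norm is at most one. -/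
def Cl (f : BL2 𝓕.zeta) : Prop :=
  ∀ᵐ x ∂μ, 𝓕.fib (fun z => ENNReal.ofReal ((f : X × CL G2 → ℝ) z ^ 2)) x ≤ 1

/-- The left action of the first factor. -/
noncomputable def aL : PAct SL2R 𝓕.zeta := 𝓕.left.comap j1 measurable_j1
/-- The left action of the second factor. -/
noncomputable def bL : PAct SL2R 𝓕.zeta := 𝓕.left.comap j2 measurable_j2
/-- The right action of the first factor. -/
noncomputable def cR : PAct SL2R 𝓕.zeta := 𝓕.right.comap j1 measurable_j1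

lemma aL_bL (g h : SL2R) (z : X × CL G2) : 𝓕.aL.τ g (𝓕.bL.τ h z) = 𝓕.bL.τ h (𝓕.aL.τ g z) := by
  change 𝓕.left.τ (j1 g) (𝓕.left.τ (j2 h) z) = 𝓕.left.τ (j2 h) (𝓕.left.τ (j1 g) z)
  rw [← 𝓕.left.mul, ← 𝓕.left.mul, j12_comm]

private lemma cov2_meas (f : BL2 𝓕.zeta) :
    Measurable (fun z => ENNReal.ofReal ((f : X × CL G2 → ℝ) z ^ 2)) :=
  ((bmeas f).pow_const 2).ennreal_ofReal

private lemma cov2_left (f : BL2 𝓕.zeta) (hf : 𝓕.Cl f) (γ : G2) :
    ∀ᵐ x ∂μ, 𝓕.fib (fun z => ENNReal.ofReal ((f : X × CL G2 → ℝ) (𝓕.left.τ γ z) ^ 2)) x ≤ 1 := by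
  have h1 := 𝓕.fib_left (𝓕.cov2_meas f) γ
  have h2 := (𝓕.A.mp γ).quasiMeasurePreserving.ae hf
  filter_upwards [h1, h2] with x h3 h4
  exact h3.le.trans h4

private lemma cov2_A (j : SL2R →* G2) (hj : Measurable j) (f : BL2 𝓕.zeta) (hf : 𝓕.Cl f)
    (ν : Measure SL2R) [IsProbabilityMeasure ν] : 𝓕.Cl ((𝓕.left.comap j hj).A ν f) := by
  set a := 𝓕.left.comap j hj with ha
  obtain ⟨M, hM⟩ := bbdd f
  -- the pointwise estimate
  have hpt : ∀ z, ENNReal.ofReal (((a.A ν f : BL2 𝓕.zeta) : X × CL G2 → ℝ) z ^ 2) ≤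
      ∫⁻ g, ENNReal.ofReal ((f : X × CL G2 → ℝ) (a.τ g z) ^ 2) ∂ν := by
    intro z
    have hm := a.meas_sec (bmeas f) z
    have hi2 : Integrable (fun g => (f : X × CL G2 → ℝ) (a.τ g z) ^ 2) ν := by
      refine integrable_of_bdd ν (hm.pow_const 2) (M := M ^ 2) fun g => ?_
      rw [abs_pow]
      exact pow_le_pow_left₀ (abs_nonneg _) (hM _) 2
    have h1 := sq_integral_le ν (integrable_of_bdd ν hm fun g => hM _) hi2
    rw [PAct.A_apply, ← ofReal_integral_eq_lintegral_ofReal hi2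
      (Eventually.of_forall fun g => sq_nonneg _)]
    exact ENNReal.ofReal_le_ofReal h1
  -- measurability
  have hcoM : Measurable (fun p : (SL2R × X) × G2 => (p.1.2, 𝓕.co p.1.2 p.2)) := by
    have h2 : Measurable (fun p : (SL2R × X) × G2 => (p.1.2, p.2)) :=
      (measurable_snd.comp measurable_fst).prodMk measurable_snd
    have h3 := 𝓕.measurable_Pi.comp h2
    exact h3
  have hJ : Measurable (fun p : (SL2R × X) × G2 =>
      ENNReal.ofReal ((f : X × CL G2 → ℝ) (a.τ p.1.1 (p.1.2, 𝓕.co p.1.2 p.2)) ^ 2)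
        * 𝓕.wt p.1.2 p.2) := by
    refine Measurable.mul ?_ ?_
    · have h1 : Measurable (fun p : (SL2R × X) × G2 =>
          a.τ p.1.1 (p.1.2, 𝓕.co p.1.2 p.2)) :=
        a.meas.comp ((measurable_fst.comp measurable_fst).prodMk hcoM)
      exact (((bmeas f).comp h1).pow_const 2).ennreal_ofReal
    · have h2 : Measurable (fun p : (SL2R × X) × G2 => (p.1.2, p.2)) :=
        (measurable_snd.comp measurable_fst).prodMk measurable_snd
      have h3 := 𝓕.measurable_wt.comp h2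
      exact h3
  set Ψ : SL2R × X → ENNReal := fun p =>
    𝓕.fib (fun z => ENNReal.ofReal ((f : X × CL G2 → ℝ) (a.τ p.1 z) ^ 2)) p.2 with hΨ
  have hΨm : Measurable Ψ := hJ.lintegral_prod_right'
  -- Fubini
  have hset : MeasurableSet {p : SL2R × X | Ψ p ≤ 1} := hΨm measurableSet_Iic
  have h2 : ∀ᵐ g ∂ν, ∀ᵐ x ∂μ, Ψ (g, x) ≤ 1 := by
    filter_upwards with g
    exact 𝓕.cov2_left f hf (j g)
  have h3 := (Measure.ae_ae_comm (μ := ν) (ν := μ) (p := fun g x => Ψ (g, x) ≤ 1) hset).1 h2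
  filter_upwards [h3] with x hx
  calc 𝓕.fib (fun z => ENNReal.ofReal (((a.A ν f : BL2 𝓕.zeta) : X × CL G2 → ℝ) z ^ 2)) x
      ≤ ∫⁻ c, (∫⁻ g, ENNReal.ofReal ((f : X × CL G2 → ℝ) (a.τ g (x, 𝓕.co x c)) ^ 2) ∂ν)
          * 𝓕.wt x c ∂m2 := lintegral_mono fun c => mul_le_mul_left (hpt _) _
    _ = ∫⁻ c, ∫⁻ g, ENNReal.ofReal ((f : X × CL G2 → ℝ) (a.τ g (x, 𝓕.co x c)) ^ 2)
          * 𝓕.wt x c ∂ν ∂m2 := by
        refine lintegral_congr fun c => ?_
        rw [lintegral_mul_const]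
        exact ((a.meas_sec (bmeas f) _).pow_const 2).ennreal_ofReal
    _ = ∫⁻ g, ∫⁻ c, ENNReal.ofReal ((f : X × CL G2 → ℝ) (a.τ g (x, 𝓕.co x c)) ^ 2)
          * 𝓕.wt x c ∂m2 ∂ν := by
        refine lintegral_lintegral_swap ?_
        have h5 : Measurable (fun p : G2 × SL2R => ((p.2, x), p.1)) :=
          (measurable_snd.prodMk measurable_const).prodMk measurable_fst
        exact (hJ.comp h5).aemeasurable
    _ = ∫⁻ g, Ψ (g, x) ∂ν := rfl
    _ ≤ ∫⁻ _g, 1 ∂ν := lintegral_mono_ae hx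
    _ = 1 := by simp

theorem Cl_T (f : BL2 𝓕.zeta) (hf : 𝓕.Cl f) (c : SL2R) :
    𝓕.Cl (𝓕.aL.T c f) ∧ 𝓕.Cl (𝓕.bL.T c f) :=
  ⟨𝓕.cov2_left f hf (j1 c), 𝓕.cov2_left f hf (j2 c)⟩

theorem Cl_A (f : BL2 𝓕.zeta) (hf : 𝓕.Cl f) (ν : Measure SL2R) [IsProbabilityMeasure ν] :
    𝓕.Cl (𝓕.aL.A ν f) ∧ 𝓕.Cl (𝓕.bL.A ν f) :=
  ⟨𝓕.cov2_A j1 measurable_j1 f hf ν, 𝓕.cov2_A j2 measurable_j2 f hf ν⟩

theorem Cl_it (f : BL2 𝓕.zeta) (hf : 𝓕.Cl f) (s : ℕ) : 𝓕.Cl (it 𝓕.aL 𝓕.bL f s) := by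
  induction s with
  | zero => exact hf
  | succ s ih =>
    rw [it_succ, PAct.P_apply, PAct.P_apply]
    have h1 := (𝓕.Cl_A _ ih nuM).2
    have h2 := (𝓕.Cl_A _ h1 (nui nuM)).2
    have h3 := (𝓕.Cl_A _ h2 nuM).1
    exact (𝓕.Cl_A _ h3 (nui nuM)).1

theorem tail (f : BL2 𝓕.zeta) (hf : 𝓕.Cl f) {S : Set X} (hS : MeasurableSet S) :
    ∫ z in {z : X × CL G2 | z.1 ∈ S}, (f : X × CL G2 → ℝ) z ^ 2 ∂𝓕.zeta ≤ μ.real S := by
  have hT : MeasurableSet {z : X × CL G2 | z.1 ∈ S} := measurable_fst hS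
  rw [integral_eq_lintegral_of_nonneg_ae (Eventually.of_forall fun z => sq_nonneg _)
    ((bmeas f).pow_const 2).aestronglyMeasurable]
  refine ENNReal.toReal_mono (measure_ne_top μ S) ?_
  have hφ := 𝓕.cov2_meas f
  rw [← lintegral_indicator hT, 𝓕.lintegral_zeta (hφ.indicator hT)]
  calc ∫⁻ x, 𝓕.fib ({z : X × CL G2 | z.1 ∈ S}.indicator
        fun z => ENNReal.ofReal ((f : X × CL G2 → ℝ) z ^ 2)) x ∂μ
      ≤ ∫⁻ x, S.indicator (fun _ => (1 : ENNReal)) x ∂μ := by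
        refine lintegral_mono_ae ?_
        filter_upwards [hf] with x hx
        by_cases h : x ∈ S
        · rw [Set.indicator_of_mem h]
          refine le_trans (lintegral_mono fun g => ?_) hx
          refine mul_le_mul_left ?_ _
          exact Set.indicator_le_self _ _ _
        · rw [Set.indicator_of_notMem h]
          unfold fib
          have : ∀ g : G2, {z : X × CL G2 | z.1 ∈ S}.indicator
              (fun z => ENNReal.ofReal ((f : X × CL G2 → ℝ) z ^ 2)) (x, 𝓕.co x g)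
                * 𝓕.wt x g = 0 := by
            intro g
            rw [Set.indicator_of_notMem (by simpa using h), zero_mul]
          simp_rw [this]
          simp
    _ = μ S := by rw [lintegral_indicator hS]; simp

end Fld

end Pool.Agent.IRS
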