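import Mathlib
import Pool.Agent.IRS.Cov2
import Pool.Agent.IRS.Energy

/-!
# Finiteness of the covolume

PROOF.  By `inf_or_fin` assume `hinf` (infinite).  Take `η` from `energy` with `n0 = 1/2`, the constant
`max C 0`, then `δ = min (1/4) (η/16)`, `B` from `exists_bump`, `ν` from `reiter`, and
`φ_n z := ∫ B (cR.τ γ z) dν_n`, `f_n = sqrt φ_n` (`sqrt_energy`).
* `Cl f_n`: `fib (φ_n) x = ∫ fib (B ∘ cR.τ γ) x dν_n = fib B x ≤ 1` (Tonelli, `fib_right`).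
* `∫ f_n² = ∫ φ_n = ∫ B ≥ 1 - δ` (`cR` preserves `zeta`).
* energies: for `γ` fixed, `φ_n (aL.τ γ z) - φ_n z = avg_n (B ∘ aL.τ γ) - avg_n B`
  (`left_right`), so by `reiter` its `L1` norm has `limsup ≤ ∫ |s (A γ x) - s x| dμ ≤ 2 δ`, `s x = (fib B x).toReal`
  (`fib_left`); it is at most `2 ∫ B` for all `n`; so (reverse Fatou, `limsup_lintegral_le`)
  `limsup (E_a f_n + E_b f_n) ≤ 4 δ < η`, and some `n` has `E_a + E_b ≤ η`.
* `Y T := {z | z.1 ∉ toMeasurable μ {x | ¬ good T x} ∧ z.2 is left H_x-invariant}`.  The set of invariant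
  pairs `{(x, C) | ∀ h ∈ H x, ∀ c ∈ C, h c ∈ C}` is measurable (`inv_meas`): as `C` is closed it is the set of
  `(x, C)` such that for all basis sets `U`, (`∃ h ∈ H x, c ∈ C, h c ∈ U`) implies `C ∩ U ≠ ∅`; and the
  first is a countable union of products `hitC B1 × hitC B2` over basis sets with `B1 * B2 ⊆ U`; and it
  has full measure (`ae_zeta`, `co_inv`-type computation).  `Ret` holds on `Y T`:
  for `h = (A, B) ∈ H x` and `C` invariant: `left.τ (j1 A) (x, C) = left.τ (j2 B⁻¹) (left.τ h (x, C))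
  = left.τ (j2 B⁻¹) (x, C)`, as `A.τ h x = x` (`stab`) and `lC h C = C`.
* tail: `Cl_it`, `Cl_T`, `tail`.
* invariants: `no_inv` (with `left.τ g z = aL.τ g.1 (bL.τ g.2 z)`).
So `energy` gives `∫ f_n² < 1/2`, contradiction.
-/

set_option autoImplicit false
set_option linter.unusedSectionVars false

namespace Pool.Agent.IRS

open MeasureTheory Set Filter Topology ENNReal

namespace Fld

variable {X : Type} [MeasurableSpace X] {μ : Measure X} [IsProbabilityMeasure μ] (𝓕 : Fld μ)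

/-- Density of the subgroup at scale `ε` with cost `T`. -/
def Dn (ε T : ℝ) (x : X) : Prop :=
  ∀ Y : SL2R, nS Y ≤ 3 →
    (∃ h ∈ 𝓕.H x, nM ((h.1 : Matrix (Fin 2) (Fin 2) ℝ) - Y) ≤ ε ∧ nS h.2 ≤ T) ∧
    (∃ h ∈ 𝓕.H x, nS h.1 ≤ T ∧ nM ((h.2 : Matrix (Fin 2) (Fin 2) ℝ) - Y) ≤ ε)

/-- The closed set is invariant under the subgroup. -/
def LI (z : X × CL G2) : Prop := ∀ h ∈ 𝓕.H z.1, ∀ c ∈ z.2.1, h * c ∈ z.2.1

lemma LI_hit_meas {U : Set G2} (hU : IsOpen U) :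
    MeasurableSet {z : X × CL G2 | ∃ h ∈ 𝓕.H z.1, ∃ c ∈ z.2.1, h * c ∈ U} := by
  have h1 : {z : X × CL G2 | ∃ h ∈ 𝓕.H z.1, ∃ c ∈ z.2.1, h * c ∈ U}
      = ⋃ B ∈ TopologicalSpace.countableBasis G2, ⋃ D ∈ TopologicalSpace.countableBasis G2,
        {z : X × CL G2 | (∀ b ∈ B, ∀ d ∈ D, b * d ∈ U) ∧
          (((𝓕.H z.1 : Set G2) ∩ B).Nonempty ∧ (z.2.1 ∩ D).Nonempty)} := by
    ext z
    simp only [mem_iUnion, mem_ofPred_eq]
    constructor
    · rintro ⟨h, hh, c, hc, hcU⟩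
      have h2 : (fun p : G2 × G2 => p.1 * p.2) ⁻¹' U ∈ nhds (h, c) :=
        (hU.preimage (continuous_fst.mul continuous_snd)).mem_nhds hcU
      rw [mem_nhds_prod_iff'] at h2
      obtain ⟨O, V, hO, hhO, hV, hcV, hOV⟩ := h2
      obtain ⟨B, hB, hhB, hBO⟩ :=
        (TopologicalSpace.isBasis_countableBasis G2).exists_subset_of_mem_open hhO hO
      obtain ⟨D, hD, hcD, hDV⟩ :=
        (TopologicalSpace.isBasis_countableBasis G2).exists_subset_of_mem_open hcV hV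
      refine ⟨B, hB, D, hD, fun b hb d hd => ?_, ⟨h, hh, hhB⟩, ⟨c, hc, hcD⟩⟩
      exact hOV (Set.mk_mem_prod (hBO hb) (hDV hd))
    · rintro ⟨B, _, D, _, hBD, ⟨h, hh, hhB⟩, ⟨c, hc, hcD⟩⟩
      exact ⟨h, hh, c, hc, hBD h hhB c hcD⟩
  rw [h1]
  refine MeasurableSet.biUnion (TopologicalSpace.countable_countableBasis G2) fun B hB => ?_
  refine MeasurableSet.biUnion (TopologicalSpace.countable_countableBasis G2) fun D hD => ?_
  refine (MeasurableSet.const _).inter (MeasurableSet.inter ?_ ?_)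
  · exact measurable_fst (𝓕.meas B (TopologicalSpace.isOpen_of_mem_countableBasis hB))
  · exact measurable_snd (hitC_meas (TopologicalSpace.isOpen_of_mem_countableBasis hD))

theorem LI_meas : MeasurableSet {z | 𝓕.LI z} := by
  have h1 : {z : X × CL G2 | 𝓕.LI z}
      = ⋂ U ∈ TopologicalSpace.countableBasis G2,
        ({z : X × CL G2 | ∃ h ∈ 𝓕.H z.1, ∃ c ∈ z.2.1, h * c ∈ U}ᶜ ∪
          {z : X × CL G2 | (z.2.1 ∩ U).Nonempty}) := by
    ext z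
    simp only [mem_iInter, mem_union, mem_compl_iff, mem_ofPred_eq]
    constructor
    · intro hz U _
      by_cases hU : ∃ h ∈ 𝓕.H z.1, ∃ c ∈ z.2.1, h * c ∈ U
      · right
        obtain ⟨h, hh, c, hc, hcU⟩ := hU
        exact ⟨h * c, hz h hh c hc, hcU⟩
      · left
        exact hU
    · intro hz h hh c hc
      by_contra hn
      have ho : IsOpen (z.2.1ᶜ) := z.2.2.isOpen_compl
      obtain ⟨U, hU, hcU, hUo⟩ :=
        (TopologicalSpace.isBasis_countableBasis G2).exists_subset_of_mem_open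
          (show h * c ∈ z.2.1ᶜ from hn) ho
      rcases hz U hU with h2 | h2
      · exact h2 ⟨h, hh, c, hc, hcU⟩
      · obtain ⟨y, hy, hyU⟩ := h2
        exact hUo hyU hy
  rw [h1]
  refine MeasurableSet.biInter (TopologicalSpace.countable_countableBasis G2) fun U hU => ?_
  have hUo := TopologicalSpace.isOpen_of_mem_countableBasis hU
  exact (𝓕.LI_hit_meas hUo).compl.union (measurable_snd (hitC_meas hUo))

theorem LI_ae : ∀ᵐ z ∂𝓕.zeta, 𝓕.LI z := by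
  rw [𝓕.ae_zeta 𝓕.LI_meas]
  refine Filter.Eventually.of_forall fun p h hh c hc => ?_
  have hc' : c * p.2⁻¹ ∈ 𝓕.H p.1 := hc
  change h * c * p.2⁻¹ ∈ 𝓕.H p.1
  rw [mul_assoc]
  exact (𝓕.H p.1).mul_mem hh hc'

lemma left_of_LI {z : X × CL G2} (hz : 𝓕.LI z) {h : G2} (hh : h ∈ 𝓕.H z.1) :
    𝓕.left.τ h z = z := by
  change (𝓕.A.τ h z.1, lC h z.2) = z
  rw [𝓕.stab z.1 h hh]
  have h1 : lC h z.2 = z.2 := by
    refine CL_ext fun c => ?_
    rw [mem_lC]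
    constructor
    · intro hc
      have h2 := hz h hh _ hc
      rwa [mul_inv_cancel_left] at h2
    · intro hc
      exact hz h⁻¹ ((𝓕.H z.1).inv_mem hh) c hc
  rw [h1]

lemma left_j1_of_LI {z : X × CL G2} (hz : 𝓕.LI z) {h : G2} (hh : h ∈ 𝓕.H z.1) :
    𝓕.aL.τ h.1 z = 𝓕.bL.τ h.2⁻¹ z := by
  change 𝓕.left.τ (j1 h.1) z = 𝓕.left.τ (j2 h.2⁻¹) z
  have h1 : j1 h.1 = j2 h.2⁻¹ * h := by simp [j1_apply, j2_apply, Prod.ext_iff]
  rw [h1, 𝓕.left.mul, 𝓕.left_of_LI hz hh]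

lemma left_j2_of_LI {z : X × CL G2} (hz : 𝓕.LI z) {h : G2} (hh : h ∈ 𝓕.H z.1) :
    𝓕.bL.τ h.2 z = 𝓕.aL.τ h.1⁻¹ z := by
  change 𝓕.left.τ (j2 h.2) z = 𝓕.left.τ (j1 h.1⁻¹) z
  have h1 : j2 h.2 = j1 h.1⁻¹ * h := by simp [j1_apply, j2_apply, Prod.ext_iff]
  rw [h1, 𝓕.left.mul, 𝓕.left_of_LI hz hh]

theorem ret_of_LI {T : ℝ} {z : X × CL G2} (hz : 𝓕.LI z) (hd : 𝓕.Dn eps0 T z.1) :
    Ret 𝓕.aL 𝓕.bL eps0 T z ∧ Ret 𝓕.bL 𝓕.aL eps0 T z := by
  constructor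
  · intro Y hY
    obtain ⟨⟨h, hh, h1, h2⟩, _⟩ := hd Y hY
    exact ⟨h.1, h.2⁻¹, 𝓕.left_j1_of_LI hz hh, h1, by rw [nS_inv]; exact h2⟩
  · intro Y hY
    obtain ⟨_, ⟨h, hh, h1, h2⟩⟩ := hd Y hY
    exact ⟨h.2, h.1⁻¹, 𝓕.left_j2_of_LI hz hh, h2, by rw [nS_inv]; exact h1⟩

end Fld

end Pool.Agent.IRS
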