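import Mathlib
import Pool.Agent.IRS.Base

/-!
# Asymptotically invariant measures on the upper triangular group
-/

set_option autoImplicit false

namespace Pool.Agent.IRS

open MeasureTheory Set Filter Topology ENNReal

/-- The parametrisation of the upper triangular group. -/
private noncomputable def Fol_G (p : ℝ × ℝ) : SL2R := (uu p.2 * dd p.1)⁻¹

private lemma Fol_uu_cont : Continuous uu := by
  refine Topology.IsInducing.continuous_iff (Topology.IsInducing.subtypeVal) |>.2 ?_
  refine continuous_matrix fun i j => ?_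
  fin_cases i <;> fin_cases j
  · exact continuous_const
  · exact continuous_id
  · exact continuous_const
  · exact continuous_const

private lemma Fol_dd_cont : Continuous dd := by
  refine Topology.IsInducing.continuous_iff (Topology.IsInducing.subtypeVal) |>.2 ?_
  refine continuous_matrix fun i j => ?_
  fin_cases i <;> fin_cases j
  · exact Real.continuous_exp
  · exact continuous_const
  · exact continuous_const
  · exact Real.continuous_exp.comp continuous_neg

private lemma Fol_G_meas : Measurable Fol_G :=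
  (((Fol_uu_cont.comp continuous_snd).mul (Fol_dd_cont.comp continuous_fst)).inv).measurable

private lemma Fol_G_uu (y : ℝ) (p : ℝ × ℝ) :
    uu y * Fol_G p = Fol_G (p.1, p.2 - Real.exp (2 * p.1) * y) := by
  unfold Fol_G
  rw [eq_comm, inv_eq_iff_mul_eq_one]
  have h1 : uu (p.2 - Real.exp (2 * p.1) * y) * dd p.1 = uu p.2 * dd p.1 * uu (-y) := by
    rw [mul_assoc, dd_uu, ← mul_assoc, ← uu_add]
    congr 2
    ring
  simp only
  rw [h1]
  have h2 : uu (-y) * uu y = 1 := by rw [← uu_add, neg_add_cancel, uu_zero]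
  calc uu p.2 * dd p.1 * uu (-y) * (uu y * (uu p.2 * dd p.1)⁻¹)
      = uu p.2 * dd p.1 * (uu (-y) * uu y) * (uu p.2 * dd p.1)⁻¹ := by simp only [mul_assoc]
    _ = 1 := by rw [h2, mul_one, mul_inv_cancel]

private lemma Fol_G_dd (s : ℝ) (p : ℝ × ℝ) :
    dd s * Fol_G p = Fol_G (p.1 - s, p.2) := by
  unfold Fol_G
  rw [eq_comm, inv_eq_iff_mul_eq_one]
  simp only
  rw [sub_eq_add_neg, dd_add, dd_neg]
  group

private lemma Fol_gen {Γ : ℝ × ℝ → SL2R} (hΓ : Measurable Γ) {σ σ' : ℝ × ℝ → ℝ × ℝ}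
    (hσ : MeasurePreserving σ volume volume) (hσ' : Measurable σ') (h1 : ∀ p, σ' (σ p) = p)
    {γ : SL2R} (hγ : ∀ p, γ * Γ p = Γ (σ p)) {R : Set (ℝ × ℝ)} (hR : MeasurableSet R)
    (hfin : volume R ≠ ⊤) (c e : ENNReal) (hb : c * volume (R \ σ' ⁻¹' R) ≤ e) :
    ∃ κ1 κ2 : Measure SL2R, ((c • volume.restrict R).map Γ).map (fun g => γ * g) + κ1
      = (c • volume.restrict R).map Γ + κ2 ∧ κ1 univ ≤ e ∧ κ2 univ ≤ e := by
  have hS : MeasurableSet (σ' ⁻¹' R) := hσ' hR
  have hpre : σ ⁻¹' (σ' ⁻¹' R) = R := by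
    ext p; simp only [mem_preimage, h1]
  have hmap : (volume.restrict R).map σ = volume.restrict (σ' ⁻¹' R) := by
    have := (hσ.restrict_preimage hS).map_eq
    rwa [hpre] at this
  have hvol : volume (σ' ⁻¹' R) = volume R := by
    rw [← hσ.measure_preimage hS.nullMeasurableSet, hpre]
  have e1 : ((c • volume.restrict R).map Γ).map (fun g => γ * g)
      = (c • volume.restrict (σ' ⁻¹' R)).map Γ := by
    rw [Measure.map_map (measurable_const_mul γ) hΓ]
    have : (fun g => γ * g) ∘ Γ = Γ ∘ σ := by funext p; exact hγ p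
    rw [this, ← Measure.map_map hΓ hσ.measurable, Measure.map_smul, hmap]
  refine ⟨(c • volume.restrict (R \ σ' ⁻¹' R)).map Γ,
    (c • volume.restrict ((σ' ⁻¹' R) \ R)).map Γ, ?_, ?_, ?_⟩
  · rw [e1, ← Measure.map_add _ _ hΓ, ← Measure.map_add _ _ hΓ, ← smul_add, ← smul_add]
    congr 2
    rw [← Measure.restrict_union disjoint_sdiff_right (hR.diff hS),
      ← Measure.restrict_union disjoint_sdiff_right (hS.diff hR), union_diff_self,
      union_diff_self, union_comm]
  · rw [Measure.map_apply hΓ MeasurableSet.univ, preimage_univ, Measure.smul_apply,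
      Measure.restrict_apply_univ]
    exact hb
  · rw [Measure.map_apply hΓ MeasurableSet.univ, preimage_univ, Measure.smul_apply,
      Measure.restrict_apply_univ]
    have h2 : volume ((σ' ⁻¹' R) \ R) = volume (R \ σ' ⁻¹' R) := by
      have a1 := measure_inter_add_diff (μ := volume) R hS
      have a2 := measure_inter_add_diff (μ := volume) (σ' ⁻¹' R) hR
      rw [hvol, ← a1, inter_comm] at a2
      refine (ENNReal.add_right_inj ?_).1 a2
      exact ((measure_mono inter_subset_left).trans_lt hfin.lt_top).ne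
    rw [smul_eq_mul, h2]
    exact hb

private lemma Fol_strip {X a x b : ℝ} (hx : x ∈ Icc (-X) X) (hb : |b| ≤ a)
    (h : x + b ∉ Icc (-X) X) : x ∈ Icc (-X) (-X + a) ∪ Icc (X - a) X := by
  obtain ⟨h1, h2⟩ := hx
  obtain ⟨h3, h4⟩ := abs_le.1 hb
  rw [mem_Icc, not_and_or, not_le, not_le] at h
  rcases h with h | h
  · left; exact ⟨h1, by linarith⟩
  · right; exact ⟨by linarith, h2⟩

private lemma Fol_strip_vol (X a : ℝ) :
    volume (Icc (-X) (-X + a) ∪ Icc (X - a) X) ≤ 2 * ENNReal.ofReal a := by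
  refine (measure_union_le _ _).trans ?_
  rw [Real.volume_Icc, Real.volume_Icc, two_mul]
  have e1 : -X + a - -X = a := by ring
  have e2 : X - (X - a) = a := by ring
  rw [e1, e2]

private lemma Fol_ratio {a A M : ℝ} (ha : 0 ≤ a) (hA : 0 < A) (hM : 0 < M) :
    (ENNReal.ofReal (2 * A) * ENNReal.ofReal (2 * M))⁻¹
      * (2 * ENNReal.ofReal a * ENNReal.ofReal (2 * M)) = ENNReal.ofReal (a / A) := by
  rw [← ENNReal.ofReal_mul (by positivity), ← ENNReal.ofReal_inv_of_pos (by positivity)]
  have : (2 : ENNReal) = ENNReal.ofReal 2 := by norm_num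
  rw [this, ← ENNReal.ofReal_mul (by norm_num), ← ENNReal.ofReal_mul (by positivity),
    ← ENNReal.ofReal_mul (by positivity)]
  congr 1
  field_simp

theorem folner : ∃ ν : ℕ → Measure SL2R, (∀ n, IsProbabilityMeasure (ν n)) ∧
    ∀ γ : SL2R, ((∃ y, γ = uu y) ∨ (∃ t, γ = dd t)) →
      ∃ ε : ℕ → ENNReal, Tendsto ε atTop (𝓝 0) ∧
        ∀ n, ∃ κ1 κ2 : Measure SL2R, (ν n).map (fun g => γ * g) + κ1 = ν n + κ2 ∧
          κ1 univ ≤ ε n ∧ κ2 univ ≤ ε n := by
  set L : ℕ → ℝ := fun n => n + 1 with hL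
  set X : ℕ → ℝ := fun n => Real.exp (2 * L n) * L n with hX
  have hLp : ∀ n, 0 < L n := fun n => by simp only [hL]; positivity
  have hXp : ∀ n, 0 < X n := fun n => by
    simp only [hX]; exact mul_pos (Real.exp_pos _) (hLp n)
  set R : ℕ → Set (ℝ × ℝ) := fun n => Icc (-L n) (L n) ×ˢ Icc (-X n) (X n) with hR
  have hRm : ∀ n, MeasurableSet (R n) := fun n => measurableSet_Icc.prod measurableSet_Icc
  have hRv : ∀ n, volume (R n) = ENNReal.ofReal (2 * L n) * ENNReal.ofReal (2 * X n) := by
    intro n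
    simp only [hR]
    rw [Measure.volume_eq_prod, Measure.prod_prod, Real.volume_Icc, Real.volume_Icc]
    congr 2 <;> ring
  have hRf : ∀ n, volume (R n) ≠ ⊤ := fun n => by
    rw [hRv]; exact ENNReal.mul_ne_top ENNReal.ofReal_ne_top ENNReal.ofReal_ne_top
  have hR0 : ∀ n, volume (R n) ≠ 0 := fun n => by
    rw [hRv, Ne, mul_eq_zero, not_or]
    exact ⟨(ENNReal.ofReal_pos.2 (by have := hLp n; positivity)).ne',
      (ENNReal.ofReal_pos.2 (by have := hXp n; positivity)).ne'⟩
  set c : ℕ → ENNReal := fun n => (volume (R n))⁻¹ with hc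
  have hlim : ∀ a : ℝ, Tendsto (fun n => ENNReal.ofReal (a / L n)) atTop (𝓝 0) := by
    intro a
    have h1 : Tendsto (fun n : ℕ => a / L n) atTop (𝓝 0) := by
      refine Tendsto.div_atTop tendsto_const_nhds ?_
      exact tendsto_atTop_add_const_right _ _ tendsto_natCast_atTop_atTop
    have := ENNReal.tendsto_ofReal h1
    rwa [ENNReal.ofReal_zero] at this
  refine ⟨fun n => (c n • volume.restrict (R n)).map Fol_G, fun n => ⟨?_⟩, ?_⟩
  · rw [Measure.map_apply Fol_G_meas MeasurableSet.univ, preimage_univ, Measure.smul_apply,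
      Measure.restrict_apply_univ, smul_eq_mul]
    exact ENNReal.inv_mul_cancel (hR0 n) (hRf n)
  rintro γ (⟨y, rfl⟩ | ⟨s, rfl⟩)
  · refine ⟨fun n => ENNReal.ofReal (|y| / L n), hlim _, fun n => ?_⟩
    have hσ : MeasurePreserving (fun p : ℝ × ℝ => (p.1, p.2 - Real.exp (2 * p.1) * y))
        volume volume := by
      rw [Measure.volume_eq_prod]
      refine MeasurePreserving.skew_product (f := fun t : ℝ => t)
        (g := fun t x => x - Real.exp (2 * t) * y) (MeasurePreserving.id volume) ?_ ?_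
      · unfold Function.uncurry
        fun_prop
      · filter_upwards with t
        exact (measurePreserving_sub_right volume (Real.exp (2 * t) * y)).map_eq
    have hσ' : Measurable (fun p : ℝ × ℝ => (p.1, p.2 + Real.exp (2 * p.1) * y)) := by fun_prop
    refine Fol_gen Fol_G_meas hσ hσ' (fun p => ?_) (fun p => Fol_G_uu y p) (hRm n) (hRf n) _ _ ?_
    · simp
    · have hsub : R n \ (fun p : ℝ × ℝ => (p.1, p.2 + Real.exp (2 * p.1) * y)) ⁻¹' (R n)
          ⊆ Icc (-L n) (L n) ×ˢ (Icc (-X n) (-X n + Real.exp (2 * L n) * |y|)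
            ∪ Icc (X n - Real.exp (2 * L n) * |y|) (X n)) := by
        rintro ⟨t, x⟩ ⟨⟨ht, hx⟩, hn⟩
        refine ⟨ht, Fol_strip hx (b := Real.exp (2 * t) * y) ?_ fun hh => hn ⟨ht, hh⟩⟩
        rw [abs_mul, abs_of_pos (Real.exp_pos _)]
        have h2 : t ≤ L n := ht.2
        gcongr
      refine (mul_le_mul_right (measure_mono hsub) _).trans ?_
      rw [Measure.volume_eq_prod, Measure.prod_prod, Real.volume_Icc]
      have e1 : L n - -L n = 2 * L n := by ring
      rw [e1]
      refine (mul_le_mul_right (mul_le_mul_right (Fol_strip_vol _ _) _) _).trans ?_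
      simp only [hc]
      rw [hRv, mul_comm (ENNReal.ofReal (2 * L n)), mul_comm (ENNReal.ofReal (2 * L n)),
        Fol_ratio (by positivity) (hXp n) (hLp n)]
      refine ENNReal.ofReal_le_ofReal (le_of_eq ?_)
      simp only [hX]
      have := hLp n
      have := Real.exp_pos (2 * L n)
      field_simp
  · refine ⟨fun n => ENNReal.ofReal (|s| / L n), hlim _, fun n => ?_⟩
    have hσ : MeasurePreserving (fun p : ℝ × ℝ => (p.1 - s, p.2)) volume volume := by
      rw [Measure.volume_eq_prod]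
      exact (measurePreserving_sub_right volume s).prod (MeasurePreserving.id volume)
    have hσ' : Measurable (fun p : ℝ × ℝ => (p.1 + s, p.2)) := by fun_prop
    refine Fol_gen Fol_G_meas hσ hσ' (fun p => ?_) (fun p => Fol_G_dd s p) (hRm n) (hRf n) _ _ ?_
    · simp
    · have hsub : R n \ (fun p : ℝ × ℝ => (p.1 + s, p.2)) ⁻¹' (R n)
          ⊆ (Icc (-L n) (-L n + |s|) ∪ Icc (L n - |s|) (L n)) ×ˢ Icc (-X n) (X n) := by
        rintro ⟨t, x⟩ ⟨⟨ht, hx⟩, hn⟩
        exact ⟨Fol_strip ht (b := s) le_rfl fun hh => hn ⟨hh, hx⟩, hx⟩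
      refine (mul_le_mul_right (measure_mono hsub) _).trans ?_
      rw [Measure.volume_eq_prod, Measure.prod_prod, Real.volume_Icc]
      have e1 : X n - -X n = 2 * X n := by ring
      rw [e1]
      refine (mul_le_mul_right (mul_le_mul_left (Fol_strip_vol _ _) _) _).trans ?_
      simp only [hc]
      rw [hRv, Fol_ratio (abs_nonneg s) (hLp n) (hXp n)]

end Pool.Agent.IRS
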