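import Mathlib
import Pool.Agent.IRS.Avg

/-!
# Functionals given by averages and bounded multipliers
-/

set_option autoImplicit false
set_option linter.unusedSectionVars false

namespace Pool.Agent.IRS

open MeasureTheory Set Filter Topology ENNReal

section

variable {Γ : Type*} [Group Γ] [MeasurableSpace Γ] [MeasurableMul Γ] [MeasurableInv Γ] {Z : Type*}
  [MeasurableSpace Z] {ζ : Measure Z} [SigmaFinite ζ] (c : PAct Γ ζ)

lemma PAct.int_comp {η : Z → ℝ} (hη : Integrable η ζ) (g : Γ) :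
    Integrable (fun z => η (c.τ g z)) ζ := (c.mp g).integrable_comp_of_integrable hη

lemma PAct.prod_int {η : Z → ℝ} (hm : Measurable η) (hη : Integrable η ζ) (ν : Measure Γ)
    [IsFiniteMeasure ν] : Integrable (fun p : Γ × Z => η (c.τ p.1 p.2)) (ν.prod ζ) := by
  have h0 : Measurable (fun p : Γ × Z => η (c.τ p.1 p.2)) := hm.comp c.meas
  rw [integrable_prod_iff h0.aestronglyMeasurable]
  refine ⟨?_, ?_⟩
  · filter_upwards with g
    exact c.int_comp hη g
  · have : (fun g : Γ => ∫ z, ‖η (c.τ g z)‖ ∂ζ) = fun _ => ∫ z, ‖η z‖ ∂ζ := by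
      ext g
      exact c.integral_comp g (F := fun z => ‖η z‖) hm.norm
    rw [this]
    exact integrable_const _

/-- The pairing with a translate. -/
noncomputable def bf (Θ η : Z → ℝ) (g : Γ) : ℝ := ∫ z, Θ z * η (c.τ g z) ∂ζ

/-- The averaged pairing. -/
noncomputable def ell (ν : Measure Γ) (Θ η : Z → ℝ) : ℝ := ∫ g, bf c Θ η g ∂ν

variable {Θ : Z → ℝ} (hΘ : Measurable Θ) (hΘ1 : ∀ z, |Θ z| ≤ 1)
include hΘ hΘ1

lemma mul_int' {η : Z → ℝ} (hη : Integrable η ζ) : Integrable (fun z => Θ z * η z) ζ := by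
  refine hη.bdd_mul (c := 1) hΘ.aestronglyMeasurable ?_
  filter_upwards with z
  exact hΘ1 z

lemma bf_measurable {η : Z → ℝ} (hm : Measurable η) : Measurable (bf c Θ η) := by
  have h0 : Measurable (fun p : Γ × Z => Θ p.2 * η (c.τ p.1 p.2)) :=
    (hΘ.comp measurable_snd).mul (hm.comp c.meas)
  exact h0.stronglyMeasurable.integral_prod_right.measurable

lemma bf_abs {η : Z → ℝ} (hm : Measurable η) (hη : Integrable η ζ) (g : Γ) :
    |bf c Θ η g| ≤ ∫ z, |η z| ∂ζ := by
  unfold bf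
  calc |∫ z, Θ z * η (c.τ g z) ∂ζ| ≤ ∫ z, |Θ z * η (c.τ g z)| ∂ζ := abs_integral_le_integral_abs
    _ ≤ ∫ z, |η (c.τ g z)| ∂ζ := by
        refine integral_mono_of_nonneg (by filter_upwards with z; positivity)
          (c.int_comp hη g).abs (by
            filter_upwards with z
            rw [abs_mul]
            exact mul_le_of_le_one_left (abs_nonneg _) (hΘ1 z))
    _ = ∫ z, |η z| ∂ζ := c.integral_comp g (F := fun z => |η z|) hm.abs

lemma bf_integrable {η : Z → ℝ} (hm : Measurable η) (hη : Integrable η ζ) (ν : Measure Γ)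
    [IsFiniteMeasure ν] : Integrable (bf c Θ η) ν :=
  integrable_of_bdd ν (bf_measurable c hΘ hΘ1 hm) (bf_abs c hΘ hΘ1 hm hη)

lemma ell_add (ν : Measure Γ) [IsFiniteMeasure ν] {η η' : Z → ℝ} (hm : Measurable η)
    (hm' : Measurable η') (hη : Integrable η ζ) (hη' : Integrable η' ζ) :
    ell c ν Θ (fun z => η z + η' z) = ell c ν Θ η + ell c ν Θ η' := by
  unfold ell
  rw [← integral_add (bf_integrable c hΘ hΘ1 hm hη ν) (bf_integrable c hΘ hΘ1 hm' hη' ν)]
  refine integral_congr_ae ?_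
  filter_upwards with g
  unfold bf
  rw [← integral_add (mul_int' hΘ hΘ1 (c.int_comp hη g)) (mul_int' hΘ hΘ1 (c.int_comp hη' g))]
  refine integral_congr_ae ?_
  filter_upwards with z
  ring

omit hΘ hΘ1 in
lemma ell_smul (ν : Measure Γ) (r : ℝ) (η : Z → ℝ) :
    ell c ν Θ (fun z => r * η z) = r * ell c ν Θ η := by
  unfold ell
  rw [← integral_const_mul]
  refine integral_congr_ae ?_
  filter_upwards with g
  unfold bf
  rw [← integral_const_mul]
  refine integral_congr_ae ?_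
  filter_upwards with z
  ring

lemma ell_abs (ν : Measure Γ) [IsProbabilityMeasure ν] {η : Z → ℝ} (hm : Measurable η)
    (hη : Integrable η ζ) : |ell c ν Θ η| ≤ ∫ z, |η z| ∂ζ := by
  unfold ell
  calc |∫ g, bf c Θ η g ∂ν| ≤ ∫ g, |bf c Θ η g| ∂ν := abs_integral_le_integral_abs
    _ ≤ ∫ _, (∫ z, |η z| ∂ζ) ∂ν := by
        refine integral_mono_of_nonneg (by filter_upwards with z; positivity)
          (integrable_const _) (by filter_upwards with g; exact bf_abs c hΘ hΘ1 hm hη g)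
    _ = _ := by simp

/-- Almost invariance. -/
lemma ell_shift (ν : Measure Γ) [IsProbabilityMeasure ν] {η : Z → ℝ} (hm : Measurable η)
    (hη : Integrable η ζ) (γ : Γ) (κ1 κ2 : Measure Γ) [IsFiniteMeasure κ1] [IsFiniteMeasure κ2]
    (hκ : ν.map (fun g => γ * g) + κ1 = ν + κ2) :
    |ell c ν Θ (fun z => η (c.τ γ z)) - ell c ν Θ η|
      ≤ (κ1.real univ + κ2.real univ) * ∫ z, |η z| ∂ζ := by
  have hbm := bf_measurable c hΘ hΘ1 hm
  have hN : 0 ≤ ∫ z, |η z| ∂ζ := integral_nonneg fun _ => abs_nonneg _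
  have h1 : ell c ν Θ (fun z => η (c.τ γ z)) = ∫ g, bf c Θ η g ∂(ν.map (fun g => γ * g)) := by
    rw [integral_map (measurable_const_mul γ).aemeasurable hbm.aestronglyMeasurable]
    unfold ell
    refine integral_congr_ae ?_
    filter_upwards with g
    unfold bf
    refine integral_congr_ae ?_
    filter_upwards with z
    rw [c.mul]
  have hmap : IsFiniteMeasure (ν.map (fun g => γ * g)) := Measure.isFiniteMeasure_map _ _
  have h2 : ∫ g, bf c Θ η g ∂(ν.map (fun g => γ * g) + κ1) = ∫ g, bf c Θ η g ∂(ν + κ2) := by rw [hκ]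
  rw [integral_add_measure (bf_integrable c hΘ hΘ1 hm hη _) (bf_integrable c hΘ hΘ1 hm hη _),
    integral_add_measure (bf_integrable c hΘ hΘ1 hm hη _) (bf_integrable c hΘ hΘ1 hm hη _)] at h2
  have hb : ∀ κ : Measure Γ, IsFiniteMeasure κ →
      |∫ g, bf c Θ η g ∂κ| ≤ κ.real univ * ∫ z, |η z| ∂ζ := by
    intro κ hκf
    calc |∫ g, bf c Θ η g ∂κ| ≤ ∫ g, |bf c Θ η g| ∂κ := abs_integral_le_integral_abs
      _ ≤ ∫ _, (∫ z, |η z| ∂ζ) ∂κ := by
          refine integral_mono_of_nonneg (by filter_upwards with z; positivity)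
            (integrable_const _) (by filter_upwards with g; exact bf_abs c hΘ hΘ1 hm hη g)
      _ = _ := by simp
  have h3 : ell c ν Θ (fun z => η (c.τ γ z)) - ell c ν Θ η
      = ∫ g, bf c Θ η g ∂κ2 - ∫ g, bf c Θ η g ∂κ1 := by
    rw [h1]; unfold ell; linarith
  rw [h3]
  have h4 := hb κ1 inferInstance
  have h5 := hb κ2 inferInstance
  calc |∫ g, bf c Θ η g ∂κ2 - ∫ g, bf c Θ η g ∂κ1|
      ≤ |∫ g, bf c Θ η g ∂κ2| + |∫ g, bf c Θ η g ∂κ1| := abs_sub _ _
    _ ≤ κ2.real univ * ∫ z, |η z| ∂ζ + κ1.real univ * ∫ z, |η z| ∂ζ := add_le_add h5 h4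
    _ = _ := by ring

omit hΘ hΘ1 in
/-- The pairing against the average. -/
lemma ell_eq (ν : Measure Γ) [IsProbabilityMeasure ν] {Θ : Z → ℝ} (hΘ : Measurable Θ)
    (hΘ1 : ∀ z, |Θ z| ≤ 1) {η : Z → ℝ} (hm : Measurable η) (hη : Integrable η ζ) :
    ell c ν Θ η = ∫ z, Θ z * ∫ g, η (c.τ g z) ∂ν ∂ζ := by
  unfold ell bf
  have h1 : Integrable (fun p : Γ × Z => Θ p.2 * η (c.τ p.1 p.2)) (ν.prod ζ) := by
    refine (c.prod_int hm hη ν).bdd_mul (c := 1) (hΘ.comp measurable_snd).aestronglyMeasurable ?_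
    filter_upwards with p
    exact hΘ1 p.2
  rw [integral_integral_swap h1]
  refine integral_congr_ae ?_
  filter_upwards with z
  rw [integral_const_mul]

end

/-- A function whose integrals against all shifted differences vanish is invariant. -/
lemma inv_of_pair {Γ : Type*} [Group Γ] [MeasurableSpace Γ] {Z : Type*} [MeasurableSpace Z]
    {ζ : Measure Z} [SigmaFinite ζ] (c : PAct Γ ζ) {Θ : Z → ℝ} (hΘ : Measurable Θ)
    (hΘ1 : ∀ z, |Θ z| ≤ 1) (γ : Γ)
    (h : ∀ η : Z → ℝ, Measurable η → Integrable η ζ →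
      ∫ z, Θ z * η (c.τ γ z) ∂ζ = ∫ z, Θ z * η z ∂ζ) :
    ∀ᵐ z ∂ζ, Θ (c.τ γ⁻¹ z) = Θ z := by
  have hm' : Measurable (fun z => Θ (c.τ γ⁻¹ z)) := hΘ.comp (c.meas_g _)
  have key : (fun z => Θ (c.τ γ⁻¹ z) - Θ z) =ᵐ[ζ] 0 := by
    refine ae_eq_zero_of_forall_setIntegral_eq_of_sigmaFinite (fun s hs hs' => ?_) fun s hs hs' => ?_
    · refine Measure.integrableOn_of_bounded (M := 2) hs'.ne (hm'.sub hΘ).aestronglyMeasurable ?_
      filter_upwards with z
      calc ‖Θ (c.τ γ⁻¹ z) - Θ z‖ ≤ |Θ (c.τ γ⁻¹ z)| + |Θ z| := abs_sub _ _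
        _ ≤ 2 := by linarith [hΘ1 (c.τ γ⁻¹ z), hΘ1 z]
    · have hi : Integrable (s.indicator (fun _ => (1 : ℝ))) ζ :=
        (integrable_indicator_iff hs).2 (integrableOn_const hs'.ne)
      have hmi : Measurable (s.indicator (fun _ => (1 : ℝ))) := measurable_const.indicator hs
      have h1 := h _ hmi hi
      have h2 : ∫ z, Θ z * s.indicator (fun _ => (1 : ℝ)) (c.τ γ z) ∂ζ
          = ∫ z, Θ (c.τ γ⁻¹ z) * s.indicator (fun _ => (1 : ℝ)) z ∂ζ := by
        rw [← c.integral_comp γ (F := fun z => Θ (c.τ γ⁻¹ z) * s.indicator (fun _ => (1 : ℝ)) z)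
          (hm'.mul hmi)]
        simp only [c.inv_apply]
      rw [h2] at h1
      have h3 : ∀ u : Z → ℝ, ∫ z, u z * s.indicator (fun _ => (1 : ℝ)) z ∂ζ = ∫ z in s, u z ∂ζ := by
        intro u
        rw [← integral_indicator hs]
        refine integral_congr_ae ?_
        filter_upwards with z
        by_cases hz : z ∈ s
        · simp [hz]
        · simp [hz]
      rw [h3, h3] at h1
      have hint : ∀ u : Z → ℝ, Measurable u → (∀ z, |u z| ≤ 1) → IntegrableOn u s ζ := by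
        intro u hu hu1
        refine Measure.integrableOn_of_bounded (M := 1) hs'.ne hu.aestronglyMeasurable ?_
        filter_upwards with z
        exact hu1 z
      rw [integral_sub (hint _ hm' fun z => hΘ1 _) (hint _ hΘ hΘ1), h1, sub_self]
  filter_upwards [key] with z hz
  simp only [Pi.zero_apply] at hz
  linarith

end Pool.Agent.IRS
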