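import Mathlib

/-!
# Weak limits of dominated functionals

PROOF.  Choose a measurable `ρ > 0` (real valued) with `∫ ρ dζ < ∞`
(`exists_pos_lintegral_lt_of_sigmaFinite`); put `L φ := lim_𝒰 ℓ n φ` (the values lie in the compact
interval `[-∫|φ|, ∫|φ|]`, so the ultrafilter limit exists: `IsCompact.ultrafilter_le_nhds`).  `L` is
additive, homogeneous and `|L φ| ≤ ∫ |φ| dζ`.  Get `Θ` either from a signed measure
`E ↦ L (ρ 1_E)` (countably additive and absolutely continuous since `|L (ρ 1_E)| ≤ ∫_E ρ`;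
`SignedMeasure.rnDeriv`), or from the Riesz representation in `L2` of the finite measure
`ρ ζ` (`ψ ↦ L (ρ ψ)`), or any other way.  `|Θ| ≤ 1` a.e. since `|∫ Θ φ| ≤ ∫ |φ|`; change it on a
null set.  Extend from bounded multiples of `ρ` to all integrable `φ` by truncation
(`φ 1{|φ| ≤ k ρ}`), both sides being continuous for the `L1` norm.
-/

set_option autoImplicit false

namespace Pool.Agent.IRS

open MeasureTheory Set Filter Topology ENNReal

section abstract

variable {Z : Type*} [MeasurableSpace Z] (ζ : Measure Z)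

/-- A functional that vanishes on all `ρ 1_E` vanishes. -/
private lemma wl_zero {ρ : Z → ℝ} (hρm : Measurable ρ) (hρ : ∀ z, 0 < ρ z)
    (hρi : Integrable ρ ζ) (D : (Z → ℝ) → ℝ)
    (hadd : ∀ (φ ψ : Z → ℝ), Measurable φ → Measurable ψ → Integrable φ ζ → Integrable ψ ζ →
      D (fun z => φ z + ψ z) = D φ + D ψ)
    (hsmul : ∀ (c : ℝ) (φ : Z → ℝ), Measurable φ → Integrable φ ζ →
      D (fun z => c * φ z) = c * D φ)
    (hbd : ∀ (φ : Z → ℝ), Measurable φ → Integrable φ ζ → |D φ| ≤ 2 * ∫ z, |φ z| ∂ζ)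
    (hE : ∀ E, MeasurableSet E → D (E.indicator ρ) = 0) (φ : Z → ℝ) (hφ : Measurable φ)
    (hi : Integrable φ ζ) : D φ = 0 := by
  have hsimple : ∀ s : SimpleFunc Z ℝ, Integrable (fun z => ρ z * s z) ζ ∧
      D (fun z => ρ z * s z) = 0 := by
    intro s
    induction s using SimpleFunc.induction with
    | const c hs =>
      rename_i s
      have h1 : (fun z => ρ z * (SimpleFunc.piecewise s hs (SimpleFunc.const _ c)
          (SimpleFunc.const _ 0)) z) = fun z => c * (s.indicator ρ) z := by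
        funext z
        by_cases hz : z ∈ s
        · simp [hz, mul_comm]
        · simp [hz]
      rw [h1]
      refine ⟨(hρi.indicator hs).const_mul c, ?_⟩
      rw [hsmul c _ (hρm.indicator hs) (hρi.indicator hs), hE s hs, mul_zero]
    | add hd hf hg =>
      rename_i f g
      have h1 : (fun z => ρ z * (f + g) z) = fun z => ρ z * f z + ρ z * g z := by
        funext z
        simp [mul_add]
      rw [h1]
      refine ⟨hf.1.add hg.1, ?_⟩
      rw [hadd (fun z => ρ z * f z) (fun z => ρ z * g z) (hρm.mul f.measurable)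
        (hρm.mul g.measurable) hf.1 hg.1, hf.2, hg.2, add_zero]
  set g : Z → ℝ := fun z => φ z / ρ z with hg
  have hgm : Measurable g := hφ.div hρm
  have hρg : ∀ z, ρ z * g z = φ z := fun z => mul_div_cancel₀ (φ z) (hρ z).ne'
  set S : ℕ → SimpleFunc Z ℝ := fun n =>
    SimpleFunc.approxOn g hgm (Set.range g ∪ {0}) 0 (by simp) n with hS
  have hlim : ∀ z, Tendsto (fun n => S n z) atTop (𝓝 (g z)) := by
    intro z
    apply SimpleFunc.tendsto_approxOn
    apply subset_closure
    left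
    exact ⟨z, rfl⟩
  have hbdS : ∀ n z, |S n z| ≤ 2 * |g z| := by
    intro n z
    have := SimpleFunc.norm_approxOn_zero_le (s := Set.range g ∪ {0}) hgm (by simp) z n
    rw [Real.norm_eq_abs, Real.norm_eq_abs] at this
    calc |S n z| ≤ |g z| + |g z| := this
      _ = 2 * |g z| := by ring
  have hconv : Tendsto (fun n => ∫ z, |φ z - ρ z * S n z| ∂ζ) atTop (𝓝 (∫ z, (0 : ℝ) ∂ζ)) := by
    apply tendsto_integral_of_dominated_convergence (fun z => 3 * |φ z|)
    · intro n
      exact ((hφ.sub (hρm.mul (S n).measurable)).abs).aestronglyMeasurable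
    · exact hi.abs.const_mul 3
    · intro n
      refine Eventually.of_forall fun z => ?_
      rw [Real.norm_eq_abs, abs_abs]
      have h1 : |ρ z * S n z| ≤ 2 * |φ z| := by
        rw [abs_mul, ← hρg z, abs_mul, abs_of_pos (hρ z)]
        nlinarith [hbdS n z, hρ z]
      calc |φ z - ρ z * S n z| ≤ |φ z| + |ρ z * S n z| := abs_sub _ _
        _ ≤ 3 * |φ z| := by linarith
    · refine Eventually.of_forall fun z => ?_
      have h1 : Tendsto (fun n => |φ z - ρ z * S n z|) atTop (𝓝 |φ z - ρ z * g z|) :=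
        ((tendsto_const_nhds).sub ((tendsto_const_nhds).mul (hlim z))).abs
      rw [hρg z, sub_self, abs_zero] at h1
      exact h1
  rw [integral_zero] at hconv
  have hle : ∀ n, |D φ| ≤ 2 * ∫ z, |φ z - ρ z * S n z| ∂ζ := by
    intro n
    have hm : Measurable (fun z => φ z - ρ z * S n z) := hφ.sub (hρm.mul (S n).measurable)
    have hin : Integrable (fun z => φ z - ρ z * S n z) ζ := hi.sub (hsimple (S n)).1
    have h1 := hadd (fun z => φ z - ρ z * S n z) (fun z => ρ z * S n z) hm
      (hρm.mul (S n).measurable) hin (hsimple (S n)).1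
    have h2 : (fun z => (φ z - ρ z * S n z) + ρ z * S n z) = φ := by
      funext z; ring
    rw [(hsimple (S n)).2, add_zero] at h1
    rw [h2] at h1
    rw [h1]
    exact hbd _ hm hin
  have h0 : |D φ| ≤ 2 * 0 := ge_of_tendsto' (hconv.const_mul 2) hle
  rw [mul_zero] at h0
  exact abs_eq_zero.1 (le_antisymm h0 (abs_nonneg _))

/-- A functional dominated by the norm of `L1` is given by a bounded function. -/
private lemma wl_repr [SigmaFinite ζ] {ρ : Z → ℝ} (hρm : Measurable ρ) (hρ : ∀ z, 0 < ρ z)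
    (hρi : Integrable ρ ζ) (L : (Z → ℝ) → ℝ)
    (hadd : ∀ (φ ψ : Z → ℝ), Measurable φ → Measurable ψ → Integrable φ ζ → Integrable ψ ζ →
      L (fun z => φ z + ψ z) = L φ + L ψ)
    (hsmul : ∀ (c : ℝ) (φ : Z → ℝ), Measurable φ → Integrable φ ζ →
      L (fun z => c * φ z) = c * L φ)
    (hbd : ∀ (φ : Z → ℝ), Measurable φ → Integrable φ ζ → |L φ| ≤ ∫ z, |φ z| ∂ζ) :
    ∃ Θ : Z → ℝ, Measurable Θ ∧ (∀ z, |Θ z| ≤ 1) ∧
      ∀ φ : Z → ℝ, Measurable φ → Integrable φ ζ → L φ = ∫ z, Θ z * φ z ∂ζ := by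
  classical
  have hsub : ∀ (φ ψ : Z → ℝ), Measurable φ → Measurable ψ → Integrable φ ζ → Integrable ψ ζ →
      L φ - L ψ = L (fun z => φ z - ψ z) := by
    intro φ ψ hφ hψ iφ iψ
    have h1 := hadd (fun z => φ z - ψ z) ψ (hφ.sub hψ) hψ (iφ.sub iψ) iψ
    have h2 : (fun z => (φ z - ψ z) + ψ z) = φ := by funext z; ring
    rw [h2] at h1
    linarith
  -- the signed measure
  have hsum : ∀ (F : Finset ℕ) (f : ℕ → Set Z), (∀ i, MeasurableSet (f i)) →
      L (fun z => ∑ i ∈ F, (f i).indicator ρ z) = ∑ i ∈ F, L ((f i).indicator ρ) := by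
    intro F f hf
    induction F using Finset.induction_on with
    | empty =>
      have := hsmul 0 ρ hρm hρi
      simpa using this
    | insert a F ha ih =>
      have h1 : (fun z => ∑ i ∈ insert a F, (f i).indicator ρ z) =
          fun z => (f a).indicator ρ z + ∑ i ∈ F, (f i).indicator ρ z := by
        funext z; rw [Finset.sum_insert ha]
      rw [h1, hadd _ _ (hρm.indicator (hf a))
        (Finset.measurable_sum F fun i _ => hρm.indicator (hf i)) (hρi.indicator (hf a))
        (integrable_finsetSum F fun i _ => hρi.indicator (hf i)), ih, Finset.sum_insert ha]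
  let s : SignedMeasure Z :=
    { measureOf' := fun E => if MeasurableSet E then L (E.indicator ρ) else 0
      empty' := by
        have := hsmul 0 ρ hρm hρi
        simp only [MeasurableSet.empty, if_true, Set.indicator_empty]
        simpa using this
      not_measurable' := fun E hE => if_neg hE
      m_iUnion' := by
        intro f hf hd
        have hU : MeasurableSet (⋃ i, f i) := MeasurableSet.iUnion hf
        have hint : HasSum (fun i => ∫ z in f i, ρ z ∂ζ) (∫ z in ⋃ i, f i, ρ z ∂ζ) :=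
          hasSum_integral_iUnion hf hd hρi.integrableOn
        simp only [hf, hU, if_true]
        change Tendsto (fun F : Finset ℕ => ∑ i ∈ F, L ((f i).indicator ρ)) atTop
          (𝓝 (L ((⋃ i, f i).indicator ρ)))
        rw [tendsto_iff_norm_sub_tendsto_zero]
        have hzero : Tendsto (fun F : Finset ℕ => (∫ z in ⋃ i, f i, ρ z ∂ζ) -
            ∑ i ∈ F, ∫ z in f i, ρ z ∂ζ) atTop (𝓝 0) := by
          have := (tendsto_const_nhds (x := ∫ z in ⋃ i, f i, ρ z ∂ζ)).sub hint
          simpa using this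
        refine squeeze_zero (fun F => norm_nonneg _) (fun F => ?_) hzero
        have m1 : Measurable (fun z => ∑ i ∈ F, (f i).indicator ρ z) :=
          Finset.measurable_sum F fun i _ => hρm.indicator (hf i)
        have i1 : Integrable (fun z => ∑ i ∈ F, (f i).indicator ρ z) ζ :=
          integrable_finsetSum F fun i _ => hρi.indicator (hf i)
        rw [Real.norm_eq_abs, abs_sub_comm, ← hsum F f hf,
          hsub _ _ (hρm.indicator hU) m1 (hρi.indicator hU) i1]
        refine (hbd _ ((hρm.indicator hU).sub m1) ((hρi.indicator hU).sub i1)).trans (le_of_eq ?_)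
        have hnn : ∀ z, ∑ i ∈ F, (f i).indicator ρ z ≤ (⋃ i, f i).indicator ρ z := by
          intro z
          by_cases hz : ∃ i, z ∈ f i
          · obtain ⟨i, hi⟩ := hz
            have h1 : ∀ j ∈ F, j ≠ i → (f j).indicator ρ z = 0 := by
              intro j _ hj
              apply Set.indicator_of_notMem
              intro hzj
              exact Set.disjoint_left.1 (hd hj) hzj hi
            rw [Set.indicator_of_mem (Set.mem_iUnion.2 ⟨i, hi⟩)]
            by_cases hiF : i ∈ F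
            · rw [Finset.sum_eq_single_of_mem i hiF h1, Set.indicator_of_mem hi]
            · rw [Finset.sum_eq_zero fun j hj => h1 j hj (fun h => hiF (h ▸ hj))]
              exact (hρ z).le
          · have h1 : ∀ j ∈ F, (f j).indicator ρ z = 0 := by
              intro j _
              apply Set.indicator_of_notMem
              intro hzj
              exact hz ⟨j, hzj⟩
            rw [Finset.sum_eq_zero h1]
            exact Set.indicator_nonneg (fun z _ => (hρ z).le) z
        have h2 : ∀ z, |(⋃ i, f i).indicator ρ z - ∑ i ∈ F, (f i).indicator ρ z| =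
            (⋃ i, f i).indicator ρ z - ∑ i ∈ F, (f i).indicator ρ z :=
          fun z => abs_of_nonneg (sub_nonneg.2 (hnn z))
        have h3 : ∫ z, |(((⋃ i, f i).indicator ρ) - fun z => ∑ i ∈ F, (f i).indicator ρ z) z| ∂ζ =
            ∫ z, ((⋃ i, f i).indicator ρ z - ∑ i ∈ F, (f i).indicator ρ z) ∂ζ :=
          integral_congr_ae (Eventually.of_forall h2)
        rw [h3, integral_sub (hρi.indicator hU) i1, integral_indicator hU,
          integral_finsetSum F fun i _ => hρi.indicator (hf i)]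
        congr 1
        exact Finset.sum_congr rfl fun i _ => integral_indicator (hf i) }
  have hs : ∀ E, MeasurableSet E → s E = L (E.indicator ρ) := fun E hE => if_pos hE
  have hac : s ≪ᵥ ζ.toENNRealVectorMeasure := by
    refine VectorMeasure.AbsolutelyContinuous.mk fun E hE h0 => ?_
    rw [Measure.toENNRealVectorMeasure_apply_measurable hE] at h0
    rw [hs E hE]
    have h1 := hbd _ (hρm.indicator hE) (hρi.indicator hE)
    have h2 : ∫ z, |E.indicator ρ z| ∂ζ = 0 := by
      have h3 : (fun z => |E.indicator ρ z|) = E.indicator ρ := by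
        funext z
        exact abs_of_nonneg (Set.indicator_nonneg (fun z _ => (hρ z).le) z)
      rw [h3, integral_indicator hE, setIntegral_measure_zero _ h0]
    rw [h2] at h1
    exact abs_eq_zero.1 (le_antisymm h1 (abs_nonneg _))
  set f : Z → ℝ := s.rnDeriv ζ with hf
  have hfi : Integrable f ζ := SignedMeasure.integrable_rnDeriv s ζ
  have hfm : Measurable f := SignedMeasure.measurable_rnDeriv s ζ
  have hfs : ∀ E, MeasurableSet E → ∫ z in E, f z ∂ζ = L (E.indicator ρ) := by
    intro E hE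
    rw [← hs E hE, ← withDensityᵥ_apply hfi hE, hf, SignedMeasure.withDensityᵥ_rnDeriv_eq s ζ hac]
  have habs : ∀ E, MeasurableSet E → |L (E.indicator ρ)| ≤ ∫ z in E, ρ z ∂ζ := by
    intro E hE
    refine (hbd _ (hρm.indicator hE) (hρi.indicator hE)).trans (le_of_eq ?_)
    have h3 : (fun z => |E.indicator ρ z|) = E.indicator ρ := by
      funext z
      exact abs_of_nonneg (Set.indicator_nonneg (fun z _ => (hρ z).le) z)
    rw [h3, integral_indicator hE]
  have hle1 : f ≤ᵐ[ζ] ρ := by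
    refine ae_le_of_forall_setIntegral_le hfi hρi fun E hE _ => ?_
    rw [hfs E hE]
    exact (le_abs_self _).trans (habs E hE)
  have hle2 : (fun z => -f z) ≤ᵐ[ζ] ρ := by
    refine ae_le_of_forall_setIntegral_le hfi.neg hρi fun E hE _ => ?_
    rw [integral_neg, hfs E hE]
    exact (neg_le_abs _).trans (habs E hE)
  refine ⟨fun z => max (-1) (min 1 (f z / ρ z)), measurable_const.max
    (measurable_const.min (hfm.div hρm)), fun z => ?_, ?_⟩
  · rw [abs_le]
    refine ⟨le_max_left _ _, max_le (by norm_num) (min_le_left _ _)⟩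
  have hΘm : Measurable (fun z => max (-1) (min 1 (f z / ρ z))) :=
    measurable_const.max (measurable_const.min (hfm.div hρm))
  set Θ : Z → ℝ := fun z => max (-1) (min 1 (f z / ρ z)) with hΘ
  have hΘ1 : ∀ z, |Θ z| ≤ 1 := by
    intro z
    rw [abs_le]
    exact ⟨le_max_left _ _, max_le (by norm_num) (min_le_left _ _)⟩
  have hΘρ : ∀ᵐ z ∂ζ, Θ z * ρ z = f z := by
    filter_upwards [hle1, hle2] with z h1 h2
    have h3 : f z / ρ z ≤ 1 := (div_le_one (hρ z)).2 h1
    have h4 : -1 ≤ f z / ρ z := by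
      rw [le_div_iff₀ (hρ z)]
      linarith
    rw [hΘ]
    simp only
    rw [min_eq_right h3, max_eq_right h4, div_mul_cancel₀ _ (hρ z).ne']
  have hΘi : ∀ φ : Z → ℝ, Measurable φ → Integrable φ ζ →
      Integrable (fun z => Θ z * φ z) ζ := by
    intro φ hφ hi
    refine Integrable.mono hi (hΘm.mul hφ).aestronglyMeasurable
      (Eventually.of_forall fun z => ?_)
    rw [norm_mul, Real.norm_eq_abs]
    exact mul_le_of_le_one_left (norm_nonneg _) (hΘ1 z)
  intro φ hφ hi
  have := wl_zero ζ hρm hρ hρi (fun ψ => L ψ - ∫ z, Θ z * ψ z ∂ζ) ?_ ?_ ?_ ?_ φ hφ hi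
  · linarith
  · intro φ ψ hφ hψ iφ iψ
    simp only [mul_add]
    rw [hadd φ ψ hφ hψ iφ iψ, integral_add (hΘi φ hφ iφ) (hΘi ψ hψ iψ)]
    ring
  · intro c φ hφ iφ
    have h1 : (fun z => Θ z * (c * φ z)) = fun z => c * (Θ z * φ z) := by
      funext z; ring
    simp only [h1]
    rw [hsmul c φ hφ iφ, integral_const_mul]
    ring
  · intro φ hφ iφ
    have h1 := hbd φ hφ iφ
    have h2 : |∫ z, Θ z * φ z ∂ζ| ≤ ∫ z, |φ z| ∂ζ := by
      refine (abs_integral_le_integral_abs).trans ?_
      refine integral_mono (hΘi φ hφ iφ).abs iφ.abs fun z => ?_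
      simp only
      rw [abs_mul]
      exact mul_le_of_le_one_left (abs_nonneg _) (hΘ1 z)
    calc |L φ - ∫ z, Θ z * φ z ∂ζ| ≤ |L φ| + |∫ z, Θ z * φ z ∂ζ| := abs_sub _ _
      _ ≤ 2 * ∫ z, |φ z| ∂ζ := by linarith
  · intro E hE
    have h1 : ∫ z, Θ z * E.indicator ρ z ∂ζ = ∫ z in E, f z ∂ζ := by
      rw [← integral_indicator hE]
      apply integral_congr_ae
      filter_upwards [hΘρ] with z hz
      by_cases hzE : z ∈ E
      · simp [hzE, hz]
      · simp [hzE]
    rw [h1, hfs E hE, sub_self]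

end abstract

theorem weak_limit {Z : Type*} [MeasurableSpace Z] (ζ : Measure Z) [SigmaFinite ζ]
    (𝒰 : Ultrafilter ℕ) (ℓ : ℕ → (Z → ℝ) → ℝ)
    (hadd : ∀ n (φ ψ : Z → ℝ), Measurable φ → Measurable ψ → Integrable φ ζ → Integrable ψ ζ →
      ℓ n (fun z => φ z + ψ z) = ℓ n φ + ℓ n ψ)
    (hsmul : ∀ n (c : ℝ) (φ : Z → ℝ), Measurable φ → Integrable φ ζ →
      ℓ n (fun z => c * φ z) = c * ℓ n φ)
    (hbd : ∀ n (φ : Z → ℝ), Measurable φ → Integrable φ ζ → |ℓ n φ| ≤ ∫ z, |φ z| ∂ζ) :
    ∃ Θ : Z → ℝ, Measurable Θ ∧ (∀ z, |Θ z| ≤ 1) ∧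
      ∀ φ : Z → ℝ, Measurable φ → Integrable φ ζ →
        Tendsto (fun n => ℓ n φ) 𝒰 (𝓝 (∫ z, Θ z * φ z ∂ζ)) := by
  classical
  have hex : ∀ φ : Z → ℝ, ∃ x : ℝ, Measurable φ → Integrable φ ζ →
      Tendsto (fun n => ℓ n φ) 𝒰 (𝓝 x) := by
    intro φ
    by_cases h : Measurable φ ∧ Integrable φ ζ
    · have hc : IsCompact (Set.Icc (-∫ z, |φ z| ∂ζ) (∫ z, |φ z| ∂ζ)) := isCompact_Icc
      obtain ⟨x, -, hx⟩ := hc.ultrafilter_le_nhds (𝒰.map (fun n => ℓ n φ)) (by
        rw [le_principal_iff, Ultrafilter.coe_map, mem_map]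
        refine Filter.univ_mem' fun n => ?_
        exact abs_le.1 (hbd n φ h.1 h.2))
      exact ⟨x, fun _ _ => hx⟩
    · exact ⟨0, fun h1 h2 => (h ⟨h1, h2⟩).elim⟩
  choose L hL using hex
  obtain ⟨ρ, hρ0, hρm, hρi⟩ : ∃ ρ : Z → ℝ, (∀ z, 0 < ρ z) ∧ Measurable ρ ∧ Integrable ρ ζ := by
    obtain ⟨g, hg0, hgm, hgi⟩ := exists_pos_lintegral_lt_of_sigmaFinite ζ one_ne_zero
    refine ⟨fun z => (g z : ℝ), fun z => by exact_mod_cast hg0 z, hgm.coe_nnreal_real, ?_⟩
    refine ⟨hgm.coe_nnreal_real.aestronglyMeasurable, ?_⟩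
    rw [hasFiniteIntegral_iff_enorm]
    have h1 : ∀ z, ‖(g z : ℝ)‖ₑ = (g z : ENNReal) := by
      intro z
      simp [enorm]
    simp only [h1]
    exact hgi.trans one_lt_top
  have hLadd : ∀ (φ ψ : Z → ℝ), Measurable φ → Measurable ψ → Integrable φ ζ →
      Integrable ψ ζ → L (fun z => φ z + ψ z) = L φ + L ψ := by
    intro φ ψ hφ hψ iφ iψ
    refine tendsto_nhds_unique (hL _ (hφ.add hψ) (iφ.add iψ)) ?_
    refine ((hL φ hφ iφ).add (hL ψ hψ iψ)).congr fun n => ?_
    exact (hadd n φ ψ hφ hψ iφ iψ).symm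
  have hLsmul : ∀ (c : ℝ) (φ : Z → ℝ), Measurable φ → Integrable φ ζ →
      L (fun z => c * φ z) = c * L φ := by
    intro c φ hφ iφ
    refine tendsto_nhds_unique (hL _ (hφ.const_mul c) (iφ.const_mul c)) ?_
    refine ((hL φ hφ iφ).const_mul c).congr fun n => ?_
    exact (hsmul n c φ hφ iφ).symm
  have hLbd : ∀ (φ : Z → ℝ), Measurable φ → Integrable φ ζ → |L φ| ≤ ∫ z, |φ z| ∂ζ := by
    intro φ hφ iφ
    exact le_of_tendsto (hL φ hφ iφ).abs (Eventually.of_forall fun n => hbd n φ hφ iφ)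
  obtain ⟨Θ, h1, h2, h3⟩ := wl_repr ζ hρm hρ0 hρi L hLadd hLsmul hLbd
  refine ⟨Θ, h1, h2, fun φ hφ iφ => ?_⟩
  rw [← h3 φ hφ iφ]
  exact hL φ hφ iφ

end Pool.Agent.IRS
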