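import Mathlib
import Pool.Agent.IRS.WL
import Pool.Agent.IRS.Fol
import Pool.Agent.IRS.Bd3b
import Pool.Agent.IRS.Cov2
import Pool.Agent.IRS.ReitA

/-!
# Limits of multipliers depend on the base point only
-/

set_option autoImplicit false
set_option linter.unusedSectionVars false

namespace Pool.Agent.IRS

open MeasureTheory Set Filter Topology ENNReal

namespace Fld

variable {X : Type} [MeasurableSpace X] {μ : Measure X} [IsProbabilityMeasure μ] (𝓕 : Fld μ)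

/-- Right invariant functions depend on the base point only. -/
theorem theta_base {Θ : X × CL G2 → ℝ} (hΘ : Measurable Θ) (hΘ1 : ∀ z, |Θ z| ≤ 1)
    (hu : ∀ y : ℝ, ∀ᵐ z ∂𝓕.zeta, Θ (𝓕.cR.τ (uu y)⁻¹ z) = Θ z)
    (hd : ∀ t : ℝ, ∀ᵐ z ∂𝓕.zeta, Θ (𝓕.cR.τ (dd t)⁻¹ z) = Θ z) :
    ∃ Φ : X → ℝ, Measurable Φ ∧ (∀ x, |Φ x| ≤ 1) ∧ ∀ᵐ z ∂𝓕.zeta, Θ z = Φ z.1 := by
  have hF : Measurable (fun p : X × G2 => Θ (𝓕.Pi p)) := hΘ.comp 𝓕.measurable_Pi
  have key : ∀ γ : SL2R, (∀ᵐ z ∂𝓕.zeta, Θ (𝓕.cR.τ γ⁻¹ z) = Θ z) →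
      ∀ᵐ p ∂(μ.prod kq2), Θ (𝓕.Pi (p.1, p.2 * j1 γ)) = Θ (𝓕.Pi p) := by
    intro γ h
    have hset : MeasurableSet {z | Θ (𝓕.cR.τ γ⁻¹ z) = Θ z} :=
      measurableSet_eq_fun (hΘ.comp (𝓕.cR.meas_g _)) hΘ
    have h1 := (𝓕.ae_zeta hset).1 h
    filter_upwards [h1] with p hp
    rw [← hp]
    congr 1
    change (p.1, 𝓕.co p.1 (p.2 * j1 γ)) = (p.1, rC (j1 γ⁻¹) (𝓕.co p.1 p.2))
    rw [map_inv, 𝓕.co_right']
  obtain ⟨Φ, hΦ, hΦ1, hΦe⟩ := 𝓕.boundary (F := fun p => Θ (𝓕.Pi p)) hF (M := 1)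
    (fun p => hΘ1 _) (fun x h hh g => by
      change Θ (x, 𝓕.co x (h * g)) = Θ (x, 𝓕.co x g)
      rw [𝓕.co_inv hh]) (fun y => key _ (hu y)) (fun t => key _ (hd t))
  refine ⟨Φ, hΦ, hΦ1, ?_⟩
  have hset : MeasurableSet {z : X × CL G2 | Θ z = Φ z.1} :=
    measurableSet_eq_fun hΘ (hΦ.comp measurable_fst)
  rw [𝓕.ae_zeta hset]
  filter_upwards [hΦe] with p hp
  exact hp

/-- Integrals of functions of the base point. -/
theorem int_base {Φ : X → ℝ} (hΦ : Measurable Φ) {φ : X × CL G2 → ℝ}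
    (hφ : Measurable φ) (h0 : ∀ z, 0 ≤ φ z) (hi : Integrable φ 𝓕.zeta) :
    ∫ z, Φ z.1 * φ z ∂𝓕.zeta
      = ∫ x, Φ x * (𝓕.fib (fun z => ENNReal.ofReal (φ z)) x).toReal ∂μ := by
  have hφe : Measurable (fun z => ENNReal.ofReal (φ z)) := hφ.ennreal_ofReal
  have hfm := 𝓕.measurable_fib hφe
  have hfin : ∫⁻ x, 𝓕.fib (fun z => ENNReal.ofReal (φ z)) x ∂μ ≠ ⊤ := by
    rw [← 𝓕.lintegral_zeta hφe]
    exact hi.lintegral_lt_top.ne
  -- the two descriptions of the image measure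
  have hmap : (𝓕.zeta.withDensity (fun z => ENNReal.ofReal (φ z))).map Prod.fst
      = μ.withDensity (𝓕.fib (fun z => ENNReal.ofReal (φ z))) := by
    refine Measure.ext fun S hS => ?_
    rw [Measure.map_apply measurable_fst hS, withDensity_apply _ (measurable_fst hS),
      withDensity_apply _ hS, ← lintegral_indicator (measurable_fst hS), ← lintegral_indicator hS,
      𝓕.lintegral_zeta (hφe.indicator (measurable_fst hS))]
    refine lintegral_congr fun x => ?_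
    by_cases hx : x ∈ S
    · rw [indicator_of_mem hx]
      unfold fib
      refine lintegral_congr fun g => ?_
      rw [indicator_of_mem (by exact hx)]
    · rw [indicator_of_notMem hx]
      unfold fib
      rw [← lintegral_zero (μ := m2)]
      refine lintegral_congr fun g => ?_
      rw [indicator_of_notMem (by exact hx), zero_mul]
  have e1 : ∫ z, Φ z.1 * φ z ∂𝓕.zeta
      = ∫ z, Φ z.1 ∂(𝓕.zeta.withDensity (fun z => ENNReal.ofReal (φ z))) := by
    rw [integral_withDensity_eq_integral_toReal_smul hφe (by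
      filter_upwards with z; exact ENNReal.ofReal_lt_top)]
    refine integral_congr_ae ?_
    filter_upwards with z
    rw [ENNReal.toReal_ofReal (h0 z), smul_eq_mul, mul_comm]
  have e2 : ∫ z, Φ z.1 ∂(𝓕.zeta.withDensity (fun z => ENNReal.ofReal (φ z)))
      = ∫ x, Φ x ∂((𝓕.zeta.withDensity (fun z => ENNReal.ofReal (φ z))).map Prod.fst) := by
    rw [integral_map measurable_fst.aemeasurable hΦ.aestronglyMeasurable]
  rw [e1, e2, hmap, integral_withDensity_eq_integral_toReal_smul hfm (ae_lt_top hfm hfin)]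
  refine integral_congr_ae ?_
  filter_upwards with x
  rw [smul_eq_mul, mul_comm]

end Fld

end Pool.Agent.IRS
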