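import Mathlib
import Pool.Agent.IRS.ReitB

/-!
# The averages along the upper triangular group concentrate on the fibres
-/

set_option autoImplicit false
set_option linter.unusedSectionVars false

namespace Pool.Agent.IRS

open MeasureTheory Set Filter Topology ENNReal

namespace Fld

variable {X : Type} [MeasurableSpace X] {μ : Measure X} [IsProbabilityMeasure μ] (𝓕 : Fld μ)

/-- Averaging sequences. -/
def Fol (ν : ℕ → Measure SL2R) : Prop :=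
  ∀ γ : SL2R, ((∃ y, γ = uu y) ∨ (∃ t, γ = dd t)) →
      ∃ ε : ℕ → ENNReal, Tendsto ε atTop (𝓝 0) ∧
        ∀ n, ∃ κ1 κ2 : Measure SL2R, (ν n).map (fun g => γ * g) + κ1 = ν n + κ2 ∧
          κ1 univ ≤ ε n ∧ κ2 univ ≤ ε n

/-- The limit functional. -/
theorem limit_functional {ν : ℕ → Measure SL2R} (hν : ∀ n, IsProbabilityMeasure (ν n)) (hF : Fol ν)
    (𝒰 : Ultrafilter ℕ) (h𝒰 : (𝒰 : Filter ℕ) ≤ atTop) (Θ : ℕ → X × CL G2 → ℝ)
    (hΘ : ∀ n, Measurable (Θ n)) (hΘ1 : ∀ n z, |Θ n z| ≤ 1) :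
    ∃ Φ : X → ℝ, Measurable Φ ∧ (∀ x, |Φ x| ≤ 1) ∧
      ∀ η : X × CL G2 → ℝ, Measurable η → Integrable η 𝓕.zeta →
        Tendsto (fun n => ell 𝓕.cR (ν n) (Θ n) η) 𝒰 (𝓝 (∫ z, Φ z.1 * η z ∂𝓕.zeta)) := by
  obtain ⟨T, hT, hT1, hTl⟩ := weak_limit 𝓕.zeta 𝒰 (fun n => ell 𝓕.cR (ν n) (Θ n))
    (fun n φ ψ h1 h2 h3 h4 => by
      have := hν n
      exact ell_add 𝓕.cR (hΘ n) (hΘ1 n) (ν n) h1 h2 h3 h4)
    (fun n r φ _ _ => ell_smul 𝓕.cR (ν n) r φ)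
    (fun n φ h1 h2 => by
      have := hν n
      exact ell_abs 𝓕.cR (hΘ n) (hΘ1 n) (ν n) h1 h2)
  have key : ∀ γ : SL2R, ((∃ y, γ = uu y) ∨ (∃ t, γ = dd t)) →
      ∀ᵐ z ∂𝓕.zeta, T (𝓕.cR.τ γ⁻¹ z) = T z := by
    intro γ hγ
    refine inv_of_pair 𝓕.cR hT hT1 γ fun η hη hηi => ?_
    obtain ⟨ε, hε, hκ⟩ := hF γ hγ
    have hη' : Measurable (fun z => η (𝓕.cR.τ γ z)) := hη.comp (𝓕.cR.meas_g γ)
    have hηi' : Integrable (fun z => η (𝓕.cR.τ γ z)) 𝓕.zeta := 𝓕.cR.int_comp hηi γ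
    have t1 := hTl η hη hηi
    have t2 := hTl _ hη' hηi'
    have t3 : Tendsto (fun n => ell 𝓕.cR (ν n) (Θ n) (fun z => η (𝓕.cR.τ γ z))
        - ell 𝓕.cR (ν n) (Θ n) η) 𝒰 (𝓝 0) := by
      have hN : 0 ≤ ∫ z, |η z| ∂𝓕.zeta := integral_nonneg fun _ => abs_nonneg _
      have h1 : Tendsto (fun n => (ε n).toReal * (2 * ∫ z, |η z| ∂𝓕.zeta)) 𝒰 (𝓝 0) := by
        have h2 := ((ENNReal.tendsto_toReal ENNReal.zero_ne_top).comp hε).mul_const
          (2 * ∫ z, |η z| ∂𝓕.zeta)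
        rw [ENNReal.toReal_zero, zero_mul] at h2
        exact h2.mono_left h𝒰
      refine squeeze_zero_norm' ?_ h1
      have h3 : ∀ᶠ n in (𝒰 : Filter ℕ), ε n < ⊤ := h𝒰 (hε.eventually_lt_const ENNReal.zero_lt_top)
      filter_upwards [h3] with n hn
      obtain ⟨κ1, κ2, hk, hk1, hk2⟩ := hκ n
      have := hν n
      have f1 : IsFiniteMeasure κ1 := ⟨hk1.trans_lt hn⟩
      have f2 : IsFiniteMeasure κ2 := ⟨hk2.trans_lt hn⟩
      refine (ell_shift 𝓕.cR (hΘ n) (hΘ1 n) (ν n) hη hηi γ κ1 κ2 hk).trans ?_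
      have g1 : κ1.real univ ≤ (ε n).toReal := ENNReal.toReal_mono hn.ne hk1
      have g2 : κ2.real univ ≤ (ε n).toReal := ENNReal.toReal_mono hn.ne hk2
      calc (κ1.real univ + κ2.real univ) * ∫ z, |η z| ∂𝓕.zeta
          ≤ ((ε n).toReal + (ε n).toReal) * ∫ z, |η z| ∂𝓕.zeta := by gcongr
        _ = _ := by ring
    have t4 := t2.sub t1
    have t5 := tendsto_nhds_unique t4 t3
    linarith
  obtain ⟨Φ, hΦ, hΦ1, hΦe⟩ := 𝓕.theta_base hT hT1 (fun y => key _ (Or.inl ⟨y, rfl⟩))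
    (fun t => key _ (Or.inr ⟨t, rfl⟩))
  refine ⟨Φ, hΦ, hΦ1, fun η hη hηi => ?_⟩
  have e : ∫ z, Φ z.1 * η z ∂𝓕.zeta = ∫ z, T z * η z ∂𝓕.zeta := by
    refine integral_congr_ae ?_
    filter_upwards [hΦe] with z hz
    rw [hz]
  rw [e]
  exact hTl η hη hηi

theorem reiter : ∃ ν : ℕ → Measure SL2R, (∀ n, IsProbabilityMeasure (ν n)) ∧
    ∀ φ ψ : X × CL G2 → ℝ, Measurable φ → Measurable ψ → (∀ z, 0 ≤ φ z) → (∀ z, 0 ≤ ψ z) →
      (∃ M, ∀ z, φ z ≤ M) → (∃ M, ∀ z, ψ z ≤ M) → Integrable φ 𝓕.zeta → Integrable ψ 𝓕.zeta →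
      limsup (fun n => ∫⁻ z, ‖∫ γ, φ (𝓕.cR.τ γ z) ∂(ν n) - ∫ γ, ψ (𝓕.cR.τ γ z) ∂(ν n)‖ₑ ∂𝓕.zeta)
        atTop
      ≤ ∫⁻ x, ‖(𝓕.fib (fun z => ENNReal.ofReal (φ z)) x).toReal
          - (𝓕.fib (fun z => ENNReal.ofReal (ψ z)) x).toReal‖ₑ ∂μ := by
  obtain ⟨ν, hν, hF⟩ := folner
  refine ⟨ν, hν, fun φ ψ hφ hψ hφ0 hψ0 hφM hψM hφi hψi => ?_⟩
  set s : X → ℝ := fun x => (𝓕.fib (fun z => ENNReal.ofReal (φ z)) x).toReal with hs
  set t : X → ℝ := fun x => (𝓕.fib (fun z => ENNReal.ofReal (ψ z)) x).toReal with ht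
  have hsm : Measurable s := (𝓕.measurable_fib hφ.ennreal_ofReal).ennreal_toReal
  have htm : Measurable t := (𝓕.measurable_fib hψ.ennreal_ofReal).ennreal_toReal
  have hint : ∀ φ : X × CL G2 → ℝ, Measurable φ → Integrable φ 𝓕.zeta →
      Integrable (fun x => (𝓕.fib (fun z => ENNReal.ofReal (φ z)) x).toReal) μ := by
    intro φ hφ hφi
    refine integrable_toReal_of_lintegral_ne_top
      (𝓕.measurable_fib hφ.ennreal_ofReal).aemeasurable ?_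
    rw [← 𝓕.lintegral_zeta hφ.ennreal_ofReal]
    exact hφi.lintegral_lt_top.ne
  have hsi : Integrable s μ := hint φ hφ hφi
  have hti : Integrable t μ := hint ψ hψ hψi
  set χ : X × CL G2 → ℝ := fun z => φ z - ψ z with hχ
  have hχm : Measurable χ := hφ.sub hψ
  have hχi : Integrable χ 𝓕.zeta := hφi.sub hψi
  set D : ℕ → ENNReal := fun n =>
    ∫⁻ z, ‖∫ γ, φ (𝓕.cR.τ γ z) ∂(ν n) - ∫ γ, ψ (𝓕.cR.τ γ z) ∂(ν n)‖ₑ ∂𝓕.zeta with hD
  set R : ENNReal := ∫⁻ x, ‖s x - t x‖ₑ ∂μ with hR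
  -- the averages of the difference
  have hav : ∀ n z, ∫ γ, φ (𝓕.cR.τ γ z) ∂(ν n) - ∫ γ, ψ (𝓕.cR.τ γ z) ∂(ν n)
      = ∫ γ, χ (𝓕.cR.τ γ z) ∂(ν n) := by
    intro n z
    have := hν n
    obtain ⟨M, hM⟩ := hφM
    obtain ⟨M', hM'⟩ := hψM
    rw [← integral_sub]
    · exact integrable_of_bdd (ν n) (𝓕.cR.meas_sec hφ z) (M := M) fun g => by
        rw [abs_of_nonneg (hφ0 _)]; exact hM _
    · exact integrable_of_bdd (ν n) (𝓕.cR.meas_sec hψ z) (M := M') fun g => by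
        rw [abs_of_nonneg (hψ0 _)]; exact hM' _
  have havm : ∀ n, Measurable (fun z => ∫ γ, χ (𝓕.cR.τ γ z) ∂(ν n)) := fun n =>
    (𝓕.cR.meas_comp hχm).stronglyMeasurable.integral_prod_left'.measurable
  -- the multipliers
  set Θ : ℕ → X × CL G2 → ℝ := fun n z => if 0 ≤ ∫ γ, χ (𝓕.cR.τ γ z) ∂(ν n) then 1 else -1 with hΘ
  have hΘm : ∀ n, Measurable (Θ n) := fun n =>
    Measurable.ite (measurableSet_le measurable_const (havm n)) measurable_const measurable_const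
  have hΘ1 : ∀ n z, |Θ n z| ≤ 1 := by
    intro n z
    simp only [hΘ]
    split_ifs <;> simp
  have hell : ∀ n, ENNReal.ofReal (ell 𝓕.cR (ν n) (Θ n) χ) = D n := by
    intro n
    have := hν n
    rw [ell_eq 𝓕.cR (ν n) (hΘm n) (hΘ1 n) hχm hχi]
    have e1 : ∀ z, Θ n z * ∫ g, χ (𝓕.cR.τ g z) ∂(ν n) = ‖∫ g, χ (𝓕.cR.τ g z) ∂(ν n)‖ := by
      intro z
      simp only [hΘ]
      split_ifs with h
      · rw [one_mul, Real.norm_eq_abs, abs_of_nonneg h]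
      · rw [Real.norm_eq_abs, abs_of_neg (not_le.1 h)]; ring
    simp_rw [e1]
    have hi : Integrable (fun z => ∫ g, χ (𝓕.cR.τ g z) ∂(ν n)) 𝓕.zeta :=
      (𝓕.cR.prod_int hχm hχi (ν n)).integral_prod_right
    rw [ofReal_integral_norm_eq_lintegral_enorm hi]
    simp only [hD]
    refine lintegral_congr fun z => ?_
    rw [hav]
  refine le_of_forall_gt_imp_ge_of_dense fun R' hR' => ?_
  refine Filter.limsup_le_of_le (h := ?_)
  by_contra hcon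
  have hfreq : ∃ᶠ n in atTop, R' < D n := by
    rw [Filter.not_eventually] at hcon
    exact hcon.mono fun n hn => not_le.1 hn
  have hne : (atTop ⊓ 𝓟 {n | R' < D n}).NeBot := by
    rw [← Filter.frequently_iff_neBot]; exact hfreq
  set 𝒰 : Ultrafilter ℕ := Ultrafilter.of (atTop ⊓ 𝓟 {n | R' < D n}) with h𝒰
  have hle : (𝒰 : Filter ℕ) ≤ atTop ⊓ 𝓟 {n | R' < D n} := Ultrafilter.of_le _
  obtain ⟨Φ, hΦ, hΦ1, hΦl⟩ := 𝓕.limit_functional hν hF 𝒰 (hle.trans inf_le_left) Θ hΘm hΘ1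
  have h1 := hΦl χ hχm hχi
  have h2 : Tendsto D 𝒰 (𝓝 (ENNReal.ofReal (∫ z, Φ z.1 * χ z ∂𝓕.zeta))) := by
    have := (ENNReal.continuous_ofReal.tendsto _).comp h1
    refine this.congr fun n => ?_
    exact hell n
  have h3 : ∫ z, Φ z.1 * χ z ∂𝓕.zeta = ∫ x, Φ x * (s x - t x) ∂μ := by
    have e1 : ∀ z, Φ z.1 * χ z = Φ z.1 * φ z - Φ z.1 * ψ z := fun z => by simp only [hχ]; ring
    have hΦm' : Measurable (fun z : X × CL G2 => Φ z.1) := hΦ.comp measurable_fst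
    simp_rw [e1]
    rw [integral_sub (mul_int' hΦm' (fun z => hΦ1 _) hφi) (mul_int' hΦm' (fun z => hΦ1 _) hψi),
      𝓕.int_base hΦ hφ hφ0 hφi, 𝓕.int_base hΦ hψ hψ0 hψi]
    have e2 : ∀ x, Φ x * (s x - t x) = Φ x * s x - Φ x * t x := fun x => by ring
    simp_rw [e2]
    rw [integral_sub]
    · exact hsi.bdd_mul (c := 1) hΦ.aestronglyMeasurable (by filter_upwards with x; exact hΦ1 x)
    · exact hti.bdd_mul (c := 1) hΦ.aestronglyMeasurable (by filter_upwards with x; exact hΦ1 x)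
  have h4 : ENNReal.ofReal (∫ z, Φ z.1 * χ z ∂𝓕.zeta) ≤ R := by
    rw [h3]
    have h5 : ∫ x, Φ x * (s x - t x) ∂μ ≤ ∫ x, ‖s x - t x‖ ∂μ := by
      refine (le_abs_self _).trans (abs_integral_le_integral_abs.trans ?_)
      refine integral_mono_of_nonneg (by filter_upwards with x; positivity) (hsi.sub hti).norm (by
        filter_upwards with x
        rw [abs_mul]
        exact mul_le_of_le_one_left (abs_nonneg _) (hΦ1 x))
    refine (ENNReal.ofReal_le_ofReal h5).trans ?_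
    exact (ofReal_integral_norm_eq_lintegral_enorm (hsi.sub hti)).le
  have h5 : R' ≤ ENNReal.ofReal (∫ z, Φ z.1 * χ z ∂𝓕.zeta) := by
    refine ge_of_tendsto h2 ?_
    have h6 : ∀ᶠ n in (𝒰 : Filter ℕ), R' < D n := by
      have : {n | R' < D n} ∈ (𝒰 : Filter ℕ) := (hle.trans inf_le_right) (mem_principal_self _)
      exact this
    exact h6.mono fun n hn => hn.le
  exact absurd (h5.trans h4) (not_le.2 hR')

end Fld

end Pool.Agent.IRS
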