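import Mathlib
import Pool.Agent.IRS.Cov1
import Pool.Agent.IRS.Cov3a
import Pool.Agent.IRS.Cov3b
import Pool.Agent.IRS.CovA
import Pool.Agent.IRS.Reit

/-!
# Finiteness of the covolume

PROOF.  By `inf_or_fin` assume `hinf` (infinite).  Take `η` from `energy` with `n0 = 1/2`, the constant
`max C 0`, then `δ = min (1/4) (η/16)`, `B` from `exists_bump`, `ν` from `reiter`, and
`φ_n z := ∫ B (cR.τ γ z) dν_n`, `f_n = sqrt φ_n` (`sqrt_energy`).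
* `Cl f_n`: `fib (φ_n) x = ∫ fib (B ∘ cR.τ γ) x dν_n = fib B x ≤ 1` (Tonelli, `fib_right`).
* `∫ f_n² = ∫ φ_n = ∫ B ≥ 1 - δ` (`cR` preserves `zeta`).
* energies: for `γ` fixed, `φ_n (aL.τ γ z) - φ_n z = avg_n (B ∘ aL.τ γ) - avg_n B`
  (`left_right`), so by `reiter` its `L1` norm has `limsup ≤ ∫ |s (A γ x) - s x| dμ ≤ 2 δ`, `s x = (fib B x).toReal`
  (`fib_left`); it is at most `2 ∫ B` for all `n`; so (reverse Fatou, `limsup_lintegral_le`)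
  `limsup (E_a f_n + E_b f_n) ≤ 4 δ < η`, and some `n` has `E_a + E_b ≤ η`.
* `Y T := {z | z.1 ∉ toMeasurable μ {x | ¬ good T x} ∧ z.2 is left H_x-invariant}`.  The set of invariant
  pairs `{(x, C) | ∀ h ∈ H x, ∀ c ∈ C, h c ∈ C}` is measurable (`inv_meas`): as `C` is closed it is the set of
  `(x, C)` such that for all basis sets `U`, (`∃ h ∈ H x, c ∈ C, h c ∈ U`) implies `C ∩ U ≠ ∅`; and the
  first is a countable union of products `hitC B1 × hitC B2` over basis sets with `B1 * B2 ⊆ U`; and it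
  has full measure (`ae_zeta`, `co_inv`-type computation).  `Ret` holds on `Y T`:
  for `h = (A, B) ∈ H x` and `C` invariant: `left.τ (j1 A) (x, C) = left.τ (j2 B⁻¹) (left.τ h (x, C))
  = left.τ (j2 B⁻¹) (x, C)`, as `A.τ h x = x` (`stab`) and `lC h C = C`.
* tail: `Cl_it`, `Cl_T`, `tail`.
* invariants: `no_inv` (with `left.τ g z = aL.τ g.1 (bL.τ g.2 z)`).
So `energy` gives `∫ f_n² < 1/2`, contradiction.
-/

set_option autoImplicit false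
set_option linter.unusedSectionVars false

namespace Pool.Agent.IRS

open MeasureTheory Set Filter Topology ENNReal

/-! ### averages of nonnegative functions -/

namespace PAct

section av

variable {Γ : Type*} [Group Γ] [MeasurableSpace Γ] {Z : Type*} [MeasurableSpace Z]
  {ζ : Measure Z} (a : PAct Γ ζ) (ν : Measure Γ) [IsProbabilityMeasure ν]

/-- The average of a function. -/
noncomputable def av (B : Z → ℝ) (z : Z) : ℝ := ∫ g, B (a.τ g z) ∂ν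

variable {B : Z → ℝ} (hB : Measurable B) (h0 : ∀ z, 0 ≤ B z) {M : ℝ} (hM : ∀ z, B z ≤ M)
include hB

lemma av_meas : Measurable (a.av ν B) :=
  (hB.comp a.meas).stronglyMeasurable.integral_prod_left'.measurable

lemma av_sec (z : Z) : Measurable (fun g : Γ => B (a.τ g z)) :=
  (hB.comp a.meas).comp (measurable_id.prodMk measurable_const)

include h0

omit hB [IsProbabilityMeasure ν] in
lemma av_nonneg (z : Z) : 0 ≤ a.av ν B z := integral_nonneg fun _ => h0 _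

include hM

lemma av_int (z : Z) : Integrable (fun g : Γ => B (a.τ g z)) ν :=
  integrable_of_bdd ν (a.av_sec hB z) (M := M) fun g => by
    rw [abs_of_nonneg (h0 _)]; exact hM _

lemma av_le (z : Z) : a.av ν B z ≤ M := by
  have h1 : a.av ν B z ≤ ∫ _, M ∂ν :=
    integral_mono (a.av_int ν hB h0 hM z) (integrable_const _) fun g => hM _
  simpa using h1

lemma av_ofReal (z : Z) :
    ENNReal.ofReal (a.av ν B z) = ∫⁻ g, ENNReal.ofReal (B (a.τ g z)) ∂ν :=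
  ofReal_integral_eq_lintegral_ofReal (a.av_int ν hB h0 hM z)
    (Filter.Eventually.of_forall fun _ => h0 _)

lemma lintegral_av [SigmaFinite ζ] :
    ∫⁻ z, ENNReal.ofReal (a.av ν B z) ∂ζ = ∫⁻ z, ENNReal.ofReal (B z) ∂ζ := by
  have h1 : ∀ z, ENNReal.ofReal (a.av ν B z) = ∫⁻ g, ENNReal.ofReal (B (a.τ g z)) ∂ν :=
    a.av_ofReal ν hB h0 hM
  simp_rw [h1]
  have hm : Measurable (fun p : Z × Γ => ENNReal.ofReal (B (a.τ p.2 p.1))) :=
    (hB.comp (a.meas.comp measurable_swap)).ennreal_ofReal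
  rw [lintegral_lintegral_swap hm.aemeasurable]
  have h2 : ∀ g, ∫⁻ z, ENNReal.ofReal (B (a.τ g z)) ∂ζ = ∫⁻ z, ENNReal.ofReal (B z) ∂ζ := fun g =>
    (a.mp g).lintegral_comp hB.ennreal_ofReal
  simp_rw [h2]
  simp

lemma av_integrable [SigmaFinite ζ] (hi : Integrable B ζ) : Integrable (a.av ν B) ζ := by
  refine (lintegral_ofReal_ne_top_iff_integrable (a.av_meas ν hB).aestronglyMeasurable
    (Filter.Eventually.of_forall fun _ => a.av_nonneg ν h0 _)).1 ?_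
  rw [a.lintegral_av ν hB h0 hM]
  exact (lintegral_ofReal_ne_top_iff_integrable hB.aestronglyMeasurable
    (Filter.Eventually.of_forall fun _ => h0 _)).2 hi

lemma integral_av [SigmaFinite ζ] : ∫ z, a.av ν B z ∂ζ = ∫ z, B z ∂ζ := by
  rw [integral_eq_lintegral_of_nonneg_ae (Filter.Eventually.of_forall fun _ => a.av_nonneg ν h0 _)
    (a.av_meas ν hB).aestronglyMeasurable, a.lintegral_av ν hB h0 hM,
    integral_eq_lintegral_of_nonneg_ae (Filter.Eventually.of_forall fun _ => h0 _)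
    hB.aestronglyMeasurable]

end av

end PAct

namespace Fld

variable {X : Type} [MeasurableSpace X] {μ : Measure X} [IsProbabilityMeasure μ] (𝓕 : Fld μ)

/-- `fib_right` with one null set for all elements. -/
lemma fib_right_all {φ : X × CL G2 → ENNReal} (hφ : Measurable φ) :
    ∀ᵐ x ∂μ, ∀ γ : G2, 𝓕.fib (fun z => φ (z.1, rC γ z.2)) x = 𝓕.fib φ x := by
  filter_upwards [𝓕.wt_sum, 𝓕.cnt] with x h1 h3
  intro γ
  unfold fib
  simp only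
  simp_rw [← 𝓕.co_right]
  have mco := 𝓕.measurable_co x
  have m0 : Measurable (fun g => φ (x, 𝓕.co x g)) := hφ.comp (measurable_const.prodMk mco)
  have m1 : Measurable (fun g => φ (x, 𝓕.co x (g * γ⁻¹)) * 𝓕.wt x g) :=
    (m0.comp (measurable_mul_const γ⁻¹)).mul (𝓕.measurable_wt' x)
  rw [← (m2_right γ).lintegral_comp m1]
  simp_rw [mul_inv_cancel_right]
  refine unf (D := 𝓕.H x) h3 (ψ := fun g => φ (x, 𝓕.co x g)) m0
    ((𝓕.measurable_wt' x).comp (measurable_mul_const γ)) (𝓕.measurable_wt' x) ?_ ?_ h1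
  · intro h hh g
    rw [𝓕.co_inv hh]
  · intro g
    have e : ∀ h : 𝓕.H x, (𝓕.wt x ∘ fun g => g * γ) ((h : G2) * g) = 𝓕.wt x (h * (g * γ)) :=
      fun h => by simp only [Function.comp, mul_assoc]
    exact (tsum_congr e).trans (h1 (g * γ))

lemma fib_av (ν : Measure SL2R) [IsProbabilityMeasure ν] {B : X × CL G2 → ℝ} (hB : Measurable B)
    (h0 : ∀ z, 0 ≤ B z) {M : ℝ} (hM : ∀ z, B z ≤ M) :
    ∀ᵐ x ∂μ, 𝓕.fib (fun z => ENNReal.ofReal (𝓕.cR.av ν B z)) x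
      = 𝓕.fib (fun z => ENNReal.ofReal (B z)) x := by
  filter_upwards [𝓕.fib_right_all hB.ennreal_ofReal] with x hx
  have h1 : ∀ z, ENNReal.ofReal (𝓕.cR.av ν B z)
      = ∫⁻ g, ENNReal.ofReal (B (𝓕.cR.τ g z)) ∂ν := 𝓕.cR.av_ofReal ν hB h0 hM
  have h2 : 𝓕.fib (fun z => ENNReal.ofReal (𝓕.cR.av ν B z)) x
      = ∫⁻ g, ∫⁻ c, ENNReal.ofReal (B (𝓕.cR.τ c (x, 𝓕.co x g))) * 𝓕.wt x g ∂ν ∂m2 := by
    unfold fib
    refine lintegral_congr fun g => ?_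
    simp only [h1]
    rw [lintegral_mul_const]
    exact (𝓕.cR.av_sec hB _).ennreal_ofReal
  have hm : Measurable (fun p : G2 × SL2R =>
      ENNReal.ofReal (B (𝓕.cR.τ p.2 (x, 𝓕.co x p.1))) * 𝓕.wt x p.1) := by
    have e1 : Measurable (fun p : G2 × SL2R => (p.2, ((x, 𝓕.co x p.1) : X × CL G2))) :=
      measurable_snd.prodMk (measurable_const.prodMk ((𝓕.measurable_co x).comp measurable_fst))
    have e2 : Measurable (fun p : G2 × SL2R => B (𝓕.cR.τ p.2 (x, 𝓕.co x p.1))) :=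
      hB.comp (𝓕.cR.meas.comp e1)
    exact e2.ennreal_ofReal.mul ((𝓕.measurable_wt' x).comp measurable_fst)
  rw [h2, lintegral_lintegral_swap hm.aemeasurable]
  have h3 : ∀ c, ∫⁻ g, ENNReal.ofReal (B (𝓕.cR.τ c (x, 𝓕.co x g))) * 𝓕.wt x g ∂m2
      = 𝓕.fib (fun z => ENNReal.ofReal (B z)) x := fun c => hx (j1 c)
  simp_rw [h3]
  simp

/-- Displacement of the averages, in the limit. -/
lemma limsup_one {ν : ℕ → Measure SL2R}
    (hr : ∀ φ ψ : X × CL G2 → ℝ, Measurable φ → Measurable ψ → (∀ z, 0 ≤ φ z) → (∀ z, 0 ≤ ψ z) →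
      (∃ M, ∀ z, φ z ≤ M) → (∃ M, ∀ z, ψ z ≤ M) → Integrable φ 𝓕.zeta → Integrable ψ 𝓕.zeta →
      limsup (fun n => ∫⁻ z, ‖∫ γ, φ (𝓕.cR.τ γ z) ∂(ν n) - ∫ γ, ψ (𝓕.cR.τ γ z) ∂(ν n)‖ₑ ∂𝓕.zeta)
        atTop
      ≤ ∫⁻ x, ‖(𝓕.fib (fun z => ENNReal.ofReal (φ z)) x).toReal
          - (𝓕.fib (fun z => ENNReal.ofReal (ψ z)) x).toReal‖ₑ ∂μ)
    {B : X × CL G2 → ℝ} (hB : Measurable B) (h0 : ∀ z, 0 ≤ B z) (hM : ∃ M, ∀ z, B z ≤ M)
    (hi : Integrable B 𝓕.zeta)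
    (hf : ∀ᵐ x ∂μ, 𝓕.fib (fun z => ENNReal.ofReal (B z)) x ≤ 1) {δ : ℝ} (hδ : 0 ≤ δ)
    (hδ1 : δ ≤ 1) (hB1 : 1 - δ ≤ ∫ z, B z ∂𝓕.zeta) (γ : G2) :
    limsup (fun n => ∫⁻ z, ‖𝓕.cR.av (ν n) B (𝓕.left.τ γ z) - 𝓕.cR.av (ν n) B z‖ₑ ∂𝓕.zeta) atTop
      ≤ ENNReal.ofReal (2 * δ) := by
  have h1 := hr (fun z => B (𝓕.left.τ γ z)) B (hB.comp (𝓕.left.meas_g γ)) hB (fun z => h0 _) h0
    (hM.imp fun M h z => h _) hM ((𝓕.left.mp γ).integrable_comp_of_integrable hi) hi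
  have h2 : ∀ n z, ∫ c, B (𝓕.left.τ γ (𝓕.cR.τ c z)) ∂(ν n)
      = 𝓕.cR.av (ν n) B (𝓕.left.τ γ z) := by
    intro n z
    unfold PAct.av
    refine integral_congr_ae (Filter.Eventually.of_forall fun c => ?_)
    change B (𝓕.left.τ γ (𝓕.right.τ (j1 c) z)) = B (𝓕.right.τ (j1 c) (𝓕.left.τ γ z))
    rw [𝓕.left_right]
  simp only [h2] at h1
  refine h1.trans ?_
  obtain ⟨F, hF⟩ : ∃ F, F = 𝓕.fib (fun z => ENNReal.ofReal (B z)) := ⟨_, rfl⟩
  have hFm : Measurable F := by rw [hF]; exact 𝓕.measurable_fib hB.ennreal_ofReal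
  rw [← hF] at hf ⊢
  have hl := 𝓕.fib_left hB.ennreal_ofReal γ
  rw [← hF] at hl
  have hf' : ∀ᵐ x ∂μ, F (𝓕.A.τ γ x) ≤ 1 := (𝓕.A.mp γ).quasiMeasurePreserving.ae hf
  have h3 : ∀ᵐ x ∂μ, ‖(𝓕.fib (fun z => ENNReal.ofReal (B (𝓕.left.τ γ z))) x).toReal
      - (F x).toReal‖ₑ ≤ (1 - F (𝓕.A.τ γ x)) + (1 - F x) := by
    filter_upwards [hl, hf, hf'] with x e1 e2 e3
    have e4 : 𝓕.fib (fun z => ENNReal.ofReal (B (𝓕.left.τ γ z))) x = F (𝓕.A.τ γ x) := e1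
    rw [e4]
    have key : ∀ u v : ENNReal, u ≤ 1 → v ≤ 1 → ‖u.toReal - v.toReal‖ₑ ≤ (1 - u) + (1 - v) := by
      intro u v hu hv
      have hu' : u ≠ ⊤ := (hu.trans_lt ENNReal.one_lt_top).ne
      have hv' : v ≠ ⊤ := (hv.trans_lt ENNReal.one_lt_top).ne
      have g1 : u.toReal ≤ 1 := ENNReal.toReal_le_of_le_ofReal zero_le_one (by simpa using hu)
      have g2 : v.toReal ≤ 1 := ENNReal.toReal_le_of_le_ofReal zero_le_one (by simpa using hv)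
      have g3 : 1 - u = ENNReal.ofReal (1 - u.toReal) := by
        rw [ENNReal.ofReal_sub _ ENNReal.toReal_nonneg, ENNReal.ofReal_one,
          ENNReal.ofReal_toReal hu']
      have g4 : 1 - v = ENNReal.ofReal (1 - v.toReal) := by
        rw [ENNReal.ofReal_sub _ ENNReal.toReal_nonneg, ENNReal.ofReal_one,
          ENNReal.ofReal_toReal hv']
      rw [g3, g4, ← ENNReal.ofReal_add (by linarith) (by linarith), ← ofReal_norm,
        Real.norm_eq_abs]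
      apply ENNReal.ofReal_le_ofReal
      rw [abs_le]
      constructor <;> linarith
    exact key _ _ e3 e2
  refine (lintegral_mono_ae h3).trans ?_
  have hm1 : Measurable (fun x => 1 - F x) := measurable_const.sub hFm
  rw [lintegral_add_right _ hm1]
  have h4 : ∫⁻ x, (1 - F (𝓕.A.τ γ x)) ∂μ = ∫⁻ x, (1 - F x) ∂μ := (𝓕.A.mp γ).lintegral_comp hm1
  rw [h4]
  have h5 : ∫⁻ x, F x ∂μ = ENNReal.ofReal (∫ z, B z ∂𝓕.zeta) := by
    rw [hF, ← 𝓕.lintegral_zeta hB.ennreal_ofReal]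
    exact (ofReal_integral_eq_lintegral_ofReal hi (Filter.Eventually.of_forall h0)).symm
  have h6 : ∫⁻ x, (1 - F x) ∂μ ≤ ENNReal.ofReal δ := by
    rw [lintegral_sub hFm (by rw [h5]; exact ENNReal.ofReal_ne_top) hf, h5]
    simp only [lintegral_const, measure_univ, mul_one]
    rw [tsub_le_iff_right, ← ENNReal.ofReal_add hδ (by linarith), ← ENNReal.ofReal_one]
    apply ENNReal.ofReal_le_ofReal
    linarith
  rw [two_mul, ENNReal.ofReal_add hδ hδ]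
  exact add_le_add h6 h6

/-- Some average has small displacement on average. -/
lemma limsup_two {ν : ℕ → Measure SL2R} (hν : ∀ n, IsProbabilityMeasure (ν n))
    {B : X × CL G2 → ℝ} (hB : Measurable B) (h0 : ∀ z, 0 ≤ B z) {M : ℝ} (hM : ∀ z, B z ≤ M)
    (hi : Integrable B 𝓕.zeta) {D : ENNReal} (j : SL2R →* G2) (hj : Measurable j)
    (hD : ∀ γ : G2, limsup (fun n => ∫⁻ z, ‖𝓕.cR.av (ν n) B (𝓕.left.τ γ z)
      - 𝓕.cR.av (ν n) B z‖ₑ ∂𝓕.zeta) atTop ≤ D) :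
    limsup (fun n => ∫⁻ g, ∫⁻ z, ‖𝓕.cR.av (ν n) B ((𝓕.left.comap j hj).τ g z)
      - 𝓕.cR.av (ν n) B z‖ₑ ∂𝓕.zeta ∂nuM) atTop ≤ D := by
  have hfin : ∫⁻ z, ENNReal.ofReal (B z) ∂𝓕.zeta ≠ ⊤ :=
    (lintegral_ofReal_ne_top_iff_integrable hB.aestronglyMeasurable
      (Filter.Eventually.of_forall fun _ => h0 _)).2 hi
  have hmav : ∀ n, Measurable (𝓕.cR.av (ν n) B) := fun n => by
    have := hν n
    exact 𝓕.cR.av_meas (ν n) hB
  refine (limsup_lintegral_le (fun _ : SL2R => 2 * ∫⁻ z, ENNReal.ofReal (B z) ∂𝓕.zeta)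
    ?_ ?_ ?_).trans ?_
  · intro n
    have hm : Measurable (fun p : SL2R × (X × CL G2) =>
        ‖𝓕.cR.av (ν n) B ((𝓕.left.comap j hj).τ p.1 p.2) - 𝓕.cR.av (ν n) B p.2‖ₑ) :=
      (((hmav n).comp (𝓕.left.comap j hj).meas).sub ((hmav n).comp measurable_snd)).enorm
    exact hm.lintegral_prod_right'
  · intro n
    have := hν n
    refine Filter.Eventually.of_forall fun g => ?_
    have e1 : ∀ z, ‖𝓕.cR.av (ν n) B ((𝓕.left.comap j hj).τ g z) - 𝓕.cR.av (ν n) B z‖ₑ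
        ≤ ENNReal.ofReal (𝓕.cR.av (ν n) B ((𝓕.left.comap j hj).τ g z))
          + ENNReal.ofReal (𝓕.cR.av (ν n) B z) := by
      intro z
      have g1 := 𝓕.cR.av_nonneg (ν n) h0 ((𝓕.left.comap j hj).τ g z)
      have g2 := 𝓕.cR.av_nonneg (ν n) h0 z
      rw [← ENNReal.ofReal_add g1 g2, ← ofReal_norm, Real.norm_eq_abs]
      apply ENNReal.ofReal_le_ofReal
      rw [abs_le]
      constructor <;> linarith
    refine (lintegral_mono e1).trans ?_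
    rw [lintegral_add_right _ (hmav n).ennreal_ofReal]
    have e2 : ∫⁻ z, ENNReal.ofReal (𝓕.cR.av (ν n) B ((𝓕.left.comap j hj).τ g z)) ∂𝓕.zeta
        = ∫⁻ z, ENNReal.ofReal (𝓕.cR.av (ν n) B z) ∂𝓕.zeta :=
      ((𝓕.left.comap j hj).mp g).lintegral_comp (hmav n).ennreal_ofReal
    rw [e2, 𝓕.cR.lintegral_av (ν n) hB h0 hM, two_mul]
  · rw [lintegral_const]
    simp only [measure_univ, mul_one]
    exact ENNReal.mul_ne_top (by norm_num) hfin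
  · calc ∫⁻ g, limsup (fun n => ∫⁻ z, ‖𝓕.cR.av (ν n) B ((𝓕.left.comap j hj).τ g z)
          - 𝓕.cR.av (ν n) B z‖ₑ ∂𝓕.zeta) atTop ∂nuM
        ≤ ∫⁻ _ : SL2R, D ∂nuM := lintegral_mono fun g => hD (j g)
      _ = D := by simp

/-- The set of good points at scale `T`. -/
def YT (T : ℝ) : Set (X × CL G2) :=
  {z | z.1 ∉ toMeasurable μ {x | ¬ 𝓕.Dn eps0 T x} ∧ 𝓕.LI z}

lemma YT_meas (T : ℝ) : MeasurableSet (𝓕.YT T) :=
  (measurable_fst (measurableSet_toMeasurable _ _)).compl.inter 𝓕.LI_meas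

lemma YT_compl (T : ℝ) : ((𝓕.YT T)ᶜ : Set (X × CL G2)) =ᵐ[𝓕.zeta]
    {z | z.1 ∈ toMeasurable μ {x | ¬ 𝓕.Dn eps0 T x}} := by
  rw [Filter.eventuallyEq_set]
  filter_upwards [𝓕.LI_ae] with z hz
  constructor
  · intro h
    by_contra hn
    exact h ⟨hn, hz⟩
  · intro h hn
    exact hn.1 h

lemma YT_tail {A C : ℝ}
    (hT : ∀ T : ℝ, 1 ≤ T → μ {x | ¬ 𝓕.Dn eps0 T x} ≤ ENNReal.ofReal (C * T ^ (-A)))
    (F : BL2 𝓕.zeta) (hF : 𝓕.Cl F) {T : ℝ} (h2 : 2 ≤ T) :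
    ∫ z in (𝓕.YT T)ᶜ, (F : X × CL G2 → ℝ) z ^ 2 ∂𝓕.zeta ≤ max C 0 * T ^ (-A) := by
  rw [setIntegral_congr_set (𝓕.YT_compl T)]
  refine (𝓕.tail F hF (measurableSet_toMeasurable _ _)).trans ?_
  have h3 := hT T (by linarith)
  have h4 : 0 ≤ T ^ (-A) := Real.rpow_nonneg (by linarith) _
  rw [measureReal_def, measure_toMeasurable]
  refine (ENNReal.toReal_mono ENNReal.ofReal_ne_top h3).trans ?_
  have h5 : C * T ^ (-A) ≤ max C 0 * T ^ (-A) := mul_le_mul_of_nonneg_right (le_max_left _ _) h4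
  have h6 : 0 ≤ max C 0 * T ^ (-A) := mul_nonneg (le_max_right _ _) h4
  refine (ENNReal.toReal_mono ENNReal.ofReal_ne_top (ENNReal.ofReal_le_ofReal h5)).trans ?_
  rw [ENNReal.toReal_ofReal h6]

theorem covol {A C : ℝ} (hA : 2 < A)
    (hT : ∀ T : ℝ, 1 ≤ T → μ {x | ¬ 𝓕.Dn eps0 T x} ≤ ENNReal.ofReal (C * T ^ (-A))) :
    ∀ᵐ x ∂μ, 𝓕.fib (fun _ => 1) x ≠ ⊤ := by
  rcases 𝓕.inf_or_fin with hinf | hfin
  swap
  · exact hfin
  exfalso
  obtain ⟨η, hη, hen⟩ := energy (A := A) (C := max C 0) (n0 := 1 / 2) hA (by norm_num)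
  obtain ⟨δ, hδ⟩ : ∃ δ, δ = min (1 / 4) (η / 16) := ⟨_, rfl⟩
  have hδ0 : 0 < δ := by rw [hδ]; positivity
  have hδ1 : δ ≤ 1 / 4 := by rw [hδ]; exact min_le_left _ _
  have hδ2 : δ ≤ η / 16 := by rw [hδ]; exact min_le_right _ _
  obtain ⟨B, hB, h0, ⟨M, hM⟩, hi, hf, hB1⟩ := 𝓕.exists_bump hδ0
  obtain ⟨ν, hν, hr⟩ := 𝓕.reiter
  have hlim : ∀ γ : G2, limsup (fun n => ∫⁻ z, ‖𝓕.cR.av (ν n) B (𝓕.left.τ γ z)
      - 𝓕.cR.av (ν n) B z‖ₑ ∂𝓕.zeta) atTop ≤ ENNReal.ofReal (2 * δ) := fun γ =>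
    𝓕.limsup_one hr hB h0 ⟨M, hM⟩ hi hf hδ0.le (by linarith) hB1 γ
  have hlt : ENNReal.ofReal (2 * δ) < ENNReal.ofReal (η / 2) := by
    rw [ENNReal.ofReal_lt_ofReal_iff (by positivity)]
    linarith
  have ha := (𝓕.limsup_two hν hB h0 hM hi j1 measurable_j1 hlim).trans_lt hlt
  have hb := (𝓕.limsup_two hν hB h0 hM hi j2 measurable_j2 hlim).trans_lt hlt
  obtain ⟨n, hna, hnb⟩ :=
    ((eventually_lt_of_limsup_lt ha).and (eventually_lt_of_limsup_lt hb)).exists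
  have := hν n
  obtain ⟨f, hf1, hf2⟩ := sqrt_energy (ζ := 𝓕.zeta) (𝓕.cR.av (ν n) B) (𝓕.cR.av_meas (ν n) hB)
    (𝓕.cR.av_nonneg (ν n) h0) ⟨M, 𝓕.cR.av_le (ν n) hB h0 hM⟩
    (𝓕.cR.av_integrable (ν n) hB h0 hM hi)
  have hfsq : ∀ z, (f : X × CL G2 → ℝ) z ^ 2 = 𝓕.cR.av (ν n) B z := fun z => by
    rw [hf1, Real.sq_sqrt (𝓕.cR.av_nonneg (ν n) h0 z)]
  have hCl : 𝓕.Cl f := by
    unfold Cl
    simp_rw [hfsq]
    filter_upwards [𝓕.fib_av (ν n) hB h0 hM, hf] with x e1 e2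
    rw [e1]
    exact e2
  have hEa : 𝓕.aL.E nuM f ≤ η / 2 := by
    have h1 := (hf2 𝓕.aL nuM).trans hna.le
    exact (ENNReal.ofReal_le_ofReal_iff (by positivity)).1 h1
  have hEb : 𝓕.bL.E nuM f ≤ η / 2 := by
    have h1 := (hf2 𝓕.bL nuM).trans hnb.le
    exact (ENNReal.ofReal_le_ofReal_iff (by positivity)).1 h1
  have hfin := hen (X × CL G2) 𝓕.zeta 𝓕.aL 𝓕.bL 𝓕.aL_bL f 𝓕.YT 𝓕.YT_meas
    (fun T _ z hz => by
      refine 𝓕.ret_of_LI hz.2 ?_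
      by_contra hn
      exact hz.1 (subset_toMeasurable _ _ hn))
    (fun s T h2 c _ => by
      have hF := 𝓕.Cl_it f hCl (s + 1)
      exact ⟨𝓕.YT_tail hT (𝓕.aL.T c (it 𝓕.aL 𝓕.bL f (s + 1))) (𝓕.Cl_T _ hF c).1 h2,
        𝓕.YT_tail hT (𝓕.bL.T c (it 𝓕.aL 𝓕.bL f (s + 1))) (𝓕.Cl_T _ hF c).2 h2⟩)
    (fun w hw1 hw2 => by
      have hw0 : ∀ᵐ z ∂𝓕.zeta, (w : X × CL G2 → ℝ) z = 0 := by
        refine 𝓕.no_inv hinf _ (bmeas w) (bsq w) fun g => ?_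
        have e1 : ∀ᵐ z ∂𝓕.zeta, (w : X × CL G2 → ℝ) (𝓕.aL.τ g.1 z) = (w : X × CL G2 → ℝ) z :=
          hw1 g.1
        have e2 : ∀ᵐ z ∂𝓕.zeta, (w : X × CL G2 → ℝ) (𝓕.bL.τ g.2 z) = (w : X × CL G2 → ℝ) z :=
          hw2 g.2
        have e3 : ∀ᵐ z ∂𝓕.zeta, (w : X × CL G2 → ℝ) (𝓕.aL.τ g.1 (𝓕.bL.τ g.2 z))
            = (w : X × CL G2 → ℝ) (𝓕.bL.τ g.2 z) :=
          (𝓕.bL.mp g.2).quasiMeasurePreserving.ae e1
        filter_upwards [e2, e3] with z h3 h4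
        have h5 : 𝓕.left.τ g z = 𝓕.aL.τ g.1 (𝓕.bL.τ g.2 z) := by
          change 𝓕.left.τ g z = 𝓕.left.τ (j1 g.1) (𝓕.left.τ (j2 g.2) z)
          rw [← 𝓕.left.mul, j12]
        rw [h5, h4, h3]
      have h6 : ∫ z, (f : X × CL G2 → ℝ) z * (w : X × CL G2 → ℝ) z ∂𝓕.zeta
          = ∫ _, (0 : ℝ) ∂𝓕.zeta := by
        refine integral_congr_ae ?_
        filter_upwards [hw0] with z hz
        rw [hz, mul_zero]
      rw [h6, integral_zero])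
    (by linarith)
  have h7 : ∫ z, (f : X × CL G2 → ℝ) z ^ 2 ∂𝓕.zeta = ∫ z, B z ∂𝓕.zeta := by
    rw [integral_congr_ae (Filter.Eventually.of_forall hfsq), 𝓕.cR.integral_av (ν n) hB h0 hM]
  rw [h7] at hfin
  linarith

end Fld

end Pool.Agent.IRS
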