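import Mathlib
import Pool.Agent.IRS.Inv

/-!
# One-parameter groups in closed non-discrete subgroups

PROOF.  `M := Matrix (Fin 2) (Fin 2) ℝ` with a (local instance) normed algebra structure, `M × M` too.
`NormedSpace.exp` has strict derivative `1` at `0` (`hasStrictFDerivAt_exp_zero`), so `exp` maps
neighbourhoods of `0` onto neighbourhoods of `1` (`HasStrictFDerivAt.map_nhds_eq_of_equiv` / `..of_surj`).
`K` not discrete gives `h n ∈ K`, `h n ≠ 1`, `h n → 1` (first countability).  Write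
`(h n : M × M) = exp (Z n)`, `Z n → 0`, `Z n ≠ 0`.  Pass to a subsequence with
`Z n / ‖Z n‖ → Z`, `‖Z‖ = 1` (compact sphere).  For `t : ℝ` put `m n = ⌊t / ‖Z n‖⌋` (integer): then
`(m n) • Z n → t • Z` and `exp ((m n) • Z n) = (h n) ^ (m n)` lies in `K`; `K` is closed in `G2` and `SL2R` is closed
in `M`, so the limit `exp (t • Z)` is in `K`.
-/

set_option autoImplicit false

namespace Pool.Agent.IRS

open MeasureTheory Matrix Set Filter Topology

/-- The pair `(X, Y)` generates a one-parameter group in `K`. -/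
def OneP (K : Set G2) (X Y : Matrix (Fin 2) (Fin 2) ℝ) : Prop :=
  ∀ t : ℝ, ∃ h ∈ K, (h.1 : Matrix (Fin 2) (Fin 2) ℝ) = NormedSpace.exp (t • X) ∧
    (h.2 : Matrix (Fin 2) (Fin 2) ℝ) = NormedSpace.exp (t • Y)

section

open scoped Matrix.Norms.Operator

private lemma d1_cont : Continuous (NormedSpace.exp : Matrix (Fin 2) (Fin 2) ℝ → _) :=
  NormedSpace.exp_continuous

private lemma d1_nhds {V : Set (Matrix (Fin 2) (Fin 2) ℝ)} (hV : V ∈ 𝓝 0) :
    NormedSpace.exp '' V ∈ 𝓝 (1 : Matrix (Fin 2) (Fin 2) ℝ) := by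
  have h1 : HasStrictFDerivAt (NormedSpace.exp : Matrix (Fin 2) (Fin 2) ℝ → _)
      ((ContinuousLinearEquiv.refl ℝ (Matrix (Fin 2) (Fin 2) ℝ) :
        Matrix (Fin 2) (Fin 2) ℝ ≃L[ℝ] Matrix (Fin 2) (Fin 2) ℝ) :
        Matrix (Fin 2) (Fin 2) ℝ →L[ℝ] Matrix (Fin 2) (Fin 2) ℝ) 0 :=
    hasStrictFDerivAt_exp_zero
  have h2 := h1.map_nhds_eq_of_equiv
  rw [NormedSpace.exp_zero] at h2
  have h3 := h2.symm.le (image_mem_map (m := NormedSpace.exp) hV)
  exact h3

end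

private lemma d1_small {K : Subgroup G2} (hnd : ¬ DiscreteTopology K) {ε : ℝ} (hε : 0 < ε) :
    ∃ Z : (Fin 2 → Fin 2 → ℝ) × (Fin 2 → Fin 2 → ℝ), Z ≠ 0 ∧ ‖Z‖ < ε ∧ ∃ h ∈ K,
      (h.1 : Matrix (Fin 2) (Fin 2) ℝ) = NormedSpace.exp (Matrix.of Z.1) ∧
      (h.2 : Matrix (Fin 2) (Fin 2) ℝ) = NormedSpace.exp (Matrix.of Z.2) := by
  set V : Set (Matrix (Fin 2) (Fin 2) ℝ) := {A | ‖(fun i j => A i j : Fin 2 → Fin 2 → ℝ)‖ < ε}
    with hV
  have hVn : V ∈ 𝓝 (0 : Matrix (Fin 2) (Fin 2) ℝ) := by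
    apply IsOpen.mem_nhds
    · apply isOpen_lt _ continuous_const
      apply Continuous.norm
      exact continuous_pi fun i => continuous_pi fun j => continuous_apply_apply i j
    · simp only [hV, Set.mem_ofPred_eq, Matrix.zero_apply]
      have : (fun _ _ => (0 : ℝ) : Fin 2 → Fin 2 → ℝ) = 0 := rfl
      rw [this, norm_zero]
      exact hε
  have hc1 : Continuous (fun g : G2 => (g.1 : Matrix (Fin 2) (Fin 2) ℝ)) :=
    continuous_subtype_val.comp continuous_fst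
  have hc2 : Continuous (fun g : G2 => (g.2 : Matrix (Fin 2) (Fin 2) ℝ)) :=
    continuous_subtype_val.comp continuous_snd
  have hU1 : (fun g : G2 => (g.1 : Matrix (Fin 2) (Fin 2) ℝ)) ⁻¹' (NormedSpace.exp '' V) ∈
      𝓝 (1 : G2) := by
    apply hc1.continuousAt.preimage_mem_nhds
    exact d1_nhds hVn
  have hU2 : (fun g : G2 => (g.2 : Matrix (Fin 2) (Fin 2) ℝ)) ⁻¹' (NormedSpace.exp '' V) ∈
      𝓝 (1 : G2) := by
    apply hc2.continuousAt.preimage_mem_nhds
    exact d1_nhds hVn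
  obtain ⟨h, hhK, hh1, hhU⟩ : ∃ h ∈ K, h ≠ 1 ∧
      h ∈ (fun g : G2 => (g.1 : Matrix (Fin 2) (Fin 2) ℝ)) ⁻¹' (NormedSpace.exp '' V) ∩
      (fun g : G2 => (g.2 : Matrix (Fin 2) (Fin 2) ℝ)) ⁻¹' (NormedSpace.exp '' V) := by
    by_contra hcon
    push Not at hcon
    apply hnd
    apply discreteTopology_of_isOpen_singleton_one
    obtain ⟨W, hWsub, hWo, h1W⟩ := mem_nhds_iff.1 (Filter.inter_mem hU1 hU2)
    have hW : (Subtype.val : K → G2) ⁻¹' W = {1} := by
      ext k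
      simp only [Set.mem_preimage, Set.mem_singleton_iff]
      constructor
      · intro hk
        by_contra hne
        exact hcon k.1 k.2 (fun h => hne (Subtype.ext h)) (hWsub hk)
      · rintro rfl
        exact h1W
    rw [← hW]
    exact hWo.preimage continuous_subtype_val
  obtain ⟨⟨A, hA, hA'⟩, ⟨B, hB, hB'⟩⟩ := hhU
  refine ⟨(fun i j => A i j, fun i j => B i j), ?_, ?_, h, hhK, hA'.symm, hB'.symm⟩
  · intro h0
    apply hh1
    have hA0 : A = 0 := by
      have := congrArg Prod.fst h0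
      ext i j
      exact congrFun (congrFun this i) j
    have hB0 : B = 0 := by
      have := congrArg Prod.snd h0
      ext i j
      exact congrFun (congrFun this i) j
    rw [hA0, NormedSpace.exp_zero] at hA'
    rw [hB0, NormedSpace.exp_zero] at hB'
    apply Prod.ext
    · exact Subtype.ext hA'.symm
    · exact Subtype.ext hB'.symm
  · rw [Prod.norm_def]
    exact max_lt hA hB

theorem one_param {K : Subgroup G2} (hK : IsClosed (K : Set G2)) (hnd : ¬ DiscreteTopology K) :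
    ∃ X Y : Matrix (Fin 2) (Fin 2) ℝ, (X ≠ 0 ∨ Y ≠ 0) ∧ OneP K X Y := by
  have h1 : ∀ n : ℕ, ∃ Z : (Fin 2 → Fin 2 → ℝ) × (Fin 2 → Fin 2 → ℝ), Z ≠ 0 ∧
      ‖Z‖ < 1 / ((n : ℝ) + 1) ∧ ∃ h ∈ K,
      (h.1 : Matrix (Fin 2) (Fin 2) ℝ) = NormedSpace.exp (Matrix.of Z.1) ∧
      (h.2 : Matrix (Fin 2) (Fin 2) ℝ) = NormedSpace.exp (Matrix.of Z.2) :=
    fun n => d1_small hnd (by positivity)
  choose Z hZ0 hZn h hhK hh1 hh2 using h1
  have hpos : ∀ n, 0 < ‖Z n‖ := fun n => norm_pos_iff.2 (hZ0 n)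
  have hlim : Tendsto (fun n => ‖Z n‖) atTop (𝓝 0) :=
    squeeze_zero (fun n => norm_nonneg _) (fun n => (hZn n).le)
      tendsto_one_div_add_atTop_nhds_zero_nat
  have hsph : ∀ n, (‖Z n‖⁻¹ • Z n) ∈
      Metric.sphere (0 : (Fin 2 → Fin 2 → ℝ) × (Fin 2 → Fin 2 → ℝ)) 1 := by
    intro n
    rw [mem_sphere_zero_iff_norm, norm_smul, norm_inv, norm_norm, inv_mul_cancel₀ (hpos n).ne']
  obtain ⟨W, hW, φ, hφ, hφl⟩ := (isCompact_sphere
    (0 : (Fin 2 → Fin 2 → ℝ) × (Fin 2 → Fin 2 → ℝ)) 1).tendsto_subseq hsph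
  have hWne : W ≠ 0 := by
    rintro rfl
    rw [mem_sphere_zero_iff_norm, norm_zero] at hW
    exact zero_ne_one hW
  -- nonnegative times
  have key : ∀ t : ℝ, 0 ≤ t → ∃ k ∈ K,
      (k.1 : Matrix (Fin 2) (Fin 2) ℝ) = NormedSpace.exp (t • Matrix.of W.1) ∧
      (k.2 : Matrix (Fin 2) (Fin 2) ℝ) = NormedSpace.exp (t • Matrix.of W.2) := by
    intro t ht
    set m : ℕ → ℕ := fun n => ⌊t / ‖Z n‖⌋₊ with hm
    have hml : Tendsto (fun n => (m n : ℝ) * ‖Z n‖) atTop (𝓝 t) := by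
      have hlo : ∀ n, t - ‖Z n‖ ≤ (m n : ℝ) * ‖Z n‖ := by
        intro n
        have h2 : t / ‖Z n‖ < (m n : ℝ) + 1 := Nat.lt_floor_add_one _
        rw [div_lt_iff₀ (hpos n)] at h2
        linarith
      have hup : ∀ n, (m n : ℝ) * ‖Z n‖ ≤ t := by
        intro n
        have h2 : (m n : ℝ) ≤ t / ‖Z n‖ := Nat.floor_le (div_nonneg ht (hpos n).le)
        rwa [le_div_iff₀ (hpos n)] at h2
      refine tendsto_of_tendsto_of_tendsto_of_le_of_le ?_ tendsto_const_nhds hlo hup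
      have := (tendsto_const_nhds (x := t)).sub hlim
      simpa using this
    have hmφ : Tendsto (fun n => ((m (φ n) : ℝ) * ‖Z (φ n)‖) • (‖Z (φ n)‖⁻¹ • Z (φ n))) atTop
        (𝓝 (t • W)) := (hml.comp hφ.tendsto_atTop).smul hφl
    have he : ∀ n, ((m n : ℝ) * ‖Z n‖) • (‖Z n‖⁻¹ • Z n) = (m n) • Z n := by
      intro n
      rw [smul_smul, mul_assoc, mul_inv_cancel₀ (hpos n).ne', mul_one, Nat.cast_smul_eq_nsmul]
    simp only [he] at hmφ
    have hpow1 : ∀ n, (((h n) ^ (m n)).1 : Matrix (Fin 2) (Fin 2) ℝ) =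
        NormedSpace.exp (Matrix.of ((m n) • Z n).1) := by
      intro n
      have e1 : (Matrix.of ((m n) • Z n).1 : Matrix (Fin 2) (Fin 2) ℝ) =
        (m n) • Matrix.of (Z n).1 := rfl
      rw [e1, Matrix.exp_nsmul, ← hh1, Prod.pow_fst, Matrix.SpecialLinearGroup.coe_pow]
    have hpow2 : ∀ n, (((h n) ^ (m n)).2 : Matrix (Fin 2) (Fin 2) ℝ) =
        NormedSpace.exp (Matrix.of ((m n) • Z n).2) := by
      intro n
      have e1 : (Matrix.of ((m n) • Z n).2 : Matrix (Fin 2) (Fin 2) ℝ) =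
        (m n) • Matrix.of (Z n).2 := rfl
      rw [e1, Matrix.exp_nsmul, ← hh2, Prod.pow_snd, Matrix.SpecialLinearGroup.coe_pow]
    have hl1 : Tendsto (fun n => (((h (φ n)) ^ (m (φ n))).1 : Matrix (Fin 2) (Fin 2) ℝ)) atTop
        (𝓝 (NormedSpace.exp (t • Matrix.of W.1))) := by
      have e2 : (t • Matrix.of W.1 : Matrix (Fin 2) (Fin 2) ℝ) = Matrix.of (t • W).1 := rfl
      simp only [hpow1]
      rw [e2]
      have hc : Continuous (fun z : (Fin 2 → Fin 2 → ℝ) × (Fin 2 → Fin 2 → ℝ) =>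
          NormedSpace.exp (Matrix.of z.1 : Matrix (Fin 2) (Fin 2) ℝ)) :=
        d1_cont.comp continuous_fst
      exact (hc.tendsto (t • W)).comp hmφ
    have hl2 : Tendsto (fun n => (((h (φ n)) ^ (m (φ n))).2 : Matrix (Fin 2) (Fin 2) ℝ)) atTop
        (𝓝 (NormedSpace.exp (t • Matrix.of W.2))) := by
      have e2 : (t • Matrix.of W.2 : Matrix (Fin 2) (Fin 2) ℝ) = Matrix.of (t • W).2 := rfl
      simp only [hpow2]
      rw [e2]
      have hc : Continuous (fun z : (Fin 2 → Fin 2 → ℝ) × (Fin 2 → Fin 2 → ℝ) =>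
          NormedSpace.exp (Matrix.of z.2 : Matrix (Fin 2) (Fin 2) ℝ)) :=
        d1_cont.comp continuous_snd
      exact (hc.tendsto (t • W)).comp hmφ
    have hdc : Continuous (fun A : Matrix (Fin 2) (Fin 2) ℝ => A.det) :=
      continuous_id.matrix_det
    have hd1 : (NormedSpace.exp (t • Matrix.of W.1) : Matrix (Fin 2) (Fin 2) ℝ).det = 1 := by
      refine tendsto_nhds_unique ((hdc.tendsto _).comp hl1) ?_
      refine tendsto_const_nhds.congr fun n => ?_
      exact ((((h (φ n)) ^ (m (φ n))).1).2).symm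
    have hd2 : (NormedSpace.exp (t • Matrix.of W.2) : Matrix (Fin 2) (Fin 2) ℝ).det = 1 := by
      refine tendsto_nhds_unique ((hdc.tendsto _).comp hl2) ?_
      refine tendsto_const_nhds.congr fun n => ?_
      exact ((((h (φ n)) ^ (m (φ n))).2).2).symm
    refine ⟨(⟨_, hd1⟩, ⟨_, hd2⟩), ?_, rfl, rfl⟩
    have hl : Tendsto (fun n => (h (φ n)) ^ (m (φ n))) atTop
        (𝓝 ((⟨_, hd1⟩, ⟨_, hd2⟩) : G2)) := by
      apply Tendsto.prodMk_nhds
      · exact tendsto_subtype_rng.2 hl1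
      · exact tendsto_subtype_rng.2 hl2
    exact hK.mem_of_tendsto hl (Eventually.of_forall fun n => K.pow_mem (hhK _) _)
  refine ⟨Matrix.of W.1, Matrix.of W.2, ?_, ?_⟩
  · by_contra hcon
    push Not at hcon
    apply hWne
    apply Prod.ext
    · exact hcon.1
    · exact hcon.2
  · intro t
    rcases le_total 0 t with ht | ht
    · obtain ⟨k, hk, e1, e2⟩ := key t ht
      exact ⟨k, hk, e1, e2⟩
    · obtain ⟨k, hk, e1, e2⟩ := key (-t) (by linarith)
      refine ⟨k⁻¹, K.inv_mem hk, ?_, ?_⟩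
      · have e3 : ((k⁻¹).1 : Matrix (Fin 2) (Fin 2) ℝ) * (k.1 : Matrix (Fin 2) (Fin 2) ℝ) = 1 := by
          rw [← Matrix.SpecialLinearGroup.coe_mul, Prod.fst_inv, inv_mul_cancel,
            Matrix.SpecialLinearGroup.coe_one]
        have e4 : (k.1 : Matrix (Fin 2) (Fin 2) ℝ) * NormedSpace.exp (t • Matrix.of W.1) = 1 := by
          rw [e1, ← Matrix.exp_add_of_commute _ _ (by
            exact ((Commute.refl (Matrix.of W.1)).smul_left (-t)).smul_right t)]
          rw [← add_smul]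
          simp
        calc ((k⁻¹).1 : Matrix (Fin 2) (Fin 2) ℝ)
            = ((k⁻¹).1 : Matrix (Fin 2) (Fin 2) ℝ) * ((k.1 : Matrix (Fin 2) (Fin 2) ℝ) *
              NormedSpace.exp (t • Matrix.of W.1)) := by rw [e4, mul_one]
          _ = NormedSpace.exp (t • Matrix.of W.1) := by rw [← mul_assoc, e3, one_mul]
      · have e3 : ((k⁻¹).2 : Matrix (Fin 2) (Fin 2) ℝ) * (k.2 : Matrix (Fin 2) (Fin 2) ℝ) = 1 := by
          rw [← Matrix.SpecialLinearGroup.coe_mul, Prod.snd_inv, inv_mul_cancel,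
            Matrix.SpecialLinearGroup.coe_one]
        have e4 : (k.2 : Matrix (Fin 2) (Fin 2) ℝ) * NormedSpace.exp (t • Matrix.of W.2) = 1 := by
          rw [e2, ← Matrix.exp_add_of_commute _ _ (by
            exact ((Commute.refl (Matrix.of W.2)).smul_left (-t)).smul_right t)]
          rw [← add_smul]
          simp
        calc ((k⁻¹).2 : Matrix (Fin 2) (Fin 2) ℝ)
            = ((k⁻¹).2 : Matrix (Fin 2) (Fin 2) ℝ) * ((k.2 : Matrix (Fin 2) (Fin 2) ℝ) *
              NormedSpace.exp (t • Matrix.of W.2)) := by rw [e4, mul_one]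
          _ = NormedSpace.exp (t • Matrix.of W.2) := by rw [← mul_assoc, e3, one_mul]

end Pool.Agent.IRS
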