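import Mathlib
import Pool.Agent.IRS.Ces

/-!
# Subgroups containing enough one-parameter groups

PROOF of `top_of_conj`.  `det (exp (t X)) = 1` for all `t` gives `trace X = 0` (differentiate at `0`, or
`Matrix.det_exp`).  The conjugates `g X g⁻¹` (`g ∈ SL2R`) span the traceless matrices: if a functional
`α Z00 + β Z01 + γ Z10` vanishes on all of them then it is zero (use `g = uu x`, `vv x`, products).  So there are
`g1 g2 g3` with `g_i X g_i⁻¹` linearly independent; this is an open condition (a determinant of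
three vectors `(Z00, Z01, Z10)` in `ℝ^3` is non-zero), and `D` is dense: choose `d_i ∈ D`.  With
`X_i = d_i X d_i⁻¹` the map `(t1, t2, t3) ↦ exp (t1 X1) exp (t2 X2) exp (t3 X3) ∈ S`, composed with
`g ↦ (g00, g01, g10)`, has an invertible strict derivative at `0`, so its image contains a
neighbourhood of `(1, 0, 0)`; an element of `SL2R` with `g00 ≠ 0` is determined by `(g00, g01, g10)`.
So `S` contains `uu x` and `vv x` for small `x`, hence for all `x` (`uu (n x) = (uu x)^n`), and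
`gen_all` gives `S = ⊤`.
-/

set_option autoImplicit false

namespace Pool.Agent.IRS

open MeasureTheory Matrix Set Filter Topology

section

attribute [local instance] Matrix.linftyOpNormedRing Matrix.linftyOpNormedAlgebra

lemma d2_exp_der (X : Matrix (Fin 2) (Fin 2) ℝ) : HasStrictDerivAt (fun u : ℝ => NormedSpace.exp (u • X)) X 0 := by
  have h := hasStrictDerivAt_exp_smul_const (𝕂 := ℝ) X (0:ℝ)
  rw [zero_smul, NormedSpace.exp_zero, one_mul] at h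
  exact h

noncomputable def d2E (A B X : Matrix (Fin 2) (Fin 2) ℝ) (t : ℝ) : Matrix (Fin 2) (Fin 2) ℝ := A * NormedSpace.exp (t • X) * B

lemma d2E_der (A B X : Matrix (Fin 2) (Fin 2) ℝ) : HasStrictDerivAt (d2E A B X) (A * X * B) 0 := 
  ((d2_exp_der X).const_mul A).mul_const B

lemma d2E_zero {A B X : Matrix (Fin 2) (Fin 2) ℝ} (h : A * B = 1) : d2E A B X 0 = 1 := by
  simp [d2E, h]

noncomputable def d2pr : Matrix (Fin 2) (Fin 2) ℝ →L[ℝ] (ℝ × ℝ × ℝ) :=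
  LinearMap.toContinuousLinearMap
    { toFun := fun Z => (Z 0 0, Z 0 1, Z 1 0)
      map_add' := fun x y => by simp
      map_smul' := fun c x => by simp }

@[simp] lemma d2pr_apply (Z : Matrix (Fin 2) (Fin 2) ℝ) : d2pr Z = (Z 0 0, Z 0 1, Z 1 0) := rfl

lemma d2F_der {f g h : ℝ → Matrix (Fin 2) (Fin 2) ℝ} {a b c : Matrix (Fin 2) (Fin 2) ℝ} (hf : HasStrictDerivAt f a 0) (hg : HasStrictDerivAt g b 0)
    (hh : HasStrictDerivAt h c 0) (hf0 : f 0 = 1) (hg0 : g 0 = 1) (hh0 : h 0 = 1) :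
    ∃ L : (ℝ × ℝ × ℝ) →L[ℝ] Matrix (Fin 2) (Fin 2) ℝ, (∀ x, L x = x.1 • a + x.2.1 • b + x.2.2 • c) ∧ 
     HasStrictFDerivAt (fun x : ℝ × ℝ × ℝ => f x.1 * g x.2.1 * h x.2.2) L 0 := by
  have h1 : HasStrictFDerivAt (fun x : ℝ × ℝ × ℝ => f x.1) 
     ((ContinuousLinearMap.toSpanSingleton ℝ a).comp (ContinuousLinearMap.fst ℝ ℝ (ℝ × ℝ))) 0 := by
    have := hf.hasStrictFDerivAt.comp (0 : ℝ × ℝ × ℝ) (f := fun x : ℝ × ℝ × ℝ => x.1) hasStrictFDerivAt_fst 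
    exact this
  have h2 : HasStrictFDerivAt (fun x : ℝ × ℝ × ℝ => g x.2.1) 
     ((ContinuousLinearMap.toSpanSingleton ℝ b).comp 
      ((ContinuousLinearMap.fst ℝ ℝ ℝ).comp (ContinuousLinearMap.snd ℝ ℝ (ℝ × ℝ)))) 0 := by
    have := hg.hasStrictFDerivAt.comp (0 : ℝ × ℝ × ℝ) (f := fun x : ℝ × ℝ × ℝ => x.2.1) 
      (hasStrictFDerivAt_fst.comp _ hasStrictFDerivAt_snd) 
    exact this
  have h3 : HasStrictFDerivAt (fun x : ℝ × ℝ × ℝ => h x.2.2) 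
     ((ContinuousLinearMap.toSpanSingleton ℝ c).comp 
      ((ContinuousLinearMap.snd ℝ ℝ ℝ).comp (ContinuousLinearMap.snd ℝ ℝ (ℝ × ℝ)))) 0 := by
    have := hh.hasStrictFDerivAt.comp (0 : ℝ × ℝ × ℝ) (f := fun x : ℝ × ℝ × ℝ => x.2.2) 
      (hasStrictFDerivAt_snd.comp _ hasStrictFDerivAt_snd) 
    exact this
  have h4 := (h1.mul' h2).mul' h3
  refine ⟨_, ?_, h4⟩
  intro x
  change (f 0 * g 0) * (x.2.2 • c) + (f 0 * (x.2.1 • b) + (x.1 • a) * g 0) * h 0 = _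
  rw [hf0, hg0, hh0]
  simp only [one_mul, mul_one]
  abel

lemma d2_surj {a b c : Matrix (Fin 2) (Fin 2) ℝ} 
    (hdet : a 0 0 * (b 0 1 * c 1 0 - b 1 0 * c 0 1) - a 0 1 * (b 0 0 * c 1 0 - b 1 0 * c 0 0) +
      a 1 0 * (b 0 0 * c 0 1 - b 0 1 * c 0 0) ≠ 0) (y : ℝ × ℝ × ℝ) :
    ∃ x : ℝ × ℝ × ℝ, d2pr (x.1 • a + x.2.1 • b + x.2.2 • c) = y := by
  obtain ⟨y0, y1, y2⟩ := y
  set D := a 0 0 * (b 0 1 * c 1 0 - b 1 0 * c 0 1) - a 0 1 * (b 0 0 * c 1 0 - b 1 0 * c 0 0) +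
      a 1 0 * (b 0 0 * c 0 1 - b 0 1 * c 0 0) with hD
  refine ⟨((y0 * (b 0 1 * c 1 0 - b 1 0 * c 0 1) - y1 * (b 0 0 * c 1 0 - b 1 0 * c 0 0) +
      y2 * (b 0 0 * c 0 1 - b 0 1 * c 0 0)) / D,
      (a 0 0 * (y1 * c 1 0 - y2 * c 0 1) - a 0 1 * (y0 * c 1 0 - y2 * c 0 0) +
      a 1 0 * (y0 * c 0 1 - y1 * c 0 0)) / D,
      (a 0 0 * (b 0 1 * y2 - b 1 0 * y1) - a 0 1 * (b 0 0 * y2 - b 1 0 * y0) +
      a 1 0 * (b 0 0 * y1 - b 0 1 * y0)) / D), ?_⟩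
  simp only [d2pr_apply, Matrix.add_apply, Matrix.smul_apply, smul_eq_mul, Prod.mk.injEq]
  refine ⟨?_, ?_, ?_⟩ <;> field_simp <;> rw [hD] <;> ring

/-- Conjugation of a matrix. -/
def d2cj (X : Matrix (Fin 2) (Fin 2) ℝ) (g : SL2R) : Matrix (Fin 2) (Fin 2) ℝ := (g : Matrix (Fin 2) (Fin 2) ℝ) * X * ((g⁻¹ : SL2R) : Matrix (Fin 2) (Fin 2) ℝ)

lemma d2cj_cont (X : Matrix (Fin 2) (Fin 2) ℝ) : Continuous (d2cj X) := by
  unfold d2cj
  have h1 : Continuous (fun g : SL2R => (g : Matrix (Fin 2) (Fin 2) ℝ)) := continuous_subtype_val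
  have h2 : Continuous (fun g : SL2R => ((g⁻¹ : SL2R) : Matrix (Fin 2) (Fin 2) ℝ)) := continuous_subtype_val.comp continuous_inv
  exact (h1.mul continuous_const).mul h2

lemma d2_entry_cont (i j : Fin 2) : Continuous (fun Z : Matrix (Fin 2) (Fin 2) ℝ => Z i j) := 
  (continuous_apply j).comp (continuous_apply i)

lemma d2cj_mul (X : Matrix (Fin 2) (Fin 2) ℝ) (g h : SL2R) : d2cj X (g * h) = d2cj (d2cj X h) g := by
  unfold d2cj
  rw [_root_.mul_inv_rev]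
  simp only [Matrix.SpecialLinearGroup.coe_mul]
  simp only [Matrix.mul_assoc]

lemma d2_inv_coe (g : SL2R) : ((g⁻¹ : SL2R) : Matrix (Fin 2) (Fin 2) ℝ) = !![g 1 1, - g 0 1; - g 1 0, g 0 0] := by
  rw [Matrix.SpecialLinearGroup.coe_inv, Matrix.adjugate_fin_two]

lemma d2cj_uu (X : Matrix (Fin 2) (Fin 2) ℝ) (x : ℝ) (htr : X 1 1 = - X 0 0) :
    d2cj X (uu x) 0 0 = X 0 0 + x * X 1 0 ∧ 
    d2cj X (uu x) 0 1 = X 0 1 - 2 * x * X 0 0 - x ^ 2 * X 1 0 ∧ 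
    d2cj X (uu x) 1 0 = X 1 0 ∧ d2cj X (uu x) 1 1 = - (X 0 0 + x * X 1 0) := by
  have h1 : ((uu x : SL2R) : Matrix (Fin 2) (Fin 2) ℝ) = !![1, x; 0, 1] := rfl
  obtain ⟨p, q, r, s, rfl⟩ : ∃ p q r s, X = !![p, q; r, s] := ⟨_, _, _, _, Matrix.eta_fin_two X⟩
  simp only [Matrix.of_apply, Matrix.cons_val', Matrix.cons_val_zero, Matrix.cons_val_one,
    Matrix.cons_val_fin_one] at htr
  subst htr
  unfold d2cj
  rw [d2_inv_coe, h1]
  refine ⟨?_, ?_, ?_, ?_⟩ <;>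
  simp <;> ring

lemma d2cj_vv (X : Matrix (Fin 2) (Fin 2) ℝ) (x : ℝ) (htr : X 1 1 = - X 0 0) :
    d2cj X (vv x) 1 0 = X 1 0 + 2 * x * X 0 0 - x ^ 2 * X 0 1 ∧ 
    d2cj X (vv x) 1 1 = - d2cj X (vv x) 0 0 := by
  have h1 : ((vv x : SL2R) : Matrix (Fin 2) (Fin 2) ℝ) = !![1, 0; x, 1] := rfl
  obtain ⟨p, q, r, s, rfl⟩ : ∃ p q r s, X = !![p, q; r, s] := ⟨_, _, _, _, Matrix.eta_fin_two X⟩
  simp only [Matrix.of_apply, Matrix.cons_val', Matrix.cons_val_zero, Matrix.cons_val_one,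
    Matrix.cons_val_fin_one] at htr
  subst htr
  unfold d2cj
  rw [d2_inv_coe, h1]
  refine ⟨?_, ?_⟩ <;>
  simp <;> ring

/-- The determinant of three traceless matrices. -/
def d2det (a b c : Matrix (Fin 2) (Fin 2) ℝ) : ℝ := 
  a 0 0 * (b 0 1 * c 1 0 - b 1 0 * c 0 1) - a 0 1 * (b 0 0 * c 1 0 - b 1 0 * c 0 0) +
      a 1 0 * (b 0 0 * c 0 1 - b 0 1 * c 0 0)

lemma d2_exists_g {X : Matrix (Fin 2) (Fin 2) ℝ} (hX : X ≠ 0) (htr : X 1 1 = - X 0 0) : 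
    ∃ g : SL2R, d2cj X g 1 0 ≠ 0 ∧ d2cj X g 1 1 = - d2cj X g 0 0 := by
  by_contra hcon
  push Not at hcon
  have h0 : X 1 0 = 0 := by
    by_contra h
    have h1 := d2cj_vv X 0 htr
    exact hcon (vv 0) (by rw [h1.1]; simpa using h) h1.2
  have h1 : 2 * X 0 0 - X 0 1 = 0 := by
    by_contra h
    have h1 := d2cj_vv X 1 htr
    exact hcon (vv 1) (by rw [h1.1, h0]; intro h2; apply h; linarith) h1.2
  have h2 : - 2 * X 0 0 - X 0 1 = 0 := by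
    by_contra h
    have h1 := d2cj_vv X (-1) htr
    exact hcon (vv (-1)) (by rw [h1.1, h0]; intro h2; apply h; linarith) h1.2
  apply hX
  have h3 : X 0 0 = 0 := by linarith
  have h4 : X 0 1 = 0 := by linarith
  ext i j
  fin_cases i <;> fin_cases j <;> simp [h0, h3, h4, htr]

lemma d2_exists_ggg {X : Matrix (Fin 2) (Fin 2) ℝ} (hX : X ≠ 0) (htr : X 1 1 = - X 0 0) : 
    ∃ g : SL2R × SL2R × SL2R, d2det (d2cj X g.1) (d2cj X g.2.1) (d2cj X g.2.2) ≠ 0 := by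
  obtain ⟨g, hg, hg2⟩ := d2_exists_g hX htr
  refine ⟨(g, uu 1 * g, uu (-1) * g), ?_⟩
  simp only
  rw [d2cj_mul, d2cj_mul]
  set Y := d2cj X g with hY
  obtain ⟨h1, h2, h3, h4⟩ := d2cj_uu Y 1 hg2
  obtain ⟨k1, k2, k3, k4⟩ := d2cj_uu Y (-1) hg2
  unfold d2det
  rw [h1, h2, h3, k1, k2, k3]
  have : Y 0 0 * ((Y 0 1 - 2 * 1 * Y 0 0 - 1 ^ 2 * Y 1 0) * Y 1 0 - Y 1 0 * (Y 0 1 - 2 * (-1) * Y 0 0 - (-1) ^ 2 * Y 1 0)) -
        Y 0 1 * ((Y 0 0 + 1 * Y 1 0) * Y 1 0 - Y 1 0 * (Y 0 0 + -1 * Y 1 0)) +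
      Y 1 0 * ((Y 0 0 + 1 * Y 1 0) * (Y 0 1 - 2 * (-1) * Y 0 0 - (-1) ^ 2 * Y 1 0) -
          (Y 0 1 - 2 * 1 * Y 0 0 - 1 ^ 2 * Y 1 0) * (Y 0 0 + -1 * Y 1 0)) = - 2 * Y 1 0 ^ 3 := by ring
  rw [this]
  have := pow_ne_zero 3 hg
  intro h
  apply this
  linarith

lemma d2_dense {X : Matrix (Fin 2) (Fin 2) ℝ} (hX : X ≠ 0) (htr : X 1 1 = - X 0 0) {D : Set SL2R} (hD : Dense D) : 
    ∃ a ∈ D, ∃ b ∈ D, ∃ c ∈ D, d2det (d2cj X a) (d2cj X b) (d2cj X c) ≠ 0 := by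
  have h1 : IsOpen {g : SL2R × SL2R × SL2R | d2det (d2cj X g.1) (d2cj X g.2.1) (d2cj X g.2.2) ≠ 0} := by
    have h2 : Continuous (fun g : SL2R × SL2R × SL2R => d2det (d2cj X g.1) (d2cj X g.2.1) (d2cj X g.2.2)) := by
      have hc := d2cj_cont X
      have e1 : ∀ i j, Continuous (fun g : SL2R × SL2R × SL2R => d2cj X g.1 i j) := fun i j =>
        (d2_entry_cont i j).comp (hc.comp continuous_fst)
      have e2 : ∀ i j, Continuous (fun g : SL2R × SL2R × SL2R => d2cj X g.2.1 i j) := fun i j =>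
        (d2_entry_cont i j).comp (hc.comp (continuous_fst.comp continuous_snd))
      have e3 : ∀ i j, Continuous (fun g : SL2R × SL2R × SL2R => d2cj X g.2.2 i j) := fun i j =>
        (d2_entry_cont i j).comp (hc.comp (continuous_snd.comp continuous_snd))
      unfold d2det
      exact (((e1 0 0).mul (((e2 0 1).mul (e3 1 0)).sub ((e2 1 0).mul (e3 0 1)))).sub 
        ((e1 0 1).mul (((e2 0 0).mul (e3 1 0)).sub ((e2 1 0).mul (e3 0 0))))).add 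
        ((e1 1 0).mul (((e2 0 0).mul (e3 0 1)).sub ((e2 0 1).mul (e3 0 0))))
    exact isOpen_ne_fun h2 continuous_const
  have h2 := d2_exists_ggg hX htr
  have h3 : Dense (D ×ˢ (D ×ˢ D)) := hD.prod (hD.prod hD)
  obtain ⟨⟨a, b, c⟩, h4, h5⟩ := h3.inter_open_nonempty _ h1 h2
  exact ⟨a, h5.1, b, h5.2.1, c, h5.2.2, h4⟩

/-- Entries as continuous linear maps. -/
noncomputable def d2ent (i j : Fin 2) : Matrix (Fin 2) (Fin 2) ℝ →L[ℝ] ℝ :=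
  LinearMap.toContinuousLinearMap
    { toFun := fun Z => Z i j
      map_add' := fun x y => by simp
      map_smul' := fun c x => by simp }

lemma d2_trace {X : Matrix (Fin 2) (Fin 2) ℝ} 
    (hone : ∀ t : ℝ, ∃ h : SL2R, (h : Matrix (Fin 2) (Fin 2) ℝ) = NormedSpace.exp (t • X)) : X 1 1 = - X 0 0 := by
  have h1 : ∀ i j, HasDerivAt (fun t : ℝ => (NormedSpace.exp (t • X) : Matrix (Fin 2) (Fin 2) ℝ) i j) (X i j) 0 := fun i j => by
    have := (d2ent i j).hasFDerivAt.comp_hasDerivAt (0:ℝ) (d2_exp_der X).hasDerivAt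
    exact this
  have h2 := ((h1 0 0).mul (h1 1 1)).sub ((h1 0 1).mul (h1 1 0))
  have h3 : (fun t : ℝ => (NormedSpace.exp (t • X) : Matrix (Fin 2) (Fin 2) ℝ) 0 0 * (NormedSpace.exp (t • X) : Matrix (Fin 2) (Fin 2) ℝ) 1 1 - 
    (NormedSpace.exp (t • X) : Matrix (Fin 2) (Fin 2) ℝ) 0 1 * (NormedSpace.exp (t • X) : Matrix (Fin 2) (Fin 2) ℝ) 1 0) = fun _ => 1 := by
    funext t
    obtain ⟨h, hh⟩ := hone t
    rw [← hh]
    exact det_eq h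
  have h4 : HasDerivAt (fun t : ℝ => (NormedSpace.exp (t • X) : Matrix (Fin 2) (Fin 2) ℝ) 0 0 * (NormedSpace.exp (t • X) : Matrix (Fin 2) (Fin 2) ℝ) 1 1 - 
    (NormedSpace.exp (t • X) : Matrix (Fin 2) (Fin 2) ℝ) 0 1 * (NormedSpace.exp (t • X) : Matrix (Fin 2) (Fin 2) ℝ) 1 0) _ 0 := h2
  rw [h3] at h4
  have h5 := h4.unique (hasDerivAt_const (0:ℝ) (1:ℝ))
  have h6 : (NormedSpace.exp ((0:ℝ) • X) : Matrix (Fin 2) (Fin 2) ℝ) = 1 := by rw [zero_smul, NormedSpace.exp_zero]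
  rw [h6] at h5
  simp at h5
  linarith

lemma d2_uu_nat (n : ℕ) (x : ℝ) : uu (n * x) = uu x ^ n := by
  induction n with
  | zero => simp [uu_zero]
  | succ n ih => rw [pow_succ, ← ih, ← uu_add]; congr 1; push_cast; ring

lemma d2_vv_nat (n : ℕ) (x : ℝ) : vv (n * x) = vv x ^ n := by
  induction n with
  | zero => simp [vv_zero]
  | succ n ih => rw [pow_succ, ← ih, ← vv_add]; congr 1; push_cast; ring

private theorem d2_top {S : Subgroup SL2R} {D : Set SL2R} (hD : Dense D)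
    {X : Matrix (Fin 2) (Fin 2) ℝ} (hX : X ≠ 0)
    (hone : ∀ t : ℝ, ∃ h : SL2R, (h : Matrix (Fin 2) (Fin 2) ℝ) = NormedSpace.exp (t • X))
    (hS : ∀ d ∈ D, ∀ t : ℝ, ∀ h : SL2R, (h : Matrix (Fin 2) (Fin 2) ℝ) = NormedSpace.exp (t • X) →
      d * h * d⁻¹ ∈ S) : S = ⊤ := by
  have htr := d2_trace hone
  obtain ⟨a, ha, b, hb, c, hc, hdet⟩ := d2_dense hX htr hD
  have hinv : ∀ g : SL2R, (g : Matrix (Fin 2) (Fin 2) ℝ) * ((g⁻¹ : SL2R) : Matrix (Fin 2) (Fin 2) ℝ) = 1 := fun g => by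
    rw [← Matrix.SpecialLinearGroup.coe_mul, mul_inv_cancel, Matrix.SpecialLinearGroup.coe_one]
  have hmem : ∀ g ∈ D, ∀ t, ∃ s ∈ S, (s : Matrix (Fin 2) (Fin 2) ℝ) = d2E (g : Matrix (Fin 2) (Fin 2) ℝ) ((g⁻¹ : SL2R) : Matrix (Fin 2) (Fin 2) ℝ) X t := by
    intro g hg t
    obtain ⟨h, hh⟩ := hone t
    refine ⟨_, hS g hg t h hh, ?_⟩
    rw [Matrix.SpecialLinearGroup.coe_mul, Matrix.SpecialLinearGroup.coe_mul, hh]
    rfl
  obtain ⟨L, hL, hder⟩ := d2F_der (d2E_der (a : Matrix (Fin 2) (Fin 2) ℝ) ((a⁻¹ : SL2R) : Matrix (Fin 2) (Fin 2) ℝ) X) 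
    (d2E_der (b : Matrix (Fin 2) (Fin 2) ℝ) ((b⁻¹ : SL2R) : Matrix (Fin 2) (Fin 2) ℝ) X) (d2E_der (c : Matrix (Fin 2) (Fin 2) ℝ) ((c⁻¹ : SL2R) : Matrix (Fin 2) (Fin 2) ℝ) X) 
    (d2E_zero (hinv a)) (d2E_zero (hinv b)) (d2E_zero (hinv c))
  set F : ℝ × ℝ × ℝ → Matrix (Fin 2) (Fin 2) ℝ := fun x => d2E (a : Matrix (Fin 2) (Fin 2) ℝ) ((a⁻¹ : SL2R) : Matrix (Fin 2) (Fin 2) ℝ) X x.1 * 
    d2E (b : Matrix (Fin 2) (Fin 2) ℝ) ((b⁻¹ : SL2R) : Matrix (Fin 2) (Fin 2) ℝ) X x.2.1 * d2E (c : Matrix (Fin 2) (Fin 2) ℝ) ((c⁻¹ : SL2R) : Matrix (Fin 2) (Fin 2) ℝ) X x.2.2 with hF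
  have hF0 : F 0 = 1 := by
    simp only [hF, Prod.fst_zero, Prod.snd_zero, d2E_zero (hinv a), d2E_zero (hinv b), d2E_zero (hinv c), mul_one]
  have h1 : HasStrictFDerivAt (fun x => d2pr (F x)) (d2pr.comp L) 0 := 
    d2pr.hasStrictFDerivAt.comp (0 : ℝ × ℝ × ℝ) hder
  have h2 : (d2pr.comp L).range = ⊤ := by
    rw [LinearMap.range_eq_top]
    intro y
    obtain ⟨x, hx⟩ := d2_surj hdet y
    refine ⟨x, ?_⟩
    change d2pr (L x) = y
    rw [hL]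
    exact hx
  have h3 := h1.map_nhds_eq_of_surj h2
  have h4 : range (fun x => d2pr (F x)) ∈ 𝓝 (d2pr (F 0)) := by
    rw [← h3]
    exact Filter.range_mem_map
  rw [hF0] at h4
  have hFS : ∀ x, ∃ s ∈ S, (s : Matrix (Fin 2) (Fin 2) ℝ) = F x := by
    intro x
    obtain ⟨s1, hs1, hs1'⟩ := hmem a ha x.1
    obtain ⟨s2, hs2, hs2'⟩ := hmem b hb x.2.1
    obtain ⟨s3, hs3, hs3'⟩ := hmem c hc x.2.2
    refine ⟨s1 * s2 * s3, S.mul_mem (S.mul_mem hs1 hs2) hs3, ?_⟩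
    rw [Matrix.SpecialLinearGroup.coe_mul, Matrix.SpecialLinearGroup.coe_mul, hs1', hs2', hs3']
  have key : ∀ w : ℝ → SL2R, Continuous w → w 0 = 1 → (∀ x, w x 0 0 = 1) → 
      (∀ (n : ℕ) x, w (n * x) = w x ^ n) → ∀ x, w x ∈ S := by
    intro w hw hw0 hw1 hwn x
    have k1 : Tendsto (fun n : ℕ => d2pr (w (x / ((n : ℝ) + 1)) : Matrix (Fin 2) (Fin 2) ℝ)) atTop (𝓝 (d2pr (1 : Matrix (Fin 2) (Fin 2) ℝ))) := by
      have k2 : Tendsto (fun n : ℕ => x / ((n : ℝ) + 1)) atTop (𝓝 0) := 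
        tendsto_const_nhds.div_atTop (tendsto_atTop_add_const_right _ _ tendsto_natCast_atTop_atTop)
      have k3 : Continuous (fun x => d2pr (w x : Matrix (Fin 2) (Fin 2) ℝ)) := d2pr.continuous.comp (continuous_subtype_val.comp hw)
      have k4 := (k3.tendsto 0).comp k2
      rw [hw0] at k4
      exact k4
    obtain ⟨n, hn⟩ := (k1.eventually h4).exists
    obtain ⟨y, hy⟩ := hn
    obtain ⟨s, hs, hsF⟩ := hFS y
    simp only at hy
    rw [← hsF] at hy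
    simp only [d2pr_apply, Prod.mk.injEq] at hy
    have k5 : s = w (x / ((n : ℝ) + 1)) := by
      apply SL_ext hy.1 hy.2.1 hy.2.2
      have e1 := det_eq s
      have e2 := det_eq (w (x / ((n : ℝ) + 1)))
      have e3 := hw1 (x / ((n : ℝ) + 1))
      have f1 : s 0 0 = 1 := hy.1.trans e3
      have f2 : s 0 1 = w (x / ((n : ℝ) + 1)) 0 1 := hy.2.1
      have f3 : s 1 0 = w (x / ((n : ℝ) + 1)) 1 0 := hy.2.2
      rw [f1, f2, f3] at e1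
      rw [e3] at e2
      linarith
    have k6 := hwn (n + 1) (x / ((n : ℝ) + 1))
    have k7 : ((n + 1 : ℕ) : ℝ) * (x / ((n : ℝ) + 1)) = x := by
      push_cast
      field_simp
    rw [k7] at k6
    rw [k6, ← k5]
    exact S.pow_mem hs _
  have hcu : Continuous uu := by
    apply Continuous.subtype_mk
    apply continuous_matrix
    intro i j
    fin_cases i <;> fin_cases j <;> simp <;> fun_prop
  have hcv : Continuous vv := by
    apply Continuous.subtype_mk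
    apply continuous_matrix
    intro i j
    fin_cases i <;> fin_cases j <;> simp <;> fun_prop
  rw [eq_top_iff]
  intro g _
  exact gen_all S (key uu hcu uu_zero (fun _ => rfl) d2_uu_nat) (key vv hcv vv_zero (fun _ => rfl) d2_vv_nat) g

end

theorem top_of_conj {S : Subgroup SL2R} {D : Set SL2R} (hD : Dense D)
    {X : Matrix (Fin 2) (Fin 2) ℝ} (hX : X ≠ 0)
    (hone : ∀ t : ℝ, ∃ h : SL2R, (h : Matrix (Fin 2) (Fin 2) ℝ) = NormedSpace.exp (t • X))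
    (hS : ∀ d ∈ D, ∀ t : ℝ, ∀ h : SL2R, (h : Matrix (Fin 2) (Fin 2) ℝ) = NormedSpace.exp (t • X) →
      d * h * d⁻¹ ∈ S) : S = ⊤ := d2_top hD hX hone hS

end Pool.Agent.IRS
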