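import Mathlib
import Pool.Agent.IRS.Disc1
import Pool.Agent.IRS.Disc2
import Pool.Agent.IRS.Defs

/-!
# Closed subgroups with dense projections: intersections with the factors, small elements

PROOF of `inter_trivial` (first part; the second is the same with the factors exchanged).
`N = {a | (a, 1) ∈ H}` is closed and normalised by the dense set `p1 H`, hence normal (the set of `g` with
`g a g⁻¹ ∈ N` is closed).  Let `N' = pr⁻¹ N ≤ SL2R` (closed, normal).  If `a ≠ 1` is in `N`, a preimage `a'` is
not central.  `N'` is not discrete: otherwise `y ↦ uu y * a' * (uu y)⁻¹` and the same for `vv` are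
continuous maps from `ℝ` to a discrete set, so constant, and `a'` commutes with all `uu y`, `vv y`, so
with everything (`gen_all`).  `one_param` for `K = N' × 1` (`Subgroup.prod N' ⊥`) gives `X ≠ 0` with `exp (t X) ∈ N'`
(the second matrix is `0`, since `exp (t Y) = 1` for all `t`).  `top_of_conj` with `D = univ`: `N' = ⊤`.  So `H`
contains `PSL2R × 1`; then `{b | (1, b) ∈ H}` equals `p2 H`, closed and dense, so `H` is everything.

PROOF of `small_elt`.  `K = pp⁻¹ H` is closed and not discrete.  `one_param` gives `(X, Y)`.  `X ≠ 0`, otherwise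
`(1, pr (exp (t Y))) ∈ H` so `exp (t Y) = ± 1` (centre) for all `t` by `inter_trivial`, so `Y = 0`.  The
projection `S` of `K` to the first factor is a subgroup with dense carrier (`isOpenMap_pr`,
`Dense.preimage`), and for `d ∈ S` with `(d, d') ∈ K`: conjugating the one-parameter group by `(d, d')` shows
`d exp (t X) d⁻¹ ∈ S`.  By `top_of_conj`, `S = ⊤`.  So the projection `K → SL2R` is a continuous surjective
homomorphism of a sigma-compact group onto a locally compact group, hence open
(`MonoidHom.isOpenMap_of_sigmaCompact`); the image of `K ∩ (SL2R × pr⁻¹ U)` is a neighbourhood of `1`, and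
`uu (1 / 4 ^ n) → 1` (`tendsto_uu4`).
-/

set_option autoImplicit false

namespace Pool.Agent.IRS

open MeasureTheory Matrix Set Filter Topology

lemma d3a_cont_uu : Continuous uu := by
  apply Continuous.subtype_mk
  apply continuous_matrix
  intro i j
  fin_cases i <;> fin_cases j <;> simp <;> fun_prop

lemma d3a_cont_vv : Continuous vv := by
  apply Continuous.subtype_mk
  apply continuous_matrix
  intro i j
  fin_cases i <;> fin_cases j <;> simp <;> fun_prop

/-- A discrete normal subgroup is centralised by one-parameter groups. -/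
lemma d3a_comm {N : Subgroup SL2R} (hd : DiscreteTopology N) (hn : ∀ n ∈ N, ∀ g, g * n * g⁻¹ ∈ N)
    {a : SL2R} (ha : a ∈ N) {w : ℝ → SL2R} (hw : Continuous w) (hw0 : w 0 = 1) (y : ℝ) :
    w y * a = a * w y := by
  set f : ℝ → N := fun y => ⟨w y * a * (w y)⁻¹, hn a ha (w y)⟩ with hf
  have hfc : Continuous f := by
    refine Continuous.subtype_mk ?_ _
    exact (hw.mul continuous_const).mul hw.inv
  have h1 : f y = f 0 := PreconnectedSpace.constant inferInstance hfc
  have h2 : w y * a * (w y)⁻¹ = a := by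
    have h3 := congrArg Subtype.val h1
    simp only [hf, hw0, one_mul, inv_one, mul_one] at h3
    exact h3
  calc w y * a = w y * a * (w y)⁻¹ * w y := by rw [inv_mul_cancel_right]
    _ = a * w y := by rw [h2]

section

attribute [local instance] Matrix.linftyOpNormedRing Matrix.linftyOpNormedAlgebra

/-- A trivial one-parameter group. -/
lemma d3a_zero {Y : Matrix (Fin 2) (Fin 2) ℝ}
    (hY : ∀ t : ℝ, (1 : Matrix (Fin 2) (Fin 2) ℝ) = NormedSpace.exp (t • Y)) : Y = 0 := by
  have h1 := (d2_exp_der Y).hasDerivAt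
  have h2 : (fun t : ℝ => (NormedSpace.exp (t • Y) : Matrix (Fin 2) (Fin 2) ℝ)) = fun _ => 1 := by
    funext t
    exact (hY t).symm
  rw [h2] at h1
  exact h1.unique (hasDerivAt_const (0:ℝ) (1 : Matrix (Fin 2) (Fin 2) ℝ))

end

/-- A closed normal subgroup of SL(2,R) with a noncentral element is everything. -/
lemma d3a_top {N : Subgroup SL2R} (hc : IsClosed (N : Set SL2R))
    (hn : ∀ n ∈ N, ∀ g, g * n * g⁻¹ ∈ N) {a : SL2R} (ha : a ∈ N)
    (hac : a ∉ Subgroup.center SL2R) : N = ⊤ := by
  have hnd : ¬ DiscreteTopology N := by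
    intro hd
    apply hac
    rw [Subgroup.mem_center_iff]
    intro g
    have hmem : ∀ x : SL2R, x ∈ Subgroup.centralizer ({a} : Set SL2R) ↔ a * x = x * a := by
      intro x
      rw [Subgroup.mem_centralizer_iff]
      simp
    have h1 := gen_all (Subgroup.centralizer ({a} : Set SL2R))
      (fun x => (hmem _).2 (d3a_comm hd hn ha d3a_cont_uu uu_zero x).symm)
      (fun x => (hmem _).2 (d3a_comm hd hn ha d3a_cont_vv vv_zero x).symm) g
    exact ((hmem g).1 h1).symm
  set K : Subgroup G2 := N.prod ⊥ with hK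
  have hKc : IsClosed (K : Set G2) := by
    have h1 : (K : Set G2) = (N : Set SL2R) ×ˢ ({1} : Set SL2R) := by
      rw [hK, Subgroup.coe_prod, Subgroup.coe_bot]
    rw [h1]
    exact hc.prod isClosed_singleton
  have hKnd : ¬ DiscreteTopology K := by
    intro hd
    apply hnd
    set e : N → K := fun n => ⟨((n : SL2R), 1), by
      rw [hK, Subgroup.mem_prod]
      exact ⟨n.2, Subgroup.mem_bot.2 rfl⟩⟩ with he
    have hec : Continuous e := by
      refine Continuous.subtype_mk ?_ _
      exact continuous_subtype_val.prodMk continuous_const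
    refine DiscreteTopology.of_continuous_injective hec ?_
    intro m n hmn
    have h1 := congrArg Subtype.val hmn
    simp only [he, Prod.mk.injEq, and_true] at h1
    exact Subtype.ext h1
  obtain ⟨X, Y, hXY, hone⟩ := one_param hKc hKnd
  have hY : Y = 0 := by
    refine d3a_zero fun t => ?_
    obtain ⟨h, hh, _, h2⟩ := hone t
    have h3 : h.2 = 1 := Subgroup.mem_bot.1 (Subgroup.mem_prod.1 hh).2
    rw [← h2, h3]
    exact Matrix.SpecialLinearGroup.coe_one.symm
  have hX : X ≠ 0 := by
    rcases hXY with h | h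
    · exact h
    · exact absurd hY h
  refine top_of_conj (dense_univ) hX ?_ ?_
  · intro t
    obtain ⟨h, _, h1, _⟩ := hone t
    exact ⟨h.1, h1⟩
  · intro d _ t h hh
    obtain ⟨h', hh', h1, _⟩ := hone t
    have h3 : h = h'.1 := Subtype.ext (hh.trans h1.symm)
    rw [h3]
    exact hn _ (Subgroup.mem_prod.1 hh').1 d

/-- The first part, for subgroups. -/
lemma d3a_fst {H : Subgroup GG} (hc : IsClosed (H : Set GG))
    (d1 : Dense (Prod.fst '' (H : Set GG))) (d2 : Dense (Prod.snd '' (H : Set GG)))
    (hne : ∃ g : GG, g ∉ H) (a : PSL2R) (ha : ((a, 1) : GG) ∈ H) : a = 1 := by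
  by_contra ha1
  obtain ⟨g0, hg0⟩ := hne
  apply hg0
  have hnorm : ∀ n : PSL2R, ((n, 1) : GG) ∈ H → ∀ g : PSL2R, ((g * n * g⁻¹, 1) : GG) ∈ H := by
    intro n hn g
    have hcl : IsClosed {g : PSL2R | ((g * n * g⁻¹, 1) : GG) ∈ (H : Set GG)} := by
      have hcont : Continuous (fun g : PSL2R => ((g * n * g⁻¹, 1) : GG)) :=
        ((continuous_id.mul continuous_const).mul continuous_inv).prodMk continuous_const
      exact hc.preimage hcont
    have hsub : Prod.fst '' (H : Set GG) ⊆ {g : PSL2R | ((g * n * g⁻¹, 1) : GG) ∈ (H : Set GG)} := by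
      rintro _ ⟨h, hh, rfl⟩
      have h1 := H.mul_mem (H.mul_mem hh hn) (H.inv_mem hh)
      have h2 : h * ((n, 1) : GG) * h⁻¹ = ((h.1 * n * h.1⁻¹, 1) : GG) := by
        refine Prod.ext ?_ ?_
        · rfl
        · simp
      rw [h2] at h1
      exact h1
    have h3 : closure (Prod.fst '' (H : Set GG))
        ⊆ {g : PSL2R | ((g * n * g⁻¹, 1) : GG) ∈ (H : Set GG)} := closure_minimal hsub hcl
    exact h3 (d1 g)
  set N : Subgroup SL2R := H.comap ((MonoidHom.inl PSL2R PSL2R).comp pr) with hN
  have hNmem : ∀ x : SL2R, x ∈ N ↔ ((pr x, 1) : GG) ∈ H := fun x => Iff.rfl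
  have hNc : IsClosed (N : Set SL2R) := by
    have hcont : Continuous (fun x : SL2R => ((pr x, 1) : GG)) :=
      continuous_pr.prodMk continuous_const
    exact hc.preimage hcont
  have hNn : ∀ n ∈ N, ∀ g, g * n * g⁻¹ ∈ N := by
    intro n hn g
    rw [hNmem, map_mul, map_mul, map_inv]
    exact hnorm _ ((hNmem n).1 hn) (pr g)
  obtain ⟨a', ha'⟩ := pr_surj a
  have h1 : a' ∈ N := by rw [hNmem, ha']; exact ha
  have h2 : a' ∉ Subgroup.center SL2R := by
    intro h
    apply ha1
    rw [← ha']
    exact (QuotientGroup.eq_one_iff a').2 h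
  have htop := d3a_top hNc hNn h1 h2
  have hall : ∀ x : PSL2R, ((x, 1) : GG) ∈ H := by
    intro x
    obtain ⟨x', hx'⟩ := pr_surj x
    rw [← hx', ← hNmem, htop]
    exact Subgroup.mem_top _
  have hall2 : ∀ y : PSL2R, ((1, y) : GG) ∈ H := by
    intro y
    have hcl : IsClosed {y : PSL2R | ((1, y) : GG) ∈ (H : Set GG)} := by
      have hcont : Continuous (fun y : PSL2R => ((1, y) : GG)) :=
        continuous_const.prodMk continuous_id
      exact hc.preimage hcont
    have hsub : Prod.snd '' (H : Set GG) ⊆ {y : PSL2R | ((1, y) : GG) ∈ (H : Set GG)} := by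
      rintro _ ⟨h, hh, rfl⟩
      have h3 := H.mul_mem (hall h.1⁻¹) hh
      have h4 : ((h.1⁻¹, 1) : GG) * h = ((1, h.2) : GG) := by
        refine Prod.ext ?_ ?_ <;> simp
      rw [h4] at h3
      exact h3
    exact closure_minimal hsub hcl (d2 y)
  have h5 := H.mul_mem (hall g0.1) (hall2 g0.2)
  have h6 : ((g0.1, 1) : GG) * ((1, g0.2) : GG) = g0 := by
    refine Prod.ext ?_ ?_ <;> simp
  rw [h6] at h5
  exact h5

theorem inter_trivial {H : ClosedSubgroup GG} (hirr : Irred H) (hne : ∃ g : GG, g ∉ (H : Set GG)) :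
    (∀ a : PSL2R, ((a, 1) : GG) ∈ (H : Set GG) → a = 1) ∧
    (∀ b : PSL2R, ((1, b) : GG) ∈ (H : Set GG) → b = 1) := by
  constructor
  · intro a ha
    exact d3a_fst (H := H.toSubgroup) H.isClosed' hirr.1 hirr.2 hne a ha
  · intro b hb
    set H' : Subgroup GG := H.toSubgroup.comap (MulEquiv.prodComm : GG ≃* GG).toMonoidHom with hH'
    have hmem : ∀ g : GG, g ∈ H' ↔ ((g.2, g.1) : GG) ∈ (H : Set GG) := fun g => Iff.rfl
    have hc : IsClosed (H' : Set GG) := by
      have hcont : Continuous (fun g : GG => ((g.2, g.1) : GG)) :=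
        continuous_snd.prodMk continuous_fst
      exact H.isClosed'.preimage hcont
    have e1 : Prod.fst '' (H' : Set GG) = Prod.snd '' (H : Set GG) := by
      ext x
      constructor
      · rintro ⟨g, hg, rfl⟩
        exact ⟨(g.2, g.1), (hmem g).1 hg, rfl⟩
      · rintro ⟨g, hg, rfl⟩
        exact ⟨(g.2, g.1), hg, rfl⟩
    have e2 : Prod.snd '' (H' : Set GG) = Prod.fst '' (H : Set GG) := by
      ext x
      constructor
      · rintro ⟨g, hg, rfl⟩
        exact ⟨(g.2, g.1), (hmem g).1 hg, rfl⟩
      · rintro ⟨g, hg, rfl⟩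
        exact ⟨(g.2, g.1), hg, rfl⟩
    obtain ⟨g0, hg0⟩ := hne
    refine d3a_fst (H := H') hc ?_ ?_ ⟨(g0.2, g0.1), fun h => hg0 h⟩ b ?_
    · rw [e1]; exact hirr.2
    · rw [e2]; exact hirr.1
    · exact hb

end Pool.Agent.IRS
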