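import Mathlib
import Pool.Agent.IRS.Disc3a
import Pool.Agent.IRS.Defs

/-!
# Closed subgroups with dense projections: intersections with the factors, small elements

PROOF of `inter_trivial` (first part; the second is the same with the factors exchanged).
`N = {a | (a, 1) ∈ H}` is closed and normalised by the dense set `p1 H`, hence normal (the set of `g` with
`g a g⁻¹ ∈ N` is closed).  Let `N' = pr⁻¹ N ≤ SL2R` (closed, normal).  If `a ≠ 1` is in `N`, a preimage `a'` is
not central.  `N'` is not discrete: otherwise `y ↦ uu y * a' * (uu y)⁻¹` and the same for `vv` are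
continuous maps from `ℝ` to a discrete set, so constant, and `a'` commutes with all `uu y`, `vv y`, so
with everything (`gen_all`).  `one_param` for `K = N' × 1` (`Subgroup.prod N' ⊥`) gives `X ≠ 0` with `exp (t X) ∈ N'`
(the second matrix is `0`, since `exp (t Y) = 1` for all `t`).  `top_of_conj` with `D = univ`: `N' = ⊤`.  So `H`
contains `PSL2R × 1`; then `{b | (1, b) ∈ H}` equals `p2 H`, closed and dense, so `H` is everything.

PROOF of `small_elt`.  `K = pp⁻¹ H` is closed and not discrete.  `one_param` gives `(X, Y)`.  `X ≠ 0`, otherwise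
`(1, pr (exp (t Y))) ∈ H` so `exp (t Y) = ± 1` (centre) for all `t` by `inter_trivial`, so `Y = 0`.  The
projection `S` of `K` to the first factor is a subgroup with dense carrier (`isOpenMap_pr`,
`Dense.preimage`), and for `d ∈ S` with `(d, d') ∈ K`: conjugating the one-parameter group by `(d, d')` shows
`d exp (t X) d⁻¹ ∈ S`.  By `top_of_conj`, `S = ⊤`.  So the projection `K → SL2R` is a continuous surjective
homomorphism of a sigma-compact group onto a locally compact group, hence open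
(`MonoidHom.isOpenMap_of_sigmaCompact`); the image of `K ∩ (SL2R × pr⁻¹ U)` is a neighbourhood of `1`, and
`uu (1 / 4 ^ n) → 1` (`tendsto_uu4`).
-/

set_option autoImplicit false

namespace Pool.Agent.IRS

open MeasureTheory Matrix Set Filter Topology

/-- The quotient homomorphism of the product. -/
noncomputable def d3pp : G2 →* GG := MonoidHom.prodMap pr pr

lemma d3pp_apply (g : G2) : d3pp g = (pr g.1, pr g.2) := rfl

lemma d3pp_cont : Continuous d3pp := continuous_pp

lemma d3pp_open : IsOpenMap d3pp := isOpenMap_pr.prodMap isOpenMap_pr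

/-- The preimage of a closed subgroup. -/
noncomputable def d3K (H : ClosedSubgroup GG) : Subgroup G2 := H.toSubgroup.comap d3pp

lemma d3_mem {H : ClosedSubgroup GG} {g : G2} : g ∈ d3K H ↔ ((pr g.1, pr g.2) : GG) ∈ (H : Set GG) := Iff.rfl

lemma d3_closed (H : ClosedSubgroup GG) : IsClosed (d3K H : Set G2) := H.isClosed'.preimage d3pp_cont

/-- Discreteness by a neighbourhood of one. -/
lemma d3_disc_iff {G : Type*} [Group G] [TopologicalSpace G] [IsTopologicalGroup G] (K : Subgroup G) : 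
    DiscreteTopology K ↔ ∃ V ∈ 𝓝 (1 : G), ∀ x ∈ V, x ∈ K → x = 1 := by
  constructor
  · intro h
    have h1 : ({1} : Set K) ∈ 𝓝 (1 : K) := (isOpen_discrete _).mem_nhds rfl
    rw [nhds_subtype, Filter.mem_comap] at h1
    obtain ⟨V, hV, hV2⟩ := h1
    refine ⟨V, hV, fun x hx hxK => ?_⟩
    have h2 : (⟨x, hxK⟩ : K) ∈ Subtype.val ⁻¹' V := hx
    have h3 := hV2 h2
    exact congrArg Subtype.val h3
  · rintro ⟨V, hV, hV2⟩
    apply discreteTopology_of_isOpen_singleton_one
    obtain ⟨W, hWV, hW, h1W⟩ := mem_nhds_iff.1 hV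
    have h1 : ({1} : Set K) = Subtype.val ⁻¹' W := by
      ext x
      constructor
      · rintro rfl
        exact h1W
      · intro hx
        exact Subtype.ext (hV2 x.1 (hWV hx) x.2)
    rw [h1]
    exact hW.preimage continuous_subtype_val

lemma d3_not_disc {H : ClosedSubgroup GG} (hnd : ¬ DiscreteTopology H.toSubgroup) : 
    ¬ DiscreteTopology (d3K H) := by
  intro h
  apply hnd
  rw [d3_disc_iff] at h ⊢
  obtain ⟨V, hV, hV2⟩ := h
  have h1 := d3pp_open.image_mem_nhds hV
  rw [map_one] at h1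
  refine ⟨_, h1, ?_⟩
  rintro _ ⟨v, hv, rfl⟩ hvH
  rw [hV2 v hv hvH, map_one]

section

attribute [local instance] Matrix.linftyOpNormedRing Matrix.linftyOpNormedAlgebra

/-- Entries of a one-parameter group in the centre. -/
lemma d3_centre {Y : Matrix (Fin 2) (Fin 2) ℝ} 
    (hY : ∀ t : ℝ, ∃ h : SL2R, (h : Matrix (Fin 2) (Fin 2) ℝ) = NormedSpace.exp (t • Y) ∧ 
      h ∈ Subgroup.center SL2R) : Y = 0 := by
  have htr : Y 1 1 = - Y 0 0 := d2_trace (fun t => (hY t).imp (fun _ h => h.1))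
  have h1 : ∀ i j, HasDerivAt (fun t : ℝ => (NormedSpace.exp (t • Y) : Matrix (Fin 2) (Fin 2) ℝ) i j) 
      (Y i j) 0 := fun i j => by
    have := (d2ent i j).hasFDerivAt.comp_hasDerivAt (0:ℝ) (d2_exp_der Y).hasDerivAt
    exact this
  have hsc : ∀ t : ℝ, ∃ r : ℝ, (NormedSpace.exp (t • Y) : Matrix (Fin 2) (Fin 2) ℝ) = !![r, 0; 0, r] := by
    intro t
    obtain ⟨h, hh, hc⟩ := hY t
    obtain ⟨r, _, hr⟩ := Matrix.SpecialLinearGroup.mem_center_iff.1 hc
    refine ⟨r, ?_⟩
    rw [← hh, ← hr]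
    ext i j
    fin_cases i <;> fin_cases j <;> simp
  have e01 : Y 0 1 = 0 := by
    have h2 := h1 0 1
    have h3 : (fun t : ℝ => (NormedSpace.exp (t • Y) : Matrix (Fin 2) (Fin 2) ℝ) 0 1) = fun _ => 0 := by
      funext t
      obtain ⟨r, hr⟩ := hsc t
      rw [hr]; simp
    rw [h3] at h2
    exact h2.unique (hasDerivAt_const (0:ℝ) (0:ℝ))
  have e10 : Y 1 0 = 0 := by
    have h2 := h1 1 0
    have h3 : (fun t : ℝ => (NormedSpace.exp (t • Y) : Matrix (Fin 2) (Fin 2) ℝ) 1 0) = fun _ => 0 := by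
      funext t
      obtain ⟨r, hr⟩ := hsc t
      rw [hr]; simp
    rw [h3] at h2
    exact h2.unique (hasDerivAt_const (0:ℝ) (0:ℝ))
  have e00 : Y 0 0 - Y 1 1 = 0 := by
    have h2 := (h1 0 0).sub (h1 1 1)
    have h3 : ((fun t : ℝ => (NormedSpace.exp (t • Y) : Matrix (Fin 2) (Fin 2) ℝ) 0 0) - 
      (fun t : ℝ => (NormedSpace.exp (t • Y) : Matrix (Fin 2) (Fin 2) ℝ) 1 1)) = fun _ => 0 := by
      funext t
      obtain ⟨r, hr⟩ := hsc t
      simp only [Pi.sub_apply]
      rw [hr]; simp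
    rw [h3] at h2
    exact h2.unique (hasDerivAt_const (0:ℝ) (0:ℝ))
  have h00 : Y 0 0 = 0 := by linarith
  have h11 : Y 1 1 = 0 := by linarith
  ext i j
  fin_cases i <;> fin_cases j <;> simp [h00, h11, e01, e10]

end

theorem small_elt {H : ClosedSubgroup GG} (hirr : Irred H) (hne : ∃ g : GG, g ∉ (H : Set GG))
    (hnd : ¬ DiscreteTopology H.toSubgroup) {U : Set PSL2R} (hU : U ∈ 𝓝 (1 : PSL2R)) :
    ∀ᶠ n : ℕ in atTop, ∃ b ∈ U, ((pr (uu (1 / 4 ^ n)), b) : GG) ∈ (H : Set GG) := by
  obtain ⟨X, Y, hXY, hone⟩ := one_param (d3_closed H) (d3_not_disc hnd)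
  have hX : X ≠ 0 := by
    intro hX0
    have hY0 : Y = 0 := by
      apply d3_centre
      intro t
      obtain ⟨h, hK, h1, h2⟩ := hone t
      refine ⟨h.2, h2, ?_⟩
      have h3 : h.1 = 1 := by
        apply Subtype.ext
        rw [h1, hX0, smul_zero, NormedSpace.exp_zero]
        rfl
      have h4 : ((pr h.1, pr h.2) : GG) ∈ (H : Set GG) := hK
      rw [h3, map_one] at h4
      have h5 := (inter_trivial hirr hne).2 _ h4
      exact (QuotientGroup.eq_one_iff h.2).1 h5
    rcases hXY with h | h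
    · exact h hX0
    · exact h hY0
  set S : Subgroup SL2R := (d3K H).map (MonoidHom.fst SL2R SL2R) with hS
  have hmemS : ∀ a : SL2R, a ∈ S ↔ ∃ b : SL2R, ((pr a, pr b) : GG) ∈ (H : Set GG) := by
    intro a
    constructor
    · rintro ⟨k, hk, rfl⟩
      exact ⟨k.2, hk⟩
    · rintro ⟨b, hb⟩
      exact ⟨(a, b), hb, rfl⟩
  have hdense : Dense (S : Set SL2R) := by
    have h1 := hirr.1.preimage isOpenMap_pr
    refine h1.mono ?_
    rintro a ⟨⟨x, y⟩, hxy, hx⟩
    obtain ⟨b, hb⟩ := pr_surj y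
    simp only at hx
    refine (hmemS a).2 ⟨b, ?_⟩
    rw [hb, ← hx]
    exact hxy
  have hST : S = ⊤ := by
    refine top_of_conj hdense hX ?_ ?_
    · intro t
      obtain ⟨h, hK, h1, h2⟩ := hone t
      exact ⟨h.1, h1⟩
    · rintro d ⟨k, hk, rfl⟩ t h hh
      obtain ⟨h', hK, h1, h2⟩ := hone t
      have h3 : h = h'.1 := Subtype.ext (hh.trans h1.symm)
      rw [h3]
      refine ⟨k * h' * k⁻¹, (d3K H).mul_mem ((d3K H).mul_mem hk hK) ((d3K H).inv_mem hk), rfl⟩
  set f : (d3K H) →* SL2R := (MonoidHom.fst SL2R SL2R).comp (d3K H).subtype with hf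
  have hfc : Continuous f := continuous_fst.comp continuous_subtype_val
  have hfs : Function.Surjective f := by
    intro a
    have : a ∈ S := by rw [hST]; trivial
    obtain ⟨k, hk, hka⟩ := this
    exact ⟨⟨k, hk⟩, hka⟩
  have : SigmaCompactSpace (d3K H) := (d3_closed H).isClosedEmbedding_subtypeVal.sigmaCompactSpace
  have hopen : IsOpenMap f := f.isOpenMap_of_sigmaCompact hfs hfc
  have hV : {k : d3K H | pr k.1.2 ∈ U} ∈ 𝓝 (1 : d3K H) := by
    have hc : Continuous (fun k : d3K H => pr k.1.2) := 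
      continuous_pr.comp (continuous_snd.comp continuous_subtype_val)
    have h1 := hc.tendsto 1
    have h2 : pr ((1 : d3K H).1.2) = 1 := map_one pr
    rw [h2] at h1
    exact h1 hU
  have h1 := hopen.image_mem_nhds hV
  rw [map_one] at h1
  have h2 := (tendsto_uu4 1).eventually h1
  filter_upwards [h2] with n hn
  obtain ⟨k, hk, hkn⟩ := hn
  refine ⟨pr k.1.2, hk, ?_⟩
  rw [← hkn]
  exact k.2

end Pool.Agent.IRS
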