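import Mathlib
import Pool.Agent.IRS.Disc3b

/-!
# Irreducible ergodic IRSs other than the point mass at the whole group are discrete

PROOF.  `{topS}` is a measurable (`(hitS Uᶜ..)`: `{topS} = ⋂ over basis sets B ≠ ∅ of hitS B`: a closed
subgroup meeting all nonempty open sets is dense, so everything) conjugation invariant set, so its
measure is `0` or `1`; if it is `1` then `μ = dirac topS`.  So a.e. `H` is not `topS`.
Let `K_k` be a decreasing sequence of compact neighbourhoods of `1` in `PSL2R` forming a basis, and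
`E_k = {H | ∃ b ∈ K_k, (pr (uu 1), b) ∈ H}`, the complement of `missS ({pr (uu 1)} ×ˢ K_k)`: measurable.
By `mem_conj` and `aa_pow_uu`: `conj (i1 (aa ^ n)) H ∈ E_k ↔ ∃ b ∈ K_k, (pr (uu (1 / 4 ^ n)), b) ∈ H`.
Let `T_k = {H | ∀ᶠ n, conj (i1 (aa ^ n)) H ∈ E_k}` (measurable, invariant under `conj (i1 aa)`).  By
invariance `μ (T_k ∩ E_k) = μ (T_k ∩ (conj (i1 (aa ^ n)))⁻¹' E_k) → μ T_k` (dominated convergence / liminf),
so a.e. `H ∈ T_k` is in `E_k`.  For a.e. `H` which is irreducible, not `topS` and not discrete,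
`small_elt` gives `H ∈ T_k` for all `k`, so `H ∈ E_k` for all `k`, and as `H` is closed `(pr (uu 1), 1) ∈ H`,
contradicting `inter_trivial` (`pr (uu 1) ≠ 1`).
-/

set_option autoImplicit false

namespace Pool.Agent.IRS

open MeasureTheory Matrix Set Filter Topology

/-- The whole group as a closed subgroup. -/
def topS : ClosedSubgroup GG := ⟨⊤, isClosed_univ⟩

lemma dd_topS_mem (g : GG) : g ∈ (topS : Set GG) := trivial

lemma dd_top_of_dense {H : ClosedSubgroup GG} (h : Dense (H : Set GG)) : H = topS := by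
  apply CS_ext
  intro x
  constructor
  · intro _
    exact dd_topS_mem x
  · intro _
    have h1 : closure (H : Set GG) = (H : Set GG) := H.isClosed'.closure_eq
    rw [← h1]
    exact h x

lemma dd_topS_meas : MeasurableSet ({topS} : Set (ClosedSubgroup GG)) := by
  have h1 : ({topS} : Set (ClosedSubgroup GG)) = ⋂ B ∈ TopologicalSpace.countableBasis GG, hitS B := by
    ext H
    simp only [mem_singleton_iff, mem_iInter]
    constructor
    · rintro rfl B hB
      obtain ⟨x, hx⟩ := TopologicalSpace.nonempty_of_mem_countableBasis hB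
      exact ⟨x, dd_topS_mem x, hx⟩
    · intro h
      apply dd_top_of_dense
      rw [(TopologicalSpace.isBasis_countableBasis GG).dense_iff]
      intro B hB _
      obtain ⟨x, hx, hx2⟩ := h B hB
      exact ⟨x, hx2, hx⟩
  rw [h1]
  exact MeasurableSet.biInter (TopologicalSpace.countable_countableBasis GG) 
    fun B hB => hitS_meas (TopologicalSpace.isOpen_of_mem_countableBasis hB)

lemma dd_topS_inv (g : GG) (H : ClosedSubgroup GG) : 
    conj g H ∈ ({topS} : Set (ClosedSubgroup GG)) ↔ H ∈ ({topS} : Set (ClosedSubgroup GG)) := by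
  simp only [mem_singleton_iff]
  constructor
  · intro h
    apply CS_ext
    intro x
    refine ⟨fun _ => dd_topS_mem x, fun _ => ?_⟩
    have h1 : g * x * g⁻¹ ∈ (conj g H : Set GG) := by rw [h]; exact dd_topS_mem _
    rw [mem_conj] at h1
    have h2 : g⁻¹ * (g * x * g⁻¹) * g = x := by group
    rw [h2] at h1
    exact h1
  · rintro rfl
    apply CS_ext
    intro x
    rw [mem_conj]
    exact ⟨fun _ => dd_topS_mem _, fun _ => dd_topS_mem _⟩

lemma dd_ae_ne {μ : Measure (ClosedSubgroup GG)} (hμ : IsIRS μ) (herg : IsErg μ)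
    (hne : μ ≠ Measure.dirac topS) : ∀ᵐ H ∂μ, H ≠ topS := by
  have := hμ.prob
  rcases herg _ dd_topS_meas dd_topS_inv with h | h
  · rw [ae_iff]
    simpa using h
  · exfalso
    apply hne
    have h0 : μ ({topS} : Set (ClosedSubgroup GG))ᶜ = 0 := by
      rw [prob_compl_eq_zero_iff dd_topS_meas]
      exact h
    refine Measure.ext fun S hS => ?_
    rw [Measure.dirac_apply' _ hS]
    by_cases hT : topS ∈ S
    · rw [indicator_of_mem hT, Pi.one_apply]
      apply le_antisymm prob_le_one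
      rw [← h]
      exact measure_mono (by simpa using hT)
    · rw [indicator_of_notMem hT]
      apply measure_mono_null _ h0
      intro x hx hxt
      rw [mem_singleton_iff] at hxt
      exact hT (hxt ▸ hx)

/-- The subgroups with an element over `pr (uu 1)` and second coordinate in `K`. -/
def ddE (K : Set PSL2R) : Set (ClosedSubgroup GG) := {H | ∃ b ∈ K, ((pr (uu 1), b) : GG) ∈ (H : Set GG)}

lemma ddE_meas {K : Set PSL2R} (hK : IsCompact K) : MeasurableSet (ddE K) := by
  have h1 : ddE K = (missS (({pr (uu 1)} : Set PSL2R) ×ˢ K))ᶜ := by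
    ext H
    rw [mem_compl_iff]
    change _ ↔ ¬ Disjoint (H : Set GG) _
    rw [Set.not_disjoint_iff]
    constructor
    · rintro ⟨b, hb, hb2⟩
      exact ⟨_, hb2, rfl, hb⟩
    · rintro ⟨⟨a, b⟩, h1, h2, h3⟩
      rw [mem_singleton_iff] at h2
      simp only at h2 h3
      subst h2
      exact ⟨b, h3, h1⟩
  rw [h1]
  apply MeasurableSet.compl
  apply MeasurableSpace.measurableSet_generateFrom
  exact TopologicalSpace.isOpen_generateFrom_of_mem (Or.inr ⟨_, isCompact_singleton.prod hK, rfl⟩)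

lemma ddE_iter (K : Set PSL2R) (n : ℕ) (H : ClosedSubgroup GG) : 
    (conj (i1 aa))^[n] H ∈ ddE K ↔ ∃ b ∈ K, ((pr (uu (1 / 4 ^ n)), b) : GG) ∈ (H : Set GG) := by
  have h1 : (conj (i1 aa))^[n] H = conj (i1 (aa ^ n)) H := by
    induction n with
    | zero => rw [pow_zero, i1_one, conj_one]; rfl
    | succ n ih => rw [Function.iterate_succ_apply', ih, ← conj_mul, ← i1_mul, ← pow_succ']
  rw [h1]
  have h2 : ∀ b : PSL2R, ((pr (uu 1), b) : GG) ∈ (conj (i1 (aa ^ n)) H : Set GG) ↔ 
      ((pr (uu (1 / 4 ^ n)), b) : GG) ∈ (H : Set GG) := by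
    intro b
    rw [mem_conj]
    have h3 : (i1 (aa ^ n))⁻¹ * ((pr (uu 1), b) : GG) * i1 (aa ^ n) = (pr (uu (1 / 4 ^ n)), b) := by
      have h4 : (aa ^ n)⁻¹ * uu 1 * aa ^ n = uu (1 / 4 ^ n) := by
        rw [aa_pow_uu n 1]
        group
      unfold i1
      rw [← h4]
      simp
    rw [h3]
  constructor
  · rintro ⟨b, hb, hb2⟩
    exact ⟨b, hb, (h2 b).1 hb2⟩
  · rintro ⟨b, hb, hb2⟩
    exact ⟨b, hb, (h2 b).2 hb2⟩

lemma dd_uu_ne : pr (uu 1) ≠ 1 := by
  intro h
  have h1 : uu 1 ∈ Subgroup.center SL2R := (QuotientGroup.eq_one_iff (uu 1)).1 h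
  obtain ⟨r, _, hr⟩ := Matrix.SpecialLinearGroup.mem_center_iff.1 h1
  have h2 := congrFun (congrFun hr 0) 1
  rw [uu01] at h2
  simp at h2

theorem disc {μ : Measure (ClosedSubgroup GG)} (hμ : IsIRS μ) (herg : IsErg μ)
    (hirr : ∀ᵐ H ∂μ, Irred H) (hne : μ ≠ Measure.dirac topS) :
    ∀ᵐ H ∂μ, DiscreteTopology H.toSubgroup := by
  have := hμ.prob
  obtain ⟨V, hV⟩ := (𝓝 (1 : PSL2R)).exists_antitone_basis
  have h1 : ∀ n, ∃ K ∈ 𝓝 (1 : PSL2R), K ⊆ V n ∧ IsCompact K := fun n => 
    local_compact_nhds (hV.1.mem_of_mem trivial)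
  choose K hK1 hK2 hK3 using h1
  have hmp : MeasurePreserving (conj (i1 aa)) μ μ := ⟨conj_meas _, hμ.inv _⟩
  have hcons : Conservative (conj (i1 aa)) μ := hmp.conservative
  have h2 : ∀ n, ∀ᵐ H ∂μ, H ∈ (ddE (K n))ᶜ → ∃ᶠ m in atTop, (conj (i1 aa))^[m] H ∈ (ddE (K n))ᶜ := 
    fun n => hcons.ae_mem_imp_frequently_image_mem (ddE_meas (hK3 n)).compl.nullMeasurableSet
  have h3 := ae_all_iff.2 h2
  filter_upwards [hirr, dd_ae_ne hμ herg hne, h3] with H hH hHt hr
  by_contra hnd
  have hneH : ∃ g : GG, g ∉ (H : Set GG) := by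
    by_contra hcon
    push Not at hcon
    exact hHt (CS_ext fun x => ⟨fun _ => dd_topS_mem x, fun _ => hcon x⟩)
  have hE : ∀ n, H ∈ ddE (K n) := by
    intro n
    by_contra hc
    have h4 := hr n hc
    have h5 := small_elt hH hneH hnd (hK1 n)
    obtain ⟨m, hm1, hm2⟩ := (h4.and_eventually h5).exists
    exact hm1 ((ddE_iter _ _ _).2 hm2)
  have hcl : ((pr (uu 1), 1) : GG) ∈ (H : Set GG) := by
    have h4 : closure (H : Set GG) = (H : Set GG) := H.isClosed'.closure_eq
    rw [← h4, mem_closure_iff_nhds]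
    intro W hW
    have h5 : Continuous (fun b : PSL2R => ((pr (uu 1), b) : GG)) := continuous_const.prodMk continuous_id
    have h6 := (h5.tendsto 1) hW
    obtain ⟨n, _, hn⟩ := hV.1.mem_iff.1 h6
    obtain ⟨b, hb, hb2⟩ := hE n
    exact ⟨_, hn (hK2 n hb), hb2⟩
  exact dd_uu_ne ((inter_trivial hH hneH).1 _ hcl)

end Pool.Agent.IRS
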