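import Mathlib
import Pool.Agent.IRS.Base

/-!
# Open sets have positive measure; discrete subgroups
-/

set_option autoImplicit false

namespace Pool.Agent.IRS

open MeasureTheory Set Filter Topology ENNReal

theorem m2_pos {U : Set G2} (hU : IsOpen U) (hne : U.Nonempty) : 0 < m2 U := by
  rw [pos_iff_ne_zero]
  intro h0
  obtain ⟨x0, hx0⟩ := hne
  have h1 : m2 univ = 0 := by
    refine measure_null_of_locally_null _ fun g _ => ?_
    refine ⟨(fun x : G2 => (x0 * g⁻¹) * x) ⁻¹' U, ?_, ?_⟩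
    · rw [nhdsWithin_univ]
      refine (hU.preimage (continuous_const.mul continuous_id)).mem_nhds ?_
      rw [mem_preimage]
      simpa using hx0
    · rw [(m2_left (x0 * g⁻¹)).measure_preimage hU.measurableSet.nullMeasurableSet, h0]
  have h2 : m2 = 0 := Measure.measure_univ_eq_zero.1 h1
  apply kq2_ne_zero
  have h3 := kq2_ac
  rw [h2] at h3
  exact Measure.absolutelyContinuous_zero_iff.1 h3

theorem cnt_of_discrete {D : Subgroup G2} (hD : DiscreteTopology D) : (D : Set G2).Countable := by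
  have : Countable D := countable_of_Lindelof_of_discrete
  exact Set.countable_coe_iff.1 this

private lemma UnfB_nhd {G : Type*} [Group G] [TopologicalSpace G] [IsTopologicalGroup G]
    {D : Subgroup G} (hD : DiscreteTopology D) (g : G) (N : G → ℝ) (hN : Continuous N) :
    ∃ U : Set G, IsOpen U ∧ (1 : G) ∈ U ∧
      (∀ u ∈ U, ∀ u' ∈ U, g * u * u'⁻¹ * g⁻¹ ∈ D → g * u * u'⁻¹ * g⁻¹ = 1) ∧
      ∀ u ∈ U, N u < N 1 + 1 := by
  obtain ⟨V, hV, hVD⟩ : ∃ V ∈ 𝓝 (1 : G), ∀ d ∈ D, d ∈ V → d = 1 := by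
    have h1 : {(1 : D)} ∈ 𝓝 (1 : D) := by
      rw [nhds_discrete]; exact mem_pure.2 rfl
    rw [nhds_subtype_eq_comap] at h1
    obtain ⟨V, hV, hVs⟩ := mem_comap.1 h1
    refine ⟨V, by simpa using hV, fun d hd hdV => ?_⟩
    have h2 : (⟨d, hd⟩ : D) ∈ ({(1 : D)} : Set D) := hVs hdV
    exact congrArg Subtype.val (mem_singleton_iff.1 h2)
  have hcont : Continuous (fun p : G × G => g * p.1 * p.2⁻¹ * g⁻¹) := by fun_prop
  have h2 : (fun p : G × G => g * p.1 * p.2⁻¹ * g⁻¹) ⁻¹' V ∈ 𝓝 ((1 : G), (1 : G)) := by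
    refine hcont.continuousAt.preimage_mem_nhds ?_
    simpa using hV
  rw [nhds_prod_eq] at h2
  obtain ⟨A, hA, B, hB, hAB⟩ := mem_prod_iff.1 h2
  have h3 : {u : G | N u < N 1 + 1} ∈ 𝓝 (1 : G) :=
    (isOpen_lt hN continuous_const).mem_nhds (lt_add_one (N 1))
  obtain ⟨U, hUs, hUo, hU1⟩ := mem_nhds_iff.1 (inter_mem (inter_mem hA hB) h3)
  refine ⟨U, hUo, hU1, fun u hu u' hu' hd => ?_, fun u hu => (hUs hu).2⟩
  exact hVD _ hd (hAB (mk_mem_prod (hUs hu).1.1 (hUs hu').1.2))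

private lemma UnfB_disj {G : Type*} [Group G] {D : Subgroup G} {g : G} {U : Set G}
    (hU : ∀ u ∈ U, ∀ u' ∈ U, g * u * u'⁻¹ * g⁻¹ ∈ D → g * u * u'⁻¹ * g⁻¹ = 1)
    {h h' : D} (hne : h ≠ h') {x : G} (hx : ((h : G) * g)⁻¹ * x ∈ U)
    (hx' : ((h' : G) * g)⁻¹ * x ∈ U) : False := by
  apply hne
  have e := hU _ hx' _ hx
  have e1 : g * (((h' : G) * g)⁻¹ * x) * (((h : G) * g)⁻¹ * x)⁻¹ * g⁻¹ = (h' : G)⁻¹ * h := by
    group
  rw [e1] at e
  exact Subtype.ext (inv_mul_eq_one.1 (e (D.mul_mem (D.inv_mem h'.2) h.2))).symm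

private lemma UnfB_grp {G : Type*} [Group G] (h g x : G) : x * ((h * g)⁻¹ * x)⁻¹ = h * g := by
  group

theorem fin_of_discrete {D : Subgroup G2} (hD : DiscreteTopology D) (g : G2) :
    ∑' h : D, ENNReal.ofReal (q2 (h * g)) ≠ ⊤ := by
  have hc : Countable D := (cnt_of_discrete hD).to_subtype
  obtain ⟨U, hUo, hU1, hUd, hUC⟩ := UnfB_nhd hD g N2 continuous_N2
  set C : ℝ := N2 (1 : G2) + 1 with hC
  have hC0 : 0 < C := by have := N2_pos (1 : G2); linarith
  have hUpos : 0 < m2 U := m2_pos hUo ⟨1, hU1⟩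
  set S : D → Set G2 := fun h => (fun x : G2 => ((h : G2) * g)⁻¹ * x) ⁻¹' U with hS
  have hSm : ∀ h, MeasurableSet (S h) := fun h =>
    (hUo.preimage (continuous_const.mul continuous_id)).measurableSet
  have hSμ : ∀ h, m2 (S h) = m2 U := fun h =>
    (m2_left _).measure_preimage hUo.measurableSet.nullMeasurableSet
  have hSd : Pairwise (Function.onFun Disjoint S) := by
    intro h h' hne
    rw [Function.onFun, Set.disjoint_left]
    intro x hx hx'
    exact UnfB_disj hUd hne hx hx'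
  have hq : ∀ h : D, ENNReal.ofReal (q2 (h * g)) * m2 U
      ≤ ENNReal.ofReal C * ∫⁻ x in S h, ENNReal.ofReal (q2 x) ∂m2 := by
    intro h
    rw [← hSμ h, ← setLIntegral_const, ← lintegral_const_mul _ measurable_q2.ennreal_ofReal]
    refine setLIntegral_mono (measurable_const.mul measurable_q2.ennreal_ofReal) fun x hx => ?_
    rw [← ENNReal.ofReal_mul hC0.le]
    refine ENNReal.ofReal_le_ofReal ?_
    have e := q2_mul_le' x (((h : G2) * g)⁻¹ * x)⁻¹
    rw [UnfB_grp, N2_inv] at e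
    exact e.trans (mul_le_mul_of_nonneg_right (hUC _ hx).le (q2_pos x).le)
  have hsum : (∑' h : D, ENNReal.ofReal (q2 (h * g))) * m2 U
      ≤ ENNReal.ofReal C * ∫⁻ x, ENNReal.ofReal (q2 x) ∂m2 := by
    rw [← ENNReal.tsum_mul_right]
    refine (ENNReal.tsum_le_tsum hq).trans ?_
    rw [ENNReal.tsum_mul_left]
    gcongr
    rw [← lintegral_iUnion hSm hSd]
    exact setLIntegral_le_lintegral _ _
  intro htop
  rw [htop, ENNReal.top_mul hUpos.ne'] at hsum
  exact (ENNReal.mul_lt_top ENNReal.ofReal_lt_top lintegral_q2_lt).not_ge hsum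

end Pool.Agent.IRS
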