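import Mathlib
import Pool.Agent.IRS.Fld
import Pool.Agent.IRS.Defs
import Pool.Agent.IRS.UnfB

/-!
# The field of subgroups attached to an invariant random subgroup
-/

set_option autoImplicit false
set_option linter.unusedSectionVars false

namespace Pool.Agent.IRS

open MeasureTheory Set Filter Topology ENNReal

/-- The quotient map as a homomorphism. -/
noncomputable def ppH : G2 →* GG where
  toFun := pp
  map_one' := pp_one
  map_mul' := pp_mul

/-- The preimage of a closed subgroup. -/
noncomputable def preH (H : ClosedSubgroup GG) : Subgroup G2 := H.toSubgroup.comap ppH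

lemma mem_preH {H : ClosedSubgroup GG} {g : G2} : g ∈ preH H ↔ pp g ∈ (H : Set GG) := Iff.rfl

/-- The kernel of the projection. -/
lemma pr_eq_one {a : SL2R} (h : pr a = 1) : a = 1 ∨ a = -1 := by
  have h1 : a ∈ Subgroup.center SL2R := (QuotientGroup.eq_one_iff a).1 h
  rw [Subgroup.mem_center_iff] at h1
  have h2 := h1 (uu 1)
  have h3 := h1 (vv 1)
  have e1 := congrArg (fun g : SL2R => g 0 0) h2
  have e2 := congrArg (fun g : SL2R => g 0 1) h2
  have e3 := congrArg (fun g : SL2R => g 0 0) h3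
  simp only [SL_mul_apply, uu00, uu01, uu10, uu11, vv00, vv01, vv10, vv11] at e1 e2 e3
  have hd := det_eq a
  have a10 : a 1 0 = 0 := by linarith
  have a01 : a 0 1 = 0 := by linarith
  have a11 : a 1 1 = a 0 0 := by linarith
  rw [a10, a01, a11] at hd
  have h4 : a 0 0 = 1 ∨ a 0 0 = -1 := by
    have : (a 0 0 - 1) * (a 0 0 + 1) = 0 := by linarith
    rcases mul_eq_zero.1 this with h5 | h5
    · left; linarith
    · right; linarith
  rcases h4 with h5 | h5
  · left
    apply SL_ext
    · simp [h5]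
    · simp [a01]
    · simp [a10]
    · simp [a11, h5]
  · right
    apply SL_ext
    · simp [Matrix.SpecialLinearGroup.coe_neg, h5]
    · simp [Matrix.SpecialLinearGroup.coe_neg, a01]
    · simp [Matrix.SpecialLinearGroup.coe_neg, a10]
    · simp [Matrix.SpecialLinearGroup.coe_neg, a11, h5]

lemma pr_neg_one : pr (-1 : SL2R) = 1 := by
  refine (QuotientGroup.eq_one_iff _).2 ?_
  rw [Subgroup.mem_center_iff]
  intro g
  simp

/-- The preimage of a discrete subgroup is discrete. -/
theorem preH_discrete {H : ClosedSubgroup GG} (hH : DiscreteTopology H.toSubgroup) :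
    DiscreteTopology (preH H) := by
  have h1 : IsOpen ({1} : Set H.toSubgroup) := isOpen_discrete _
  obtain ⟨U, hU, hU1⟩ := isOpen_induced_iff.1 h1
  set K : Set G2 := (({1, -1} : Set SL2R) ×ˢ ({1, -1} : Set SL2R)) \ {1} with hK
  have hKf : K.Finite := (((Set.finite_singleton _).insert _).prod
    ((Set.finite_singleton _).insert _)).subset sdiff_subset
  refine discreteTopology_of_isOpen_singleton_one ?_
  refine isOpen_induced_iff.2 ⟨(pp ⁻¹' U) \ K, (hU.preimage continuous_pp).sdiff hKf.isClosed, ?_⟩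
  ext ⟨g, hg⟩
  constructor
  · rintro ⟨h2, h3⟩
    have h4 : (⟨pp g, hg⟩ : H.toSubgroup) ∈ (Subtype.val ⁻¹' U : Set H.toSubgroup) := h2
    rw [hU1] at h4
    have h5 : pp g = 1 := congrArg Subtype.val h4
    have h6 : pr g.1 = 1 := congrArg Prod.fst h5
    have h7 : pr g.2 = 1 := congrArg Prod.snd h5
    have h8 : g ∈ (({1, -1} : Set SL2R) ×ˢ ({1, -1} : Set SL2R)) :=
      ⟨pr_eq_one h6, pr_eq_one h7⟩
    have h9 : g = 1 := by
      by_contra h10
      exact h3 ⟨h8, h10⟩
    exact Subtype.ext h9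
  · intro h2
    have h3 : g = 1 := congrArg Subtype.val h2
    subst h3
    refine ⟨?_, fun h4 => h4.2 rfl⟩
    have h4 : (1 : H.toSubgroup) ∈ (Subtype.val ⁻¹' U : Set H.toSubgroup) := by
      rw [hU1]; rfl
    change pp 1 ∈ U
    rw [pp_one]
    exact h4

lemma isOpenMap_pp : IsOpenMap pp := isOpenMap_pr.prodMap isOpenMap_pr

lemma fst_preH (H : ClosedSubgroup GG) :
    Prod.fst '' (preH H : Set G2) = pr ⁻¹' (Prod.fst '' (H : Set GG)) := by
  ext a
  constructor
  · rintro ⟨g, hg, rfl⟩
    exact ⟨pp g, hg, rfl⟩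
  · rintro ⟨⟨x, y⟩, hxy, hx⟩
    obtain ⟨b, hb⟩ := pr_surj y
    refine ⟨(a, b), ?_, rfl⟩
    change (pr a, pr b) ∈ (H : Set GG)
    rw [hb]
    have : pr a = x := hx.symm
    rw [this]
    exact hxy

lemma snd_preH (H : ClosedSubgroup GG) :
    Prod.snd '' (preH H : Set G2) = pr ⁻¹' (Prod.snd '' (H : Set GG)) := by
  ext b
  constructor
  · rintro ⟨g, hg, rfl⟩
    exact ⟨pp g, hg, rfl⟩
  · rintro ⟨⟨x, y⟩, hxy, hy⟩
    obtain ⟨a, ha⟩ := pr_surj x
    refine ⟨(a, b), ?_, rfl⟩
    change (pr a, pr b) ∈ (H : Set GG)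
    rw [ha]
    have : pr b = y := hy.symm
    rw [this]
    exact hxy

/-- The field of subgroups of an IRS. -/
theorem exists_fld {μ : Measure (ClosedSubgroup GG)} (hμ : IsIRS μ) (herg : IsErg μ)
    (hirr : ∀ᵐ H ∂μ, Irred H) (hdisc : ∀ᵐ H ∂μ, DiscreteTopology H.toSubgroup) :
    ∃ 𝓕 : Fld μ, (∀ g H, 𝓕.A.τ g H = conj (pp g) H) ∧ (∀ H, 𝓕.H H = preH H) := by
  refine ⟨{ A := act12 hμ
            H := preH
            closed := fun H => H.isClosed'.preimage continuous_pp
            meas := fun U hU => ?_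
            equi := fun g H h => ?_
            stab := fun H h hh => conj_self hh
            cnt := ?_
            fin := ?_
            d1 := ?_
            d2 := ?_
            cent := fun H => ?_
            erg := fun S hS hSi => herg S hS fun g H => ?_ }, fun g H => rfl, fun H => rfl⟩
  · have e : {x : ClosedSubgroup GG | ((preH x : Set G2) ∩ U).Nonempty} = hitS (pp '' U) := by
      ext H
      constructor
      · rintro ⟨g, hg, hgU⟩
        exact ⟨pp g, hg, ⟨g, hgU, rfl⟩⟩
      · rintro ⟨_, hx, ⟨g, hgU, rfl⟩⟩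
        exact ⟨g, hx, hgU⟩
    rw [e]
    exact hitS_meas (isOpenMap_pp U hU)
  · change pp h ∈ (conj (pp g) H : Set GG) ↔ pp (g⁻¹ * h * g) ∈ (H : Set GG)
    rw [mem_conj, pp_mul, pp_mul, pp_inv]
  · filter_upwards [hdisc] with H hH
    exact cnt_of_discrete (preH_discrete hH)
  · filter_upwards [hdisc] with H hH g
    exact fin_of_discrete (preH_discrete hH) g
  · filter_upwards [hirr] with H hH
    rw [fst_preH]
    exact hH.1.preimage isOpenMap_pr
  · filter_upwards [hirr] with H hH
    rw [snd_preH]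
    exact hH.2.preimage isOpenMap_pr
  · change pp ((-1, 1) : G2) ∈ (H : Set GG)
    have e : pp ((-1, 1) : G2) = 1 := by
      change (pr (-1), pr 1) = 1
      rw [pr_neg_one, map_one]
      rfl
    rw [e]
    exact H.one_mem
  · obtain ⟨g', rfl⟩ := pp_surj g
    exact hSi g' H

end Pool.Agent.IRS
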