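import Mathlib
import Pool.Agent.IRS.Defs

/-!
# The Borel sets of the Chabauty space have a countable generating pi-system

PROOF.  `chab_eq` (for `G = GG`) and `hitS U = ⋃ hitS B` over basis sets `B ⊆ U`; so the sigma algebra is
generated by `{hitS B | B ∈ countableBasis GG}`; `generatePiSystem` (or the finite intersections) of a
countable family is countable and generates the same sigma algebra.
-/

set_option autoImplicit false
set_option linter.unusedSectionVars false

namespace Pool.Agent.IRS

open MeasureTheory Set Filter Topology ENNReal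

/-- The Borel sets of the Chabauty space are generated by countably many sets. -/
theorem cs_countable : ∃ 𝒞 : Set (Set (ClosedSubgroup GG)), 𝒞.Countable ∧ IsPiSystem 𝒞 ∧
    csMS GG = MeasurableSpace.generateFrom 𝒞 := by
  set 𝒟 : Set (Set (ClosedSubgroup GG)) := hitS '' TopologicalSpace.countableBasis GG with h𝒟
  have h𝒟c : 𝒟.Countable := (TopologicalSpace.countable_countableBasis GG).image _
  have h1 : csMS GG = MeasurableSpace.generateFrom 𝒟 := by
    rw [chab_eq]
    apply le_antisymm
    · apply MeasurableSpace.generateFrom_le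
      rintro S ⟨U, hU, rfl⟩
      have h2 : hitS U = ⋃₀ (hitS '' {B | B ∈ TopologicalSpace.countableBasis GG ∧ B ⊆ U}) := by
        ext H
        constructor
        · rintro ⟨x, hx, hxU⟩
          obtain ⟨B, hB, hxB, hBU⟩ :=
            (TopologicalSpace.isBasis_countableBasis GG).exists_subset_of_mem_open hxU hU
          exact ⟨_, ⟨B, ⟨hB, hBU⟩, rfl⟩, ⟨x, hx, hxB⟩⟩
        · rintro ⟨_, ⟨B, ⟨hB, hBU⟩, rfl⟩, ⟨x, hx, hxB⟩⟩
          exact ⟨x, hx, hBU hxB⟩
      rw [h2]
      refine @MeasurableSet.sUnion _ (MeasurableSpace.generateFrom 𝒟) _ ?_ ?_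
      · refine Set.Countable.image ?_ _
        exact (TopologicalSpace.countable_countableBasis GG).mono fun B hB => hB.1
      · rintro _ ⟨B, hB, rfl⟩
        exact MeasurableSpace.measurableSet_generateFrom ⟨B, hB.1, rfl⟩
    · apply MeasurableSpace.generateFrom_mono
      rintro _ ⟨B, hB, rfl⟩
      exact ⟨B, TopologicalSpace.isOpen_of_mem_countableBasis hB, rfl⟩
  refine ⟨(fun F => ⋂₀ F) '' {F : Set (Set (ClosedSubgroup GG)) | F.Finite ∧ F ⊆ 𝒟}, ?_, ?_, ?_⟩
  · exact (Set.countable_ofPred_finite_subset h𝒟c).image _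
  · rintro _ ⟨F, ⟨hF1, hF2⟩, rfl⟩ _ ⟨F', ⟨hF1', hF2'⟩, rfl⟩ _
    refine ⟨F ∪ F', ⟨hF1.union hF1', union_subset hF2 hF2'⟩, ?_⟩
    simp only
    rw [sInter_union]
  · rw [h1]
    apply le_antisymm
    · apply MeasurableSpace.generateFrom_mono
      intro S hS
      refine ⟨{S}, ⟨finite_singleton S, singleton_subset_iff.2 hS⟩, ?_⟩
      simp only
      rw [sInter_singleton]
    · apply MeasurableSpace.generateFrom_le
      rintro _ ⟨F, ⟨hF1, hF2⟩, rfl⟩
      simp only
      refine @MeasurableSet.sInter _ (MeasurableSpace.generateFrom 𝒟) _ hF1.countable ?_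
      intro S hS
      exact MeasurableSpace.measurableSet_generateFrom (hF2 hS)

end Pool.Agent.IRS
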