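import Mathlib
import Pool.Agent.IRS.Fin0
import Pool.Agent.IRS.FinC
import Pool.Agent.IRS.Zs2

/-!
# From the formula of `Fld.lattice` to a lattice IRS

PROOF of `lattice_of_formula`.  Choose one `Γ` such that `Γ` is discrete, `∑_h wt Γ (h g) = 1` for all `g`
(`wt_sum`), `(preH Γ)` is countable (`cnt`), `∫ wt Γ = c` and the formula holds for the indicators of the sets
of the countable pi-system of `cs_countable` (and of `univ`).  Let
`m := c⁻¹ • (m2.withDensity (𝓕.wt Γ)).map (fun g => QuotientGroup.mk (pp g⁻¹))`.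
* `m` is a probability measure.
* invariance: for `γ = pp γ'`: `m.map (γ • ·)` of `E` is `c⁻¹ ∫ 1_E (pp (γ' g⁻¹) Γ) wt g = c⁻¹ ∫ 1_E (pp g⁻¹ Γ) wt (g γ')`
  (`m2_right`), and `unf` (`g ↦ 1_E (pp g⁻¹ Γ)` is left invariant under `preH Γ`; both weights have sum `1`).
* `m.map (orb Γ)` and `μ` agree on the pi-system: `orb Γ (mk (pp g⁻¹)) = conj (pp g⁻¹) Γ = A.τ g⁻¹ Γ`; so they
  are equal (`ext_of_generate_finite`).  Measurability of `orb Γ`: a function on the quotient is
  measurable iff its composition with the quotient map is (`measurable_from_quotient`), and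
  `g ↦ conj g Γ` is measurable (`measurable_conj` with `j = id`).
-/

set_option autoImplicit false
set_option linter.unusedSectionVars false

namespace Pool.Agent.IRS

open MeasureTheory Set Filter Topology ENNReal

/-- The orbit map of a closed subgroup `Γ`: it sends the coset `g Γ` to `g Γ g⁻¹`. -/
noncomputable def orb (Γ : ClosedSubgroup GG) (q : GG ⧸ Γ.toSubgroup) : ClosedSubgroup GG :=
  Quotient.liftOn' q (fun g => conj g Γ) (fun a b hab => by
    have h1 : a⁻¹ * b ∈ (Γ : Set GG) := QuotientGroup.leftRel_apply.1 hab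
    have h2 : conj (a⁻¹ * b) Γ = Γ := conj_self h1
    have h3 : a * (a⁻¹ * b) = b := by group
    change conj a Γ = conj b Γ
    rw [← h3, conj_mul, h2])

lemma orb_mk (Γ : ClosedSubgroup GG) (g : GG) :
    orb Γ (QuotientGroup.mk g) = conj g Γ := rfl

/-- The lattice IRS of a lattice: the subgroup `Γ` is discrete, the quotient `GG ⧸ Γ` carries an
invariant probability measure `m`, and `μ` is the image of `m` under `g Γ ↦ g Γ g⁻¹`. -/
def IsLatticeIRS (μ : Measure (ClosedSubgroup GG)) : Prop :=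
  ∃ Γ : ClosedSubgroup GG, DiscreteTopology Γ.toSubgroup ∧
    ∃ m : Measure (GG ⧸ Γ.toSubgroup), IsProbabilityMeasure m ∧
      (∀ g : GG, m.map (fun q => g • q) = m) ∧ μ = m.map (orb Γ)

lemma measurable_pr : Measurable pr := QuotientGroup.measurable_coe

lemma measurable_pp : Measurable pp :=
  (measurable_pr.comp measurable_fst).prodMk (measurable_pr.comp measurable_snd)

lemma measurable_pr_mul (g : SL2R) : Measurable (fun x : PSL2R => pr g * x) := by
  refine QuotientGroup.measurable_from_quotient.2 ?_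
  exact measurable_pr.comp (measurable_const_mul g)

lemma measurable_pp_mul (g : G2) : Measurable (fun x : GG => pp g * x) :=
  ((measurable_pr_mul g.1).comp measurable_fst).prodMk ((measurable_pr_mul g.2).comp measurable_snd)

instance opens_psl : OpensMeasurableSpace PSL2R := by
  refine ⟨?_⟩
  refine MeasurableSpace.generateFrom_le fun U hU => ?_
  have h1 : IsOpen (pr ⁻¹' U) := hU.preimage continuous_pr
  exact h1.measurableSet

lemma measurable_orb (Γ : ClosedSubgroup GG) : Measurable (orb Γ) := by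
  refine QuotientGroup.measurable_from_quotient.2 ?_
  have h1 := measurable_conj (G := GG) (M := GG) (j := id) continuous_id
  have h2 : Measurable (fun g : GG => (g, Γ)) := measurable_id.prodMk measurable_const
  have h3 := h1.comp h2
  exact h3

lemma measurable_mkpp (Γ : ClosedSubgroup GG) :
    Measurable (fun g : G2 => (QuotientGroup.mk (pp g⁻¹) : GG ⧸ Γ.toSubgroup)) :=
  QuotientGroup.measurable_coe.comp (measurable_pp.comp measurable_inv)

/-- From the formula of `Fld.lattice` to the lattice IRS. -/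
theorem lattice_of_formula {μ : Measure (ClosedSubgroup GG)} (hμ : IsIRS μ)
    (𝓕 : Fld μ) (hA : ∀ g H, 𝓕.A.τ g H = conj (pp g) H) (hH : ∀ H, 𝓕.H H = preH H)
    (hdisc : ∀ᵐ H ∂μ, DiscreteTopology H.toSubgroup)
    {c : ENNReal} (hc0 : c ≠ 0) (hct : c ≠ ⊤) (hc : ∀ᵐ x ∂μ, ∫⁻ g, 𝓕.wt x g ∂m2 = c)
    (hψ : ∀ ψ : ClosedSubgroup GG → ENNReal, Measurable ψ →
        ∀ᵐ x ∂μ, ∫⁻ g, ψ (𝓕.A.τ g⁻¹ x) * 𝓕.wt x g ∂m2 = c * ∫⁻ y, ψ y ∂μ) :
    IsLatticeIRS μ := by
  have hprob := hμ.prob
  obtain ⟨𝒞, h𝒞c, h𝒞p, h𝒞g⟩ := cs_countable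
  have h𝒞m : ∀ E ∈ 𝒞, MeasurableSet E := fun E hE => by
    rw [h𝒞g]; exact MeasurableSpace.measurableSet_generateFrom hE
  have hall : ∀ᵐ x ∂μ, ∀ E ∈ 𝒞,
      ∫⁻ g, E.indicator (1 : ClosedSubgroup GG → ENNReal) (𝓕.A.τ g⁻¹ x) * 𝓕.wt x g ∂m2
        = c * ∫⁻ y, E.indicator (1 : ClosedSubgroup GG → ENNReal) y ∂μ := by
    rw [ae_ball_iff h𝒞c]
    intro E hE
    exact hψ _ (measurable_one.indicator (h𝒞m E hE))
  obtain ⟨Γ, hΓd, hΓs, hΓc, hΓi, hΓf⟩ := (hdisc.and (𝓕.wt_sum.and (𝓕.cnt.and (hc.and hall)))).exists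
  have mw : Measurable (𝓕.wt Γ) := 𝓕.measurable_wt' Γ
  set q : G2 → GG ⧸ Γ.toSubgroup := fun g => QuotientGroup.mk (pp g⁻¹) with hq
  have mq : Measurable q := measurable_mkpp Γ
  set ν : Measure G2 := m2.withDensity (𝓕.wt Γ) with hν
  have hνI : ∀ φ : G2 → ENNReal, Measurable φ → ∫⁻ g, φ g ∂ν = ∫⁻ g, φ g * 𝓕.wt Γ g ∂m2 := by
    intro φ hφ
    rw [hν, lintegral_withDensity_eq_lintegral_mul _ mw hφ]
    refine lintegral_congr fun g => ?_
    simp only [Pi.mul_apply]
    ring
  have hm : ∀ E : Set (GG ⧸ Γ.toSubgroup), MeasurableSet E → (c⁻¹ • ν.map q) E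
      = c⁻¹ * ∫⁻ g, E.indicator 1 (q g) * 𝓕.wt Γ g ∂m2 := by
    intro E hE
    have mi : Measurable (E.indicator (1 : GG ⧸ Γ.toSubgroup → ENNReal)) := measurable_one.indicator hE
    have h7 := hνI (fun g => E.indicator 1 (q g)) (mi.comp mq)
    rw [Measure.smul_apply, smul_eq_mul, ← lintegral_indicator_one hE, lintegral_map mi mq, h7]
  refine ⟨Γ, hΓd, c⁻¹ • ν.map q, ?_, ?_, ?_⟩
  · refine ⟨?_⟩
    rw [hm _ MeasurableSet.univ]
    simp only [indicator_univ, Pi.one_apply, one_mul]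
    rw [hΓi]
    exact ENNReal.inv_mul_cancel hc0 hct
  · intro γ
    obtain ⟨γ', rfl⟩ := pp_surj γ
    have ms : Measurable (fun x : GG ⧸ Γ.toSubgroup => pp γ' • x) := by
      refine QuotientGroup.measurable_from_quotient.2 ?_
      exact QuotientGroup.measurable_coe.comp (measurable_pp_mul γ')
    refine Measure.ext fun E hE => ?_
    rw [Measure.map_apply ms hE, hm _ (ms hE), hm _ hE]
    congr 1
    set ψ : G2 → ENNReal := fun g => E.indicator 1 (q g) with hψd
    have mψ : Measurable ψ := (measurable_one.indicator hE).comp mq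
    have e1 : ∀ g, ((fun x : GG ⧸ Γ.toSubgroup => pp γ' • x) ⁻¹' E).indicator
        (1 : GG ⧸ Γ.toSubgroup → ENNReal) (q g) = ψ (g * γ'⁻¹) := by
      intro g
      have e2 : q (g * γ'⁻¹) = pp γ' • q g := by
        simp only [hq]
        rw [mul_inv_rev, inv_inv, pp_mul]
        rfl
      simp only [hψd]
      rw [e2]
      rfl
    simp_rw [e1]
    have m1 : Measurable (fun g => ψ (g * γ'⁻¹) * 𝓕.wt Γ g) :=
      (mψ.comp (measurable_mul_const γ'⁻¹)).mul mw
    rw [← (m2_right γ').lintegral_comp m1]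
    simp_rw [mul_inv_cancel_right]
    refine unf (D := 𝓕.H Γ) hΓc (ψ := ψ) mψ (mw.comp (measurable_mul_const γ')) mw ?_ ?_ hΓs
    · intro h hh g
      have e3 : q (h * g) = q g := by
        simp only [hq]
        rw [mul_inv_rev, pp_mul]
        refine QuotientGroup.eq.2 ?_
        rw [hH] at hh
        have h4 : pp h ∈ Γ.toSubgroup := hh
        rw [mul_inv_rev, pp_inv h, inv_inv, mul_assoc, inv_mul_cancel, mul_one]
        exact h4
      simp only [hψd]
      rw [e3]
    · intro g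
      have e : ∀ h : 𝓕.H Γ, (𝓕.wt Γ ∘ fun g => g * γ') ((h : G2) * g) = 𝓕.wt Γ (h * (g * γ')) :=
        fun h => by simp only [Function.comp, mul_assoc]
      exact (tsum_congr e).trans (hΓs (g * γ'))
  · have mo := measurable_orb Γ
    have hE : ∀ E : Set (ClosedSubgroup GG), MeasurableSet E →
        ((c⁻¹ • ν.map q).map (orb Γ)) E
          = c⁻¹ * ∫⁻ g, E.indicator 1 (𝓕.A.τ g⁻¹ Γ) * 𝓕.wt Γ g ∂m2 := by
      intro E hE
      rw [Measure.map_apply mo hE, hm _ (mo hE)]
      congr 1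
      refine lintegral_congr fun g => ?_
      congr 1
      rw [hA]
      rfl
    refine ext_of_generate_finite 𝒞 h𝒞g h𝒞p ?_ ?_
    · intro E hE1
      rw [hE E (h𝒞m E hE1), hΓf E hE1, lintegral_indicator_one (h𝒞m E hE1), ← mul_assoc,
        ENNReal.inv_mul_cancel hc0 hct, one_mul]
    · rw [hE _ MeasurableSet.univ]
      simp only [indicator_univ, Pi.one_apply, one_mul]
      rw [hΓi, ENNReal.inv_mul_cancel hc0 hct]
      exact hprob.measure_univ

end Pool.Agent.IRS
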