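import Mathlib
import Pool.Agent.IRS.Mt

/-!
# Finite covolume implies that the measure sits on one orbit

PROOF.  `c` from `erg_ennreal` for `u = fib 1` (invariant by `fib_left` with `φ = 1`); `c ≠ 0` as `wt > 0`.
For `ψ` put `I x := ∫⁻ g, ψ (A.τ g⁻¹ x) * wt x g dm2`, measurable; `I (γ x) = I x` for a.e. `x`: by `m2_left γ`,
`I (γ x) = ∫ ψ (g⁻¹ x) wt (γ x) (γ g)`, and `unf` with `D = H x`, `g ↦ ψ (g⁻¹ x)` left invariant by `stab`,
`wt_sum_left`, `wt_sum`.  So `I = k` a.e. (`erg_ennreal`), and `k = ∫ I dμ = ∫ ψ fib 1 = c ∫ ψ` (`mt`).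
-/

set_option autoImplicit false
set_option linter.unusedSectionVars false

namespace Pool.Agent.IRS

open MeasureTheory Set Filter Topology ENNReal

namespace Fld

variable {X : Type} [MeasurableSpace X] {μ : Measure X} [IsProbabilityMeasure μ] (𝓕 : Fld μ)

theorem lattice (hfin : ∀ᵐ x ∂μ, 𝓕.fib (fun _ => 1) x ≠ ⊤) :
    ∃ c : ENNReal, c ≠ 0 ∧ c ≠ ⊤ ∧ (∀ᵐ x ∂μ, ∫⁻ g, 𝓕.wt x g ∂m2 = c) ∧
      ∀ ψ : X → ENNReal, Measurable ψ →
        ∀ᵐ x ∂μ, ∫⁻ g, ψ (𝓕.A.τ g⁻¹ x) * 𝓕.wt x g ∂m2 = c * ∫⁻ y, ψ y ∂μ := by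
  have hm1 : Measurable (fun _ : X × CL G2 => (1 : ENNReal)) := measurable_const
  obtain ⟨c, hc⟩ := 𝓕.erg_ennreal (u := 𝓕.fib (fun _ => 1)) (𝓕.measurable_fib hm1)
    (fun γ => by
      filter_upwards [𝓕.fib_left hm1 γ] with x hx
      exact hx.symm)
  have hne : (ae μ).NeBot := inferInstance
  have hcw : ∀ᵐ x ∂μ, ∫⁻ g, 𝓕.wt x g ∂m2 = c := by
    filter_upwards [hc] with x hx
    rw [← hx]
    unfold fib
    simp only [one_mul]
  refine ⟨c, ?_, ?_, hcw, ?_⟩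
  · obtain ⟨x, hx, hW⟩ := (hcw.and 𝓕.WC_fin).exists
    intro h0
    rw [h0, lintegral_eq_zero_iff (𝓕.measurable_wt' x)] at hx
    have h1 : ∀ᵐ g ∂m2, False := by
      filter_upwards [hx] with g hg
      have h2 : ENNReal.ofReal (q2 g) * (WC (𝓕.co x g))⁻¹ = 0 := hg
      rcases mul_eq_zero.1 h2 with h3 | h3
      · have := ENNReal.ofReal_pos.2 (q2_pos g)
        exact this.ne' h3
      · exact hW g (ENNReal.inv_eq_zero.1 h3)
    have h2 : ∀ᵐ g ∂kq2, False := kq2_ac.ae_le h1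
    have h3 : (ae kq2).NeBot := ae_neBot.2 kq2_ne_zero
    exact h2.exists.elim fun _ h => h
  · obtain ⟨x, hx, hf⟩ := (hc.and hfin).exists
    rw [hx] at hf
    exact hf
  · intro ψ hψ
    have hmA : Measurable (fun p : X × G2 => 𝓕.A.τ p.2⁻¹ p.1) := by
      have h1 : Measurable (fun p : X × G2 => (p.2⁻¹, p.1)) :=
        (measurable_inv.comp measurable_snd).prodMk measurable_fst
      exact 𝓕.A.meas.comp h1
    have hI : Measurable (fun x => ∫⁻ g, ψ (𝓕.A.τ g⁻¹ x) * 𝓕.wt x g ∂m2) :=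
      ((hψ.comp hmA).mul 𝓕.measurable_wt).lintegral_prod_right'
    obtain ⟨k, hk⟩ := 𝓕.erg_ennreal hI (fun γ => by
      filter_upwards [𝓕.wt_sum, 𝓕.wt_sum_left, 𝓕.cnt] with x h1 h2 h3
      have hx' : ∀ y : X, Measurable (fun g : G2 => ψ (𝓕.A.τ g⁻¹ y)) := by
        intro y
        have h4 : Measurable (Prod.mk y : G2 → X × G2) := measurable_prodMk_left
        have h5 := (hψ.comp hmA).comp h4
        exact h5
      have m1 : Measurable (fun g : G2 => ψ (𝓕.A.τ g⁻¹ (𝓕.A.τ γ x)) * 𝓕.wt (𝓕.A.τ γ x) g) :=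
        (hx' _).mul (𝓕.measurable_wt' _)
      rw [← (m2_left γ).lintegral_comp m1]
      have e1 : ∀ g : G2, 𝓕.A.τ (γ * g)⁻¹ (𝓕.A.τ γ x) = 𝓕.A.τ g⁻¹ x := by
        intro g
        rw [← 𝓕.A.mul, mul_inv_rev, inv_mul_cancel_right]
      simp_rw [e1]
      refine unf (D := 𝓕.H x) h3 (ψ := fun g => ψ (𝓕.A.τ g⁻¹ x)) (hx' x)
        ((𝓕.measurable_wt' (𝓕.A.τ γ x)).comp (measurable_const_mul γ)) (𝓕.measurable_wt' x) ?_
        (h2 γ) h1
      intro h hh g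
      rw [mul_inv_rev, 𝓕.A.mul, 𝓕.stab x h⁻¹ ((𝓕.H x).inv_mem hh)])
    have hk2 : k = c * ∫⁻ y, ψ y ∂μ := by
      have h1 := 𝓕.mt hψ
      rw [lintegral_congr_ae hk, lintegral_const, measure_univ, mul_one] at h1
      rw [h1]
      have h2 : (fun y => ψ y * 𝓕.fib (fun _ => 1) y) =ᵐ[μ] fun y => c * ψ y := by
        filter_upwards [hc] with y hy
        rw [hy, mul_comm]
      rw [lintegral_congr_ae h2, lintegral_const_mul c hψ]
    filter_upwards [hk] with x hx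
    rw [hx, hk2]

end Fld

end Pool.Agent.IRS
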