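import Mathlib
import Pool.Agent.IRS.Cov
import Pool.Agent.IRS.Lat
import Pool.Agent.IRS.FinL
import Pool.Agent.IRS.Disc

/-!
# The main theorem
-/

set_option autoImplicit false
set_option linter.unusedSectionVars false

namespace Pool.Agent.IRS

open MeasureTheory Set Filter Topology ENNReal

/-- The main theorem. -/
theorem lattice_irs : ∃ ε : ℝ, 0 < ε ∧ ∀ μ : Measure (ClosedSubgroup GG), IsIRS μ → IsErg μ →
    (∀ᵐ H ∂μ, Irred H) → (∀ᵐ H ∂μ, DiscreteTopology H.toSubgroup) →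
    ∀ A C : ℝ, 2 < A →
    (∀ T : ℝ, 1 ≤ T → μ {H | ¬ TDense ε T H} ≤ ENNReal.ofReal (C * T ^ (-A))) →
    IsLatticeIRS μ := by
  refine ⟨eps0, eps0_pos, fun μ hμ herg hirr hdisc A C hA hT => ?_⟩
  have hprob := hμ.prob
  obtain ⟨𝓕, h1, h2⟩ := exists_fld hμ herg hirr hdisc
  have h3 : ∀ T : ℝ, {H | ¬ 𝓕.Dn eps0 T H} ⊆ {H | ¬ TDense eps0 T H} := by
    intro T H h4 h5
    refine h4 fun Y hY => ?_
    obtain ⟨⟨A, B, hAB, h6, h7⟩, ⟨A', B', hAB', h6', h7'⟩⟩ := h5 Y hY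
    refine ⟨⟨(A, B), ?_, h6, h7⟩, ⟨(A', B'), ?_, h6', h7'⟩⟩
    · rw [h2]; exact hAB
    · rw [h2]; exact hAB'
  obtain ⟨c, hc0, hct, hc, hψ⟩ := 𝓕.lattice (𝓕.covol hA fun T hT1 =>
    (measure_mono (h3 T)).trans (hT T hT1))
  exact lattice_of_formula hμ 𝓕 h1 h2 hdisc hc0 hct hc hψ

/-- The main theorem without assuming discreteness. -/
theorem lattice_irs' : ∃ ε : ℝ, 0 < ε ∧ ∀ μ : Measure (ClosedSubgroup GG), IsIRS μ → IsErg μ →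
    (∀ᵐ H ∂μ, Irred H) → μ ≠ Measure.dirac topS →
    ∀ A C : ℝ, 2 < A →
    (∀ T : ℝ, 1 ≤ T → μ {H | ¬ TDense ε T H} ≤ ENNReal.ofReal (C * T ^ (-A))) →
    IsLatticeIRS μ := by
  obtain ⟨ε, hε, h⟩ := lattice_irs
  exact ⟨ε, hε, fun μ hμ herg hirr hne => h μ hμ herg hirr (disc hμ herg hirr hne)⟩

end Pool.Agent.IRS
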