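import Mathlib
import Pool.Agent.IRS.Fin1

/-!
# Irreducible ergodic invariant random subgroups of PSL(2,R) x PSL(2,R) with a density tail
-/

set_option autoImplicit false

namespace Pool.Agent.Results.MP_b22d10_al.LatticeTail

open Pool.Agent.IRS MeasureTheory Filter Topology

/-- Every ergodic, almost surely irreducible invariant random subgroup of PSL(2,R) x PSL(2,R),
different from the point mass at the whole group, whose probability not to be `T`-dense decays
like `T ^ (-A)` with `A > 2`, is the lattice IRS of a lattice. -/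
theorem _root_.Pool.Agent.Results.MP_b22d10_al.LatticeTail.result :
    ∃ ε : ℝ, 0 < ε ∧ ∀ μ : Measure (ClosedSubgroup GG), IsIRS μ → IsErg μ →
    (∀ᵐ H ∂μ, Irred H) → μ ≠ Measure.dirac topS →
    ∀ A C : ℝ, 2 < A →
    (∀ T : ℝ, 1 ≤ T → μ {H | ¬ TDense ε T H} ≤ ENNReal.ofReal (C * T ^ (-A))) →
    IsLatticeIRS μ := lattice_irs'

end Pool.Agent.Results.MP_b22d10_al.LatticeTail
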